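import Mathlib

/-!
Binary forms over the complex numbers: division by linear forms, zeros, Lagrange residue identity.
-/

namespace Run7.h580

open MvPolynomial

/-- determinant of two plane vectors -/
def det2 (p q : Fin 2 → ℂ) : ℂ := p 0 * q 1 - p 1 * q 0

lemma det2_self (p : Fin 2 → ℂ) : det2 p p = 0 := by simp [det2]; ring

lemma det2_swap (p q : Fin 2 → ℂ) : det2 p q = - det2 q p := by simp [det2]; ring

/-- linear form vanishing at `p` -/
noncomputable def lin (p : Fin 2 → ℂ) : MvPolynomial (Fin 2) ℂ := X 0 * C (p 1) - X 1 * C (p 0)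

@[simp] lemma eval_lin (v p : Fin 2 → ℂ) : eval v (lin p) = det2 v p := by
  simp [lin, det2]

lemma lin_isHomogeneous (p : Fin 2 → ℂ) : (lin p).IsHomogeneous 1 := by
  unfold lin
  refine MvPolynomial.IsHomogeneous.sub ?_ ?_
  · simpa using (isHomogeneous_X ℂ (0 : Fin 2)).mul (isHomogeneous_C (Fin 2) (p 1))
  · simpa using (isHomogeneous_X ℂ (1 : Fin 2)).mul (isHomogeneous_C (Fin 2) (p 0))

lemma exists_det2_ne_zero {p : Fin 2 → ℂ} (hp : p ≠ 0) : ∃ v, det2 v p ≠ 0 := by
  by_contra hcon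
  push Not at hcon
  apply hp
  have h1 := hcon ![1, 0]
  have h2 := hcon ![0, 1]
  simp [det2] at h1 h2
  ext i
  fin_cases i
  · simpa using h2
  · simpa using h1

lemma lin_ne_zero {p : Fin 2 → ℂ} (hp : p ≠ 0) : lin p ≠ 0 := by
  obtain ⟨v, hv⟩ := exists_det2_ne_zero hp
  intro h
  apply hv
  rw [← eval_lin, h, map_zero]

/-- evaluation of a homogeneous polynomial on multiples of a fixed vector -/
lemma aeval_mul_of_isHomogeneous {σ : Type*} {R : Type*} [CommRing R] [Algebra ℂ R]
    {F : MvPolynomial σ ℂ} {n : ℕ}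
    (hF : F.IsHomogeneous n) (c : σ → ℂ) (y : R) :
    aeval (fun i => algebraMap ℂ R (c i) * y) F = algebraMap ℂ R (eval c F) * y ^ n := by
  classical
  rw [aeval_def, eval₂_eq, eval_eq, map_sum, Finset.sum_mul]
  refine Finset.sum_congr rfl (fun m hm => ?_)
  rw [map_mul, mul_assoc]
  congr 1
  simp only [mul_pow, Finset.prod_mul_distrib, map_prod, map_pow]
  congr 1
  rw [Finset.prod_pow_eq_pow_sum]
  congr 1
  have := hF (mem_support_iff.mp hm)
  rw [← this, Finsupp.weight_apply, Finsupp.sum]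
  simp

lemma eval_smul_of_isHomogeneous {F : MvPolynomial (Fin 2) ℂ} {n : ℕ}
    (hF : F.IsHomogeneous n) (c : Fin 2 → ℂ) (y : ℂ) :
    eval (y • c) F = y ^ n * eval c F := by
  have := aeval_mul_of_isHomogeneous hF c y
  have h2 : (fun i => algebraMap ℂ ℂ (c i) * y) = y • c := by
    ext i; simp [mul_comm]
  rw [h2] at this
  rw [← MvPolynomial.coe_aeval_eq_eval]
  simp only [RingHom.coe_coe]
  rw [this]
  simp [mul_comm]

lemma lin_dvd {F : MvPolynomial (Fin 2) ℂ} {n : ℕ} (hF : F.IsHomogeneous n)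
    {p : Fin 2 → ℂ} (hp : p ≠ 0) (h0 : eval p F = 0) : lin p ∣ F := by
  rw [← Ideal.mem_span_singleton, ← Ideal.Quotient.eq_zero_iff_mem]
  set I : Ideal (MvPolynomial (Fin 2) ℂ) := Ideal.span {lin p} with hI
  have hlin : Ideal.Quotient.mk I (lin p) = 0 := by
    rw [Ideal.Quotient.eq_zero_iff_mem]
    exact Ideal.mem_span_singleton_self _
  have key : ∀ (y : MvPolynomial (Fin 2) ℂ ⧸ I),
      (∀ i, Ideal.Quotient.mk I (X i) = algebraMap ℂ _ (p i) * y) →
      Ideal.Quotient.mk I F = 0 := by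
    intro y hy
    have h1 : (Ideal.Quotient.mkₐ ℂ I) = aeval (fun i => algebraMap ℂ _ (p i) * y) := by
      apply MvPolynomial.algHom_ext
      intro i
      rw [aeval_X]
      exact hy i
    have h2 : Ideal.Quotient.mk I F = (Ideal.Quotient.mkₐ ℂ I) F := rfl
    rw [h2, h1, aeval_mul_of_isHomogeneous hF, h0]
    simp
  have hl2 : Ideal.Quotient.mk I (X 0) * Ideal.Quotient.mk I (C (p 1)) =
      Ideal.Quotient.mk I (X 1) * Ideal.Quotient.mk I (C (p 0)) := by
    have := hlin
    unfold lin at this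
    rw [map_sub, map_mul, map_mul, sub_eq_zero] at this
    exact this
  have hC : ∀ c : ℂ, algebraMap ℂ (MvPolynomial (Fin 2) ℂ ⧸ I) c = Ideal.Quotient.mk I (C c) :=
    fun c => rfl
  have hCmul : ∀ c : ℂ, c ≠ 0 → Ideal.Quotient.mk I (C c) * Ideal.Quotient.mk I (C c⁻¹) = 1 := by
    intro c hc
    rw [← map_mul, ← C_mul, mul_inv_cancel₀ hc, C_1, map_one]
  by_cases hp0 : p 0 = 0
  · have hp1 : p 1 ≠ 0 := by
      intro h
      apply hp
      ext i
      fin_cases i <;> simp [hp0, h]
    apply key (Ideal.Quotient.mk I (X 1) * Ideal.Quotient.mk I (C (p 1)⁻¹))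
    intro i
    rw [hC]
    fin_cases i
    · simp only [Fin.zero_eta, Fin.isValue, hp0, map_zero, zero_mul]
      have h3 : Ideal.Quotient.mk I (X 0) * Ideal.Quotient.mk I (C (p 1)) = 0 := by
        rw [hl2, hp0]; simp
      calc Ideal.Quotient.mk I (X 0) = Ideal.Quotient.mk I (X 0) *
            (Ideal.Quotient.mk I (C (p 1)) * Ideal.Quotient.mk I (C (p 1)⁻¹)) := by
              rw [hCmul _ hp1, mul_one]
        _ = 0 := by rw [← mul_assoc, h3, zero_mul]
    · simp only [Fin.mk_one, Fin.isValue]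
      rw [mul_left_comm, hCmul _ hp1, mul_one]
  · apply key (Ideal.Quotient.mk I (X 0) * Ideal.Quotient.mk I (C (p 0)⁻¹))
    intro i
    rw [hC]
    fin_cases i
    · simp only [Fin.zero_eta, Fin.isValue]
      rw [mul_left_comm, hCmul _ hp0, mul_one]
    · simp only [Fin.mk_one, Fin.isValue]
      calc Ideal.Quotient.mk I (X 1) = (Ideal.Quotient.mk I (X 1) * Ideal.Quotient.mk I (C (p 0))) *
            Ideal.Quotient.mk I (C (p 0)⁻¹) := by rw [mul_assoc, hCmul _ hp0, mul_one]
        _ = _ := by rw [← hl2]; ring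

lemma homogeneousComponent_mul_of_isHomogeneous {σ : Type*} {P Q : MvPolynomial σ ℂ} {a : ℕ}
    (hP : P.IsHomogeneous a) (n : ℕ) :
    homogeneousComponent (a + n) (P * Q) = P * homogeneousComponent n Q := by
  classical
  have hQ : Q = ∑ i ∈ Finset.range (Q.totalDegree + 1 + n + 1), homogeneousComponent i Q := by
    conv_lhs => rw [← sum_homogeneousComponent Q]
    refine Finset.sum_subset ?_ ?_
    · intro i hi
      simp only [Finset.mem_range] at hi ⊢
      omega
    · intro i _ hi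
      simp only [Finset.mem_range, not_lt] at hi
      exact homogeneousComponent_eq_zero i Q (by omega)
  conv_lhs => rw [hQ]
  rw [Finset.mul_sum, map_sum]
  have h1 : ∀ i ∈ Finset.range (Q.totalDegree + 1 + n + 1),
      homogeneousComponent (a + n) (P * homogeneousComponent i Q) =
      if i = n then P * homogeneousComponent i Q else 0 := by
    intro i _
    have h2 : P * homogeneousComponent i Q ∈ homogeneousSubmodule σ ℂ (a + i) :=
      (mem_homogeneousSubmodule _ _).mpr (hP.mul (homogeneousComponent_isHomogeneous i Q))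
    rw [homogeneousComponent_of_mem h2]
    by_cases h : i = n
    · simp [h]
    · have : ¬ (a + n = a + i) := by omega
      rw [if_neg this, if_neg h]
  rw [Finset.sum_congr rfl h1, Finset.sum_ite_eq']
  rw [if_pos]
  simp only [Finset.mem_range]
  omega

lemma exists_quot_of_zero {F : MvPolynomial (Fin 2) ℂ} {n : ℕ} (hF : F.IsHomogeneous (n + 1))
    {p : Fin 2 → ℂ} (hp : p ≠ 0) (h0 : eval p F = 0) :
    ∃ Q : MvPolynomial (Fin 2) ℂ, Q.IsHomogeneous n ∧ F = lin p * Q := by
  obtain ⟨Q, hQ⟩ := lin_dvd hF hp h0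
  refine ⟨homogeneousComponent n Q, homogeneousComponent_isHomogeneous n Q, ?_⟩
  rw [← homogeneousComponent_mul_of_isHomogeneous (lin_isHomogeneous p), ← hQ]
  rw [homogeneousComponent_of_mem ((mem_homogeneousSubmodule _ _).mpr hF)]
  simp [add_comm]

lemma eq_zero_of_isHomogeneous_zero {F : MvPolynomial (Fin 2) ℂ} (hF : F.IsHomogeneous 0)
    {p : Fin 2 → ℂ} (h0 : eval p F = 0) : F = 0 := by
  have h1 : F = C (coeff 0 F) := by
    rw [← homogeneousComponent_zero]
    rw [homogeneousComponent_of_mem ((mem_homogeneousSubmodule _ _).mpr hF)]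
    simp
  rw [h1] at h0 ⊢
  simp at h0
  simp [h0]

/-- division by a product of linear forms -/
lemma exists_quot_of_zeros {ι : Type*} (s : Finset ι) (p : ι → Fin 2 → ℂ)
    (hp : ∀ i ∈ s, p i ≠ 0) (hpp : ∀ i ∈ s, ∀ j ∈ s, i ≠ j → det2 (p i) (p j) ≠ 0)
    {F : MvPolynomial (Fin 2) ℂ} {n : ℕ} (hF : F.IsHomogeneous (s.card + n))
    (h0 : ∀ i ∈ s, eval (p i) F = 0) :
    ∃ Q : MvPolynomial (Fin 2) ℂ, Q.IsHomogeneous n ∧ F = (∏ i ∈ s, lin (p i)) * Q := by
  classical
  induction s using Finset.induction_on generalizing F with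
  | empty => exact ⟨F, by simpa using hF, by simp⟩
  | insert a s ha ih =>
    rw [Finset.card_insert_of_notMem ha] at hF
    have hF' : F.IsHomogeneous ((s.card + n) + 1) := by
      convert hF using 1; omega
    obtain ⟨G, hG, hFG⟩ := exists_quot_of_zero hF' (hp a (Finset.mem_insert_self a s))
      (h0 a (Finset.mem_insert_self a s))
    obtain ⟨Q, hQ, hGQ⟩ := ih (fun i hi => hp i (Finset.mem_insert_of_mem hi))
      (fun i hi j hj hij => hpp i (Finset.mem_insert_of_mem hi) j (Finset.mem_insert_of_mem hj) hij)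
      hG (fun i hi => by
        have h1 := h0 i (Finset.mem_insert_of_mem hi)
        rw [hFG, map_mul, eval_lin] at h1
        have h2 : det2 (p i) (p a) ≠ 0 :=
          hpp i (Finset.mem_insert_of_mem hi) a (Finset.mem_insert_self a s)
            (fun h => ha (h ▸ hi))
        exact (mul_eq_zero.mp h1).resolve_left h2)
    refine ⟨Q, hQ, ?_⟩
    rw [Finset.prod_insert ha, hFG, hGQ]
    ring

/-- a binary form with more zeros than its degree vanishes -/
lemma eq_zero_of_zeros {ι : Type*} (s : Finset ι) (p : ι → Fin 2 → ℂ)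
    (hp : ∀ i ∈ s, p i ≠ 0) (hpp : ∀ i ∈ s, ∀ j ∈ s, i ≠ j → det2 (p i) (p j) ≠ 0)
    {F : MvPolynomial (Fin 2) ℂ} {n : ℕ} (hF : F.IsHomogeneous n) (hn : n < s.card)
    (h0 : ∀ i ∈ s, eval (p i) F = 0) : F = 0 := by
  classical
  obtain ⟨t, hts, htc⟩ := Finset.exists_subset_card_eq (show n ≤ s.card by omega)
  obtain ⟨Q, hQ, hFQ⟩ := exists_quot_of_zeros (n := 0) t p (fun i hi => hp i (hts hi))
    (fun i hi j hj hij => hpp i (hts hi) j (hts hj) hij) (by rw [htc]; simpa using hF)
    (fun i hi => h0 i (hts hi))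
  obtain ⟨a, has, hat⟩ : ∃ a ∈ s, a ∉ t := by
    by_contra hcon
    push Not at hcon
    have := Finset.card_le_card (show s ⊆ t from hcon)
    omega
  have h1 := h0 a has
  rw [hFQ, map_mul, map_prod] at h1
  have h2 : ∏ i ∈ t, eval (p a) (lin (p i)) ≠ 0 := by
    rw [Finset.prod_ne_zero_iff]
    intro i hi
    rw [eval_lin]
    exact hpp a has i (hts hi) (fun h => hat (h ▸ hi))
  have h3 := (mul_eq_zero.mp h1).resolve_left h2
  rw [hFQ, eq_zero_of_isHomogeneous_zero hQ h3, mul_zero]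

/-- dehomogenisation -/
noncomputable def dehom : MvPolynomial (Fin 2) ℂ →ₐ[ℂ] Polynomial ℂ :=
  aeval (fun i : Fin 2 => if i = 0 then (1 : Polynomial ℂ) else Polynomial.X)

lemma dehom_degree_lt {F : MvPolynomial (Fin 2) ℂ} {n : ℕ} (hF : F.IsHomogeneous n) :
    (dehom F).degree < ((n + 1 : ℕ) : WithBot ℕ) := by
  classical
  rw [dehom, aeval_def, eval₂_eq]
  refine lt_of_le_of_lt (Polynomial.degree_sum_le _ _) ?_
  rw [Finset.sup_lt_iff (by exact_mod_cast WithBot.bot_lt_coe _)]
  intro m hm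
  have h1 := hF (mem_support_iff.mp hm)
  rw [Finsupp.weight_apply, Finsupp.sum_fintype _ _ (by simp)] at h1
  simp only [Fin.sum_univ_two, Pi.one_apply, smul_eq_mul, mul_one] at h1
  have h2 : (algebraMap ℂ (Polynomial ℂ)) (coeff m F) *
      ∏ i ∈ m.support, (if i = 0 then (1 : Polynomial ℂ) else Polynomial.X) ^ m i =
      Polynomial.C (coeff m F) * Polynomial.X ^ (m 1) := by
    have h3 : ∏ i ∈ m.support, (if i = 0 then (1 : Polynomial ℂ) else Polynomial.X) ^ m i =
        ∏ i : Fin 2, (if i = 0 then (1 : Polynomial ℂ) else Polynomial.X) ^ m i := by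
      refine Finset.prod_subset (Finset.subset_univ _) ?_
      intro i _ hi
      rw [Finsupp.notMem_support_iff.mp hi, pow_zero]
    rw [h3, Fin.prod_univ_two]
    simp
  rw [h2]
  refine lt_of_le_of_lt (Polynomial.degree_C_mul_X_pow_le _ _) ?_
  exact_mod_cast (by omega : m 1 < n + 1)

lemma dehom_eval {F : MvPolynomial (Fin 2) ℂ} {n : ℕ} (hF : F.IsHomogeneous n)
    (p : Fin 2 → ℂ) (hp : p 0 ≠ 0) :
    eval p F = p 0 ^ n * (dehom F).eval (p 1 / p 0) := by
  have h1 : p = (p 0) • (fun i : Fin 2 => if i = 0 then (1 : ℂ) else p 1 / p 0) := by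
    ext i
    fin_cases i
    · simp
    · simp; field_simp
  conv_lhs => rw [h1]
  rw [eval_smul_of_isHomogeneous hF]
  congr 1
  have h2 : (Polynomial.evalRingHom (p 1 / p 0)).comp (dehom : MvPolynomial (Fin 2) ℂ →ₐ[ℂ]
      Polynomial ℂ).toRingHom = eval (fun i : Fin 2 => if i = 0 then (1 : ℂ) else p 1 / p 0) := by
    apply MvPolynomial.ringHom_ext
    · intro r
      simp [dehom]
    · intro i
      fin_cases i <;> simp [dehom]
  have h3 := congrArg (fun φ => φ F) h2
  rw [← h3]
  rfl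

/-- the residue identity for binary forms -/
lemma lagrange_binary {ι : Type*} [DecidableEq ι] (s : Finset ι) (p : ι → Fin 2 → ℂ)
    (hp : ∀ i ∈ s, p i 0 ≠ 0) (hpp : ∀ i ∈ s, ∀ j ∈ s, i ≠ j → det2 (p i) (p j) ≠ 0)
    {F : MvPolynomial (Fin 2) ℂ} {n : ℕ} (hF : F.IsHomogeneous n) (hs : s.card = n + 2) :
    ∑ i ∈ s, eval (p i) F / ∏ j ∈ s.erase i, det2 (p i) (p j) = 0 := by
  set t : ι → ℂ := fun i => p i 1 / p i 0 with ht
  have hinj : Set.InjOn t s := by
    intro i hi j hj hij
    by_contra hne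
    apply hpp i hi j hj hne
    have h1 := hp i hi
    have h2 := hp j hj
    simp only [ht] at hij
    rw [div_eq_div_iff h1 h2] at hij
    simp only [det2]
    linear_combination (-1 : ℂ) * hij
  have hdeg : (dehom F).degree < (s.card : WithBot ℕ) := by
    refine lt_trans (dehom_degree_lt hF) ?_
    rw [hs]
    exact_mod_cast (by omega : n + 1 < n + 2)
  have h1 := Lagrange.coeff_eq_sum hinj hdeg
  have h2 : (dehom F).coeff (s.card - 1) = 0 := by
    apply Polynomial.coeff_eq_zero_of_degree_lt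
    have := dehom_degree_lt hF
    rw [hs]
    exact_mod_cast this
  rw [h2] at h1
  set A : ℂ := ∏ j ∈ s, p j 0 with hA
  have hAne : A ≠ 0 := Finset.prod_ne_zero_iff.mpr hp
  have h3 : ∀ i ∈ s, eval (p i) F / ∏ j ∈ s.erase i, det2 (p i) (p j) =
      ((-1) ^ (n + 1) * A)⁻¹ * (Polynomial.eval (t i) (dehom F) / ∏ j ∈ s.erase i, (t i - t j)) := by
    intro i hi
    have e1 : ∀ j ∈ s.erase i, det2 (p i) (p j) = (-1) * (p i 0 * (p j 0 * (t i - t j))) := by
      intro j hj
      have hj' := Finset.mem_of_mem_erase hj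
      simp only [ht, det2]
      have h4 := hp i hi
      have h5 := hp j hj'
      field_simp
      ring
    rw [Finset.prod_congr rfl e1, Finset.prod_mul_distrib, Finset.prod_mul_distrib,
      Finset.prod_mul_distrib, Finset.prod_const, Finset.prod_const, Finset.card_erase_of_mem hi, hs]
    have e2 : A = p i 0 * ∏ j ∈ s.erase i, p j 0 := by
      rw [hA, Finset.mul_prod_erase s (fun j => p j 0) hi]
    rw [dehom_eval hF (p i) (hp i hi), e2]
    have e3 : (n + 2 - 1) = n + 1 := by omega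
    rw [e3]
    have e4 : ∏ j ∈ s.erase i, p j 0 ≠ 0 :=
      Finset.prod_ne_zero_iff.mpr (fun j hj => hp j (Finset.mem_of_mem_erase hj))
    have e5 : ∏ j ∈ s.erase i, (t i - t j) ≠ 0 := by
      rw [Finset.prod_ne_zero_iff]
      intro j hj
      rw [sub_ne_zero]
      intro h
      exact (Finset.ne_of_mem_erase hj) (hinj hi (Finset.mem_of_mem_erase hj) h).symm
    have e6 := hp i hi
    have e7 : p i 1 / p i 0 = t i := rfl
    rw [e7]
    field_simp
    ring
  rw [Finset.sum_congr rfl h3, ← Finset.mul_sum, ← h1, mul_zero]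

end Run7.h580
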