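import Mathlib

/-!
Quaternionic reflection groups and their zero-fiber rings.

The quaternionic vector space of dimension `n` is `ℍⁿ`, the space of columns, viewed as a right
vector space, that is, as a module over the opposite ring `ℍᵐᵒᵖ`. Invertible quaternionic matrices
act on the left. The complex coordinates of `q = z + j w` (with `z`, `w` complex) are `z` and `w`;
they are linear for the right action of the complex numbers.
-/

namespace QRefl

open MvPolynomial Quaternion

/-- Square matrices of size `n` over the real quaternions. -/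
abbrev QMat (n : ℕ) := Matrix (Fin n) (Fin n) ℍ[ℝ]

/-- Columns of quaternions, a right vector space over the quaternions. -/
abbrev QVec (n : ℕ) := Fin n → ℍ[ℝ]

/-- The fixed space of a matrix, a right `ℍ`-subspace of `ℍⁿ`. -/
def fixedSpace {n : ℕ} (w : QMat n) : Submodule ℍ[ℝ]ᵐᵒᵖ (QVec n) where
  carrier := {v | w.mulVec v = v}
  add_mem' := by
    intro a b ha hb
    simp only [Set.mem_ofPred_eq] at *
    rw [Matrix.mulVec_add, ha, hb]
  zero_mem' := by simp
  smul_mem' := by
    intro c v hv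
    simp only [Set.mem_ofPred_eq] at *
    rw [Matrix.mulVec_smul, hv]

/-- A quaternionic reflection: an element of finite order of `GL(ℍⁿ)` whose fixed space has
`ℍ`-dimension `n - 1`. -/
def IsReflection {n : ℕ} (w : (QMat n)ˣ) : Prop :=
  IsOfFinOrder w ∧ Module.finrank ℍ[ℝ]ᵐᵒᵖ (fixedSpace (w : QMat n)) + 1 = n

/-- A quaternionic reflection group: a finite subgroup of `GL(ℍⁿ)` generated by quaternionic
reflections. -/
structure IsReflectionGroup {n : ℕ} (W : Subgroup (QMat n)ˣ) : Prop where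
  finite : Finite W
  gen : Subgroup.closure {w | w ∈ W ∧ IsReflection w} = W

/-- Irreducibility: the only stable right `ℍ`-subspaces are `0` and the whole space. -/
def IsIrreducible {n : ℕ} (W : Subgroup (QMat n)ˣ) : Prop :=
  ∀ U : Submodule ℍ[ℝ]ᵐᵒᵖ (QVec n), (∀ w ∈ W, ∀ v ∈ U, (w : QMat n).mulVec v ∈ U) → U = ⊥ ∨ U = ⊤

/-- Imprimitivity: `ℍⁿ` is the direct sum of at least two nonzero right `ℍ`-subspaces which are
permuted by the group. -/
def IsImprimitive {n : ℕ} (W : Subgroup (QMat n)ˣ) : Prop :=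
  ∃ (k : ℕ) (U : Fin k → Submodule ℍ[ℝ]ᵐᵒᵖ (QVec n)), 1 < k ∧ (∀ i, U i ≠ ⊥) ∧
    iSupIndep U ∧ ⨆ i, U i = ⊤ ∧
      ∀ w ∈ W, ∀ i, ∃ j, ∀ v ∈ U i, (w : QMat n).mulVec v ∈ U j

/-- The group is conjugate to a group of complex matrices, that is, it is the quaternionification
of a group of complex matrices. -/
def IsComplex {n : ℕ} (W : Subgroup (QMat n)ˣ) : Prop :=
  ∃ g : (QMat n)ˣ, ∀ w ∈ W, ∀ i j, ((g * w * g⁻¹ : (QMat n)ˣ) : QMat n) i j ∈
    {q : ℍ[ℝ] | q.imJ = 0 ∧ q.imK = 0}

/-- The number of reflections. -/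
noncomputable def numReflections {n : ℕ} (W : Subgroup (QMat n)ˣ) : ℕ :=
  Nat.card {w : (QMat n)ˣ // w ∈ W ∧ IsReflection w}

/-- The number `g = 2 N / n`, where `N` is the number of reflections and `n` is the rank. -/
noncomputable def gNumber {n : ℕ} (W : Subgroup (QMat n)ˣ) : ℕ := 2 * numReflections W / n

/-- The complex coordinates of a column of quaternions: if the entry `v i` is `z + j w`, then its
coordinates are `z` at `(i, 0)` and `w` at `(i, 1)`. -/
noncomputable def coords {n : ℕ} (v : QVec n) : Fin n × Fin 2 → ℂ :=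
  fun p => (![⟨(v p.1).re, (v p.1).imI⟩, ⟨(v p.1).imJ, -(v p.1).imK⟩] : Fin 2 → ℂ) p.2

/-- The invariant polynomial functions on `ℍⁿ`. -/
def IsInvariant {n : ℕ} (W : Subgroup (QMat n)ˣ) (f : MvPolynomial (Fin n × Fin 2) ℂ) : Prop :=
  ∀ w ∈ W, ∀ v : QVec n, eval (coords ((w : QMat n).mulVec v)) f = eval (coords v) f

/-- The ideal of the zero fiber, generated by the homogeneous invariants of positive degree. -/
noncomputable def zeroFiberIdeal {n : ℕ} (W : Subgroup (QMat n)ˣ) : Ideal (MvPolynomial (Fin n × Fin 2) ℂ) :=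
  Ideal.span {f | IsInvariant W f ∧ ∃ d, 0 < d ∧ f.IsHomogeneous d}

/-- The zero-fiber ring. -/
abbrev ZeroFiberRing {n : ℕ} (W : Subgroup (QMat n)ˣ) : Type :=
  MvPolynomial (Fin n × Fin 2) ℂ ⧸ zeroFiberIdeal W

end QRefl
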