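import Pool.Agent.Run7.h580.Defs

/-!
Imprimitivity of the complexification.
-/

namespace QRefl

open Quaternion

/-- The complexification of the group is imprimitive: the complex vector space underlying `ℍⁿ`,
in the complex coordinates `coords`, is the direct sum of at least two nonzero complex subspaces
which are permuted by the group. -/
def HasImprimitiveComplexification {n : ℕ} (W : Subgroup (QMat n)ˣ) : Prop :=
  ∃ (k : ℕ) (U : Fin k → Submodule ℂ (Fin n × Fin 2 → ℂ)), 1 < k ∧ (∀ i, U i ≠ ⊥) ∧
    iSupIndep U ∧ ⨆ i, U i = ⊤ ∧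
      ∀ w ∈ W, ∀ i, ∃ j, ∀ v : QVec n, coords v ∈ U i → coords ((w : QMat n).mulVec v) ∈ U j

end QRefl
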