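import Pool.Agent.Run7.h580.InvForms

/-!
Two copies of the plane: the product of the forms attached to the antidiagonal reflections and the
uniqueness of the semi-invariant.
-/

namespace Run7.h580

open MvPolynomial Quaternion

/-- index of variables: copy and coordinate -/
abbrev Ix := Fin 2 × Fin 2

/-- polynomials on the quaternionic plane -/
abbrev Pol := MvPolynomial Ix ℂ

/-- complex coordinates of a pair of quaternions -/
noncomputable def cvec (p : Fin 2 → ℍ[ℝ]) : Ix → ℂ := fun i => qvec (p i.1) i.2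

noncomputable def evn (f : Pol) (p : Fin 2 → ℍ[ℝ]) : ℂ := eval (cvec p) f

lemma pol_ext {f g : Pol} (h : ∀ p, evn f p = evn g p) : f = g := by
  apply MvPolynomial.funext
  intro v
  choose q hq using fun k : Fin 2 => qvec_surj (fun e => v (k, e))
  have h1 := h q
  have h2 : cvec q = v := by
    ext ⟨k, e⟩
    simp only [cvec]
    rw [hq k]
  rw [evn, evn, h2] at h1
  exact h1

/-- complex matrix of a quaternionic matrix -/
noncomputable def gmat (w : Matrix (Fin 2) (Fin 2) ℍ[ℝ]) : Ix → Ix → ℂ :=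
  fun i j => qmat (w i.1 j.1) i.2 j.2

lemma cvec_mulVec (w : Matrix (Fin 2) (Fin 2) ℍ[ℝ]) (p : Fin 2 → ℍ[ℝ]) (i : Ix) :
    cvec (w.mulVec p) i = ∑ j, gmat w i j * cvec p j := by
  rw [Fintype.sum_prod_type]
  simp only [cvec, Matrix.mulVec, dotProduct, Fin.sum_univ_two, gmat]
  rw [qvec_add, Pi.add_apply, qvec_mul, qvec_mul, Fin.sum_univ_two, Fin.sum_univ_two]

/-- the substitution `f ↦ f ∘ w` -/
noncomputable def act (w : Matrix (Fin 2) (Fin 2) ℍ[ℝ]) : Pol →ₐ[ℂ] Pol := subst (gmat w)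

lemma evn_act (w : Matrix (Fin 2) (Fin 2) ℍ[ℝ]) (f : Pol) (p : Fin 2 → ℍ[ℝ]) :
    evn (act w f) p = evn f (w.mulVec p) := by
  rw [evn, act, eval_subst, evn]
  congr 1
  congr 1
  ext i
  rw [cvec_mulVec]

lemma evn_mul (f g : Pol) (p : Fin 2 → ℍ[ℝ]) : evn (f * g) p = evn f p * evn g p := by simp [evn]

lemma evn_C (c : ℂ) (p : Fin 2 → ℍ[ℝ]) : evn (C c) p = c := by simp [evn]

lemma evn_prod {ι : Type*} (s : Finset ι) (F : ι → Pol) (p : Fin 2 → ℍ[ℝ]) :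
    evn (∏ i ∈ s, F i) p = ∏ i ∈ s, evn (F i) p := by
  simp [evn, map_prod]

/-- support condition for bihomogeneous polynomials -/
def bset (a b : ℕ) : Set (Ix →₀ ℕ) := {m | m (0, 0) + m (0, 1) = a ∧ m (1, 0) + m (1, 1) = b}

/-- bihomogeneous polynomials -/
noncomputable def BH (a b : ℕ) : Submodule ℂ Pol := restrictSupport ℂ (bset a b)

lemma mem_BH {a b : ℕ} {f : Pol} : f ∈ BH a b ↔
    ∀ m, coeff m f ≠ 0 → m (0, 0) + m (0, 1) = a ∧ m (1, 0) + m (1, 1) = b := by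
  rw [BH, mem_restrictSupport_iff]
  constructor
  · intro h m hm
    exact h (Finset.mem_coe.mpr (mem_support_iff.mpr hm))
  · intro h m hm
    exact h m (mem_support_iff.mp (Finset.mem_coe.mp hm))

lemma mul_mem_BH {a b a' b' : ℕ} {f g : Pol} (hf : f ∈ BH a b) (hg : g ∈ BH a' b') :
    f * g ∈ BH (a + a') (b + b') := by
  classical
  rw [mem_BH] at *
  intro m hm
  rw [coeff_mul] at hm
  obtain ⟨⟨x, y⟩, hxy, hne⟩ := Finset.exists_ne_zero_of_sum_ne_zero hm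
  rw [Finset.HasAntidiagonal.mem_antidiagonal] at hxy
  have h1 := hf x (left_ne_zero_of_mul hne)
  have h2 := hg y (right_ne_zero_of_mul hne)
  simp only at hxy
  rw [← hxy]
  simp only [Finsupp.add_apply]
  omega

lemma one_mem_BH : (1 : Pol) ∈ BH 0 0 := by
  classical
  rw [mem_BH]
  intro m hm
  rw [coeff_one] at hm
  have : m = 0 := by
    by_contra h
    rw [if_neg (fun h' => h h'.symm)] at hm
    exact hm rfl
  subst this
  simp

lemma prod_mem_BH {ι : Type*} (s : Finset ι) (F : ι → Pol) {a b : ℕ} (h : ∀ i ∈ s, F i ∈ BH a b) :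
    ∏ i ∈ s, F i ∈ BH (s.card * a) (s.card * b) := by
  classical
  induction s using Finset.induction_on with
  | empty => simpa using one_mem_BH
  | insert x s hx ih =>
    rw [Finset.prod_insert hx, Finset.card_insert_of_notMem hx]
    have := mul_mem_BH (h x (Finset.mem_insert_self x s))
      (ih (fun i hi => h i (Finset.mem_insert_of_mem hi)))
    convert this using 2 <;> ring

lemma X0_mem_BH (e : Fin 2) : (X (0, e) : Pol) ∈ BH 1 0 := by
  classical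
  rw [mem_BH]
  intro m hm
  rw [coeff_X] at hm
  have : Finsupp.single (0, e) 1 = m := by
    by_contra h
    rw [if_neg h] at hm
    exact hm rfl
  subst this
  fin_cases e <;> simp

lemma X1_mem_BH (e : Fin 2) : (X (1, e) : Pol) ∈ BH 0 1 := by
  classical
  rw [mem_BH]
  intro m hm
  rw [coeff_X] at hm
  have : Finsupp.single (1, e) 1 = m := by
    by_contra h
    rw [if_neg h] at hm
    exact hm rfl
  subst this
  fin_cases e <;> simp

/-- partial evaluation of the first copy at `u` -/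
noncomputable def pe0 (u : ℍ[ℝ]) : Pol →ₐ[ℂ] MvPolynomial (Fin 2) ℂ :=
  aeval (fun i : Ix => if i.1 = 0 then C (qvec u i.2) else X i.2)

/-- partial evaluation of the second copy at `v` -/
noncomputable def pe1 (v : ℍ[ℝ]) : Pol →ₐ[ℂ] MvPolynomial (Fin 2) ℂ :=
  aeval (fun i : Ix => if i.1 = 0 then X i.2 else C (qvec v i.2))

lemma ev_pe0 (u v : ℍ[ℝ]) (f : Pol) : ev (pe0 u f) v = evn f ![u, v] := by
  have h : (eval (qvec v)).comp (pe0 u).toRingHom = eval (cvec ![u, v]) := by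
    apply MvPolynomial.ringHom_ext
    · intro r; simp [pe0]
    · rintro ⟨k, e⟩
      fin_cases k <;> simp [pe0, cvec]
  exact congrArg (fun φ => φ f) h

lemma ev_pe1 (u v : ℍ[ℝ]) (f : Pol) : ev (pe1 v f) u = evn f ![u, v] := by
  have h : (eval (qvec u)).comp (pe1 v).toRingHom = eval (cvec ![u, v]) := by
    apply MvPolynomial.ringHom_ext
    · intro r; simp [pe1]
    · rintro ⟨k, e⟩
      fin_cases k <;> simp [pe1, cvec]
  exact congrArg (fun φ => φ f) h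

lemma pe0_isHomogeneous {a b : ℕ} {f : Pol} (hf : f ∈ BH a b) (u : ℍ[ℝ]) :
    (pe0 u f).IsHomogeneous b := by
  classical
  rw [mem_BH] at hf
  rw [pe0, aeval_def, eval₂_eq]
  refine MvPolynomial.IsHomogeneous.sum _ _ _ (fun m hm => ?_)
  have h1 := (hf m (mem_support_iff.mp hm)).2
  have h2 : ∏ i ∈ m.support, (if i.1 = 0 then C (qvec u i.2) else X i.2 :
      MvPolynomial (Fin 2) ℂ) ^ m i =
      ∏ i : Ix, (if i.1 = 0 then C (qvec u i.2) else X i.2 : MvPolynomial (Fin 2) ℂ) ^ m i := by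
    refine Finset.prod_subset (Finset.subset_univ _) ?_
    intro i _ hi
    rw [Finsupp.notMem_support_iff.mp hi, pow_zero]
  rw [h2, Fintype.prod_prod_type]
  simp only [Fin.prod_univ_two]
  simp only [Fin.isValue, if_true, one_ne_zero, if_false]
  have h3 : (C (qvec u 0) ^ m (0, 0) * C (qvec u 1) ^ m (0, 1) *
      (X 0 ^ m (1, 0) * X 1 ^ m (1, 1)) : MvPolynomial (Fin 2) ℂ).IsHomogeneous
      (0 * m (0, 0) + 0 * m (0, 1) + (1 * m (1, 0) + 1 * m (1, 1))) := by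
    refine ((((isHomogeneous_C _ _).pow _).mul ((isHomogeneous_C _ _).pow _))).mul ?_
    exact ((isHomogeneous_X _ _).pow _).mul ((isHomogeneous_X _ _).pow _)
  have h4 := (isHomogeneous_C (Fin 2) (coeff m f)).mul h3
  have h5 : 0 + (0 * m (0, 0) + 0 * m (0, 1) + (1 * m (1, 0) + 1 * m (1, 1))) = b := by
    rw [← h1]; ring
  rw [h5] at h4
  exact h4

/-- the bilinear form `om v (x u)` -/
noncomputable def del (x : ℍ[ℝ]) : Pol :=
  X (1, 0) * (∑ j, C (qmat x 1 j) * X (0, j)) - X (1, 1) * (∑ j, C (qmat x 0 j) * X (0, j))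

lemma evn_del (x : ℍ[ℝ]) (p : Fin 2 → ℍ[ℝ]) : evn (del x) p = om (p 1) (x * p 0) := by
  simp only [evn, del, map_sub, map_mul, map_sum, eval_X, eval_C, om, det2]
  simp only [cvec]
  rw [qvec_mul x (p 0) 0, qvec_mul x (p 0) 1]

lemma del_mem_BH (x : ℍ[ℝ]) : del x ∈ BH 1 1 := by
  rw [del]
  have h : ∀ (c : ℂ) (j : Fin 2), (C c * X (0, j) : Pol) ∈ BH 1 0 := by
    intro c j
    rw [← smul_eq_C_mul]
    exact (BH 1 0).smul_mem _ (X0_mem_BH j)
  refine (BH 1 1).sub_mem ?_ ?_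
  · exact mul_mem_BH (a := 0) (b := 1) (a' := 1) (b' := 0) (X1_mem_BH 0)
      ((BH 1 0).sum_mem (fun j _ => h _ j))
  · exact mul_mem_BH (a := 0) (b := 1) (a' := 1) (b' := 0) (X1_mem_BH 1)
      ((BH 1 0).sum_mem (fun j _ => h _ j))

lemma pe0_del (u x : ℍ[ℝ]) : pe0 u (del x) = lin (qvec (x * u)) := by
  apply poly_ext
  intro v
  rw [ev_pe0, ev_lin, evn_del]
  rfl

/-- product over representatives of a set modulo sign -/
noncomputable def Del (R : Finset ℍ[ℝ]) : Pol := ∏ x ∈ half R, del x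

lemma evn_Del (R : Finset ℍ[ℝ]) (p : Fin 2 → ℍ[ℝ]) :
    evn (Del R) p = ∏ x ∈ half R, om (p 1) (x * p 0) := by
  rw [Del, evn_prod]
  exact Finset.prod_congr rfl (fun x _ => evn_del x p)

lemma pe0_Del (R : Finset ℍ[ℝ]) (u : ℍ[ℝ]) : pe0 u (Del R) = plin (half R) u := by
  rw [Del, map_prod, plin]
  exact Finset.prod_congr rfl (fun x _ => pe0_del u x)

lemma Del_mem_BH (R : Finset ℍ[ℝ]) : Del R ∈ BH (half R).card (half R).card := by
  have := prod_mem_BH (half R) del (fun x _ => del_mem_BH x)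
  simpa [Del] using this

/-- diagonal matrix -/
noncomputable def dg (x y : ℍ[ℝ]) : Matrix (Fin 2) (Fin 2) ℍ[ℝ] := !![x, 0; 0, y]

/-- antidiagonal matrix -/
noncomputable def ag (x y : ℍ[ℝ]) : Matrix (Fin 2) (Fin 2) ℍ[ℝ] := !![0, x; y, 0]

lemma dg_mul_dg (a b c d : ℍ[ℝ]) : dg a b * dg c d = dg (a * c) (b * d) := by
  refine Matrix.ext (fun i j => ?_)
  fin_cases i <;> fin_cases j <;> simp [dg, Matrix.mul_apply, Fin.sum_univ_two]

lemma dg_mul_ag (a b c d : ℍ[ℝ]) : dg a b * ag c d = ag (a * c) (b * d) := by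
  refine Matrix.ext (fun i j => ?_)
  fin_cases i <;> fin_cases j <;> simp [dg, ag, Matrix.mul_apply, Fin.sum_univ_two]

lemma ag_mul_dg (a b c d : ℍ[ℝ]) : ag a b * dg c d = ag (a * d) (b * c) := by
  refine Matrix.ext (fun i j => ?_)
  fin_cases i <;> fin_cases j <;> simp [dg, ag, Matrix.mul_apply, Fin.sum_univ_two]

lemma ag_mul_ag (a b c d : ℍ[ℝ]) : ag a b * ag c d = dg (a * d) (b * c) := by
  refine Matrix.ext (fun i j => ?_)
  fin_cases i <;> fin_cases j <;> simp [dg, ag, Matrix.mul_apply, Fin.sum_univ_two]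

lemma dg_one : dg 1 1 = 1 := by
  refine Matrix.ext (fun i j => ?_)
  fin_cases i <;> fin_cases j <;> simp [dg]

lemma dg_mulVec (a b : ℍ[ℝ]) (p : Fin 2 → ℍ[ℝ]) : (dg a b).mulVec p = ![a * p 0, b * p 1] := by
  refine funext (fun i => ?_)
  fin_cases i <;> simp [dg, Matrix.mulVec, dotProduct, Fin.sum_univ_two]

lemma ag_mulVec (a b : ℍ[ℝ]) (p : Fin 2 → ℍ[ℝ]) : (ag a b).mulVec p = ![a * p 1, b * p 0] := by
  refine funext (fun i => ?_)
  fin_cases i <;> simp [ag, Matrix.mulVec, dotProduct, Fin.sum_univ_two]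

/-- finite monomial quaternionic groups of rank two, in standard form, containing `-1` -/
structure Mono (W : Finset (Matrix (Fin 2) (Fin 2) ℍ[ℝ])) : Prop where
  one : (1 : Matrix (Fin 2) (Fin 2) ℍ[ℝ]) ∈ W
  mul : ∀ w ∈ W, ∀ w' ∈ W, w * w' ∈ W
  inv : ∀ w ∈ W, ∃ w' ∈ W, w * w' = 1 ∧ w' * w = 1
  form : ∀ w ∈ W, ∃ x y : ℍ[ℝ], normSq x = 1 ∧ normSq y = 1 ∧ (w = dg x y ∨ w = ag x y)
  swap : ag 1 1 ∈ W
  neg : dg (-1) (-1) ∈ W

open Classical in
/-- the group `K` -/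
noncomputable def grpK (W : Finset (Matrix (Fin 2) (Fin 2) ℍ[ℝ])) : Finset ℍ[ℝ] :=
  (W.image (fun w => w 0 0)).filter (fun x => ∃ y, dg x y ∈ W)

open Classical in
/-- the group `H` -/
noncomputable def grpH (W : Finset (Matrix (Fin 2) (Fin 2) ℍ[ℝ])) : Finset ℍ[ℝ] :=
  (W.image (fun w => w 1 1)).filter (fun y => dg 1 y ∈ W)

open Classical in
/-- the set `R` of antidiagonal reflections -/
noncomputable def setR (W : Finset (Matrix (Fin 2) (Fin 2) ℍ[ℝ])) : Finset ℍ[ℝ] :=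
  (W.image (fun w => w 1 0)).filter (fun x => x ≠ 0 ∧ ag x⁻¹ x ∈ W)

lemma mem_grpK {W : Finset (Matrix (Fin 2) (Fin 2) ℍ[ℝ])} {x : ℍ[ℝ]} :
    x ∈ grpK W ↔ ∃ y, dg x y ∈ W := by
  classical
  simp only [grpK, Finset.mem_filter, Finset.mem_image, and_iff_right_iff_imp]
  rintro ⟨y, hy⟩
  exact ⟨_, hy, by simp [dg]⟩

lemma mem_grpH {W : Finset (Matrix (Fin 2) (Fin 2) ℍ[ℝ])} {y : ℍ[ℝ]} :
    y ∈ grpH W ↔ dg 1 y ∈ W := by
  classical
  simp only [grpH, Finset.mem_filter, Finset.mem_image, and_iff_right_iff_imp]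
  intro hy
  exact ⟨_, hy, by simp [dg]⟩

lemma mem_setR {W : Finset (Matrix (Fin 2) (Fin 2) ℍ[ℝ])} {x : ℍ[ℝ]} :
    x ∈ setR W ↔ x ≠ 0 ∧ ag x⁻¹ x ∈ W := by
  classical
  simp only [setR, Finset.mem_filter, Finset.mem_image, and_iff_right_iff_imp]
  rintro ⟨_, hx⟩
  exact ⟨_, hx, by simp [ag]⟩

lemma dg_inj {a b c d : ℍ[ℝ]} (h : dg a b = dg c d) : a = c ∧ b = d := by
  constructor
  · have := congrFun (congrFun h 0) 0
    simpa [dg] using this
  · have := congrFun (congrFun h 1) 1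
    simpa [dg] using this

lemma ag_inj {a b c d : ℍ[ℝ]} (h : ag a b = ag c d) : a = c ∧ b = d := by
  constructor
  · have := congrFun (congrFun h 0) 1
    simpa [ag] using this
  · have := congrFun (congrFun h 1) 0
    simpa [ag] using this

lemma dg_ne_ag {a b c d : ℍ[ℝ]} (ha : a ≠ 0) : dg a b ≠ ag c d := by
  intro h
  have := congrFun (congrFun h 0) 0
  simp [dg, ag] at this
  exact ha this

lemma normSq_inv' {x : ℍ[ℝ]} (h : normSq x = 1) : normSq x⁻¹ = 1 := by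
  rw [map_inv₀, h, inv_one]

section mono

variable {W : Finset (Matrix (Fin 2) (Fin 2) ℍ[ℝ])} (hW : Mono W)

include hW

lemma norm_dg {x y : ℍ[ℝ]} (h : dg x y ∈ W) : normSq x = 1 ∧ normSq y = 1 := by
  obtain ⟨a, b, ha, hb, h1 | h1⟩ := hW.form _ h
  · obtain ⟨rfl, rfl⟩ := dg_inj h1
    exact ⟨ha, hb⟩
  · exfalso
    have h2 := congrFun (congrFun h1 0) 1
    simp [dg, ag] at h2
    exact ne_zero_of_norm ha h2.symm

lemma norm_ag {x y : ℍ[ℝ]} (h : ag x y ∈ W) : normSq x = 1 ∧ normSq y = 1 := by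
  obtain ⟨a, b, ha, hb, h1 | h1⟩ := hW.form _ h
  · exfalso
    exact dg_ne_ag (ne_zero_of_norm ha) h1.symm
  · obtain ⟨rfl, rfl⟩ := ag_inj h1
    exact ⟨ha, hb⟩

lemma inv_dg {x y : ℍ[ℝ]} (h : dg x y ∈ W) : dg x⁻¹ y⁻¹ ∈ W := by
  obtain ⟨hx, hy⟩ := norm_dg hW h
  obtain ⟨w', hw', h1, h2⟩ := hW.inv _ h
  have h3 : dg x⁻¹ y⁻¹ * dg x y = 1 := by
    rw [dg_mul_dg, inv_mul_cancel₀ (ne_zero_of_norm hx), inv_mul_cancel₀ (ne_zero_of_norm hy),
      dg_one]
  have : dg x⁻¹ y⁻¹ = w' := by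
    calc dg x⁻¹ y⁻¹ = dg x⁻¹ y⁻¹ * (dg x y * w') := by rw [h1, mul_one]
      _ = w' := by rw [← mul_assoc, h3, one_mul]
  rw [this]; exact hw'

lemma inv_ag {x y : ℍ[ℝ]} (h : ag x y ∈ W) : ag y⁻¹ x⁻¹ ∈ W := by
  obtain ⟨hx, hy⟩ := norm_ag hW h
  obtain ⟨w', hw', h1, h2⟩ := hW.inv _ h
  have h3 : ag y⁻¹ x⁻¹ * ag x y = 1 := by
    rw [ag_mul_ag, inv_mul_cancel₀ (ne_zero_of_norm hx), inv_mul_cancel₀ (ne_zero_of_norm hy),
      dg_one]
  have : ag y⁻¹ x⁻¹ = w' := by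
    calc ag y⁻¹ x⁻¹ = ag y⁻¹ x⁻¹ * (ag x y * w') := by rw [h1, mul_one]
      _ = w' := by rw [← mul_assoc, h3, one_mul]
  rw [this]; exact hw'

lemma ugrp_K : UGrp (grpK W) where
  one := by
    rw [mem_grpK]
    exact ⟨1, by rw [dg_one]; exact hW.one⟩
  mul := by
    intro x hx y hy
    rw [mem_grpK] at *
    obtain ⟨a, ha⟩ := hx
    obtain ⟨b, hb⟩ := hy
    exact ⟨a * b, by rw [← dg_mul_dg]; exact hW.mul _ ha _ hb⟩
  inv := by
    intro x hx
    rw [mem_grpK] at *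
    obtain ⟨a, ha⟩ := hx
    exact ⟨a⁻¹, inv_dg hW ha⟩
  norm := by
    intro x hx
    rw [mem_grpK] at hx
    obtain ⟨a, ha⟩ := hx
    exact (norm_dg hW ha).1

lemma ugrp_H : UGrp (grpH W) where
  one := by
    rw [mem_grpH, dg_one]; exact hW.one
  mul := by
    intro x hx y hy
    rw [mem_grpH] at *
    have := hW.mul _ hx _ hy
    rwa [dg_mul_dg, one_mul] at this
  inv := by
    intro x hx
    rw [mem_grpH] at *
    have := inv_dg hW hx
    rwa [inv_one] at this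
  norm := by
    intro x hx
    rw [mem_grpH] at hx
    exact (norm_dg hW hx).2

lemma dg_swap {x y : ℍ[ℝ]} (h : dg x y ∈ W) : dg y x ∈ W := by
  have h1 := hW.mul _ (hW.mul _ hW.swap _ h) _ hW.swap
  rwa [ag_mul_dg, ag_mul_ag, one_mul, one_mul, mul_one, mul_one] at h1

lemma mem_K_of_dg {x y : ℍ[ℝ]} (h : dg x y ∈ W) : x ∈ grpK W ∧ y ∈ grpK W := by
  rw [mem_grpK, mem_grpK]
  exact ⟨⟨y, h⟩, ⟨x, dg_swap hW h⟩⟩

lemma mem_K_of_ag {x y : ℍ[ℝ]} (h : ag x y ∈ W) : x ∈ grpK W ∧ y ∈ grpK W := by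
  have h1 := hW.mul _ h _ hW.swap
  rw [ag_mul_ag, mul_one, mul_one] at h1
  exact mem_K_of_dg hW h1

lemma H_sub_K {x : ℍ[ℝ]} (h : x ∈ grpH W) : x ∈ grpK W :=
  (mem_K_of_dg hW (mem_grpH.mp h)).2

lemma R_sub_K {x : ℍ[ℝ]} (h : x ∈ setR W) : x ∈ grpK W :=
  (mem_K_of_ag hW (mem_setR.mp h).2).2

lemma H_normal {x a : ℍ[ℝ]} (hx : x ∈ grpH W) (ha : a ∈ grpK W) : a * x * a⁻¹ ∈ grpH W := by
  rw [mem_grpK] at ha
  obtain ⟨b, hb⟩ := ha
  have hb' := dg_swap hW hb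
  have h1 := hW.mul _ (hW.mul _ hb' _ (mem_grpH.mp hx)) _ (inv_dg hW hb')
  rw [dg_mul_dg, dg_mul_dg, mul_one, mul_inv_cancel₀ (ne_zero_of_norm (norm_dg hW hb').1)] at h1
  rw [mem_grpH]
  exact h1

lemma one_mem_R : (1 : ℍ[ℝ]) ∈ setR W := by
  rw [mem_setR]
  exact ⟨one_ne_zero, by rw [inv_one]; exact hW.swap⟩

lemma neg_mem_R {x : ℍ[ℝ]} (hx : x ∈ setR W) : -x ∈ setR W := by
  rw [mem_setR] at *
  refine ⟨neg_ne_zero.mpr hx.1, ?_⟩
  have := hW.mul _ hW.neg _ hx.2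
  rw [dg_mul_ag, neg_one_mul, neg_one_mul] at this
  rwa [inv_neg]

lemma zero_notMem_R : (0 : ℍ[ℝ]) ∉ setR W := by
  rw [mem_setR]; simp

lemma R_norm {x : ℍ[ℝ]} (hx : x ∈ setR W) : normSq x = 1 := (norm_ag hW (mem_setR.mp hx).2).2

/-- conjugation action on `R`, diagonal case -/
lemma R_dg {x a b : ℍ[ℝ]} (hx : x ∈ setR W) (h : dg a b ∈ W) : b⁻¹ * x * a ∈ setR W := by
  obtain ⟨ha, hb⟩ := norm_dg hW h
  have ha0 := ne_zero_of_norm ha
  have hb0 := ne_zero_of_norm hb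
  rw [mem_setR] at *
  refine ⟨mul_ne_zero (mul_ne_zero (inv_ne_zero hb0) hx.1) ha0, ?_⟩
  have h1 := hW.mul _ (inv_dg hW h) _ (hW.mul _ hx.2 _ h)
  rw [ag_mul_dg, dg_mul_ag] at h1
  convert h1 using 2
  · rw [mul_inv_rev, mul_inv_rev, inv_inv]
  · rw [mul_assoc]

/-- conjugation action on `R`, antidiagonal case -/
lemma R_ag {x a b : ℍ[ℝ]} (hx : x ∈ setR W) (h : ag a b ∈ W) : a⁻¹ * x⁻¹ * b ∈ setR W := by
  obtain ⟨ha, hb⟩ := norm_ag hW h
  have ha0 := ne_zero_of_norm ha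
  have hb0 := ne_zero_of_norm hb
  rw [mem_setR] at *
  refine ⟨mul_ne_zero (mul_ne_zero (inv_ne_zero ha0) (inv_ne_zero hx.1)) hb0, ?_⟩
  have h1 := hW.mul _ (inv_ag hW h) _ (hW.mul _ hx.2 _ h)
  rw [ag_mul_ag, ag_mul_dg] at h1
  convert h1 using 2
  · rw [mul_inv_rev, mul_inv_rev, inv_inv, inv_inv]
  · rw [mul_assoc]

lemma Del_sq (p : Fin 2 → ℍ[ℝ]) : evn (Del (setR W)) p * evn (Del (setR W)) p =
    (-1) ^ (half (setR W)).card * ∏ y ∈ setR W, om (p 1) (y * p 0) := by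
  rw [prod_half (zero_notMem_R hW) (fun x hx => neg_mem_R hW hx) (fun y => om (p 1) (y * p 0))]
  rw [evn_Del, ← Finset.prod_const, ← Finset.prod_mul_distrib, ← Finset.prod_mul_distrib]
  refine Finset.prod_congr rfl (fun y _ => ?_)
  have : om (p 1) (-y * p 0) = - om (p 1) (y * p 0) := by rw [neg_mul, om_neg_right]
  rw [this]
  ring

lemma prod_R_dg {a b : ℍ[ℝ]} (h : dg a b ∈ W) {M : Type*} [CommMonoid M] (f : ℍ[ℝ] → M) :
    ∏ y ∈ setR W, f (b⁻¹ * y * a) = ∏ y ∈ setR W, f y := by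
  obtain ⟨ha, hb⟩ := norm_dg hW h
  have ha0 := ne_zero_of_norm ha
  have hb0 := ne_zero_of_norm hb
  refine Finset.prod_nbij' (fun y => b⁻¹ * y * a) (fun y => b * y * a⁻¹) ?_ ?_ ?_ ?_ ?_
  · intro y hy; exact R_dg hW hy h
  · intro y hy
    have := R_dg hW hy (inv_dg hW h)
    rwa [inv_inv] at this
  · intro y _
    simp only [mul_assoc]
    rw [mul_inv_cancel₀ ha0, mul_one, ← mul_assoc, mul_inv_cancel₀ hb0, one_mul]
  · intro y _
    simp only [mul_assoc]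
    rw [inv_mul_cancel₀ ha0, mul_one, ← mul_assoc, inv_mul_cancel₀ hb0, one_mul]
  · intro y _; rfl

lemma prod_R_ag {a b : ℍ[ℝ]} (h : ag a b ∈ W) {M : Type*} [CommMonoid M] (f : ℍ[ℝ] → M) :
    ∏ y ∈ setR W, f (a⁻¹ * y⁻¹ * b) = ∏ y ∈ setR W, f y := by
  obtain ⟨ha, hb⟩ := norm_ag hW h
  have ha0 := ne_zero_of_norm ha
  have hb0 := ne_zero_of_norm hb
  refine Finset.prod_nbij' (fun y => a⁻¹ * y⁻¹ * b) (fun y => b * y⁻¹ * a⁻¹) ?_ ?_ ?_ ?_ ?_
  · intro y hy; exact R_ag hW hy h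
  · intro y hy
    have := R_ag hW hy (inv_ag hW h)
    rwa [inv_inv] at this
  · intro y _
    simp only [mul_inv_rev, inv_inv, mul_assoc]
    rw [mul_inv_cancel₀ ha0, mul_one, ← mul_assoc, mul_inv_cancel₀ hb0, one_mul]
  · intro y _
    simp only [mul_inv_rev, inv_inv, mul_assoc]
    rw [inv_mul_cancel₀ hb0, mul_one, ← mul_assoc, inv_mul_cancel₀ ha0, one_mul]
  · intro y _; rfl

lemma card_R : (setR W).card = 2 * (half (setR W)).card :=
  card_half (zero_notMem_R hW) (fun _ hx => neg_mem_R hW hx)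

lemma om_dg {a b : ℍ[ℝ]} (hb : normSq b = 1) (y p q : ℍ[ℝ]) :
    om (b * p) (y * (a * q)) = om p (b⁻¹ * y * a * q) := by
  have hb0 := ne_zero_of_norm hb
  have : y * (a * q) = b * (b⁻¹ * y * a * q) := by
    simp only [mul_assoc]
    rw [← mul_assoc b b⁻¹, mul_inv_cancel₀ hb0, one_mul]
  rw [this, om_mul_unit hb]

lemma om_ag {a b y : ℍ[ℝ]} (ha : normSq a = 1) (hy : normSq y = 1) (p q : ℍ[ℝ]) :
    om (b * p) (y * (a * q)) = - om q (a⁻¹ * y⁻¹ * b * p) := by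
  have ha0 := ne_zero_of_norm ha
  have hy0 := ne_zero_of_norm hy
  rw [om_swap]
  have h1 : b * p = y * (y⁻¹ * b * p) := by
    simp only [mul_assoc]
    rw [← mul_assoc y y⁻¹, mul_inv_cancel₀ hy0, one_mul]
  rw [h1, om_mul_unit hy]
  have h2 : y⁻¹ * b * p = a * (a⁻¹ * y⁻¹ * b * p) := by
    simp only [mul_assoc]
    rw [← mul_assoc a a⁻¹, mul_inv_cancel₀ ha0, one_mul]
  rw [h2, om_mul_unit ha]

/-- `Del` is semi-invariant up to sign. -/
lemma Del_sign {w : Matrix (Fin 2) (Fin 2) ℍ[ℝ]} (hw : w ∈ W) :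
    ∃ κ : ℂ, κ * κ = 1 ∧ act w (Del (setR W)) = C κ * Del (setR W) := by
  have hsq : act w (Del (setR W)) * act w (Del (setR W)) = Del (setR W) * Del (setR W) := by
    apply pol_ext
    intro p
    rw [evn_mul, evn_mul, evn_act, Del_sq hW, Del_sq hW]
    congr 1
    obtain ⟨a, b, ha, hb, h1 | h1⟩ := hW.form _ hw
    · subst h1
      rw [dg_mulVec, ← prod_R_dg hW hw (fun y => om (p 1) (y * p 0))]
      refine Finset.prod_congr rfl (fun y _ => ?_)
      simpa using om_dg hW hb y (p 1) (p 0)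
    · subst h1
      rw [ag_mulVec, ← prod_R_ag hW hw (fun y => om (p 1) (y * p 0))]
      have : ∀ y ∈ setR W, om (![a * p 1, b * p 0] 1) (y * ![a * p 1, b * p 0] 0) =
          (-1) * om (p 1) (a⁻¹ * y⁻¹ * b * p 0) := by
        intro y hy
        have := om_ag hW (b := b) ha (R_norm hW hy) (p 0) (p 1)
        simp only [Matrix.cons_val_zero, Matrix.cons_val_one]
        rw [this]; ring
      rw [Finset.prod_congr rfl this, Finset.prod_mul_distrib, Finset.prod_const, card_R hW, pow_mul]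
      simp
  rcases mul_self_eq_mul_self_iff.mp hsq with h | h
  · exact ⟨1, by norm_num, by rw [h]; simp⟩
  · exact ⟨-1, by norm_num, by rw [h]; simp⟩

end mono

lemma det_qmat (x : ℍ[ℝ]) : qmat x 0 0 * qmat x 1 1 - qmat x 0 1 * qmat x 1 0 = (normSq x : ℝ) := by
  apply Complex.ext
  · rw [Complex.ofReal_re, normSq_def']
    simp only [qmat, Matrix.cons_val_zero, Matrix.cons_val_one]
    simp; ring
  · rw [Complex.ofReal_im]
    simp only [qmat, Matrix.cons_val_zero, Matrix.cons_val_one]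
    simp; ring

end Run7.h580
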