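import Mathlib

/-!
A filtered lower bound for zero-fiber rings.
Given (non commuting) operators on a vector space whose commutators respect the natural filtration
generated by a vector `u`, the associated graded object gives an ideal of a polynomial ring.
-/

namespace Run7.h580

open MvPolynomial

section filt

variable {σ P : Type*} [AddCommGroup P] [Module ℂ P]

/-- `Flt X u n` is spanned by all words of length less than `n` applied to `u`. -/
def Flt (X : σ → P →ₗ[ℂ] P) (u : P) : ℕ → Submodule ℂ P
  | 0 => ⊥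
  | (n + 1) => (ℂ ∙ u) ⊔ (Flt X u n ⊔ ⨆ i, (Flt X u n).map (X i))

variable (X : σ → P →ₗ[ℂ] P) (u : P)

@[simp] lemma Flt_zero : Flt X u 0 = ⊥ := rfl

lemma Flt_succ (n : ℕ) :
    Flt X u (n + 1) = (ℂ ∙ u) ⊔ (Flt X u n ⊔ ⨆ i, (Flt X u n).map (X i)) := rfl

lemma Flt_le_succ (n : ℕ) : Flt X u n ≤ Flt X u (n + 1) := by
  rw [Flt_succ]
  exact le_sup_of_le_right le_sup_left

lemma Flt_mono : Monotone (Flt X u) := monotone_nat_of_le_succ (Flt_le_succ X u)

lemma u_mem (n : ℕ) : u ∈ Flt X u (n + 1) := by
  rw [Flt_succ]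
  exact Submodule.mem_sup_left (Submodule.mem_span_singleton_self u)

lemma X_mem {n : ℕ} {v : P} (hv : v ∈ Flt X u n) (i : σ) : X i v ∈ Flt X u (n + 1) := by
  rw [Flt_succ]
  refine Submodule.mem_sup_right (Submodule.mem_sup_right ?_)
  exact Submodule.mem_iSup_of_mem i (Submodule.mem_map_of_mem hv)

/-- induction principle: a submodule containing `u` and stable under all `X i` contains `Flt`. -/
lemma Flt_le_of_stable (N : Submodule ℂ P) (hu : u ∈ N) (hX : ∀ i, ∀ v ∈ N, X i v ∈ N) (n : ℕ) :
    Flt X u n ≤ N := by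
  induction n with
  | zero => simp
  | succ n ih =>
    rw [Flt_succ]
    refine sup_le ?_ (sup_le ih (iSup_le ?_))
    · rw [Submodule.span_singleton_le_iff_mem]; exact hu
    · intro i
      rw [Submodule.map_le_iff_le_comap]
      intro v hv
      exact hX i v (ih hv)

/-- general step principle for stability of the filtration under an operator. -/
lemma Flt_stable_of (E : P →ₗ[ℂ] P) (hu : E u ∈ ℂ ∙ u)
    (hE : ∀ n i, ∀ v ∈ Flt X u n, (∀ w ∈ Flt X u n, E w ∈ Flt X u n) → E (X i v) ∈ Flt X u (n + 1))
    (n : ℕ) : ∀ v ∈ Flt X u n, E v ∈ Flt X u n := by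
  induction n with
  | zero => intro v hv; simp at hv; simp [hv]
  | succ n ih =>
    intro v hv
    have : Flt X u (n + 1) ≤ (Flt X u (n + 1)).comap E := by
      conv_lhs => rw [Flt_succ]
      refine sup_le ?_ (sup_le ?_ (iSup_le ?_))
      · rw [Submodule.span_singleton_le_iff_mem, Submodule.mem_comap]
        have h1 : (ℂ ∙ u) ≤ Flt X u (n + 1) := by
          rw [Submodule.span_singleton_le_iff_mem]; exact u_mem X u n
        exact h1 hu
      · intro w hw
        exact Flt_le_succ X u n (ih w hw)
      · intro i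
        rw [Submodule.map_le_iff_le_comap]
        intro w hw
        exact hE n i w hw ih
    exact this hv

/-- word operator applied to `u` -/
def word : List σ → P
  | [] => u
  | (i :: l) => X i (word l)

@[simp] lemma word_nil : word X u [] = u := rfl
@[simp] lemma word_cons (i : σ) (l : List σ) : word X u (i :: l) = X i (word X u l) := rfl

lemma word_mem (l : List σ) : word X u l ∈ Flt X u (l.length + 1) := by
  induction l with
  | nil => exact u_mem X u 0
  | cons i l ih => exact X_mem X u ih i

variable {X u}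

lemma word_perm (hcomm : ∀ n i j, ∀ v ∈ Flt X u n, X i (X j v) - X j (X i v) ∈ Flt X u (n + 1))
    {l l' : List σ} (h : l.Perm l') : word X u l - word X u l' ∈ Flt X u l.length := by
  induction h with
  | nil => simp
  | cons i h ih =>
    rw [word_cons, word_cons, ← map_sub]
    exact X_mem X u ih i
  | swap i j l =>
    have := hcomm (l.length + 1) j i (word X u l) (word_mem X u l)
    simpa using this
  | trans h1 h2 ih1 ih2 =>
    have := Submodule.add_mem _ ih1 (by rw [h1.length_eq]; exact ih2)
    simpa using this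

variable (X u)

/-- The symbol map `Ψ`: a polynomial is sent to the corresponding combination of words. -/
noncomputable def Psi : MvPolynomial σ ℂ →ₗ[ℂ] P :=
  (MvPolynomial.basisMonomials σ ℂ).constr ℂ (fun m => word X u (Finsupp.toMultiset m).toList)

lemma Psi_monomial (m : σ →₀ ℕ) (c : ℂ) :
    Psi X u (monomial m c) = c • word X u (Finsupp.toMultiset m).toList := by
  have h1 : (monomial m c : MvPolynomial σ ℂ) = c • (MvPolynomial.basisMonomials σ ℂ) m := by
    rw [MvPolynomial.coe_basisMonomials, smul_monomial, smul_eq_mul, mul_one]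
  rw [h1, map_smul, Psi, Module.Basis.constr_basis]

lemma card_toMultiset' (m : σ →₀ ℕ) : (Finsupp.toMultiset m).toList.length = m.degree := by
  rw [Multiset.length_toList, Finsupp.card_toMultiset]
  rfl

lemma mem_of_monomials {d : ℕ} {f : MvPolynomial σ ℂ} (hf : f.IsHomogeneous d)
    {Q : Type*} [AddCommGroup Q] [Module ℂ Q]
    (T : MvPolynomial σ ℂ →ₗ[ℂ] Q) (N : Submodule ℂ Q)
    (h : ∀ m : σ →₀ ℕ, m.degree = d → T (monomial m 1) ∈ N) : T f ∈ N := by
  rw [f.as_sum, map_sum]
  refine Submodule.sum_mem _ ?_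
  intro m hm
  have h1 : (monomial m (coeff m f) : MvPolynomial σ ℂ) = (coeff m f) • monomial m 1 := by
    rw [smul_monomial, smul_eq_mul, mul_one]
  rw [h1, map_smul]
  refine Submodule.smul_mem _ _ (h m ?_)
  have := hf (mem_support_iff.mp hm)
  rw [← this]
  simp [Finsupp.degree_eq_weight_one]
  rfl

lemma Psi_mem {d : ℕ} {f : MvPolynomial σ ℂ} (hf : f.IsHomogeneous d) :
    Psi X u f ∈ Flt X u (d + 1) := by
  refine mem_of_monomials hf (Psi X u) _ ?_
  intro m hm
  rw [Psi_monomial, one_smul]
  have := word_mem X u (Finsupp.toMultiset m).toList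
  rw [card_toMultiset', hm] at this
  exact this

variable {X u}

lemma Psi_X_mul (hcomm : ∀ n i j, ∀ v ∈ Flt X u n, X i (X j v) - X j (X i v) ∈ Flt X u (n + 1))
    {d : ℕ} {f : MvPolynomial σ ℂ} (hf : f.IsHomogeneous d) (i : σ) :
    Psi X u (MvPolynomial.X i * f) - X i (Psi X u f) ∈ Flt X u (d + 1) := by
  classical
  let T : MvPolynomial σ ℂ →ₗ[ℂ] P :=
    (Psi X u).comp (LinearMap.mulLeft ℂ (MvPolynomial.X i)) - (X i).comp (Psi X u)
  have hT : ∀ f, T f = Psi X u (MvPolynomial.X i * f) - X i (Psi X u f) := by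
    intro f; simp [T]
  rw [← hT]
  refine mem_of_monomials hf T _ ?_
  intro m hm
  rw [hT]
  have h1 : (MvPolynomial.X i * monomial m 1 : MvPolynomial σ ℂ) =
      monomial (Finsupp.single i 1 + m) 1 := by
    rw [MvPolynomial.X, monomial_mul, one_mul]
  rw [h1, Psi_monomial, Psi_monomial, one_smul, one_smul]
  have h2 : (Finsupp.toMultiset (Finsupp.single i 1 + m)).toList.Perm
      (i :: (Finsupp.toMultiset m).toList) := by
    rw [← Multiset.coe_eq_coe, Multiset.coe_toList, ← Multiset.cons_coe, Multiset.coe_toList,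
      map_add, Finsupp.toMultiset_single, one_smul, Multiset.singleton_add]
  have h3 := word_perm hcomm h2
  rw [word_cons] at h3
  have h4 : (Finsupp.toMultiset (Finsupp.single i 1 + m)).toList.length = d + 1 := by
    rw [h2.length_eq, List.length_cons, card_toMultiset', hm]
  rw [h4] at h3
  exact h3

/-- substitution homomorphism `t_i ↦ ∑ j, a i j t_j` -/
noncomputable def subst [Fintype σ] (a : σ → σ → ℂ) : MvPolynomial σ ℂ →ₐ[ℂ] MvPolynomial σ ℂ :=
  aeval (fun i => ∑ j, C (a i j) * MvPolynomial.X j)

lemma subst_X [Fintype σ] (a : σ → σ → ℂ) (i : σ) :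
    subst a (MvPolynomial.X i) = ∑ j, C (a i j) * MvPolynomial.X j := by
  simp [subst]

lemma subst_isHomogeneous [Fintype σ] (a : σ → σ → ℂ) {d : ℕ} {f : MvPolynomial σ ℂ}
    (hf : f.IsHomogeneous d) : (subst a f).IsHomogeneous d := by
  have := MvPolynomial.IsHomogeneous.aeval hf (fun i => ∑ j, C (a i j) * MvPolynomial.X j)
    (n := 1) (fun i => ?_)
  · simpa [subst] using this
  · refine MvPolynomial.IsHomogeneous.sum _ _ _ (fun j _ => ?_)
    simpa using (MvPolynomial.isHomogeneous_C σ (a i j)).mul (MvPolynomial.isHomogeneous_X ℂ j)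

lemma Psi_equiv [Fintype σ]
    (hcomm : ∀ n i j, ∀ v ∈ Flt X u n, X i (X j v) - X j (X i v) ∈ Flt X u (n + 1))
    (a : σ → σ → ℂ) (τ : P →ₗ[ℂ] P) (hτ : ∀ i v, τ (X i v) = ∑ j, a i j • X j (τ v))
    (hu : τ u = u) {d : ℕ} {f : MvPolynomial σ ℂ} (hf : f.IsHomogeneous d) :
    τ (Psi X u f) - Psi X u (subst a f) ∈ Flt X u d := by
  classical
  -- `τ` respects the filtration
  have hst : ∀ n, ∀ v ∈ Flt X u n, τ v ∈ Flt X u n := by
    refine Flt_stable_of X u τ ?_ ?_
    · rw [hu]; exact Submodule.mem_span_singleton_self u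
    · intro n i v hv ih
      rw [hτ]
      refine Submodule.sum_mem _ (fun j _ => Submodule.smul_mem _ _ ?_)
      exact X_mem X u (ih v hv) j
  let T : MvPolynomial σ ℂ →ₗ[ℂ] P :=
    τ.comp (Psi X u) - (Psi X u).comp (subst a).toLinearMap
  have hT : ∀ f, T f = τ (Psi X u f) - Psi X u (subst a f) := by
    intro f; simp [T]
  rw [← hT]
  refine mem_of_monomials hf T _ ?_
  clear hf
  induction d with
  | zero =>
    intro m hm
    rw [hT]
    have hm0 : m = 0 := by
      rwa [Finsupp.degree_eq_zero_iff] at hm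
    subst hm0
    have h1 : (monomial (0 : σ →₀ ℕ) (1 : ℂ) : MvPolynomial σ ℂ) = 1 := rfl
    have h2 : subst a (monomial (0 : σ →₀ ℕ) (1 : ℂ)) = monomial (0 : σ →₀ ℕ) (1 : ℂ) := by
      rw [h1, map_one]
    rw [h2, Psi_monomial]
    simp [hu]
  | succ d ih =>
    intro m hm
    -- pick a variable
    have hm0 : m ≠ 0 := by
      rintro rfl
      simp at hm
    obtain ⟨i, hi⟩ : ∃ i, m i ≠ 0 := by
      by_contra hcon
      push Not at hcon
      exact hm0 (Finsupp.ext hcon)
    obtain ⟨m', rfl⟩ : ∃ m', m = Finsupp.single i 1 + m' := by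
      refine ⟨m - Finsupp.single i 1, ?_⟩
      rw [add_tsub_cancel_of_le]
      rw [Finsupp.single_le_iff]
      omega
    have hm' : m'.degree = d := by
      rw [map_add, Finsupp.degree_single] at hm
      omega
    have hhom : (monomial m' (1 : ℂ) : MvPolynomial σ ℂ).IsHomogeneous d :=
      isHomogeneous_monomial _ hm'
    have h1 : (monomial (Finsupp.single i 1 + m') 1 : MvPolynomial σ ℂ) =
        MvPolynomial.X i * monomial m' 1 := by
      rw [MvPolynomial.X, monomial_mul, one_mul]
    rw [hT, h1]
    set g : MvPolynomial σ ℂ := monomial m' 1 with hg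
    have e1 : Psi X u (MvPolynomial.X i * g) - X i (Psi X u g) ∈ Flt X u (d + 1) :=
      Psi_X_mul hcomm hhom i
    have e2 := hst _ _ e1
    rw [map_sub, hτ] at e2
    have e3 : ∀ j, X j (τ (Psi X u g)) - X j (Psi X u (subst a g)) ∈ Flt X u (d + 1) := by
      intro j
      rw [← map_sub]
      have := ih m' hm'
      rw [hT] at this
      exact X_mem X u this j
    have e4 : ∀ j, Psi X u (MvPolynomial.X j * subst a g) - X j (Psi X u (subst a g)) ∈
        Flt X u (d + 1) := fun j => Psi_X_mul hcomm (subst_isHomogeneous a hhom) j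
    have e5 : Psi X u (subst a (MvPolynomial.X i * g)) =
        ∑ j, a i j • Psi X u (MvPolynomial.X j * subst a g) := by
      rw [map_mul, subst_X, Finset.sum_mul, map_sum]
      refine Finset.sum_congr rfl (fun j _ => ?_)
      rw [mul_assoc, ← smul_eq_C_mul, map_smul]
    rw [e5]
    have e6 : τ (Psi X u (MvPolynomial.X i * g)) -
        ∑ j, a i j • Psi X u (MvPolynomial.X j * subst a g) =
        (τ (Psi X u (MvPolynomial.X i * g)) - ∑ j, a i j • X j (τ (Psi X u g))) +
        ∑ j, a i j • ((X j (τ (Psi X u g)) - X j (Psi X u (subst a g))) -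
          (Psi X u (MvPolynomial.X j * subst a g) - X j (Psi X u (subst a g)))) := by
      have : ∀ j, a i j • ((X j (τ (Psi X u g)) - X j (Psi X u (subst a g))) -
          (Psi X u (MvPolynomial.X j * subst a g) - X j (Psi X u (subst a g)))) =
          a i j • X j (τ (Psi X u g)) - a i j • Psi X u (MvPolynomial.X j * subst a g) := by
        intro j
        rw [← smul_sub]
        congr 1
        abel
      simp only [this, Finset.sum_sub_distrib]
      abel
    rw [e6]
    refine Submodule.add_mem _ e2 ?_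
    refine Submodule.sum_mem _ (fun j _ => Submodule.smul_mem _ _ ?_)
    exact Submodule.sub_mem _ (e3 j) (e4 j)

/-- the ideal of symbols -/
noncomputable def symIdeal
    (hcomm : ∀ n i j, ∀ v ∈ Flt X u n, X i (X j v) - X j (X i v) ∈ Flt X u (n + 1)) :
    Ideal (MvPolynomial σ ℂ) where
  carrier := {f | ∀ d, Psi X u (homogeneousComponent d f) ∈ Flt X u d}
  add_mem' := by
    intro f g hf hg d
    rw [map_add, map_add]
    exact Submodule.add_mem _ (hf d) (hg d)
  zero_mem' := by intro d; simp
  smul_mem' := by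
    classical
    intro c f hf
    have key : ∀ (i : σ) (f : MvPolynomial σ ℂ),
        (∀ d, Psi X u (homogeneousComponent d f) ∈ Flt X u d) →
        ∀ d, Psi X u (homogeneousComponent d (MvPolynomial.X i * f)) ∈ Flt X u d := by
      intro i f hf d
      have hcomp0 : homogeneousComponent 0 (MvPolynomial.X i * f) = 0 := by
        ext m
        rw [coeff_homogeneousComponent]
        split_ifs with h
        · have hm0 : m = 0 := by rwa [Finsupp.degree_eq_zero_iff] at h
          subst hm0
          rw [coeff_X_mul']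
          simp
        · simp
      have hcompS : ∀ e, homogeneousComponent (e + 1) (MvPolynomial.X i * f) =
          MvPolynomial.X i * homogeneousComponent e f := by
        intro e
        ext m
        rw [coeff_homogeneousComponent, coeff_X_mul', coeff_X_mul']
        by_cases hi : i ∈ m.support
        · simp only [hi, if_true]
          rw [coeff_homogeneousComponent]
          have h2 : m.degree = (m - Finsupp.single i 1).degree + 1 := by
            have h3 : Finsupp.single i 1 ≤ m := by
              rw [Finsupp.single_le_iff]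
              have := Finsupp.mem_support_iff.mp hi
              omega
            conv_lhs => rw [← tsub_add_cancel_of_le h3]
            rw [map_add, Finsupp.degree_single]
          rw [h2]
          simp
        · simp [hi]
      cases d with
      | zero => rw [hcomp0]; simp
      | succ e =>
        rw [hcompS]
        have h1 := Psi_X_mul hcomm (homogeneousComponent_isHomogeneous e f) i
        have h2 := X_mem X u (hf e) i
        have := Submodule.add_mem _ h1 h2
        simpa using this
    show ∀ d, Psi X u (homogeneousComponent d (c • f)) ∈ Flt X u d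
    rw [smul_eq_mul]
    induction c using MvPolynomial.induction_on generalizing f with
    | C a =>
      intro d
      rw [← smul_eq_C_mul, map_smul, map_smul]
      exact Submodule.smul_mem _ _ (hf d)
    | add p q hp hq =>
      intro d
      rw [add_mul, map_add, map_add]
      exact Submodule.add_mem _ (hp hf d) (hq hf d)
    | mul_X p i hp =>
      rw [mul_assoc]
      exact hp (key i f hf)

lemma mem_symIdeal
    (hcomm : ∀ n i j, ∀ v ∈ Flt X u n, X i (X j v) - X j (X i v) ∈ Flt X u (n + 1))
    (f : MvPolynomial σ ℂ) :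
    f ∈ symIdeal hcomm ↔ ∀ d, Psi X u (homogeneousComponent d f) ∈ Flt X u d := Iff.rfl

lemma mem_symIdeal_of_isHomogeneous
    (hcomm : ∀ n i j, ∀ v ∈ Flt X u n, X i (X j v) - X j (X i v) ∈ Flt X u (n + 1))
    {f : MvPolynomial σ ℂ} {d : ℕ} (hf : f.IsHomogeneous d) (h : Psi X u f ∈ Flt X u d) :
    f ∈ symIdeal hcomm := by
  rw [mem_symIdeal]
  intro e
  rw [homogeneousComponent_of_mem ((mem_homogeneousSubmodule _ _).mpr hf)]
  split_ifs with he
  · rw [he]; exact h
  · simp

/-- invariants of positive degree lie in the symbol ideal -/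
lemma invariant_mem_symIdeal [Fintype σ]
    (hcomm : ∀ n i j, ∀ v ∈ Flt X u n, X i (X j v) - X j (X i v) ∈ Flt X u (n + 1))
    {Γ : Type*} [Fintype Γ] [Nonempty Γ] (a : Γ → σ → σ → ℂ) (τ : Γ → P →ₗ[ℂ] P)
    (hτ : ∀ g i v, τ g (X i v) = ∑ j, a g i j • X j (τ g v))
    (hu : ∀ g, τ g u = u)
    (hav : ∀ n, ∀ v ∈ Flt X u n, ∑ g, τ g v ∈ ℂ ∙ u)
    {f : MvPolynomial σ ℂ} {d : ℕ} (hf : f.IsHomogeneous (d + 1)) (hinv : ∀ g, subst (a g) f = f) :
    f ∈ symIdeal hcomm := by
  refine mem_symIdeal_of_isHomogeneous hcomm hf ?_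
  have h1 : ∀ g, τ g (Psi X u f) - Psi X u f ∈ Flt X u (d + 1) := by
    intro g
    have := Psi_equiv hcomm (a g) (τ g) (hτ g) (hu g) hf
    rwa [hinv g] at this
  have h2 : ∑ g, (τ g (Psi X u f) - Psi X u f) ∈ Flt X u (d + 1) :=
    Submodule.sum_mem _ (fun g _ => h1 g)
  rw [Finset.sum_sub_distrib] at h2
  have h3 : ∑ g, τ g (Psi X u f) ∈ Flt X u (d + 1) := by
    have := hav _ _ (Psi_mem X u hf)
    refine (?_ : (ℂ ∙ u) ≤ Flt X u (d + 1)) this
    rw [Submodule.span_singleton_le_iff_mem]
    exact u_mem X u d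
  have h4 : ∑ _g : Γ, Psi X u f ∈ Flt X u (d + 1) := by
    have := Submodule.sub_mem _ h3 h2
    simpa using this
  rw [Finset.sum_const, Finset.card_univ] at h4
  have hc : (Fintype.card Γ : ℂ) ≠ 0 := by
    exact_mod_cast Fintype.card_ne_zero
  have h5 := Submodule.smul_mem _ ((Fintype.card Γ : ℂ)⁻¹) h4
  rw [← Nat.cast_smul_eq_nsmul ℂ, smul_smul, inv_mul_cancel₀ hc, one_smul] at h5
  exact h5

variable (X u) in
lemma Flt_finite [Finite σ] (n : ℕ) : FiniteDimensional ℂ (Flt X u n) := by
  induction n with
  | zero => rw [Flt_zero]; infer_instance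
  | succ n ih =>
    rw [Flt_succ]
    have := ih
    have : ∀ i, FiniteDimensional ℂ ((Flt X u n).map (X i)) := fun i => inferInstance
    infer_instance

lemma exists_symbol
    (hcomm : ∀ n i j, ∀ v ∈ Flt X u n, X i (X j v) - X j (X i v) ∈ Flt X u (n + 1)) (d : ℕ) :
    ∀ v ∈ Flt X u (d + 1), ∃ f : MvPolynomial σ ℂ, f.IsHomogeneous d ∧
      Psi X u f - v ∈ Flt X u d := by
  induction d with
  | zero =>
    intro v hv
    rw [Flt_succ] at hv
    simp only [Flt_zero, Submodule.map_bot, iSup_bot, sup_bot_eq] at hv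
    obtain ⟨c, rfl⟩ := Submodule.mem_span_singleton.mp hv
    refine ⟨C c, isHomogeneous_C σ c, ?_⟩
    have h1 : (C c : MvPolynomial σ ℂ) = monomial 0 c := rfl
    rw [h1, Psi_monomial]
    simp
  | succ d ih =>
    -- the set of good vectors is a submodule
    let N : Submodule ℂ P :=
      { carrier := {v | ∃ f : MvPolynomial σ ℂ, f.IsHomogeneous (d + 1) ∧
          Psi X u f - v ∈ Flt X u (d + 1)}
        add_mem' := by
          rintro v w ⟨f, hf, hfv⟩ ⟨g, hg, hgw⟩
          refine ⟨f + g, hf.add hg, ?_⟩
          have := Submodule.add_mem _ hfv hgw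
          rw [map_add]
          convert this using 1
          abel
        zero_mem' := ⟨0, isHomogeneous_zero σ ℂ _, by simp⟩
        smul_mem' := by
          rintro c v ⟨f, hf, hfv⟩
          refine ⟨c • f, ?_, ?_⟩
          · exact (homogeneousSubmodule σ ℂ (d+1)).smul_mem c hf
          · rw [map_smul, ← smul_sub]
            exact Submodule.smul_mem _ _ hfv }
    have hle : Flt X u (d + 1) ≤ N := by
      intro v hv
      exact ⟨0, isHomogeneous_zero σ ℂ _, by simpa using hv⟩
    intro v hv
    have : Flt X u (d + 1 + 1) ≤ N := by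
      rw [Flt_succ]
      refine sup_le ?_ (sup_le hle (iSup_le ?_))
      · rw [Submodule.span_singleton_le_iff_mem]
        exact hle (u_mem X u d)
      · intro i
        rw [Submodule.map_le_iff_le_comap]
        intro w hw
        obtain ⟨g, hg, hgw⟩ := ih w hw
        refine ⟨MvPolynomial.X i * g, ?_, ?_⟩
        · have := (MvPolynomial.isHomogeneous_X ℂ i).mul hg
          rwa [add_comm] at this
        · have h1 := Psi_X_mul hcomm hg i
          have h2 := X_mem X u hgw i
          have := Submodule.add_mem _ h1 h2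
          rw [map_sub] at this
          convert this using 1
          abel
    exact this hv

lemma finrank_map_mkQ_add (A B : Submodule ℂ P) [FiniteDimensional ℂ B] (h : A ≤ B) :
    Module.finrank ℂ (B.map A.mkQ) + Module.finrank ℂ A = Module.finrank ℂ B := by
  have h1 := LinearMap.finrank_range_add_finrank_ker (A.mkQ.comp B.subtype)
  have h2 : LinearMap.range (A.mkQ.comp B.subtype) = B.map A.mkQ := by
    rw [LinearMap.range_comp, Submodule.range_subtype]
  have h3 : LinearMap.ker (A.mkQ.comp B.subtype) = A.comap B.subtype := by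
    rw [LinearMap.ker_comp, Submodule.ker_mkQ]
  rw [h2, h3] at h1
  rw [← h1]
  congr 1
  exact (LinearEquiv.finrank_eq (Submodule.comapSubtypeEquivOfLe h)).symm

/-- dimension of the quotient by the symbol ideal -/
theorem finrank_quot_symIdeal [Finite σ]
    (hcomm : ∀ n i j, ∀ v ∈ Flt X u n, X i (X j v) - X j (X i v) ∈ Flt X u (n + 1))
    (D : ℕ) (hD : ∀ n, Flt X u n ≤ Flt X u D) :
    Module.finrank ℂ (MvPolynomial σ ℂ ⧸ symIdeal hcomm) = Module.finrank ℂ (Flt X u D) := by
  classical
  have := Flt_finite X u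
  let Λ : MvPolynomial σ ℂ →ₗ[ℂ] (∀ d : Fin D, ((Flt X u (d + 1)).map (Flt X u d).mkQ)) :=
    LinearMap.pi (fun d => LinearMap.codRestrict _
      ((Flt X u d).mkQ.comp ((Psi X u).comp (homogeneousComponent (d : ℕ))))
      (fun f => Submodule.mem_map_of_mem (Psi_mem X u (homogeneousComponent_isHomogeneous _ f))))
  have hΛ : ∀ (f : MvPolynomial σ ℂ) (d : Fin D),
      ((Λ f d : ((Flt X u (d + 1)).map (Flt X u d).mkQ)) : P ⧸ Flt X u d) =
      (Flt X u d).mkQ (Psi X u (homogeneousComponent (d : ℕ) f)) := fun f d => rfl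
  have hker : LinearMap.ker Λ = (symIdeal hcomm).restrictScalars ℂ := by
    ext f
    rw [LinearMap.mem_ker, Submodule.restrictScalars_mem, mem_symIdeal]
    constructor
    · intro h d
      by_cases hd : d < D
      · have h1 := congrFun h ⟨d, hd⟩
        have h2 := congrArg Subtype.val h1
        rw [hΛ] at h2
        simpa using h2
      · have h1 : Flt X u D ≤ Flt X u d := Flt_mono X u (by omega)
        exact h1 (hD _ (Psi_mem X u (homogeneousComponent_isHomogeneous _ f)))
    · intro h
      ext d
      rw [hΛ]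
      simpa using h d
  have hsurj : Function.Surjective Λ := by
    intro c
    -- choose representatives
    have hc : ∀ d : Fin D, ∃ f : MvPolynomial σ ℂ, f.IsHomogeneous (d : ℕ) ∧
        (Flt X u d).mkQ (Psi X u f) = (c d : P ⧸ Flt X u d) := by
      intro d
      obtain ⟨v, hv, hvc⟩ := (c d).2
      obtain ⟨f, hf, hfv⟩ := exists_symbol hcomm d v hv
      refine ⟨f, hf, ?_⟩
      rw [← hvc, Submodule.mkQ_apply, Submodule.mkQ_apply, Submodule.Quotient.eq]
      exact hfv
    choose F hF hFc using hc
    refine ⟨∑ d, F d, ?_⟩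
    ext d
    rw [hΛ]
    rw [map_sum]
    have : ∀ e : Fin D, homogeneousComponent (d : ℕ) (F e) = if e = d then F e else 0 := by
      intro e
      rw [homogeneousComponent_of_mem ((mem_homogeneousSubmodule _ _).mpr (hF e))]
      by_cases h : e = d
      · simp [h]
      · have : ¬ ((d : ℕ) = (e : ℕ)) := fun h' => h (Fin.ext h'.symm)
        simp [h, this]
    simp only [this, Finset.sum_ite_eq', Finset.mem_univ, if_true]
    exact hFc d
  have e1 : Module.finrank ℂ (MvPolynomial σ ℂ ⧸ symIdeal hcomm) =
      Module.finrank ℂ (MvPolynomial σ ℂ ⧸ (symIdeal hcomm).restrictScalars ℂ) := rfl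
  rw [e1, ← hker, LinearEquiv.finrank_eq (LinearMap.quotKerEquivOfSurjective Λ hsurj),
    Module.finrank_pi_fintype]
  -- telescoping
  have htel : ∀ n, ∑ d : Fin n, Module.finrank ℂ ((Flt X u (d + 1)).map (Flt X u d).mkQ) =
      Module.finrank ℂ (Flt X u n) := by
    intro n
    induction n with
    | zero =>
      rw [Flt_zero, finrank_bot ℂ P]
      simp
    | succ n ih =>
      rw [Fin.sum_univ_castSucc]
      simp only [Fin.val_castSucc, Fin.val_last]
      rw [ih, add_comm]
      rw [← finrank_map_mkQ_add (Flt X u n) (Flt X u (n + 1)) (Flt_le_succ X u n)]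
  exact htel D

end filt

end Run7.h580
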