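import Pool.Agent.Run7.h580.Binary
import Pool.Agent.Run7.h580.Filtered

/-!
Quaternions acting on binary forms; invariant forms of a finite group of unit quaternions.
-/

namespace Run7.h580

open MvPolynomial Quaternion

/-- complex coordinates `(z, w)` of the quaternion `z + j w` -/
noncomputable def qvec (q : ℍ[ℝ]) : Fin 2 → ℂ := ![⟨q.re, q.imI⟩, ⟨q.imJ, -q.imK⟩]

/-- matrix of left multiplication by `x` in the coordinates `qvec` -/
noncomputable def qmat (x : ℍ[ℝ]) : Fin 2 → Fin 2 → ℂ :=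
  ![![⟨x.re, x.imI⟩, ⟨-x.imJ, -x.imK⟩], ![⟨x.imJ, -x.imK⟩, ⟨x.re, -x.imI⟩]]

lemma qvec_mul (x q : ℍ[ℝ]) (i : Fin 2) : qvec (x * q) i = ∑ j, qmat x i j * qvec q j := by
  fin_cases i
  · simp [qvec, qmat, Fin.sum_univ_two]
    apply Complex.ext <;> simp <;> ring
  · simp [qvec, qmat, Fin.sum_univ_two]
    apply Complex.ext <;> simp <;> ring

lemma qvec_add (p q : ℍ[ℝ]) : qvec (p + q) = qvec p + qvec q := by
  ext i
  fin_cases i <;> simp [qvec] <;> apply Complex.ext <;> simp <;> ring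

lemma qvec_neg (q : ℍ[ℝ]) : qvec (-q) = - qvec q := by
  ext i
  fin_cases i <;> simp [qvec] <;> apply Complex.ext <;> simp

@[simp] lemma qvec_zero : qvec 0 = 0 := by
  ext i
  fin_cases i <;> simp [qvec] <;> apply Complex.ext <;> simp

lemma qvec_surj (v : Fin 2 → ℂ) : ∃ q, qvec q = v := by
  refine ⟨⟨(v 0).re, (v 0).im, (v 1).re, -(v 1).im⟩, ?_⟩
  ext i
  fin_cases i
  · simp [qvec]
  · simp [qvec]

lemma qvec_injective : Function.Injective qvec := by
  intro p q h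
  have h0 := congrFun h 0
  have h1 := congrFun h 1
  simp only [qvec, Matrix.cons_val_zero, Matrix.cons_val_one, Complex.mk.injEq, neg_inj] at h0 h1
  ext
  · exact h0.1
  · exact h0.2
  · exact h1.1
  · exact h1.2

/-- the complex symplectic form on quaternions -/
noncomputable def om (p q : ℍ[ℝ]) : ℂ := det2 (qvec p) (qvec q)

lemma om_mul (x p q : ℍ[ℝ]) : om (x * p) (x * q) = (normSq x : ℝ) * om p q := by
  apply Complex.ext
  · rw [Complex.re_ofReal_mul]
    simp only [om, det2, qvec, Matrix.cons_val_zero, Matrix.cons_val_one, normSq_def']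
    simp; ring
  · rw [Complex.im_ofReal_mul]
    simp only [om, det2, qvec, Matrix.cons_val_zero, Matrix.cons_val_one, normSq_def']
    simp; ring

lemma om_self (p : ℍ[ℝ]) : om p p = 0 := det2_self _

lemma om_swap (p q : ℍ[ℝ]) : om p q = - om q p := det2_swap _ _

lemma om_neg_left (p q : ℍ[ℝ]) : om (-p) q = - om p q := by
  simp [om, qvec_neg, det2]; ring

lemma om_neg_right (p q : ℍ[ℝ]) : om p (-q) = - om p q := by
  simp [om, qvec_neg, det2]; ring

/-- evaluation at the complex coordinates of a quaternion -/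
noncomputable def ev (F : MvPolynomial (Fin 2) ℂ) (p : ℍ[ℝ]) : ℂ := eval (qvec p) F

lemma poly_ext {F G : MvPolynomial (Fin 2) ℂ} (h : ∀ p : ℍ[ℝ], ev F p = ev G p) : F = G := by
  apply MvPolynomial.funext
  intro v
  obtain ⟨p, rfl⟩ := qvec_surj v
  exact h p

lemma eval_subst {σ : Type*} [Fintype σ] (a : σ → σ → ℂ) (F : MvPolynomial σ ℂ) (v : σ → ℂ) :
    eval v (subst a F) = eval (fun i => ∑ j, a i j * v j) F := by
  have h : (eval v).comp (subst a).toRingHom = eval (fun i => ∑ j, a i j * v j) := by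
    apply MvPolynomial.ringHom_ext
    · intro r
      simp [subst]
    · intro i
      simp [subst]
  have := congrArg (fun φ => φ F) h
  exact this

lemma ev_subst (x : ℍ[ℝ]) (F : MvPolynomial (Fin 2) ℂ) (p : ℍ[ℝ]) :
    ev (subst (qmat x) F) p = ev F (x * p) := by
  rw [ev, eval_subst, ev]
  congr 1
  congr 1
  ext i
  rw [qvec_mul]

lemma ev_mul (F G : MvPolynomial (Fin 2) ℂ) (p : ℍ[ℝ]) : ev (F * G) p = ev F p * ev G p := by
  simp [ev]

lemma ev_prod {ι : Type*} (s : Finset ι) (F : ι → MvPolynomial (Fin 2) ℂ) (p : ℍ[ℝ]) :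
    ev (∏ i ∈ s, F i) p = ∏ i ∈ s, ev (F i) p := by
  simp [ev, map_prod]

lemma ev_lin (v p : ℍ[ℝ]) : ev (lin (qvec p)) v = om v p := by
  simp [ev, om]

/-- the quadratic form `p ↦ om p (z p)` -/
noncomputable def cz (z : ℍ[ℝ]) : MvPolynomial (Fin 2) ℂ :=
  X 0 * subst (qmat z) (X 1) - X 1 * subst (qmat z) (X 0)

lemma ev_cz (z p : ℍ[ℝ]) : ev (cz z) p = om p (z * p) := by
  have h0 := ev_subst z (X 0) p
  have h1 := ev_subst z (X 1) p
  simp only [ev, eval_X] at h0 h1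
  simp only [ev, cz, map_sub, map_mul, eval_X, h0, h1, om, det2]

lemma cz_ne_zero {z : ℍ[ℝ]} (hz : ∀ r : ℝ, z ≠ r) : cz z ≠ 0 := by
  intro h
  have key : ∀ p, om p (z * p) = 0 := by
    intro p
    rw [← ev_cz, h]
    simp [ev]
  obtain ⟨p, p1, p2, p3, p4⟩ : ∃ p : ℍ[ℝ], p.re = 1 ∧ p.imI = 0 ∧ p.imJ = 0 ∧ p.imK = 0 :=
    ⟨⟨1, 0, 0, 0⟩, rfl, rfl, rfl, rfl⟩
  obtain ⟨q, q1, q2, q3, q4⟩ : ∃ q : ℍ[ℝ], q.re = 1 ∧ q.imI = 0 ∧ q.imJ = 1 ∧ q.imK = 0 :=
    ⟨⟨1, 0, 1, 0⟩, rfl, rfl, rfl, rfl⟩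
  have h1 := key p
  have h2 := key q
  simp only [om, det2, qvec, Matrix.cons_val_zero, Matrix.cons_val_one] at h1 h2
  have h1r := congrArg Complex.re h1
  have h1i := congrArg Complex.im h1
  have h2r := congrArg Complex.re h2
  have h2i := congrArg Complex.im h2
  simp [p1, p2, p3, p4] at h1r h1i
  simp [q1, q2, q3, q4] at h2r h2i
  apply hz z.re
  ext
  · simp
  · simp; linarith
  · simp; linarith
  · simp; linarith

/-- genericity polynomial -/
noncomputable def gpoly (Z A : Finset ℍ[ℝ]) : MvPolynomial (Fin 2) ℂ :=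
  (∏ z ∈ Z, cz z) * ∏ a ∈ A, subst (qmat a) (X 0)

lemma ev_gpoly (Z A : Finset ℍ[ℝ]) (p : ℍ[ℝ]) :
    ev (gpoly Z A) p = (∏ z ∈ Z, om p (z * p)) * ∏ a ∈ A, qvec (a * p) 0 := by
  rw [gpoly, ev_mul, ev_prod, ev_prod]
  congr 1
  · exact Finset.prod_congr rfl (fun z _ => ev_cz z p)
  · refine Finset.prod_congr rfl (fun a _ => ?_)
    rw [ev_subst]
    simp [ev]

lemma gpoly_ne_zero {Z A : Finset ℍ[ℝ]} (hZ : ∀ z ∈ Z, ∀ r : ℝ, z ≠ r) (hA : ∀ a ∈ A, a ≠ 0) :
    gpoly Z A ≠ 0 := by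
  rw [gpoly]
  refine mul_ne_zero ?_ ?_
  · rw [Finset.prod_ne_zero_iff]
    exact fun z hz => cz_ne_zero (hZ z hz)
  · rw [Finset.prod_ne_zero_iff]
    intro a ha h
    have h1 : ∀ p, qvec (a * p) 0 = 0 := by
      intro p
      have := ev_subst a (X 0) p
      rw [h] at this
      simp [ev] at this
      exact this.symm
    have h2 := h1 (a⁻¹)
    rw [mul_inv_cancel₀ (hA a ha)] at h2
    have := congrArg Complex.re h2
    simp [qvec] at this

lemma exists_ev_ne_zero {G : MvPolynomial (Fin 2) ℂ} (hG : G ≠ 0) : ∃ p, ev G p ≠ 0 := by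
  by_contra hcon
  push Not at hcon
  apply hG
  apply poly_ext
  intro p
  rw [hcon p]
  simp [ev]

/-- Zariski density of good points -/
lemma eq_of_generic {F G D : MvPolynomial (Fin 2) ℂ} (hD : D ≠ 0)
    (h : ∀ p, ev D p ≠ 0 → ev F p = ev G p) : F = G := by
  have h1 : D * (F - G) = 0 := by
    apply poly_ext
    intro p
    rw [ev_mul]
    by_cases hp : ev D p = 0
    · rw [hp, zero_mul]; simp [ev]
    · have := h p hp
      simp only [ev] at this ⊢
      simp [this]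
  have h2 := (mul_eq_zero.mp h1).resolve_left hD
  exact sub_eq_zero.mp h2

end Run7.h580
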