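import Pool.Agent.Run7.h580.Forms

/-!
Invariant binary forms of a finite group of unit quaternions, in the degrees `h - 2` and `h - 1`.
-/

namespace Run7.h580

open MvPolynomial Quaternion

/-- a choice of sign for nonzero quaternions -/
def qpos (x : ℍ[ℝ]) : Prop :=
  0 < x.re ∨ (x.re = 0 ∧ (0 < x.imI ∨ (x.imI = 0 ∧ (0 < x.imJ ∨ (x.imJ = 0 ∧ 0 < x.imK)))))

lemma qpos_neg {x : ℍ[ℝ]} (hx : x ≠ 0) : qpos (-x) ↔ ¬ qpos x := by
  have h0 : ¬ (x.re = 0 ∧ x.imI = 0 ∧ x.imJ = 0 ∧ x.imK = 0) := by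
    rintro ⟨h1, h2, h3, h4⟩
    apply hx
    ext <;> simp [h1, h2, h3, h4]
  simp only [qpos, re_neg, imI_neg, imJ_neg, imK_neg, Left.neg_pos_iff, neg_eq_zero]
  rcases lt_trichotomy x.re 0 with h | h | h
  · have h1 : ¬ 0 < x.re := by linarith
    simp [h, h1, h.ne]
  · rcases lt_trichotomy x.imI 0 with g | g | g
    · have h1 : ¬ 0 < x.imI := by linarith
      simp [h, g, h1, g.ne]
    · rcases lt_trichotomy x.imJ 0 with k | k | k
      · have h1 : ¬ 0 < x.imJ := by linarith
        simp [h, g, k, h1, k.ne]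
      · rcases lt_trichotomy x.imK 0 with l | l | l
        · have h1 : ¬ 0 < x.imK := by linarith
          simp [h, g, k, l, h1]
        · exact absurd ⟨h, g, k, l⟩ h0
        · have h1 : ¬ x.imK < 0 := by linarith
          simp [h, g, k, l, h1]
      · have h1 : ¬ x.imJ < 0 := by linarith
        simp [h, g, k, h1, k.ne']
    · have h1 : ¬ x.imI < 0 := by linarith
      simp [h, g, h1, g.ne']
  · have h1 : ¬ x.re < 0 := by linarith
    simp [h, h1, h.ne']

open Classical in
/-- representatives modulo sign -/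
noncomputable def half (A : Finset ℍ[ℝ]) : Finset ℍ[ℝ] := A.filter qpos

lemma mem_half {A : Finset ℍ[ℝ]} {x : ℍ[ℝ]} : x ∈ half A ↔ x ∈ A ∧ qpos x := by
  classical
  simp [half]

lemma prod_half {A : Finset ℍ[ℝ]} (h0 : (0 : ℍ[ℝ]) ∉ A) (hneg : ∀ x ∈ A, -x ∈ A)
    {M : Type*} [CommMonoid M] (f : ℍ[ℝ] → M) :
    ∏ x ∈ A, f x = ∏ x ∈ half A, (f x * f (-x)) := by
  classical
  rw [Finset.prod_mul_distrib, ← Finset.prod_filter_mul_prod_filter_not A qpos]
  have e1 : half A = A.filter qpos := by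
    ext x; simp [mem_half]
  rw [e1]
  congr 1
  refine Finset.prod_nbij' (fun x => -x) (fun x => -x) ?_ ?_ ?_ ?_ ?_
  · intro x hx
    rw [Finset.mem_filter] at hx ⊢
    exact ⟨hneg x hx.1, (qpos_neg (fun h => h0 (h ▸ hx.1))).mpr hx.2⟩
  · intro x hx
    rw [Finset.mem_filter] at hx ⊢
    refine ⟨hneg x hx.1, ?_⟩
    rw [qpos_neg (fun h => h0 (h ▸ hx.1))]
    exact not_not.mpr hx.2
  · intro x _; simp
  · intro x _; simp
  · intro x _; simp

lemma card_half {A : Finset ℍ[ℝ]} (h0 : (0 : ℍ[ℝ]) ∉ A) (hneg : ∀ x ∈ A, -x ∈ A) :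
    A.card = 2 * (half A).card := by
  have h := prod_half (M := Multiplicative ℕ) h0 hneg (fun _ => Multiplicative.ofAdd 1)
  rw [Finset.prod_const, Finset.prod_const] at h
  have h2 := congrArg Multiplicative.toAdd h
  simp only [toAdd_pow, toAdd_mul, toAdd_ofAdd, smul_eq_mul] at h2
  omega

/-- finite groups of unit quaternions -/
structure UGrp (H : Finset ℍ[ℝ]) : Prop where
  one : (1 : ℍ[ℝ]) ∈ H
  mul : ∀ x ∈ H, ∀ y ∈ H, x * y ∈ H
  inv : ∀ x ∈ H, x⁻¹ ∈ H
  norm : ∀ x ∈ H, normSq x = 1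

lemma ne_zero_of_norm {x : ℍ[ℝ]} (h : normSq x = 1) : x ≠ 0 := by
  rintro rfl
  simp at h

lemma ne_real_of_norm {x : ℍ[ℝ]} (h : normSq x = 1) (h1 : x ≠ 1) (h2 : x ≠ -1) :
    ∀ r : ℝ, x ≠ r := by
  intro r hr
  rw [hr, normSq_coe] at h
  have h3 : r = 1 ∨ r = -1 := by
    have : (r - 1) * (r + 1) = 0 := by linarith [h, sq r]
    rcases mul_eq_zero.mp this with h4 | h4
    · left; linarith
    · right; linarith
  rcases h3 with h3 | h3
  · apply h1; rw [hr, h3]; simp
  · apply h2; rw [hr, h3]; simp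

lemma om_mul_unit {x : ℍ[ℝ]} (h : normSq x = 1) (p q : ℍ[ℝ]) : om (x * p) (x * q) = om p q := by
  rw [om_mul, h]; simp

lemma om_translate {x : ℍ[ℝ]} (h : normSq x = 1) (y p q : ℍ[ℝ]) :
    om (x * p) (y * q) = om p (x⁻¹ * y * q) := by
  have hx := ne_zero_of_norm h
  have : y * q = x * (x⁻¹ * y * q) := by
    rw [← mul_assoc, ← mul_assoc, mul_inv_cancel₀ hx, one_mul]
  rw [this, om_mul_unit h]

open Classical in
/-- nonscalar elements -/
noncomputable def nsc (H : Finset ℍ[ℝ]) : Finset ℍ[ℝ] := H.filter (fun x => x ≠ 1 ∧ x ≠ -1)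

lemma mem_nsc {A : Finset ℍ[ℝ]} {x : ℍ[ℝ]} : x ∈ nsc A ↔ x ∈ A ∧ x ≠ 1 ∧ x ≠ -1 := by
  classical
  simp [nsc]

/-- genericity polynomial of a group -/
noncomputable def gp (H : Finset ℍ[ℝ]) : MvPolynomial (Fin 2) ℂ := gpoly (nsc H) H

lemma gp_ne_zero {H : Finset ℍ[ℝ]} (hH : UGrp H) : gp H ≠ 0 := by
  refine gpoly_ne_zero ?_ ?_
  · intro z hz
    rw [mem_nsc] at hz
    exact ne_real_of_norm (hH.norm z hz.1) hz.2.1 hz.2.2
  · intro a ha
    exact ne_zero_of_norm (hH.norm a ha)

lemma good_om {H : Finset ℍ[ℝ]} (hH : UGrp H) {p : ℍ[ℝ]} (hp : ev (gp H) p ≠ 0)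
    {x y : ℍ[ℝ]} (hx : x ∈ H) (hy : y ∈ H) (h1 : x ≠ y) (h2 : x ≠ -y) :
    om (x * p) (y * p) ≠ 0 := by
  rw [om_translate (hH.norm x hx)]
  rw [gp, ev_gpoly] at hp
  have h3 := Finset.prod_ne_zero_iff.mp (left_ne_zero_of_mul hp)
  apply h3
  rw [mem_nsc]
  refine ⟨hH.mul _ (hH.inv x hx) _ hy, ?_, ?_⟩
  · intro h
    apply h1
    have hx0 := ne_zero_of_norm (hH.norm x hx)
    calc x = x * 1 := (mul_one x).symm
      _ = x * (x⁻¹ * y) := by rw [h]
      _ = y := by rw [← mul_assoc, mul_inv_cancel₀ hx0, one_mul]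
  · intro h
    apply h2
    have hx0 := ne_zero_of_norm (hH.norm x hx)
    calc x = -(x * (-1)) := by simp
      _ = -(x * (x⁻¹ * y)) := by rw [h]
      _ = -y := by rw [← mul_assoc, mul_inv_cancel₀ hx0, one_mul]

lemma good_fst {H : Finset ℍ[ℝ]} {p : ℍ[ℝ]} (hp : ev (gp H) p ≠ 0)
    {x : ℍ[ℝ]} (hx : x ∈ H) : qvec (x * p) 0 ≠ 0 := by
  rw [gp, ev_gpoly] at hp
  exact Finset.prod_ne_zero_iff.mp (right_ne_zero_of_mul hp) x hx

lemma good_qvec_ne {H : Finset ℍ[ℝ]} {p : ℍ[ℝ]} (hp : ev (gp H) p ≠ 0)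
    {x : ℍ[ℝ]} (hx : x ∈ H) : qvec (x * p) ≠ 0 := by
  intro h
  apply good_fst hp hx
  rw [h]; rfl

/-- left translation reindexing -/
lemma prod_translate {H : Finset ℍ[ℝ]} (hH : UGrp H) {x : ℍ[ℝ]} (hx : x ∈ H)
    {M : Type*} [CommMonoid M] (f : ℍ[ℝ] → M) : ∏ y ∈ H, f (x⁻¹ * y) = ∏ y ∈ H, f y := by
  have hx0 := ne_zero_of_norm (hH.norm x hx)
  refine Finset.prod_nbij' (fun y => x⁻¹ * y) (fun y => x * y) ?_ ?_ ?_ ?_ ?_
  · intro y hy; exact hH.mul _ (hH.inv x hx) _ hy
  · intro y hy; exact hH.mul _ hx _ hy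
  · intro y _; rw [← mul_assoc, mul_inv_cancel₀ hx0, one_mul]
  · intro y _; rw [← mul_assoc, inv_mul_cancel₀ hx0, one_mul]
  · intro y _; rfl

lemma sum_right_translate {H : Finset ℍ[ℝ]} (hH : UGrp H) {z : ℍ[ℝ]} (hz : z ∈ H)
    {M : Type*} [AddCommMonoid M] (f : ℍ[ℝ] → M) : ∑ y ∈ H, f (y * z) = ∑ y ∈ H, f y := by
  have hz0 := ne_zero_of_norm (hH.norm z hz)
  refine Finset.sum_nbij' (fun y => y * z) (fun y => y * z⁻¹) ?_ ?_ ?_ ?_ ?_
  · intro y hy; exact hH.mul _ hy _ hz
  · intro y hy; exact hH.mul _ hy _ (hH.inv z hz)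
  · intro y _; rw [mul_assoc, mul_inv_cancel₀ hz0, mul_one]
  · intro y _; rw [mul_assoc, inv_mul_cancel₀ hz0, mul_one]
  · intro y _; rfl

/-- invariance of a binary form under a set of quaternions -/
def Inv (H : Finset ℍ[ℝ]) (F : MvPolynomial (Fin 2) ℂ) : Prop :=
  ∀ x ∈ H, ∀ p, ev F (x * p) = ev F p

/-- averaging -/
noncomputable def avg (H : Finset ℍ[ℝ]) (F : MvPolynomial (Fin 2) ℂ) : MvPolynomial (Fin 2) ℂ :=
  ∑ x ∈ H, subst (qmat x) F

lemma ev_avg (H : Finset ℍ[ℝ]) (F : MvPolynomial (Fin 2) ℂ) (p : ℍ[ℝ]) :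
    ev (avg H F) p = ∑ x ∈ H, ev F (x * p) := by
  simp only [avg]
  rw [ev, map_sum]
  exact Finset.sum_congr rfl (fun x _ => ev_subst x F p)

lemma avg_inv {H : Finset ℍ[ℝ]} (hH : UGrp H) (F : MvPolynomial (Fin 2) ℂ) : Inv H (avg H F) := by
  intro z hz p
  rw [ev_avg, ev_avg]
  rw [← sum_right_translate hH hz (fun y => ev F (y * p))]
  exact Finset.sum_congr rfl (fun x _ => by rw [mul_assoc])

lemma avg_isHomogeneous {H : Finset ℍ[ℝ]} {F : MvPolynomial (Fin 2) ℂ} {n : ℕ}
    (hF : F.IsHomogeneous n) : (avg H F).IsHomogeneous n :=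
  MvPolynomial.IsHomogeneous.sum _ _ _ (fun _ _ => subst_isHomogeneous _ hF)

/-- product of the linear forms vanishing at the points `y p` -/
noncomputable def plin (A : Finset ℍ[ℝ]) (p : ℍ[ℝ]) : MvPolynomial (Fin 2) ℂ :=
  ∏ y ∈ A, lin (qvec (y * p))

lemma ev_plin (A : Finset ℍ[ℝ]) (p v : ℍ[ℝ]) : ev (plin A p) v = ∏ y ∈ A, om v (y * p) := by
  rw [plin, ev_prod]
  exact Finset.prod_congr rfl (fun y _ => ev_lin v (y * p))

lemma plin_isHomogeneous (A : Finset ℍ[ℝ]) (p : ℍ[ℝ]) : (plin A p).IsHomogeneous A.card := by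
  have := MvPolynomial.IsHomogeneous.prod A (fun y => lin (qvec (y * p))) (fun _ => 1)
    (fun y _ => lin_isHomogeneous _)
  simpa [plin] using this

section odd

variable {H : Finset ℍ[ℝ]} (hH : UGrp H) (hneg : (-1 : ℍ[ℝ]) ∉ H)

include hH hneg

lemma odd_ne_neg {x y : ℍ[ℝ]} (hx : x ∈ H) (hy : y ∈ H) : x ≠ -y := by
  intro h
  apply hneg
  have hy0 := ne_zero_of_norm (hH.norm y hy)
  have : x * y⁻¹ = -1 := by
    rw [h, neg_mul, mul_inv_cancel₀ hy0]
  rw [← this]
  exact hH.mul _ hx _ (hH.inv y hy)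

lemma odd_points {p : ℍ[ℝ]} (hp : ev (gp H) p ≠ 0) :
    ∀ x ∈ H, ∀ y ∈ H, x ≠ y → det2 (qvec (x * p)) (qvec (y * p)) ≠ 0 :=
  fun _ hx _ hy hxy => good_om hH hp hx hy hxy (odd_ne_neg hH hneg hx hy)

/-- no invariants in degree `h - 2` -/
lemma odd_none {Q : MvPolynomial (Fin 2) ℂ} {d : ℕ} (hd : d + 2 = H.card) (hQ : Q.IsHomogeneous d)
    (hinv : Inv H Q) : Q = 0 := by
  classical
  obtain ⟨p, hp⟩ := exists_ev_ne_zero (gp_ne_zero hH)
  have hpts := odd_points hH hneg hp
  have h1 := lagrange_binary H (fun x => qvec (x * p)) (fun x hx => good_fst hp hx) hpts hQ hd.symm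
  have h2 : ∀ x ∈ H, eval (qvec (x * p)) Q / ∏ y ∈ H.erase x, det2 (qvec (x * p)) (qvec (y * p)) =
      ev Q p / ∏ y ∈ H.erase 1, om p (y * p) := by
    intro x hx
    have e1 : eval (qvec (x * p)) Q = ev Q p := hinv x hx p
    rw [e1]
    congr 1
    have hx0 := ne_zero_of_norm (hH.norm x hx)
    refine Finset.prod_nbij' (fun y => x⁻¹ * y) (fun y => x * y) ?_ ?_ ?_ ?_ ?_
    · intro y hy
      rw [Finset.mem_erase] at hy ⊢
      refine ⟨?_, hH.mul _ (hH.inv x hx) _ hy.2⟩
      intro h
      apply hy.1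
      calc y = x * (x⁻¹ * y) := by rw [← mul_assoc, mul_inv_cancel₀ hx0, one_mul]
        _ = x := by rw [h, mul_one]
    · intro y hy
      rw [Finset.mem_erase] at hy ⊢
      refine ⟨?_, hH.mul _ hx _ hy.2⟩
      intro h
      apply hy.1
      calc y = x⁻¹ * (x * y) := by rw [← mul_assoc, inv_mul_cancel₀ hx0, one_mul]
        _ = 1 := by rw [h, inv_mul_cancel₀ hx0]
    · intro y _; rw [← mul_assoc, mul_inv_cancel₀ hx0, one_mul]
    · intro y _; rw [← mul_assoc, inv_mul_cancel₀ hx0, one_mul]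
    · intro y _
      exact om_translate (hH.norm x hx) y p p
  rw [Finset.sum_congr rfl h2, Finset.sum_const, nsmul_eq_mul] at h1
  have hc : (H.card : ℂ) ≠ 0 := by
    have : 0 < H.card := by omega
    exact_mod_cast this.ne'
  have h3 : ∏ y ∈ H.erase 1, om p (y * p) ≠ 0 := by
    rw [Finset.prod_ne_zero_iff]
    intro y hy
    rw [Finset.mem_erase] at hy
    have := hpts 1 hH.one y hy.2 (fun h => hy.1 h.symm)
    rwa [one_mul] at this
  have h4 : ev Q p = 0 := by
    rcases mul_eq_zero.mp h1 with h | h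
    · exact absurd h hc
    · rcases div_eq_zero_iff.mp h with h | h
      · exact h
      · exact absurd h h3
  refine eq_zero_of_zeros H (fun x => qvec (x * p)) (fun x hx => good_qvec_ne hp hx) hpts hQ
    (by omega) ?_
  intro x hx
  have : eval (qvec (x * p)) Q = ev Q p := hinv x hx p
  rw [this, h4]

/-- one dimensional space of invariants in degree `h - 1` -/
lemma odd_one : ∃ q : MvPolynomial (Fin 2) ℂ, q ≠ 0 ∧ q.IsHomogeneous (H.card - 1) ∧ Inv H q ∧
    ∀ Q : MvPolynomial (Fin 2) ℂ, Q.IsHomogeneous (H.card - 1) → Inv H Q → ∃ c : ℂ, Q = C c * q := by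
  classical
  have hcard : 0 < H.card := Finset.card_pos.mpr ⟨1, hH.one⟩
  obtain ⟨p, hp⟩ := exists_ev_ne_zero (gp_ne_zero hH)
  have hpts := odd_points hH hneg hp
  set E := plin (H.erase 1) p with hE
  have hEhom : E.IsHomogeneous (H.card - 1) := by
    have := plin_isHomogeneous (H.erase 1) p
    rwa [Finset.card_erase_of_mem hH.one] at this
  have hqp : ev (avg H E) p ≠ 0 := by
    rw [ev_avg, Finset.sum_eq_single 1]
    · rw [hE, ev_plin, Finset.prod_ne_zero_iff]
      intro y hy
      rw [Finset.mem_erase] at hy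
      exact hpts 1 hH.one y hy.2 (fun h => hy.1 h.symm)
    · intro x hx hx1
      rw [hE, ev_plin]
      exact Finset.prod_eq_zero (Finset.mem_erase.mpr ⟨hx1, hx⟩) (om_self _)
    · intro h; exact absurd hH.one h
  refine ⟨avg H E, ?_, avg_isHomogeneous hEhom, avg_inv hH E, ?_⟩
  · intro h; rw [h] at hqp; simp [ev] at hqp
  · intro Q hQ hQinv
    refine ⟨ev Q p / ev (avg H E) p, ?_⟩
    rw [← sub_eq_zero]
    refine eq_zero_of_zeros H (fun x => qvec (x * p)) (fun x hx => good_qvec_ne hp hx) hpts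
      (n := H.card - 1) ?_ (by omega) ?_
    · refine hQ.sub ?_
      simpa using (isHomogeneous_C (Fin 2) (ev Q p / ev (avg H E) p)).mul
        (avg_isHomogeneous (H := H) hEhom)
    · intro x hx
      have e1 : eval (qvec (x * p)) Q = ev Q p := hQinv x hx p
      have e2 : eval (qvec (x * p)) (avg H E) = ev (avg H E) p := avg_inv hH E x hx p
      rw [map_sub, map_mul, e1, e2, eval_C]
      field_simp
      simp

end odd

section even

variable {H : Finset ℍ[ℝ]} (hH : UGrp H) (hneg : (-1 : ℍ[ℝ]) ∈ H)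

include hH

lemma zero_notMem : (0 : ℍ[ℝ]) ∉ H := by
  intro h
  have := hH.norm 0 h
  simp at this

include hneg

lemma even_neg {x : ℍ[ℝ]} (hx : x ∈ H) : -x ∈ H := by
  have := hH.mul _ hneg _ hx
  rwa [neg_one_mul] at this

lemma one_mem_half : (1 : ℍ[ℝ]) ∈ half H := by
  rw [mem_half]
  refine ⟨hH.one, Or.inl ?_⟩
  simp

lemma half_points {p : ℍ[ℝ]} (hp : ev (gp H) p ≠ 0) :
    ∀ x ∈ half H, ∀ y ∈ half H, x ≠ y → det2 (qvec (x * p)) (qvec (y * p)) ≠ 0 := by
  intro x hx y hy hxy
  rw [mem_half] at hx hy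
  refine good_om hH hp hx.1 hy.1 hxy ?_
  intro h
  have hy0 : y ≠ 0 := fun h' => zero_notMem hH (h' ▸ hy.1)
  have := (qpos_neg hy0).mp (h ▸ hx.2)
  exact this hy.2

/-- the product over representatives is semi-invariant up to sign -/
lemma plin_half_sign (p : ℍ[ℝ]) {x : ℍ[ℝ]} (hx : x ∈ H) :
    ∃ κ : ℂ, κ * κ = 1 ∧ subst (qmat x) (plin (half H) p) = C κ * plin (half H) p := by
  have hx0 := ne_zero_of_norm (hH.norm x hx)
  have key : ∀ v, (∏ y ∈ half H, om v (y * p)) * (∏ y ∈ half H, om v (y * p)) =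
      (-1) ^ (half H).card * ∏ y ∈ H, om v (y * p) := by
    intro v
    rw [prod_half (zero_notMem hH) (fun x hx => even_neg hH hneg hx) (fun y => om v (y * p))]
    rw [← Finset.prod_const, ← Finset.prod_mul_distrib, ← Finset.prod_mul_distrib]
    refine Finset.prod_congr rfl (fun y _ => ?_)
    have : om v (-y * p) = - om v (y * p) := by rw [neg_mul, om_neg_right]
    rw [this]
    ring
  have hsq : subst (qmat x) (plin (half H) p) * subst (qmat x) (plin (half H) p) =
      plin (half H) p * plin (half H) p := by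
    apply poly_ext
    intro v
    rw [ev_mul, ev_mul, ev_subst, ev_plin, ev_plin, key, key]
    congr 1
    rw [← prod_translate hH hx (fun y => om v (y * p))]
    refine Finset.prod_congr rfl (fun y _ => ?_)
    rw [om_translate (hH.norm x hx)]
  rcases mul_self_eq_mul_self_iff.mp hsq with h | h
  · exact ⟨1, by norm_num, by rw [h]; simp⟩
  · exact ⟨-1, by norm_num, by rw [h]; simp⟩

/-- one dimensional space of invariants in degree `h - 2` -/
lemma even_one : ∃ q : MvPolynomial (Fin 2) ℂ, q ≠ 0 ∧ q.IsHomogeneous (H.card - 2) ∧ Inv H q ∧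
    ∀ Q : MvPolynomial (Fin 2) ℂ, Q.IsHomogeneous (H.card - 2) → Inv H Q → ∃ c : ℂ, Q = C c * q := by
  classical
  have hcard := card_half (zero_notMem hH) (fun x hx => even_neg hH hneg hx)
  have hn : 0 < (half H).card := Finset.card_pos.mpr ⟨1, one_mem_half hH hneg⟩
  obtain ⟨p, hp⟩ := exists_ev_ne_zero (gp_ne_zero hH)
  have hpts := half_points hH hneg hp
  have hmem : ∀ x ∈ half H, x ∈ H := fun x hx => (mem_half.mp hx).1
  set E := plin (nsc H) p with hE
  have hne : (-1 : ℍ[ℝ]) ≠ 1 := by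
    intro h
    have := congrArg (fun z : ℍ[ℝ] => z.re) h
    simp at this
    norm_num at this
  have hnsc : nsc H = (H.erase 1).erase (-1) := by
    ext x
    rw [mem_nsc, Finset.mem_erase, Finset.mem_erase]
    tauto
  have hnsccard : (nsc H).card = H.card - 2 := by
    rw [hnsc, Finset.card_erase_of_mem (Finset.mem_erase.mpr ⟨hne, hneg⟩),
      Finset.card_erase_of_mem hH.one]
    omega
  have hEhom : E.IsHomogeneous (H.card - 2) := by
    have := plin_isHomogeneous (nsc H) p
    rwa [hnsccard] at this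
  have hcne : ∏ y ∈ nsc H, om p (y * p) ≠ 0 := by
    rw [Finset.prod_ne_zero_iff]
    intro y hy
    rw [mem_nsc] at hy
    have := good_om hH hp hH.one hy.1 (fun h => hy.2.1 h.symm) (fun h => hy.2.2 (by rw [h]; simp))
    rwa [one_mul] at this
  have hevE : ev E p = ∏ y ∈ nsc H, om p (y * p) := by rw [hE, ev_plin]
  have hevEneg : ev E (-1 * p) = ∏ y ∈ nsc H, om p (y * p) := by
    rw [hE, ev_plin, neg_one_mul]
    have : ∀ y ∈ nsc H, om (-p) (y * p) = (-1) * om p (y * p) := by
      intro y _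
      rw [om_neg_left]; ring
    rw [Finset.prod_congr rfl this, Finset.prod_mul_distrib, Finset.prod_const, hnsccard, hcard]
    have : (-1 : ℂ) ^ (2 * (half H).card - 2) = 1 := by
      have : 2 * (half H).card - 2 = 2 * ((half H).card - 1) := by omega
      rw [this, pow_mul]; simp
    rw [this, one_mul]
  have hqp : ev (avg H E) p ≠ 0 := by
    have h1 : ev (avg H E) p = 2 * ∏ y ∈ nsc H, om p (y * p) := by
      rw [ev_avg, ← Finset.add_sum_erase H _ hH.one,
        ← Finset.add_sum_erase (H.erase 1) _ (Finset.mem_erase.mpr ⟨hne, hneg⟩), one_mul, hevE,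
        hevEneg, Finset.sum_eq_zero]
      · ring
      · intro x hx
        rw [← hnsc] at hx
        rw [hE, ev_plin]
        exact Finset.prod_eq_zero hx (om_self _)
    rw [h1]
    exact mul_ne_zero two_ne_zero hcne
  refine ⟨avg H E, ?_, avg_isHomogeneous hEhom, avg_inv hH E, ?_⟩
  · intro h; rw [h] at hqp; simp [ev] at hqp
  · intro Q hQ hQinv
    refine ⟨ev Q p / ev (avg H E) p, ?_⟩
    rw [← sub_eq_zero]
    set T := Q - C (ev Q p / ev (avg H E) p) * avg H E with hT
    have hThom : T.IsHomogeneous (H.card - 2) := by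
      refine hQ.sub ?_
      simpa using (isHomogeneous_C (Fin 2) (ev Q p / ev (avg H E) p)).mul
        (avg_isHomogeneous (H := H) hEhom)
    have hTinv : Inv H T := by
      intro x hx v
      have e1 : ev Q (x * v) = ev Q v := hQinv x hx v
      have e2 : ev (avg H E) (x * v) = ev (avg H E) v := avg_inv hH E x hx v
      simp only [ev] at e1 e2
      simp only [hT, ev, map_sub, map_mul, e1, e2]
      simp
    have hTp : ev T p = 0 := by
      simp only [hT]
      rw [ev, map_sub, map_mul, eval_C]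
      simp only [ev] at hqp ⊢
      field_simp
      simp
    have hTz : ∀ x ∈ H, eval (qvec (x * p)) T = 0 := by
      intro x hx
      have : eval (qvec (x * p)) T = ev T p := hTinv x hx p
      rw [this, hTp]
    by_cases hn1 : (half H).card = 1
    · have : H.card - 2 = 0 := by omega
      rw [this] at hThom
      exact eq_zero_of_isHomogeneous_zero hThom (p := qvec p) hTp
    · -- divide by the orbit form
      obtain ⟨m, hm⟩ : ∃ m, (half H).card = m + 2 := ⟨(half H).card - 2, by omega⟩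
      obtain ⟨G, hG, hTG⟩ := exists_quot_of_zeros (n := m) (half H) (fun x => qvec (x * p))
        (fun x hx => good_qvec_ne hp (hmem x hx)) hpts
        (by convert hThom using 1; omega) (fun x hx => hTz x (hmem x hx))
      have hTG' : T = plin (half H) p * G := hTG
      have hphine : plin (half H) p ≠ 0 := by
        rw [plin, Finset.prod_ne_zero_iff]
        intro x hx
        exact lin_ne_zero (good_qvec_ne hp (hmem x hx))
      -- semi-invariance of G
      have hGsemi : ∀ x ∈ H, ∀ κ : ℂ, κ * κ = 1 →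
          subst (qmat x) (plin (half H) p) = C κ * plin (half H) p →
          subst (qmat x) G = C κ * G := by
        intro x hx κ hκ hs
        have h1 : subst (qmat x) T = T := by
          apply poly_ext
          intro v
          rw [ev_subst]
          exact hTinv x hx v
        rw [hTG', map_mul, hs] at h1
        have h2 : plin (half H) p * (C κ * subst (qmat x) G - G) = 0 := by
          linear_combination h1
        have h3 := (mul_eq_zero.mp h2).resolve_left hphine
        have h4 : C κ * subst (qmat x) G = G := sub_eq_zero.mp h3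
        calc subst (qmat x) G = C (κ * κ) * subst (qmat x) G := by rw [hκ]; simp
          _ = C κ * (C κ * subst (qmat x) G) := by rw [C_mul]; ring
          _ = C κ * G := by rw [h4]
      set c := ∏ y ∈ (half H).erase 1, om p (y * p) with hc
      have hcne' : c ≠ 0 := by
        rw [hc, Finset.prod_ne_zero_iff]
        intro y hy
        rw [Finset.mem_erase] at hy
        have := hpts 1 (one_mem_half hH hneg) y hy.2 (fun h => hy.1 h.symm)
        rwa [one_mul] at this
      have hterm : ∀ x ∈ half H, eval (qvec (x * p)) G /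
          ∏ y ∈ (half H).erase x, det2 (qvec (x * p)) (qvec (y * p)) = ev G p / c := by
        intro x hx
        have hxH := hmem x hx
        have hx0 := ne_zero_of_norm (hH.norm x hxH)
        obtain ⟨κ, hκ, hs⟩ := plin_half_sign hH hneg p hxH
        have e1 : eval (qvec (x * p)) G = κ * ev G p := by
          have := congrArg (fun F => ev F p) (hGsemi x hxH κ hκ hs)
          simp only [ev_subst, ev_mul] at this
          simp only [ev, eval_C] at this
          exact this
        -- compare derivatives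
        have e2 : lin (qvec p) * ((∏ y ∈ (half H).erase x, subst (qmat x) (lin (qvec (y * p)))) -
            C κ * ∏ y ∈ (half H).erase 1, lin (qvec (y * p))) = 0 := by
          have h1 : subst (qmat x) (plin (half H) p) =
              lin (qvec p) * ∏ y ∈ (half H).erase x, subst (qmat x) (lin (qvec (y * p))) := by
            rw [plin, map_prod, ← Finset.mul_prod_erase (half H) _ hx]
            congr 1
            apply poly_ext
            intro v
            rw [ev_subst, ev_lin, ev_lin, om_mul_unit (hH.norm x hxH)]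
          have h2 : plin (half H) p =
              lin (qvec p) * ∏ y ∈ (half H).erase 1, lin (qvec (y * p)) := by
            rw [plin, ← Finset.mul_prod_erase (half H) _ (one_mem_half hH hneg), one_mul]
          rw [h1] at hs
          rw [h2] at hs
          linear_combination hs
        have hlne : lin (qvec p) ≠ 0 := by
          have := good_qvec_ne hp hH.one
          rw [one_mul] at this
          exact lin_ne_zero this
        have e3 := sub_eq_zero.mp ((mul_eq_zero.mp e2).resolve_left hlne)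
        have e4 : ∏ y ∈ (half H).erase x, det2 (qvec (x * p)) (qvec (y * p)) = κ * c := by
          have := congrArg (fun F => ev F p) e3
          simp only [ev_mul, ev_prod, ev_subst, ev_lin] at this
          rw [hc]
          simp only [ev, eval_C] at this
          exact this
        rw [e1, e4]
        have hκne : κ ≠ 0 := by
          rintro rfl
          simp at hκ
        field_simp
      have hsum := lagrange_binary (half H) (fun x => qvec (x * p))
        (fun x hx => good_fst hp (hmem x hx)) hpts hG hm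
      rw [Finset.sum_congr rfl hterm, Finset.sum_const, nsmul_eq_mul] at hsum
      have hGp : ev G p = 0 := by
        rcases mul_eq_zero.mp hsum with h | h
        · exfalso
          have : ((half H).card : ℂ) ≠ 0 := by exact_mod_cast hn.ne'
          exact this h
        · rcases div_eq_zero_iff.mp h with h | h
          · exact h
          · exact absurd h hcne'
      have hG0 : G = 0 := by
        refine eq_zero_of_zeros (half H) (fun x => qvec (x * p))
          (fun x hx => good_qvec_ne hp (hmem x hx)) hpts hG (by omega) ?_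
        intro x hx
        obtain ⟨κ, hκ, hs⟩ := plin_half_sign hH hneg p (hmem x hx)
        have := congrArg (fun F => ev F p) (hGsemi x (hmem x hx) κ hκ hs)
        simp only [ev_subst, ev_mul] at this
        rw [hGp, mul_zero] at this
        exact this
      rw [hTG', hG0, mul_zero]

end even

end Run7.h580
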