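import Pool.Agent.Run7.h580.Mod

/-!
Irreducibility and dimension of the module.
-/

namespace Run7.h580

open MvPolynomial Quaternion

/-- depth of a monomial in the component `c` -/
def depth (c : Fin 2 → Bool) (m : Ix →₀ ℕ) : ℕ := ∑ k, (2 * m (k, 1) + if c k = true then 0 else 1)

lemma depth_update_false {k : Fin 2} {c : Fin 2 → Bool} (hc : c k = true) {m m' : Ix →₀ ℕ}
    (h : ∀ l, m' (l, 1) = m (l, 1)) : depth (Function.update c k false) m' = depth c m + 1 := by
  simp only [depth, Fin.sum_univ_two, h]
  fin_cases k
  · simp only [Fin.zero_eta, Fin.isValue] at hc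
    simp [hc]; omega
  · simp only [Fin.mk_one, Fin.isValue] at hc
    simp [hc]; omega

lemma depth_update_true {k : Fin 2} {c : Fin 2 → Bool} (hc : c k = false) {m : Ix →₀ ℕ} :
    depth (Function.update c k true) (m + Finsupp.single (k, 1) 1) = depth c m + 1 := by
  simp only [depth, Fin.sum_univ_two]
  fin_cases k
  · simp only [Fin.zero_eta, Fin.isValue] at hc
    simp [hc]; omega
  · simp only [Fin.mk_one, Fin.isValue] at hc
    simp [hc]; omega

lemma XX_depth (k : Fin 2) {F : Md} {n : ℕ}
    (hF : ∀ c m, coeff m (F c) ≠ 0 → depth c m < n + 1) :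
    ∀ c m, coeff m (XX (k, 0) F c) ≠ 0 → depth c m < n := by
  classical
  intro c m hm
  rcases hc : c k with _ | _
  · rw [XX_false _ _ hc] at hm
    simp only [sd, if_true] at hm
    rw [coeff_pderiv] at hm
    have h1 := hF _ _ (left_ne_zero_of_mul hm)
    rw [depth_update_true hc] at h1
    omega
  · rw [XX_true _ _ hc] at hm
    rw [coeff_X_mul'] at hm
    split_ifs at hm with hs
    · have h1 := hF _ _ hm
      rw [depth_update_false (m := m) hc (fun l => by simp)] at h1
      omega
    · exact absurd rfl hm

/-- exponent of the highest vector -/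
noncomputable def mtop (M : ℕ) : Ix →₀ ℕ := Finsupp.single (0, 0) (M + 1) + Finsupp.single (1, 0) (M + 1)

/-- basis vectors -/
noncomputable def mon (c : Fin 2 → Bool) (m : Ix →₀ ℕ) : Md := Pi.single c (monomial m 1)

/-- the highest vector -/
noncomputable def top (M : ℕ) : Md := mon (fun _ => true) (mtop M)

lemma eq_mtop {M : ℕ} {m : Ix →₀ ℕ} (h : m ∈ dset (dd M (fun _ => true)))
    (h1 : ∀ k, m (k, 1) = 0) : m = mtop M := by
  ext ⟨k, e⟩
  have h2 := h k
  rw [h1 k] at h2
  simp only [dd, if_true] at h2
  fin_cases k <;> fin_cases e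
  · simp [mtop] at h2 ⊢; exact h2
  · simp [mtop]; exact h1 0
  · simp [mtop] at h2 ⊢; exact h2
  · simp [mtop]; exact h1 1

/-- common kernel of the raising operators -/
lemma ker_raise {M : ℕ} {F : Md} (hF : F ∈ LL M) (h : ∀ k, XX (k, 0) F = 0) :
    ∃ a : ℂ, F = a • top M := by
  classical
  refine ⟨coeff (mtop M) (F (fun _ => true)), ?_⟩
  funext c
  by_cases hc : ∃ k, c k = false
  · obtain ⟨k, hk⟩ := hc
    have h1 := congrFun (h k) (Function.update c k true)
    rw [XX_true _ _ (by simp)] at h1
    simp only [Function.update_idem, Pi.zero_apply] at h1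
    have h2 : Function.update c k false = c := by rw [← hk]; exact Function.update_eq_self k c
    rw [h2] at h1
    have h3 : F c = 0 := (mul_eq_zero.mp h1).resolve_left (X_ne_zero _)
    rw [h3, Pi.smul_apply, top, mon, Pi.single_eq_of_ne, smul_zero]
    intro h4
    rw [h4] at hk
    exact absurd hk (by simp)
  · push Not at hc
    have hc' : c = fun _ => true := by
      funext k
      have := hc k
      simpa using this
    subst hc'
    rw [Pi.smul_apply, top, mon, Pi.single_eq_same, smul_monomial, smul_eq_mul, mul_one]
    ext m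
    rw [coeff_monomial]
    split_ifs with hm
    · rw [hm]
    · by_contra hne
      have hmem := mem_BD.mp (hF (fun _ => true)) m hne
      apply hm
      symm
      refine eq_mtop hmem (fun k => ?_)
      by_contra hk
      have h1 := congrFun (h k) (Function.update (fun _ => true) k false)
      rw [XX_false _ _ (by simp)] at h1
      simp only [Function.update_idem, Pi.zero_apply, sd, if_true] at h1
      have h2 : Function.update (fun _ : Fin 2 => true) k true = fun _ => true :=
        Function.update_eq_self k (fun _ : Fin 2 => true)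
      rw [h2] at h1
      have h3 := congrArg (coeff (m - Finsupp.single (k, 1) 1)) h1
      rw [coeff_pderiv, coeff_zero] at h3
      have h4 : m - Finsupp.single (k, 1) 1 + Finsupp.single (k, 1) 1 = m :=
        Finsupp.sub_add_single_one_cancel hk
      rw [h4] at h3
      rcases mul_eq_zero.mp h3 with h5 | h5
      · exact hne h5
      · have : (((m - Finsupp.single (k, 1) 1 : Ix →₀ ℕ) (k, 1) + 1 : ℕ) : ℂ) = 0 := by
          push_cast; exact h5
        exact absurd this (Nat.cast_ne_zero.mpr (Nat.succ_ne_zero _))

/-- a nonzero stable subspace contains the highest vector -/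
lemma top_mem {M : ℕ} {N : Submodule ℂ Md} (hN : N ≤ LL M) (hX : ∀ i, ∀ v ∈ N, XX i v ∈ N)
    (n : ℕ) : ∀ F ∈ N, F ≠ 0 → (∀ c m, coeff m (F c) ≠ 0 → depth c m < n) → top M ∈ N := by
  induction n with
  | zero =>
    intro F _ hne h
    exfalso
    apply hne
    funext c
    ext m
    by_contra hcm
    exact absurd (h c m hcm) (Nat.not_lt_zero _)
  | succ n ih =>
    intro F hF hne h
    by_cases hk : ∃ k, XX (k, 0) F ≠ 0
    · obtain ⟨k, hk⟩ := hk
      exact ih _ (hX _ F hF) hk (XX_depth k h)
    · push Not at hk
      obtain ⟨a, ha⟩ := ker_raise (hN hF) hk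
      have ha0 : a ≠ 0 := by
        rintro rfl
        rw [zero_smul] at ha
        exact hne ha
      have h1 : top M = a⁻¹ • F := by
        rw [ha, smul_smul, inv_mul_cancel₀ ha0, one_smul]
      rw [h1]
      exact N.smul_mem _ hF

lemma XX_mon_false {k : Fin 2} {c : Fin 2 → Bool} (hc : c k = false) (m : Ix →₀ ℕ) :
    XX (k, 1) (mon (Function.update c k true) (m + Finsupp.single (k, 0) 1)) =
      (-((m (k, 0) : ℂ) + 1)) • mon c m := by
  classical
  funext d
  rw [Pi.smul_apply, mon, mon]
  rcases hd : d k with _ | _
  · rw [XX_false _ _ hd]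
    simp only
    by_cases hdc : d = c
    · subst hdc
      rw [Pi.single_eq_same, Pi.single_eq_same]
      simp only [sd, Fin.isValue, one_ne_zero, if_false, Derivation.neg_apply, pderiv_monomial]
      rw [add_tsub_cancel_right, neg_smul, smul_monomial]
      simp
    · rw [Pi.single_eq_of_ne, Pi.single_eq_of_ne hdc, map_zero, smul_zero]
      intro h
      apply hdc
      funext l
      by_cases hl : l = k
      · rw [hl, hd, hc]
      · have := congrFun h l
        rwa [Function.update_of_ne hl, Function.update_of_ne hl] at this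
  · rw [XX_true _ _ hd, Pi.single_eq_of_ne, Pi.single_eq_of_ne, mul_zero, smul_zero]
    · intro h
      rw [h, hc] at hd
      exact absurd hd (by simp)
    · intro h
      have := congrFun h k
      simp at this

lemma XX_mon_true {k : Fin 2} {c : Fin 2 → Bool} (hc : c k = true) (m : Ix →₀ ℕ) :
    XX (k, 1) (mon (Function.update c k false) m) = mon c (m + Finsupp.single (k, 1) 1) := by
  classical
  funext d
  rw [mon, mon]
  rcases hd : d k with _ | _
  · rw [XX_false _ _ hd, Pi.single_eq_of_ne, Pi.single_eq_of_ne, map_zero]
    · intro h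
      rw [h, hc] at hd
      exact absurd hd (by simp)
    · intro h
      have := congrFun h k
      simp at this
  · rw [XX_true _ _ hd]
    simp only
    by_cases hdc : d = c
    · subst hdc
      rw [Pi.single_eq_same, Pi.single_eq_same, X, monomial_mul, one_mul, add_comm]
    · rw [Pi.single_eq_of_ne, Pi.single_eq_of_ne hdc, mul_zero]
      intro h
      apply hdc
      funext l
      by_cases hl : l = k
      · rw [hl, hd, hc]
      · have := congrFun h l
        rwa [Function.update_of_ne hl, Function.update_of_ne hl] at this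

lemma mon_mem {M : ℕ} {N : Submodule ℂ Md} (hX : ∀ i, ∀ v ∈ N, XX i v ∈ N) (ht : top M ∈ N)
    (n : ℕ) : ∀ c m, depth c m = n → m ∈ dset (dd M c) → mon c m ∈ N := by
  classical
  induction n with
  | zero =>
    intro c m h0 hm
    simp only [depth, Finset.sum_eq_zero_iff, Finset.mem_univ, true_implies, add_eq_zero,
      mul_eq_zero, OfNat.ofNat_ne_zero, false_or] at h0
    have hc : c = fun _ => true := by
      funext k
      have := (h0 k).2
      by_contra hk
      rw [if_neg hk] at this
      exact absurd this one_ne_zero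
    subst hc
    have := eq_mtop hm (fun k => (h0 k).1)
    rw [this]
    exact ht
  | succ n ih =>
    intro c m h0 hm
    by_cases hc : ∃ k, c k = false
    · obtain ⟨k, hk⟩ := hc
      have h1 := depth_update_false (k := k) (c := Function.update c k true) (by simp)
        (m := m + Finsupp.single (k, 0) 1) (m' := m) (fun l => by simp)
      simp only [Function.update_idem] at h1
      have h2 : Function.update c k false = c := by rw [← hk]; exact Function.update_eq_self k c
      rw [h2, h0] at h1
      have h3 := ih (Function.update c k true) (m + Finsupp.single (k, 0) 1) (by omega) (by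
        intro l
        have h4 := hm l
        simp only [dd] at h4 ⊢
        by_cases hl : l = k
        · subst hl
          simp [hk] at h4 ⊢; omega
        · have e1 : ((k, 0) : Ix) ≠ (l, 0) := fun h => hl (congrArg Prod.fst h).symm
          simp [Function.update_of_ne hl, e1]; exact h4)
      have h4 := hX (k, 1) _ h3
      rw [XX_mon_false hk] at h4
      have h5 : (-((m (k, 0) : ℂ) + 1)) ≠ 0 := by
        rw [neg_ne_zero]
        exact Nat.cast_add_one_ne_zero _
      have h6 := N.smul_mem (-((m (k, 0) : ℂ) + 1))⁻¹ h4
      rwa [smul_smul, inv_mul_cancel₀ h5, one_smul] at h6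
    · push Not at hc
      have hc' : ∀ k, c k = true := fun k => by simpa using hc k
      obtain ⟨k, hk⟩ : ∃ k, m (k, 1) ≠ 0 := by
        by_contra hcon
        push Not at hcon
        simp only [depth, hcon, hc'] at h0
        simp at h0
      obtain ⟨m', rfl⟩ : ∃ m', m = m' + Finsupp.single (k, 1) 1 :=
        ⟨m - Finsupp.single (k, 1) 1, (Finsupp.sub_add_single_one_cancel hk).symm⟩
      have h1 := depth_update_true (k := k) (c := Function.update c k false) (by simp) (m := m')
      simp only [Function.update_idem] at h1
      have h2 : Function.update c k true = c := by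
        rw [← hc' k]; exact Function.update_eq_self k c
      rw [h2, h0] at h1
      have h3 := ih (Function.update c k false) m' (by omega) (by
        intro l
        have h4 := hm l
        simp only [dd] at h4 ⊢
        by_cases hl : l = k
        · subst hl
          simp [hc'] at h4 ⊢; omega
        · have e1 : ((k, 1) : Ix) ≠ (l, 1) := fun h => hl (congrArg Prod.fst h).symm
          have e2 : ((k, 1) : Ix) ≠ (l, 0) := fun h => hl (congrArg Prod.fst h).symm
          simp only [Finsupp.add_apply, Finsupp.single_apply, if_neg e1, if_neg e2] at h4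
          simp only [Function.update_of_ne hl]
          exact h4)
      have h4 := hX (k, 1) _ h3
      rwa [XX_mon_true (hc' k)] at h4

/-- irreducibility -/
theorem LL_le {M : ℕ} {N : Submodule ℂ Md} (hN : N ≤ LL M) (hX : ∀ i, ∀ v ∈ N, XX i v ∈ N)
    {u : Md} (hu : u ∈ N) (hu0 : u ≠ 0) : LL M ≤ N := by
  classical
  have ht : top M ∈ N := by
    refine top_mem hN hX (4 * M + 7) u hu hu0 ?_
    intro c m hm
    have h1 := mem_BD.mp (hN hu c) m hm
    have h2 := h1 0
    have h3 := h1 1
    simp only [dd] at h2 h3
    simp only [depth, Fin.sum_univ_two]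
    split_ifs at h2 h3 ⊢ <;> omega
  intro F hF
  rw [← Finset.univ_sum_single F]
  refine N.sum_mem (fun c _ => ?_)
  have := BD_map (LinearMap.single ℂ (fun _ : Fin 2 → Bool => Pol) c) N
    (fun m hm => mon_mem hX ht _ c m rfl hm) (hF c)
  exact this

/-- dimension of spaces of multihomogeneous polynomials -/
lemma finrank_BD (d : Fin 2 → ℕ) : Module.finrank ℂ (BD d) = (d 0 + 1) * (d 1 + 1) := by
  classical
  have e : dset d ≃ Fin (d 0 + 1) × Fin (d 1 + 1) :=
    { toFun := fun m => (⟨m.1 (0, 1), by have := m.2 0; omega⟩, ⟨m.1 (1, 1), by have := m.2 1; omega⟩)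
      invFun := fun a => ⟨Finsupp.equivFunOnFinite.symm (fun i : Ix =>
        if i = (0, 0) then d 0 - a.1 else if i = (0, 1) then a.1 else
          if i = (1, 0) then d 1 - a.2 else a.2), by
          intro k
          have h0 := a.1.2
          have h1 := a.2.2
          fin_cases k
          · simp; omega
          · simp; omega⟩
      left_inv := by
        intro m
        apply Subtype.ext
        ext ⟨k, e⟩
        have h0 := m.2 0
        have h1 := m.2 1
        fin_cases k <;> fin_cases e
        · simp; omega
        · simp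
        · simp; omega
        · simp
      right_inv := by
        rintro ⟨⟨a, ha⟩, ⟨b, hb⟩⟩
        simp }
  have hb := Module.finrank_eq_nat_card_basis (basisRestrictSupport ℂ (dset d))
  rw [BD, hb, Nat.card_congr e, Nat.card_prod]
  simp

instance (d : Fin 2 → ℕ) : FiniteDimensional ℂ (BD d) :=
  FiniteDimensional.of_finrank_pos (by rw [finrank_BD]; positivity)

/-- `LL` is a product -/
noncomputable def LLequiv (M : ℕ) : LL M ≃ₗ[ℂ] (∀ c : Fin 2 → Bool, BD (dd M c)) where
  toFun F := fun c => ⟨F.1 c, F.2 c⟩
  invFun G := ⟨fun c => (G c).1, fun c => (G c).2⟩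
  map_add' _ _ := rfl
  map_smul' _ _ := rfl
  left_inv _ := rfl
  right_inv _ := rfl

lemma finrank_LL (M : ℕ) : Module.finrank ℂ (LL M) = (2 * M + 3) ^ 2 := by
  rw [(LLequiv M).finrank_eq, Module.finrank_pi_fintype]
  simp only [finrank_BD, dd]
  have e : (Fin 2 → Bool) ≃ Bool × Bool := finTwoArrowEquiv Bool
  rw [← Equiv.sum_comp (finTwoArrowEquiv Bool).symm, Fintype.sum_prod_type]
  simp
  ring

instance (M : ℕ) : FiniteDimensional ℂ (LL M) :=
  FiniteDimensional.of_finrank_pos (by rw [finrank_LL]; positivity)

/-- the filtration exhausts `LL` after finitely many steps -/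
lemma exists_Flt_eq {M : ℕ} {u : Md} (hu : u ∈ LL M) (hu0 : u ≠ 0) : ∃ D, Flt XX u D = LL M := by
  have hle : LL M ≤ ⨆ n, Flt XX u n := by
    refine LL_le (iSup_le (fun n => Flt_le_LL hu n)) ?_ (Submodule.mem_iSup_of_mem 1 (u_mem XX u 0)) hu0
    intro i v hv
    rw [Submodule.mem_iSup_of_directed _ (Flt_mono XX u).directed_le] at hv
    obtain ⟨n, hn⟩ := hv
    exact Submodule.mem_iSup_of_mem (n + 1) (X_mem XX u hn i)
  have hfg : (LL M).FG := (Submodule.fg_top _).mp (Module.Finite.fg_top)
  have hc := (Submodule.fg_iff_compact _).mp hfg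
  obtain ⟨n, hn⟩ := (CompleteLattice.isCompactElement_iff_le_of_directed_sSup_le ..).mp hc
    (Set.range (Flt XX u)) (Set.range_nonempty _) (directedOn_range.mpr (Flt_mono XX u).directed_le) hle
  obtain ⟨⟨D, rfl⟩, hD⟩ := hn
  exact ⟨D, le_antisymm (Flt_le_LL hu D) hD⟩

end Run7.h580
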