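import Pool.Agent.Run7.h580.Delta

/-!
The semi-invariant attached to a finite monomial group and its uniqueness.
-/

namespace Run7.h580

open MvPolynomial Quaternion

/-- embedding of binary forms in the copy `k` -/
noncomputable def inc (k : Fin 2) (q : MvPolynomial (Fin 2) ℂ) : Pol := rename (fun e => (k, e)) q

lemma evn_inc (k : Fin 2) (q : MvPolynomial (Fin 2) ℂ) (p : Fin 2 → ℍ[ℝ]) :
    evn (inc k q) p = ev q (p k) := by
  rw [evn, inc, eval_rename, ev]
  rfl

lemma inc_ne_zero (k : Fin 2) {q : MvPolynomial (Fin 2) ℂ} (hq : q ≠ 0) : inc k q ≠ 0 := by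
  intro h
  apply hq
  have hinj : Function.Injective (rename (R := ℂ) (fun e : Fin 2 => (k, e))) :=
    rename_injective _ (fun a b hab => by simpa using hab)
  exact hinj (by rw [map_zero]; exact h)

lemma inc0_mem_BH {q : MvPolynomial (Fin 2) ℂ} {e : ℕ} (hq : q.IsHomogeneous e) :
    inc 0 q ∈ BH e 0 := by
  classical
  rw [mem_BH]
  intro m hm
  rw [inc] at hm
  obtain ⟨d, hd, hne⟩ := coeff_rename_ne_zero _ _ _ hm
  have h1 := hq hne
  rw [Finsupp.weight_apply, Finsupp.sum_fintype _ _ (by simp)] at h1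
  simp only [Fin.sum_univ_two, Pi.one_apply, smul_eq_mul, mul_one] at h1
  have hinj : Function.Injective (fun e : Fin 2 => ((0 : Fin 2), e)) :=
    fun a b hab => by simpa using hab
  have e0 : m (0, 0) = d 0 := by
    rw [← hd]; exact Finsupp.mapDomain_apply hinj d 0
  have e1 : m (0, 1) = d 1 := by
    rw [← hd]; exact Finsupp.mapDomain_apply hinj d 1
  have e2 : m (1, 0) = 0 := by
    rw [← hd]; exact Finsupp.mapDomain_of_notMem_range _ _ (by simp)
  have e3 : m (1, 1) = 0 := by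
    rw [← hd]; exact Finsupp.mapDomain_of_notMem_range _ _ (by simp)
  rw [e0, e1, e2, e3]
  exact ⟨h1, rfl⟩

lemma inc1_mem_BH {q : MvPolynomial (Fin 2) ℂ} {e : ℕ} (hq : q.IsHomogeneous e) :
    inc 1 q ∈ BH 0 e := by
  classical
  rw [mem_BH]
  intro m hm
  rw [inc] at hm
  obtain ⟨d, hd, hne⟩ := coeff_rename_ne_zero _ _ _ hm
  have h1 := hq hne
  rw [Finsupp.weight_apply, Finsupp.sum_fintype _ _ (by simp)] at h1
  simp only [Fin.sum_univ_two, Pi.one_apply, smul_eq_mul, mul_one] at h1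
  have hinj : Function.Injective (fun e : Fin 2 => ((1 : Fin 2), e)) :=
    fun a b hab => by simpa using hab
  have e0 : m (1, 0) = d 0 := by
    rw [← hd]; exact Finsupp.mapDomain_apply hinj d 0
  have e1 : m (1, 1) = d 1 := by
    rw [← hd]; exact Finsupp.mapDomain_apply hinj d 1
  have e2 : m (0, 0) = 0 := by
    rw [← hd]; exact Finsupp.mapDomain_of_notMem_range _ _ (by simp)
  have e3 : m (0, 1) = 0 := by
    rw [← hd]; exact Finsupp.mapDomain_of_notMem_range _ _ (by simp)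
  rw [e0, e1, e2, e3]
  exact ⟨rfl, h1⟩

/-- an invariant form, unique in its degree -/
structure QData (H : Finset ℍ[ℝ]) (q : MvPolynomial (Fin 2) ℂ) (e : ℕ) : Prop where
  ne : q ≠ 0
  hom : q.IsHomogeneous e
  inv : Inv H q
  uniq : ∀ Q : MvPolynomial (Fin 2) ℂ, Q.IsHomogeneous e → Inv H Q → ∃ c : ℂ, Q = C c * q

/-- the semi-invariant -/
noncomputable def PP (W : Finset (Matrix (Fin 2) (Fin 2) ℍ[ℝ])) (q : MvPolynomial (Fin 2) ℂ) : Pol :=
  Del (setR W) * (inc 0 q * inc 1 q)

lemma evn_PP (W : Finset (Matrix (Fin 2) (Fin 2) ℍ[ℝ])) (q : MvPolynomial (Fin 2) ℂ)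
    (p : Fin 2 → ℍ[ℝ]) :
    evn (PP W q) p = evn (Del (setR W)) p * (ev q (p 0) * ev q (p 1)) := by
  rw [PP, evn_mul, evn_mul, evn_inc, evn_inc]

lemma del_ne_zero {x : ℍ[ℝ]} (hx : x ≠ 0) : del x ≠ 0 := by
  intro h
  have h1 : ∀ p : Fin 2 → ℍ[ℝ], om (p 1) (x * p 0) = 0 := by
    intro p
    rw [← evn_del, h]; simp [evn]
  have h2 : qvec 1 ≠ 0 := by
    intro h'
    have := congrArg Complex.re (congrFun h' 0)
    simp [qvec] at this
  obtain ⟨v, hv⟩ := exists_det2_ne_zero h2
  obtain ⟨v', rfl⟩ := qvec_surj v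
  apply hv
  have := h1 ![x⁻¹, v']
  simp only [Matrix.cons_val_zero, Matrix.cons_val_one] at this
  rw [mul_inv_cancel₀ hx] at this
  exact this

lemma Del_ne_zero {R : Finset ℍ[ℝ]} (h0 : (0 : ℍ[ℝ]) ∉ R) : Del R ≠ 0 := by
  rw [Del, Finset.prod_ne_zero_iff]
  intro x hx
  exact del_ne_zero (fun h => h0 (h ▸ (mem_half.mp hx).1))

lemma PP_mem_BH (W : Finset (Matrix (Fin 2) (Fin 2) ℍ[ℝ])) {q : MvPolynomial (Fin 2) ℂ} {e : ℕ}
    (hq : q.IsHomogeneous e) :
    PP W q ∈ BH ((half (setR W)).card + e) ((half (setR W)).card + e) := by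
  have h1 := mul_mem_BH (Del_mem_BH (setR W)) (mul_mem_BH (inc0_mem_BH hq) (inc1_mem_BH hq))
  simpa [PP] using h1

section mono

variable {W : Finset (Matrix (Fin 2) (Fin 2) ℍ[ℝ])} (hW : Mono W)

include hW

lemma PP_ne_zero {q : MvPolynomial (Fin 2) ℂ} {e : ℕ} (hq : QData (grpH W) q e) : PP W q ≠ 0 := by
  rw [PP]
  exact mul_ne_zero (Del_ne_zero (zero_notMem_R hW)) (mul_ne_zero (inc_ne_zero _ hq.ne)
    (inc_ne_zero _ hq.ne))

lemma q_char {q : MvPolynomial (Fin 2) ℂ} {e : ℕ} (hq : QData (grpH W) q e) {a : ℍ[ℝ]}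
    (ha : a ∈ grpK W) : ∃ c : ℂ, ∀ p, ev q (a * p) = c * ev q p := by
  have ha0 := ne_zero_of_norm ((ugrp_K hW).norm a ha)
  obtain ⟨c, hc⟩ := hq.uniq (subst (qmat a) q) (subst_isHomogeneous _ hq.hom) (by
    intro x hx p
    rw [ev_subst, ev_subst]
    have h1 : a * (x * p) = (a * x * a⁻¹) * (a * p) := by
      simp only [mul_assoc]
      rw [← mul_assoc a⁻¹ a, inv_mul_cancel₀ ha0, one_mul]
    rw [h1, hq.inv _ (H_normal hW hx ha)])
  refine ⟨c, fun p => ?_⟩
  rw [← ev_subst, hc, ev_mul]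
  simp [ev]

/-- `PP` is a semi-invariant. -/
lemma PP_semi {q : MvPolynomial (Fin 2) ℂ} {e : ℕ} (hq : QData (grpH W) q e)
    {w : Matrix (Fin 2) (Fin 2) ℍ[ℝ]} (hw : w ∈ W) : ∃ c : ℂ, act w (PP W q) = C c * PP W q := by
  obtain ⟨κ, _, hκ⟩ := Del_sign hW hw
  have hκ' : ∀ p, evn (Del (setR W)) (w.mulVec p) = κ * evn (Del (setR W)) p := by
    intro p
    rw [← evn_act, hκ, evn_mul, evn_C]
  obtain ⟨a, b, ha, hb, h1 | h1⟩ := hW.form _ hw
  · subst h1
    obtain ⟨c, hc⟩ := q_char hW hq (mem_K_of_dg hW hw).1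
    obtain ⟨d, hd⟩ := q_char hW hq (mem_K_of_dg hW hw).2
    refine ⟨κ * (c * d), pol_ext (fun p => ?_)⟩
    rw [evn_act, evn_PP, hκ', evn_mul, evn_C, evn_PP, dg_mulVec]
    simp only [Matrix.cons_val_zero, Matrix.cons_val_one]
    rw [hc, hd]
    ring
  · subst h1
    obtain ⟨c, hc⟩ := q_char hW hq (mem_K_of_ag hW hw).1
    obtain ⟨d, hd⟩ := q_char hW hq (mem_K_of_ag hW hw).2
    refine ⟨κ * (c * d), pol_ext (fun p => ?_)⟩
    rw [evn_act, evn_PP, hκ', evn_mul, evn_C, evn_PP, ag_mulVec]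
    simp only [Matrix.cons_val_zero, Matrix.cons_val_one]
    rw [hc, hd]
    ring

/-- at a reflection the sign of `Del` is `-1` -/
lemma Del_refl {x : ℍ[ℝ]} (hx : x ∈ setR W) (p : Fin 2 → ℍ[ℝ]) :
    evn (Del (setR W)) ((ag x⁻¹ x).mulVec p) = - evn (Del (setR W)) p := by
  classical
  have hxn := R_norm hW hx
  have hx0 := ne_zero_of_norm hxn
  obtain ⟨κ, hκ1, hκ⟩ := Del_sign hW (mem_setR.mp hx).2
  -- representative
  obtain ⟨s, hs, y, hy, hxy⟩ : ∃ s : ℝ, (s = 1 ∨ s = -1) ∧ ∃ y ∈ half (setR W), y = s • x := by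
    by_cases hp : qpos x
    · exact ⟨1, Or.inl rfl, x, mem_half.mpr ⟨hx, hp⟩, by simp⟩
    · refine ⟨-1, Or.inr rfl, -x, mem_half.mpr ⟨neg_mem_R hW hx, ?_⟩, by simp⟩
      exact (qpos_neg hx0).mpr hp
  set D' : Pol := ∏ z ∈ (half (setR W)).erase y, del z with hD'
  have hfac : Del (setR W) = del y * D' := by
    rw [Del, ← Finset.mul_prod_erase _ _ hy]
  have hdel : act (ag x⁻¹ x) (del y) = - del y := by
    apply pol_ext
    intro p
    rw [evn_act, evn_del, ag_mulVec]
    have e1 : evn (-del y) p = - evn (del y) p := by simp [evn]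
    rw [e1, evn_del]
    simp only [Matrix.cons_val_zero, Matrix.cons_val_one]
    have e2 : y * (x⁻¹ * p 1) = s • p 1 := by
      rw [hxy, smul_mul_assoc, ← mul_assoc, mul_inv_cancel₀ hx0, one_mul]
    have e3 : y * p 0 = s • (x * p 0) := by
      rw [hxy, smul_mul_assoc]
    rw [e2, e3]
    rcases hs with rfl | rfl
    · rw [one_smul, one_smul, om_swap]
    · rw [neg_one_smul, neg_one_smul, om_neg_right, om_neg_right, om_swap]
  have h1 : act (ag x⁻¹ x) D' = C (-κ) * D' := by
    have h2 : del y * (act (ag x⁻¹ x) D' - C (-κ) * D') = 0 := by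
      have h3 : act (ag x⁻¹ x) (Del (setR W)) = - del y * act (ag x⁻¹ x) D' := by
        rw [hfac, map_mul, hdel]
      rw [hκ, hfac] at h3
      rw [C_neg]
      linear_combination h3
    have h4 := (mul_eq_zero.mp h2).resolve_left
      (del_ne_zero (fun h => zero_notMem_R hW (h ▸ (mem_half.mp hy).1)))
    exact sub_eq_zero.mp h4
  obtain ⟨u, hu⟩ := exists_ev_ne_zero (gp_ne_zero (ugrp_K hW))
  have h5 := evn_act (ag x⁻¹ x) D' ![u, x * u]
  have h6 : (ag x⁻¹ x).mulVec ![u, x * u] = ![u, x * u] := by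
    rw [ag_mulVec]
    simp only [Matrix.cons_val_zero, Matrix.cons_val_one]
    rw [← mul_assoc, inv_mul_cancel₀ hx0, one_mul]
  rw [h6, h1, evn_mul, evn_C] at h5
  have h7 : evn D' ![u, x * u] ≠ 0 := by
    rw [hD', evn_prod, Finset.prod_ne_zero_iff]
    intro z hz
    rw [evn_del]
    simp only [Matrix.cons_val_zero, Matrix.cons_val_one]
    rw [Finset.mem_erase, mem_half] at hz
    have hz0 : z ≠ 0 := fun h => zero_notMem_R hW (h ▸ hz.2.1)
    refine good_om (ugrp_K hW) hu (R_sub_K hW hx) (R_sub_K hW hz.2.1) ?_ ?_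
    · intro h
      apply hz.1
      rcases hs with rfl | rfl
      · rw [hxy, one_smul, h]
      · exfalso
        rw [neg_one_smul] at hxy
        rw [mem_half, hxy, qpos_neg hx0, h] at hy
        exact hy.2 hz.2.2
    · intro h
      rcases hs with rfl | rfl
      · rw [one_smul] at hxy
        rw [mem_half, hxy, h, qpos_neg hz0] at hy
        exact hy.2 hz.2.2
      · apply hz.1
        rw [hxy, neg_one_smul, h, neg_neg]
  have h8 : κ = -1 := by
    have : (-κ - 1) * evn D' ![u, x * u] = 0 := by linear_combination h5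
    have := (mul_eq_zero.mp this).resolve_right h7
    linear_combination -this
  rw [← evn_act, hκ, h8, evn_mul, evn_C]
  ring

/-- the character of `PP` is `-1` on the antidiagonal reflections -/
lemma PP_refl {q : MvPolynomial (Fin 2) ℂ} {e : ℕ} (hq : QData (grpH W) q e)
    {x : ℍ[ℝ]} (hx : x ∈ setR W) : act (ag x⁻¹ x) (PP W q) = - PP W q := by
  have hxn := R_norm hW hx
  have hx0 := ne_zero_of_norm hxn
  have hxK := R_sub_K hW hx
  obtain ⟨c, hc⟩ := q_char hW hq hxK
  obtain ⟨d, hd⟩ := q_char hW hq ((ugrp_K hW).inv x hxK)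
  obtain ⟨u, hu⟩ := exists_ev_ne_zero hq.ne
  have hcd : c * d = 1 := by
    have h1 := hc (x⁻¹ * u)
    rw [hd, ← mul_assoc, mul_inv_cancel₀ hx0, one_mul] at h1
    have : (c * d - 1) * ev q u = 0 := by linear_combination -h1
    have := (mul_eq_zero.mp this).resolve_right hu
    linear_combination this
  apply pol_ext
  intro p
  have e1 : evn (-PP W q) p = - evn (PP W q) p := by simp [evn]
  rw [evn_act, e1, evn_PP, Del_refl hW hx, evn_PP, ag_mulVec]
  simp only [Matrix.cons_val_zero, Matrix.cons_val_one]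
  rw [hc, hd]
  linear_combination (- (evn (Del (setR W)) p * (ev q (p 0) * ev q (p 1)))) * hcd

/-- quotient of a semi-invariant by the reflection factors, at a generic point -/
lemma semi_quot {q : MvPolynomial (Fin 2) ℂ} {e : ℕ} (hq : QData (grpH W) q e)
    {f : Pol} {m d : ℕ} (hf : f ∈ BH m m) (hm : m = (half (setR W)).card + d)
    (hfs : ∀ w ∈ W, ∀ c : ℂ, act w (PP W q) = C c * PP W q → act w f = C c * f)
    {u : ℍ[ℝ]} (hu : ev (gp (grpK W)) u ≠ 0) (huq : ev q u ≠ 0) :
    ∃ Q : MvPolynomial (Fin 2) ℂ, Q.IsHomogeneous d ∧ Inv (grpH W) Q ∧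
      pe0 u f = plin (half (setR W)) u * Q := by
  have hK := ugrp_K hW
  have hhalf : ∀ x ∈ half (setR W), x ∈ setR W := fun x hx => (mem_half.mp hx).1
  have hF : (pe0 u f).IsHomogeneous ((half (setR W)).card + d) := by
    rw [← hm]; exact pe0_isHomogeneous hf u
  have hpp : ∀ i ∈ half (setR W), ∀ j ∈ half (setR W), i ≠ j →
      det2 (qvec (i * u)) (qvec (j * u)) ≠ 0 := by
    intro i hi j hj hij
    refine good_om hK hu (R_sub_K hW (hhalf i hi)) (R_sub_K hW (hhalf j hj)) hij ?_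
    intro h
    have hj0 : j ≠ 0 := fun h' => zero_notMem_R hW (h' ▸ hhalf j hj)
    rw [mem_half, h, qpos_neg hj0] at hi
    exact hi.2 (mem_half.mp hj).2
  have hvan : ∀ x ∈ half (setR W), eval (qvec (x * u)) (pe0 u f) = 0 := by
    intro x hx
    have hxR := hhalf x hx
    have hx0 := ne_zero_of_norm (R_norm hW hxR)
    have h1 := hfs _ (mem_setR.mp hxR).2 (-1) (by rw [PP_refl hW hq hxR]; simp)
    have h2 := evn_act (ag x⁻¹ x) f ![u, x * u]
    have h6 : (ag x⁻¹ x).mulVec ![u, x * u] = ![u, x * u] := by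
      rw [ag_mulVec]
      simp only [Matrix.cons_val_zero, Matrix.cons_val_one]
      rw [← mul_assoc, inv_mul_cancel₀ hx0, one_mul]
    rw [h6, h1, evn_mul, evn_C] at h2
    have h3 : evn f ![u, x * u] = 0 := by linear_combination (-1/2 : ℂ) * h2
    rw [← ev_pe0] at h3
    exact h3
  obtain ⟨Q, hQ, hFQ⟩ := exists_quot_of_zeros (half (setR W)) (fun x => qvec (x * u))
    (fun x hx => good_qvec_ne hu (R_sub_K hW (hhalf x hx))) hpp hF hvan
  have hplin : plin (half (setR W)) u ≠ 0 := by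
    rw [plin, Finset.prod_ne_zero_iff]
    intro x hx
    exact lin_ne_zero (good_qvec_ne hu (R_sub_K hW (hhalf x hx)))
  have hFQ' : pe0 u f = plin (half (setR W)) u * Q := hFQ
  refine ⟨Q, hQ, ?_, hFQ'⟩
  intro y hy p
  obtain ⟨c, hc⟩ := PP_semi hW hq (mem_grpH.mp hy)
  have hfc := hfs _ (mem_grpH.mp hy) c hc
  -- transformation of `plin`
  have h1 : subst (qmat y) (plin (half (setR W)) u) = C c * plin (half (setR W)) u := by
    have h2 : q * (subst (qmat y) (plin (half (setR W)) u) - C c * plin (half (setR W)) u) = 0 := by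
      apply poly_ext
      intro v
      have h3 := evn_act (dg 1 y) (PP W q) ![u, v]
      rw [hc, evn_mul, evn_C, evn_PP, evn_PP, dg_mulVec] at h3
      simp only [Matrix.cons_val_zero, Matrix.cons_val_one, one_mul] at h3
      rw [hq.inv y hy v, ← ev_pe0, ← ev_pe0, pe0_Del] at h3
      have h4 : ev q u * ev q v * (ev (plin (half (setR W)) u) (y * v) -
          c * ev (plin (half (setR W)) u) v) = 0 := by linear_combination -h3
      rw [mul_assoc] at h4
      have h5 := (mul_eq_zero.mp h4).resolve_left huq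
      rw [ev_mul]
      have e1 : ev (subst (qmat y) (plin (half (setR W)) u) - C c * plin (half (setR W)) u) v =
          ev (plin (half (setR W)) u) (y * v) - c * ev (plin (half (setR W)) u) v := by
        rw [← ev_subst]
        simp [ev]
      rw [e1, h5]
      simp [ev]
    exact sub_eq_zero.mp ((mul_eq_zero.mp h2).resolve_left hq.ne)
  have h2 : subst (qmat y) (pe0 u f) = C c * pe0 u f := by
    apply poly_ext
    intro v
    rw [ev_subst, ev_pe0, ev_mul, ev_pe0]
    have h3 := evn_act (dg 1 y) f ![u, v]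
    rw [hfc, evn_mul, evn_C, dg_mulVec] at h3
    simp only [Matrix.cons_val_zero, Matrix.cons_val_one, one_mul] at h3
    rw [← h3]
    simp [ev]
  rw [hFQ', map_mul, h1] at h2
  have hc0 : c ≠ 0 := by
    rintro rfl
    rw [C_0, zero_mul] at h1
    have h7 := congrArg (fun g => ev g (y⁻¹ * u)) h1
    have hy0 := ne_zero_of_norm ((ugrp_H hW).norm y hy)
    apply hplin
    apply poly_ext
    intro v
    have h8 := congrArg (fun g => ev g (y⁻¹ * v)) h1
    simp only [ev_subst] at h8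
    rw [← mul_assoc, mul_inv_cancel₀ hy0, one_mul] at h8
    rw [h8]
    simp [ev]
  have h3 : subst (qmat y) Q = Q := by
    have h4 : (C c * plin (half (setR W)) u) * (subst (qmat y) Q - Q) = 0 := by
      linear_combination h2
    have h5 : (C c * plin (half (setR W)) u) ≠ 0 :=
      mul_ne_zero (by simpa using hc0) hplin
    exact sub_eq_zero.mp ((mul_eq_zero.mp h4).resolve_left h5)
  rw [← ev_subst, h3]

/-- semi-invariants of small degree vanish -/
lemma semi_small {q : MvPolynomial (Fin 2) ℂ} {e : ℕ} (hq : QData (grpH W) q e)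
    {f : Pol} {m : ℕ} (hf : f ∈ BH m m) (hm : m < (half (setR W)).card)
    (hfs : ∀ w ∈ W, ∀ c : ℂ, act w (PP W q) = C c * PP W q → act w f = C c * f) : f = 0 := by
  have hK := ugrp_K hW
  have hhalf : ∀ x ∈ half (setR W), x ∈ setR W := fun x hx => (mem_half.mp hx).1
  have key : ∀ u, ev (gp (grpK W)) u ≠ 0 → pe0 u f = 0 := by
    intro u hu
    have hpp : ∀ i ∈ half (setR W), ∀ j ∈ half (setR W), i ≠ j →
        det2 (qvec (i * u)) (qvec (j * u)) ≠ 0 := by
      intro i hi j hj hij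
      refine good_om hK hu (R_sub_K hW (hhalf i hi)) (R_sub_K hW (hhalf j hj)) hij ?_
      intro h
      have hj0 : j ≠ 0 := fun h' => zero_notMem_R hW (h' ▸ hhalf j hj)
      rw [mem_half, h, qpos_neg hj0] at hi
      exact hi.2 (mem_half.mp hj).2
    have hvan : ∀ x ∈ half (setR W), eval (qvec (x * u)) (pe0 u f) = 0 := by
      intro x hx
      have hxR := hhalf x hx
      have hx0 := ne_zero_of_norm (R_norm hW hxR)
      have h1 := hfs _ (mem_setR.mp hxR).2 (-1) (by rw [PP_refl hW hq hxR]; simp)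
      have h2 := evn_act (ag x⁻¹ x) f ![u, x * u]
      have h6 : (ag x⁻¹ x).mulVec ![u, x * u] = ![u, x * u] := by
        rw [ag_mulVec]
        simp only [Matrix.cons_val_zero, Matrix.cons_val_one]
        rw [← mul_assoc, inv_mul_cancel₀ hx0, one_mul]
      rw [h6, h1, evn_mul, evn_C] at h2
      have h3 : evn f ![u, x * u] = 0 := by linear_combination (-1/2 : ℂ) * h2
      rw [← ev_pe0] at h3
      exact h3
    exact eq_zero_of_zeros (half (setR W)) (fun x => qvec (x * u))
      (fun x hx => good_qvec_ne hu (R_sub_K hW (hhalf x hx))) hpp (pe0_isHomogeneous hf u) hm hvan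
  apply pol_ext
  intro p
  have h1 : pe1 (p 1) f = pe1 (p 1) 0 := by
    refine eq_of_generic (gp_ne_zero hK) (fun u hu => ?_)
    rw [ev_pe1, ← ev_pe0, key u hu, map_zero]
    simp [ev]
  have h2 := congrArg (fun g => ev g (p 0)) h1
  simp only [ev_pe1] at h2
  have h3 : ![p 0, p 1] = p := by
    refine funext (fun i => ?_)
    fin_cases i <;> rfl
  rwa [h3] at h2

/-- no semi-invariants when there are no invariant forms of the complementary degree -/
lemma semi_none {q : MvPolynomial (Fin 2) ℂ} {e : ℕ} (hq : QData (grpH W) q e)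
    {f : Pol} {m d : ℕ} (hf : f ∈ BH m m) (hm : m = (half (setR W)).card + d)
    (hd : ∀ Q : MvPolynomial (Fin 2) ℂ, Q.IsHomogeneous d → Inv (grpH W) Q → Q = 0)
    (hfs : ∀ w ∈ W, ∀ c : ℂ, act w (PP W q) = C c * PP W q → act w f = C c * f) : f = 0 := by
  have hK := ugrp_K hW
  apply pol_ext
  intro p
  have h1 : pe1 (p 1) f = pe1 (p 1) 0 := by
    refine eq_of_generic (mul_ne_zero (gp_ne_zero hK) hq.ne) (fun u hu => ?_)
    rw [ev_mul] at hu
    obtain ⟨Q, hQ, hinv, hFQ⟩ := semi_quot hW hq hf hm hfs (left_ne_zero_of_mul hu)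
      (right_ne_zero_of_mul hu)
    rw [ev_pe1, ← ev_pe0, hFQ, hd Q hQ hinv, mul_zero]
    simp [ev]
  have h2 := congrArg (fun g => ev g (p 0)) h1
  simp only [ev_pe1] at h2
  have h3 : ![p 0, p 1] = p := by
    refine funext (fun i => ?_)
    fin_cases i <;> rfl
  rwa [h3] at h2

/-- the semi-invariant is unique -/
theorem semi_unique {q : MvPolynomial (Fin 2) ℂ} {e : ℕ} (hq : QData (grpH W) q e)
    {f : Pol} {m : ℕ} (hf : f ∈ BH m m) (hm : m = (half (setR W)).card + e)
    (hfs : ∀ w ∈ W, ∀ c : ℂ, act w (PP W q) = C c * PP W q → act w f = C c * f) :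
    ∃ c : ℂ, f = C c * PP W q := by
  have hK := ugrp_K hW
  -- at each good point
  have key : ∀ u, ev (gp (grpK W)) u ≠ 0 → ev q u ≠ 0 →
      ∃ c : ℂ, ∀ v, evn f ![u, v] = evn (Del (setR W)) ![u, v] * (c * ev q v) := by
    intro u hu huq
    obtain ⟨Q, hQ, hinv, hFQ⟩ := semi_quot hW hq hf hm hfs hu huq
    obtain ⟨c, hc⟩ := hq.uniq Q hQ hinv
    refine ⟨c, fun v => ?_⟩
    rw [← ev_pe0, hFQ, ← ev_pe0, pe0_Del, hc, ev_mul, ev_mul]
    simp [ev]
  choose! c hc using key
  -- antisymmetry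
  have h1R := one_mem_R hW
  have hfsw : ∀ u v, evn f ![v, u] = - evn f ![u, v] := by
    intro u v
    have h1 := hfs _ (mem_setR.mp h1R).2 (-1) (by rw [PP_refl hW hq h1R]; simp)
    have h2 := evn_act (ag 1⁻¹ 1) f ![u, v]
    rw [h1, evn_mul, evn_C, ag_mulVec] at h2
    simp only [Matrix.cons_val_zero, Matrix.cons_val_one, inv_one, one_mul] at h2
    rw [← h2]; ring
  have hDsw : ∀ u v, evn (Del (setR W)) ![v, u] = - evn (Del (setR W)) ![u, v] := by
    intro u v
    have h2 := Del_refl hW h1R ![u, v]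
    rw [ag_mulVec] at h2
    simpa using h2
  obtain ⟨u, hu⟩ := exists_ev_ne_zero (mul_ne_zero (gp_ne_zero hK) hq.ne)
  rw [ev_mul] at hu
  have hu1 := left_ne_zero_of_mul hu
  have hu2 := right_ne_zero_of_mul hu
  have hplin : plin (half (setR W)) u ≠ 0 := by
    rw [plin, Finset.prod_ne_zero_iff]
    intro x hx
    exact lin_ne_zero (good_qvec_ne hu1 (R_sub_K hW (mem_half.mp hx).1))
  refine ⟨c u / ev q u, pol_ext (fun p => ?_)⟩
  have h1 : pe1 (p 1) f = pe1 (p 1) (C (c u / ev q u) * PP W q) := by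
    refine eq_of_generic (mul_ne_zero (mul_ne_zero (gp_ne_zero hK) hq.ne) hplin) (fun v hv => ?_)
    rw [ev_mul, ev_mul] at hv
    have hv3 := right_ne_zero_of_mul hv
    have hv1 := left_ne_zero_of_mul (left_ne_zero_of_mul hv)
    have hv2 := right_ne_zero_of_mul (left_ne_zero_of_mul hv)
    rw [← pe0_Del, ev_pe0] at hv3
    have e1 := hc u hu1 hu2 v
    have e2 := hc v hv1 hv2 u
    rw [hfsw, hDsw, e1] at e2
    have e3 : evn (Del (setR W)) ![u, v] * (c u * ev q v - c v * ev q u) = 0 := by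
      linear_combination -e2
    have e4 := (mul_eq_zero.mp e3).resolve_left hv3
    have e5 : c v = c u / ev q u * ev q v := by
      field_simp
      linear_combination -e4
    rw [ev_pe1, ev_pe1, evn_mul, evn_C, evn_PP, hc v hv1 hv2, e5]
    simp only [Matrix.cons_val_zero, Matrix.cons_val_one]
    ring
  have h2 := congrArg (fun g => ev g (p 0)) h1
  simp only [ev_pe1] at h2
  have h3 : ![p 0, p 1] = p := by
    refine funext (fun i => ?_)
    fin_cases i <;> rfl
  rwa [h3] at h2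

end mono

end Run7.h580
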