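import Pool.Agent.Run7.h580.Irr
import Pool.Agent.Run7.h580.Semi

/-!
Equivariance and the main theorem for monomial groups in standard form.
-/

namespace Run7.h580

open MvPolynomial Quaternion

/-- monomial action on the big module -/
noncomputable def tau (a : Ix → Ix → ℂ) (σ : Fin 2 → Fin 2) (s : ℂ) : Md →ₗ[ℂ] Md where
  toFun F := fun c => s • subst a (F (c ∘ σ))
  map_add' F G := by
    funext c
    simp only [Pi.add_apply, map_add, smul_add]
  map_smul' r F := by
    funext c
    simp only [Pi.smul_apply, RingHom.id_apply, map_smul]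
    rw [smul_comm]

lemma tau_apply (a : Ix → Ix → ℂ) (σ : Fin 2 → Fin 2) (s : ℂ) (F : Md) (c : Fin 2 → Bool) :
    tau a σ s F c = s • subst a (F (c ∘ σ)) := rfl

/-- monomial block matrices of determinant one -/
structure Blk (a : Ix → Ix → ℂ) (σ : Fin 2 → Fin 2) : Prop where
  inj : Function.Injective σ
  zero : ∀ k e l e', l ≠ σ k → a (k, e) (l, e') = 0
  det : ∀ k, a (k, 0) (σ k, 0) * a (k, 1) (σ k, 1) - a (k, 0) (σ k, 1) * a (k, 1) (σ k, 0) = 1

section blk

variable {a : Ix → Ix → ℂ} {σ : Fin 2 → Fin 2} (h : Blk a σ)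

include h

lemma Blk.sum {Q : Type*} [AddCommMonoid Q] (k e : Fin 2) (g : ℂ → Ix → Q) (hg : ∀ j, g 0 j = 0) :
    ∑ j, g (a (k, e) j) j = ∑ e', g (a (k, e) (σ k, e')) (σ k, e') := by
  rw [Fintype.sum_prod_type]
  rw [Finset.sum_eq_single (σ k)]
  · intro l _ hl
    refine Finset.sum_eq_zero (fun e' _ => ?_)
    rw [h.zero k e l e' hl, hg]
  · intro hn
    exact absurd (Finset.mem_univ _) hn

lemma Blk.subst_X (k e : Fin 2) : subst a (X (k, e)) = ∑ e', C (a (k, e) (σ k, e')) * X (σ k, e') := by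
  rw [Run7.h580.subst_X]
  exact h.sum k e (fun r j => C r * X j) (fun j => by simp)

lemma Blk.sd_X' (k e l e'' : Fin 2) :
    ∑ e', a (k, e) (σ k, e') • sd (σ k, e') (subst a (X (l, e''))) = C (sf (k, e) (l, e'')) := by
  have key : ∀ e', sd (σ k, e') (subst a (X (l, e''))) =
      C (∑ x, a (l, e'') (σ l, x) * sf (σ k, e') (σ l, x)) := by
    intro e'
    rw [h.subst_X, map_sum, map_sum]
    refine Finset.sum_congr rfl (fun x _ => ?_)
    rw [Derivation.leibniz, sd_X, derivation_C, smul_zero, add_zero, smul_eq_mul, C_mul]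
  have e1 : ∑ e', a (k, e) (σ k, e') • sd (σ k, e') (subst a (X (l, e''))) =
      C (∑ e', a (k, e) (σ k, e') * ∑ x, a (l, e'') (σ l, x) * sf (σ k, e') (σ l, x)) := by
    rw [map_sum]
    refine Finset.sum_congr rfl (fun e' _ => ?_)
    rw [key, MvPolynomial.smul_eq_C_mul, C_mul]
  rw [e1]
  congr 1
  by_cases hkl : k = l
  · subst hkl
    have hd := h.det k
    have hs : ∀ x y, sf (σ k, x) (σ k, y) = sf (k, x) (k, y) := by
      intro x y; simp [sf]
    simp only [hs, Fin.sum_univ_two]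
    have s00 : sf (k, 0) (k, 0) = 0 := by simp [sf]
    have s01 : sf (k, 0) (k, 1) = 1 := by simp [sf]
    have s10 : sf (k, 1) (k, 0) = -1 := by simp [sf]
    have s11 : sf (k, 1) (k, 1) = 0 := by simp [sf]
    rw [s00, s01, s10, s11]
    have he : ∀ z : Fin 2, z = 0 ∨ z = 1 := by
      intro z; fin_cases z <;> simp
    rcases he e with rfl | rfl <;> rcases he e'' with rfl | rfl
    · rw [s00]; ring
    · rw [s01]; linear_combination hd
    · rw [s10]; linear_combination -hd
    · rw [s11]; ring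
  · have hσ : σ k ≠ σ l := fun h' => hkl (h.inj h')
    have h1 : ∀ e' x, sf (σ k, e') (σ l, x) = 0 := fun e' x => by rw [sf, if_neg hσ]
    have h2 : sf (k, e) (l, e'') = 0 := by rw [sf, if_neg hkl]
    simp [h1, h2]

/-- chain rule -/
lemma Blk.chain (k e : Fin 2) (G : Pol) :
    ∑ e', a (k, e) (σ k, e') • sd (σ k, e') (subst a G) = subst a (sd (k, e) G) := by
  induction G using MvPolynomial.induction_on with
  | C r =>
    have h1 : subst a (C r) = C r := by simp [subst]
    rw [h1, derivation_C, map_zero]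
    refine Finset.sum_eq_zero (fun e' _ => ?_)
    rw [derivation_C, smul_zero]
  | add p q hp hq =>
    simp only [map_add, smul_add, Finset.sum_add_distrib]
    rw [hp, hq]
  | mul_X p n hp =>
    obtain ⟨l, e''⟩ := n
    have hX := h.sd_X' k e l e''
    rw [map_mul, Derivation.leibniz, sd_X, map_add, smul_eq_mul, smul_eq_mul, map_mul, map_mul]
    have h1 : subst a (C (sf (k, e) (l, e''))) = C (sf (k, e) (l, e'')) := by simp [subst]
    rw [h1, ← hX, ← hp, Finset.mul_sum, Finset.mul_sum, ← Finset.sum_add_distrib]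
    refine Finset.sum_congr rfl (fun e' _ => ?_)
    rw [Derivation.leibniz, smul_eq_mul, smul_eq_mul, smul_add, mul_smul_comm, mul_smul_comm]

/-- equivariance -/
lemma Blk.equiv (s : ℂ) (i : Ix) (F : Md) :
    tau a σ s (XX i F) = ∑ j, a i j • XX j (tau a σ s F) := by
  obtain ⟨k, e⟩ := i
  rw [h.sum k e (fun r j => r • XX j (tau a σ s F)) (fun j => by simp)]
  funext c
  rw [tau_apply, Finset.sum_apply]
  have hup : ∀ b, Function.update c (σ k) b ∘ σ = Function.update (c ∘ σ) k b :=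
    fun b => Function.update_comp_eq_of_injective _ h.inj _ _
  rcases hc : c (σ k) with _ | _
  · rw [XX_false _ _ (by exact hc), ← h.chain]
    rw [Finset.smul_sum]
    refine Finset.sum_congr rfl (fun e' _ => ?_)
    rw [Pi.smul_apply, XX_false _ _ (by exact hc), tau_apply, hup, Derivation.map_smul, smul_comm]
  · rw [XX_true _ _ (by exact hc), map_mul, h.subst_X, Finset.sum_mul, Finset.smul_sum]
    refine Finset.sum_congr rfl (fun e' _ => ?_)
    rw [Pi.smul_apply, XX_true _ _ (by exact hc), tau_apply, hup, ← MvPolynomial.smul_eq_C_mul,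
      mul_smul_comm, smul_mul_assoc, smul_comm]

end blk

lemma qmat_zero (i j : Fin 2) : qmat 0 i j = 0 := by
  fin_cases i <;> fin_cases j <;> simp [qmat] <;> apply Complex.ext <;> simp

open Classical in
/-- the permutation underlying a monomial matrix -/
noncomputable def sig (w : Matrix (Fin 2) (Fin 2) ℍ[ℝ]) : Fin 2 → Fin 2 :=
  if w 0 0 = 0 then ![1, 0] else id

lemma sig_dg {x y : ℍ[ℝ]} (hx : x ≠ 0) : sig (dg x y) = id := by
  rw [sig, if_neg]
  simpa [dg] using hx

lemma sig_ag (x y : ℍ[ℝ]) : sig (ag x y) = ![1, 0] := by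
  rw [sig, if_pos]
  simp [ag]

lemma blk_dg {x y : ℍ[ℝ]} (hx : normSq x = 1) (hy : normSq y = 1) :
    Blk (gmat (dg x y)) (sig (dg x y)) := by
  rw [sig_dg (ne_zero_of_norm hx)]
  refine ⟨Function.injective_id, ?_, ?_⟩
  · intro k e l e' hl
    simp only [id] at hl
    have : dg x y k l = 0 := by
      fin_cases k <;> fin_cases l <;> simp [dg] at hl ⊢
    rw [gmat]
    simp only
    rw [this, qmat_zero]
  · intro k
    simp only [gmat, id]
    rw [det_qmat]
    have : normSq (dg x y k k) = 1 := by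
      fin_cases k
      · simpa [dg] using hx
      · simpa [dg] using hy
    rw [this]
    simp

lemma blk_ag {x y : ℍ[ℝ]} (hx : normSq x = 1) (hy : normSq y = 1) :
    Blk (gmat (ag x y)) (sig (ag x y)) := by
  rw [sig_ag]
  refine ⟨?_, ?_, ?_⟩
  · intro a b hab
    fin_cases a <;> fin_cases b <;> simp at hab ⊢
  · intro k e l e' hl
    have : ag x y k l = 0 := by
      fin_cases k <;> fin_cases l <;> simp [ag] at hl ⊢
    rw [gmat]
    simp only
    rw [this, qmat_zero]
  · intro k
    simp only [gmat]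
    rw [det_qmat]
    have : normSq (ag x y k ((![1, 0] : Fin 2 → Fin 2) k)) = 1 := by
      fin_cases k
      · simpa [ag] using hx
      · simpa [ag] using hy
    rw [this]
    simp

lemma act_mul (w w' : Matrix (Fin 2) (Fin 2) ℍ[ℝ]) (f : Pol) :
    act (w * w') f = act w' (act w f) := by
  apply pol_ext
  intro p
  rw [evn_act, evn_act, evn_act, Matrix.mulVec_mulVec]

lemma act_one (f : Pol) : act 1 f = f := by
  apply pol_ext
  intro p
  rw [evn_act, Matrix.one_mulVec]

/-- scaling -/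
lemma eval_scale {d : Fin 2 → ℕ} {g : Pol} (hg : g ∈ BD d) (r : Fin 2 → ℂ) (v : Ix → ℂ) :
    eval (fun i => r i.1 * v i) g = (r 0 ^ d 0 * r 1 ^ d 1) * eval v g := by
  let T : Pol →ₗ[ℂ] ℂ := (aeval (fun i : Ix => r i.1 * v i)).toLinearMap -
    (r 0 ^ d 0 * r 1 ^ d 1) • (aeval v).toLinearMap
  have hT : ∀ f, T f = eval (fun i => r i.1 * v i) f - (r 0 ^ d 0 * r 1 ^ d 1) * eval v f := by
    intro f; simp [T]
  have h1 : T g ∈ (⊥ : Submodule ℂ ℂ) := by
    refine BD_map T ⊥ (fun m hm => ?_) hg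
    rw [Submodule.mem_bot, hT, eval_monomial, eval_monomial, Finsupp.prod_fintype _ _ (by simp),
      Finsupp.prod_fintype _ _ (by simp)]
    simp only [mul_pow, Finset.prod_mul_distrib]
    rw [Fintype.prod_prod_type (fun i : Ix => r i.1 ^ m i)]
    simp only [Fin.prod_univ_two, ← pow_add]
    rw [hm 0, hm 1]
    ring
  rw [Submodule.mem_bot, hT] at h1
  exact sub_eq_zero.mp h1

lemma evn_neg1 {d : Fin 2 → ℕ} {g : Pol} (hg : g ∈ BD d) :
    act (dg 1 (-1)) g = C ((-1) ^ d 1) * g := by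
  apply pol_ext
  intro p
  rw [evn_act, evn_mul, evn_C, dg_mulVec, evn, evn]
  have h1 := eval_scale hg ![1, -1] (cvec p)
  have h2 : cvec ![1 * p 0, -1 * p 1] = fun i => (![1, -1] : Fin 2 → ℂ) i.1 * cvec p i := by
    ext ⟨k, e⟩
    fin_cases k
    · simp [cvec]
    · simp [cvec, qvec_neg]
  rw [h2, h1]
  simp

lemma evn_neg2 {d : Fin 2 → ℕ} {g : Pol} (hg : g ∈ BD d) :
    act (dg (-1) (-1)) g = C ((-1) ^ (d 0 + d 1)) * g := by
  apply pol_ext
  intro p
  rw [evn_act, evn_mul, evn_C, dg_mulVec, evn, evn]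
  have h1 := eval_scale hg ![-1, -1] (cvec p)
  have h2 : cvec ![-1 * p 0, -1 * p 1] = fun i => (![-1, -1] : Fin 2 → ℂ) i.1 * cvec p i := by
    ext ⟨k, e⟩
    fin_cases k
    · simp [cvec, qvec_neg]
    · simp [cvec, qvec_neg]
  rw [h2, h1]
  simp [pow_add]

section mono

variable {W : Finset (Matrix (Fin 2) (Fin 2) ℍ[ℝ])} (hW : Mono W)

include hW

lemma blk_of_mem {w : Matrix (Fin 2) (Fin 2) ℍ[ℝ]} (hw : w ∈ W) : Blk (gmat w) (sig w) := by
  obtain ⟨x, y, hx, hy, rfl | rfl⟩ := hW.form w hw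
  · exact blk_dg hx hy
  · exact blk_ag hx hy

lemma sig_mul {w w' : Matrix (Fin 2) (Fin 2) ℍ[ℝ]} (hw : w ∈ W) (hw' : w' ∈ W) :
    sig (w * w') = sig w' ∘ sig w := by
  have h2 : (![1, 0] : Fin 2 → Fin 2) ∘ ![1, 0] = id := by
    funext i; fin_cases i <;> rfl
  obtain ⟨x, y, hx, hy, rfl | rfl⟩ := hW.form w hw <;>
    obtain ⟨x', y', hx', hy', rfl | rfl⟩ := hW.form w' hw'
  · rw [dg_mul_dg, sig_dg (ne_zero_of_norm hx), sig_dg (ne_zero_of_norm hx'),
      sig_dg (mul_ne_zero (ne_zero_of_norm hx) (ne_zero_of_norm hx'))]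
    rfl
  · rw [dg_mul_ag, sig_dg (ne_zero_of_norm hx), sig_ag, sig_ag]
    rfl
  · rw [ag_mul_dg, sig_dg (ne_zero_of_norm hx'), sig_ag, sig_ag]
    rfl
  · rw [ag_mul_ag, sig_ag, sig_ag, h2,
      sig_dg (mul_ne_zero (ne_zero_of_norm hx) (ne_zero_of_norm hy'))]

lemma sig_const (w : Matrix (Fin 2) (Fin 2) ℍ[ℝ]) (hw : w ∈ W) (b : Bool) (c : Fin 2 → Bool) :
    c ∘ sig w = (fun _ => b) ↔ c = fun _ => b := by
  have hs : Function.Surjective (sig w) := Finite.injective_iff_surjective.mp (blk_of_mem hW hw).inj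
  constructor
  · intro h
    funext k
    obtain ⟨k', rfl⟩ := hs k
    exact congrFun h k'
  · rintro rfl; rfl

lemma act_ne {w : Matrix (Fin 2) (Fin 2) ℍ[ℝ]} (hw : w ∈ W) {f : Pol} (hf : f ≠ 0) :
    act w f ≠ 0 := by
  obtain ⟨w', _, h1, _⟩ := hW.inv w hw
  intro h
  apply hf
  rw [← act_one f, ← h1, act_mul, h, map_zero]

/-- analysis of the invariants, even case -/
lemma analysis_even (hneg : (-1 : ℍ[ℝ]) ∈ grpH W) {q : MvPolynomial (Fin 2) ℂ} {e M : ℕ}
    (hq : QData (grpH W) q e) (hM : (half (setR W)).card + e = M) {f : Md} (hf : f ∈ LL M)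
    (hinv : ∀ w ∈ W, ∀ r : ℂ, act w (PP W q) = C r * PP W q →
      ∀ c, act w (f (c ∘ sig w)) = C r * f c) :
    ∃ a : ℂ, f = a • (Pi.single (fun _ => false) (PP W q) : Md) := by
  classical
  have hPP : PP W q ∈ BD (fun _ => M) := by
    rw [BD_eq, ← hM]; exact PP_mem_BH W hq.hom
  -- components with `c 1 = true` vanish
  have h1 : ∀ c, c 1 = true → f c = 0 := by
    intro c hc
    have hw := mem_grpH.mp hneg
    have h2 := hinv _ hw _ (evn_neg1 hPP) c
    rw [sig_dg one_ne_zero, Function.comp_id, evn_neg1 (hf c)] at h2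
    have h3 : dd M c 1 = M + 1 := by simp [dd, hc]
    rw [h3, pow_succ, C_mul] at h2
    have h4 : (C (2 * (-1) ^ M) : Pol) * f c = 0 := by
      have h5 : (C (2 : ℂ) : Pol) = 2 := map_ofNat C 2
      have h6 : (C (-1 : ℂ) : Pol) = -1 := by simp
      rw [h6] at h2
      rw [C_mul, h5]
      linear_combination -h2
    refine (mul_eq_zero.mp h4).resolve_left ?_
    rw [C_eq_zero]
    exact mul_ne_zero two_ne_zero (pow_ne_zero _ (by norm_num))
  have h2 : ∀ c, c ≠ (fun _ => false) → f c = 0 := by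
    intro c hc
    by_cases hc1 : c 1 = true
    · exact h1 c hc1
    · have hc0 : c 0 = true := by
        by_contra h0
        apply hc
        funext k
        fin_cases k
        · simpa using h0
        · simpa using hc1
      obtain ⟨r, hr⟩ := PP_semi hW hq hW.swap
      have h3 := hinv _ hW.swap _ hr c
      rw [sig_ag] at h3
      rw [h1 (c ∘ ![1, 0]) (by simpa using hc0), map_zero] at h3
      refine (mul_eq_zero.mp h3.symm).resolve_left ?_
      rw [C_eq_zero]
      rintro rfl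
      rw [C_0, zero_mul] at hr
      exact act_ne hW hW.swap (PP_ne_zero hW hq) hr
  obtain ⟨a, ha⟩ := semi_unique hW hq (f := f (fun _ => false)) (m := M)
    (by have := hf (fun _ => false); rw [BD_eq] at this; simpa [dd] using this) hM.symm
    (by
      intro w hw r hr
      have h3 := hinv w hw r hr (fun _ => false)
      rwa [(sig_const hW w hw false _).mpr rfl] at h3)
  refine ⟨a, ?_⟩
  funext c
  by_cases hc : c = fun _ => false
  · subst hc
    rw [Pi.smul_apply, Pi.single_eq_same, ha, MvPolynomial.smul_eq_C_mul]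
  · rw [h2 c hc, Pi.smul_apply, Pi.single_eq_of_ne hc, smul_zero]

/-- analysis of the invariants, odd case -/
lemma analysis_odd (hneg : (-1 : ℍ[ℝ]) ∉ grpH W) {q : MvPolynomial (Fin 2) ℂ} {M : ℕ}
    (hq : QData (grpH W) q ((grpH W).card - 1))
    (hM : (half (setR W)).card + ((grpH W).card - 1) = M + 1) {f : Md} (hf : f ∈ LL M)
    (hinv : ∀ w ∈ W, ∀ r : ℂ, act w (PP W q) = C r * PP W q →
      ∀ c, act w (f (c ∘ sig w)) = C r * f c) :
    ∃ a : ℂ, f = a • (Pi.single (fun _ => true) (PP W q) : Md) := by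
  classical
  have hPP : PP W q ∈ BD (fun _ => M + 1) := by
    rw [BD_eq, ← hM]; exact PP_mem_BH W hq.hom
  -- mixed components vanish
  have h1 : ∀ c, c 0 ≠ c 1 → f c = 0 := by
    intro c hc
    have h2 := hinv _ hW.neg _ (evn_neg2 hPP) c
    rw [sig_dg (by simp), Function.comp_id, evn_neg2 (hf c)] at h2
    have h3 : dd M c 0 + dd M c 1 = 2 * M + 1 := by
      rcases h0 : c 0 with _ | _ <;> rcases h1 : c 1 with _ | _
      · rw [h0, h1] at hc; exact absurd rfl hc
      · simp [dd, h0, h1]; omega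
      · simp [dd, h0, h1]; omega
      · rw [h0, h1] at hc; exact absurd rfl hc
    rw [h3] at h2
    have e1 : ((-1 : ℂ)) ^ (2 * M + 1) = -1 := by
      rw [pow_succ, pow_mul]; simp
    have e2 : ((-1 : ℂ)) ^ (M + 1 + (M + 1)) = 1 := by
      rw [← two_mul, pow_mul]; simp
    rw [e1, e2, C_neg, C_1, one_mul] at h2
    have h4 : (2 : Pol) * f c = 0 := by linear_combination -h2
    exact (mul_eq_zero.mp h4).resolve_left two_ne_zero
  have hsemi : ∀ b : Bool, ∀ w ∈ W, ∀ r : ℂ, act w (PP W q) = C r * PP W q →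
      act w (f (fun _ => b)) = C r * f (fun _ => b) := by
    intro b w hw r hr
    have h3 := hinv w hw r hr (fun _ => b)
    rwa [(sig_const hW w hw b _).mpr rfl] at h3
  have hf0 : f (fun _ => false) ∈ BH M M := by
    have := hf (fun _ => false); rw [BD_eq] at this; simpa [dd] using this
  have hcard : 0 < (grpH W).card := Finset.card_pos.mpr ⟨1, (ugrp_H hW).one⟩
  have h0 : f (fun _ => false) = 0 := by
    by_cases hh : (grpH W).card = 1
    · refine semi_small hW hq hf0 (by omega) (hsemi false)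
    · obtain ⟨d, hd⟩ : ∃ d, d + 2 = (grpH W).card := ⟨(grpH W).card - 2, by omega⟩
      exact semi_none hW hq hf0 (d := d) (by omega)
        (fun Q hQ hQi => odd_none (ugrp_H hW) hneg hd hQ hQi) (hsemi false)
  obtain ⟨a, ha⟩ := semi_unique hW hq (f := f (fun _ => true)) (m := M + 1)
    (by have := hf (fun _ => true); rw [BD_eq] at this; simpa [dd] using this) hM.symm (hsemi true)
  refine ⟨a, ?_⟩
  funext c
  by_cases hc : c = fun _ => true
  · subst hc
    rw [Pi.smul_apply, Pi.single_eq_same, ha, MvPolynomial.smul_eq_C_mul]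
  · rw [Pi.smul_apply, Pi.single_eq_of_ne hc, smul_zero]
    by_cases hmix : c 0 = c 1
    · have hc' : c = fun _ => false := by
        have : c 0 = false := by
          by_contra hne
          apply hc
          have h00 : c 0 = true := by simpa using hne
          funext k
          fin_cases k
          · exact h00
          · show c 1 = true
            rw [← hmix, h00]
        funext k
        fin_cases k
        · exact this
        · show c 1 = false
          rw [← hmix, this]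
      rw [hc', h0]
    · exact h1 c hmix

/-- the general construction -/
theorem construct {q : MvPolynomial (Fin 2) ℂ} {e M : ℕ} (b : Bool) (hq : QData (grpH W) q e)
    (hM : (half (setR W)).card + e = M + if b = true then 1 else 0)
    (han : ∀ f ∈ LL M, (∀ w ∈ W, ∀ r : ℂ, act w (PP W q) = C r * PP W q →
      ∀ c, act w (f (c ∘ sig w)) = C r * f c) →
      ∃ a : ℂ, f = a • (Pi.single (fun _ => b) (PP W q) : Md)) :
    ∃ J : Ideal Pol, (∀ d, ∀ f : Pol, f.IsHomogeneous (d + 1) → (∀ w ∈ W, act w f = f) → f ∈ J) ∧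
      Module.finrank ℂ (Pol ⧸ J) = (2 * M + 3) ^ 2 := by
  classical
  set P0 := PP W q with hP0
  have hP0ne : P0 ≠ 0 := PP_ne_zero hW hq
  set u : Md := Pi.single (fun _ => b) P0 with hu
  have hu0 : u ≠ 0 := by
    intro h
    apply hP0ne
    have := congrFun h (fun _ => b)
    rwa [hu, Pi.single_eq_same] at this
  have huL : u ∈ LL M := by
    intro c
    by_cases hc : c = fun _ => b
    · subst hc
      rw [hu, Pi.single_eq_same, BD_eq]
      have := PP_mem_BH W hq.hom
      rw [hM] at this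
      exact this
    · rw [hu, Pi.single_eq_of_ne hc]
      exact Submodule.zero_mem _
  have huE : ∀ k, EE M k u ∈ ℂ ∙ u := by
    intro k
    rw [Submodule.mem_span_singleton]
    refine ⟨if b = true then -((M : ℂ) + 1) else (M : ℂ) + 2, ?_⟩
    funext c
    rw [EE_apply, Pi.smul_apply]
    by_cases hc : c = fun _ => b
    · subst hc; rfl
    · rw [hu, Pi.single_eq_of_ne hc, smul_zero, smul_zero]
  have hcomm := hcomm_XX huL huE
  choose η hη using fun w : {w // w ∈ W} => PP_semi hW hq w.2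
  have hη0 : ∀ w, η w ≠ 0 := by
    intro w h0
    have h1 := hη w
    rw [h0, C_0, zero_mul] at h1
    exact act_ne hW w.2 hP0ne h1
  let τ : {w // w ∈ W} → Md →ₗ[ℂ] Md := fun w => tau (gmat w.1) (sig w.1) (η w)⁻¹
  have hτ : ∀ w i v, τ w (XX i v) = ∑ j, gmat w.1 i j • XX j (τ w v) := by
    intro w i v
    exact (blk_of_mem hW w.2).equiv _ i v
  have hτu : ∀ w, τ w u = u := by
    intro w
    funext c
    show (η w)⁻¹ • act w.1 (u (c ∘ sig w.1)) = u c
    by_cases hc : c = fun _ => b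
    · rw [(sig_const hW w.1 w.2 b c).mpr hc, hc, hu, Pi.single_eq_same, hη w,
        MvPolynomial.smul_eq_C_mul, ← mul_assoc, ← C_mul, inv_mul_cancel₀ (hη0 w), C_1, one_mul]
    · have hc' : c ∘ sig w.1 ≠ fun _ => b := fun h => hc ((sig_const hW w.1 w.2 b c).mp h)
      rw [hu, Pi.single_eq_of_ne hc', Pi.single_eq_of_ne hc, map_zero, smul_zero]
  -- composition
  have hηmul : ∀ w w' : {w // w ∈ W}, η ⟨w.1 * w'.1, hW.mul _ w.2 _ w'.2⟩ = η w * η w' := by
    intro w w'
    have h1 := hη ⟨w.1 * w'.1, hW.mul _ w.2 _ w'.2⟩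
    simp only at h1
    rw [act_mul, hη w, map_mul, hη w'] at h1
    have h2 : act w'.1 (C (η w)) = C (η w) := by simp [act, subst]
    rw [h2, ← mul_assoc, ← C_mul] at h1
    have h3 := mul_right_cancel₀ hP0ne h1
    exact (C_injective _ _ h3).symm
  have hτmul : ∀ (w w' : {w // w ∈ W}) (F : Md),
      τ w' (τ w F) = τ ⟨w.1 * w'.1, hW.mul _ w.2 _ w'.2⟩ F := by
    intro w w' F
    funext c
    show (η w')⁻¹ • act w'.1 ((η w)⁻¹ • act w.1 (F ((c ∘ sig w'.1) ∘ sig w.1))) =
      (η _)⁻¹ • act (w.1 * w'.1) (F (c ∘ sig (w.1 * w'.1)))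
    rw [hηmul, act_mul, sig_mul hW w.2 w'.2, map_smul, smul_smul, mul_inv]
    rw [mul_comm (η w)⁻¹]
    rfl
  have hFst : ∀ w, ∀ n, ∀ v ∈ Flt XX u n, τ w v ∈ Flt XX u n := by
    intro w
    refine Flt_stable_of XX u (τ w) ?_ ?_
    · rw [hτu]; exact Submodule.mem_span_singleton_self u
    · intro n i v hv ih
      rw [hτ]
      exact Submodule.sum_mem _ (fun j _ => Submodule.smul_mem _ _ (X_mem XX u (ih v hv) j))
  have hav : ∀ n, ∀ v ∈ Flt XX u n, ∑ w, τ w v ∈ ℂ ∙ u := by
    intro n v hv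
    set f := ∑ w, τ w v with hf
    have hfL : f ∈ LL M := Flt_le_LL huL n (Submodule.sum_mem _ (fun w _ => hFst w n v hv))
    have hfinv : ∀ w', τ w' f = f := by
      intro w'
      rw [hf, map_sum]
      let g : {w // w ∈ W} → {w // w ∈ W} := fun w => ⟨w.1 * w'.1, hW.mul _ w.2 _ w'.2⟩
      have hg : Function.Bijective g := by
        refine Function.Injective.bijective_of_finite ?_
        intro w1 w2 h12
        obtain ⟨w'', _, h1, _⟩ := hW.inv w'.1 w'.2
        have h3 : w1.1 * w'.1 = w2.1 * w'.1 := congrArg Subtype.val h12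
        apply Subtype.ext
        calc w1.1 = w1.1 * w'.1 * w'' := by rw [mul_assoc, h1, mul_one]
          _ = w2.1 * w'.1 * w'' := by rw [h3]
          _ = w2.1 := by rw [mul_assoc, h1, mul_one]
      rw [← hg.sum_comp (fun w => τ w v)]
      exact Finset.sum_congr rfl (fun w _ => hτmul w w' v)
    obtain ⟨a, ha⟩ := han f hfL (by
      intro w hw r hr c
      have h1 := hη ⟨w, hw⟩
      simp only at h1
      rw [hr] at h1
      have h2 := C_injective _ _ (mul_right_cancel₀ hP0ne h1)
      have h3 : (η ⟨w, hw⟩)⁻¹ • act w (f (c ∘ sig w)) = f c := congrFun (hfinv ⟨w, hw⟩) c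
      rw [h2, ← MvPolynomial.smul_eq_C_mul, ← h3, smul_smul, mul_inv_cancel₀ (hη0 _), one_smul])
    rw [ha]
    exact Submodule.mem_span_singleton.mpr ⟨a, rfl⟩
  have hne : Nonempty {w // w ∈ W} := ⟨⟨1, hW.one⟩⟩
  refine ⟨symIdeal hcomm, ?_, ?_⟩
  · intro d f hf hinv
    have h5 : ∀ w : {w // w ∈ W}, subst (gmat w.1) f = f := fun w => hinv w.1 w.2
    exact invariant_mem_symIdeal hcomm (Γ := {w // w ∈ W}) (fun w => gmat w.1) τ hτ hτu hav hf h5
  · obtain ⟨D, hD⟩ := exists_Flt_eq huL hu0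
    rw [finrank_quot_symIdeal hcomm D (fun n => by rw [hD]; exact Flt_le_LL huL n), hD, finrank_LL]

/-- **Main theorem for monomial groups in standard form.** -/
theorem main_mono : ∃ J : Ideal Pol,
    (∀ d, ∀ f : Pol, f.IsHomogeneous (d + 1) → (∀ w ∈ W, act w f = f) → f ∈ J) ∧
      Module.finrank ℂ (Pol ⧸ J) = (2 * ((grpH W).card - 1) + (setR W).card + 1) ^ 2 := by
  have hcard : 0 < (grpH W).card := Finset.card_pos.mpr ⟨1, (ugrp_H hW).one⟩
  have hR := card_R hW
  have hR1 : 0 < (setR W).card := Finset.card_pos.mpr ⟨1, one_mem_R hW⟩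
  by_cases hneg : (-1 : ℍ[ℝ]) ∈ grpH W
  · obtain ⟨q, h1, h2, h3, h4⟩ := even_one (ugrp_H hW) hneg
    have hq : QData (grpH W) q ((grpH W).card - 2) := ⟨h1, h2, h3, h4⟩
    have hH := card_half (zero_notMem (ugrp_H hW)) (fun x hx => even_neg (ugrp_H hW) hneg hx)
    obtain ⟨J, hJ1, hJ2⟩ := construct hW false hq
      (M := (half (setR W)).card + ((grpH W).card - 2)) (by simp)
      (fun f hf hinv => analysis_even hW hneg hq rfl hf hinv)
    refine ⟨J, hJ1, ?_⟩
    rw [hJ2]
    congr 1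
    omega
  · obtain ⟨q, h1, h2, h3, h4⟩ := odd_one (ugrp_H hW) hneg
    have hq : QData (grpH W) q ((grpH W).card - 1) := ⟨h1, h2, h3, h4⟩
    have hM : (half (setR W)).card + ((grpH W).card - 1) =
        (half (setR W)).card + (grpH W).card - 2 + 1 := by omega
    obtain ⟨J, hJ1, hJ2⟩ := construct hW true hq
      (M := (half (setR W)).card + (grpH W).card - 2) (by simpa using hM)
      (fun f hf hinv => analysis_odd hW hneg hq hM hf hinv)
    refine ⟨J, hJ1, ?_⟩
    rw [hJ2]
    congr 1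
    omega

end mono

end Run7.h580
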