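import Pool.Agent.Run7.h580.Delta

/-!
The module on which the deformed variables act.
-/

namespace Run7.h580

open MvPolynomial Quaternion

/-- monomials of multidegree `d` -/
def dset (d : Fin 2 → ℕ) : Set (Ix →₀ ℕ) := {m | ∀ k, m (k, 0) + m (k, 1) = d k}

/-- polynomials of multidegree `d` -/
noncomputable def BD (d : Fin 2 → ℕ) : Submodule ℂ Pol := restrictSupport ℂ (dset d)

lemma BD_eq (d : Fin 2 → ℕ) : BD d = BH (d 0) (d 1) := by
  rw [BD, BH]
  congr 1
  ext m
  simp [dset, bset, Fin.forall_fin_two]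

lemma mem_BD {d : Fin 2 → ℕ} {f : Pol} : f ∈ BD d ↔ ∀ m, coeff m f ≠ 0 → m ∈ dset d := by
  rw [BD, mem_restrictSupport_iff]
  constructor
  · intro h m hm
    exact h (Finset.mem_coe.mpr (mem_support_iff.mpr hm))
  · intro h m hm
    exact h m (mem_support_iff.mp (Finset.mem_coe.mp hm))

lemma monomial_mem_BD {d : Fin 2 → ℕ} {m : Ix →₀ ℕ} (hm : m ∈ dset d) (a : ℂ) :
    monomial m a ∈ BD d := by
  rw [BD, monomial_mem_restrictSupport]
  exact Or.inl hm

/-- linear induction on multihomogeneous polynomials -/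
lemma BD_map {d : Fin 2 → ℕ} {Q : Type*} [AddCommGroup Q] [Module ℂ Q] (T : Pol →ₗ[ℂ] Q)
    (N : Submodule ℂ Q) (h : ∀ m ∈ dset d, T (monomial m 1) ∈ N) {f : Pol} (hf : f ∈ BD d) :
    T f ∈ N := by
  rw [mem_BD] at hf
  rw [f.as_sum, map_sum]
  refine Submodule.sum_mem _ ?_
  intro m hm
  have h1 : (monomial m (coeff m f) : Pol) = (coeff m f) • monomial m 1 := by
    rw [smul_monomial, smul_eq_mul, mul_one]
  rw [h1, map_smul]
  exact Submodule.smul_mem _ _ (h m (hf m (mem_support_iff.mp hm)))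

/-- Euler identity -/
lemma euler {d : Fin 2 → ℕ} {f : Pol} (hf : f ∈ BD d) (k : Fin 2) :
    X (k, 0) * pderiv (k, 0) f + X (k, 1) * pderiv (k, 1) f = (d k : ℂ) • f := by
  let T : Pol →ₗ[ℂ] Pol := (LinearMap.mulLeft ℂ (X (k, 0))).comp (pderiv (k, 0)).toLinearMap +
    (LinearMap.mulLeft ℂ (X (k, 1))).comp (pderiv (k, 1)).toLinearMap - (d k : ℂ) • LinearMap.id
  have hT : ∀ f, T f = X (k, 0) * pderiv (k, 0) f + X (k, 1) * pderiv (k, 1) f - (d k : ℂ) • f := by
    intro f; simp [T]
  have h1 : T f ∈ (⊥ : Submodule ℂ Pol) := by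
    refine BD_map T ⊥ (fun m hm => ?_) hf
    rw [Submodule.mem_bot, hT, X_mul_pderiv_monomial, X_mul_pderiv_monomial, ← add_smul, ← hm k]
    rw [Nat.cast_smul_eq_nsmul, sub_self]
  rw [Submodule.mem_bot, hT] at h1
  exact sub_eq_zero.mp h1

lemma X_mul_mem_BD {d d' : Fin 2 → ℕ} (k e : Fin 2) (hk : d' k = d k + 1)
    (hl : ∀ l, l ≠ k → d' l = d l) {f : Pol} (hf : f ∈ BD d) : X (k, e) * f ∈ BD d' := by
  refine BD_map (LinearMap.mulLeft ℂ (X (k, e))) (BD d') (fun m hm => ?_) hf
  rw [LinearMap.mulLeft_apply, X, monomial_mul]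
  refine monomial_mem_BD (fun l => ?_) _
  have h1 := hm l
  simp only [Finsupp.add_apply]
  by_cases hlk : l = k
  · subst hlk
    fin_cases e
    · simp; omega
    · simp; omega
  · rw [Finsupp.single_apply, Finsupp.single_apply, if_neg, if_neg, hl l hlk]
    · omega
    · intro h; exact hlk (congrArg Prod.fst h).symm
    · intro h; exact hlk (congrArg Prod.fst h).symm

lemma pderiv_mem_BD {d d' : Fin 2 → ℕ} (k e : Fin 2) (hk : d' k + 1 = d k)
    (hl : ∀ l, l ≠ k → d' l = d l) {f : Pol} (hf : f ∈ BD d) : pderiv (k, e) f ∈ BD d' := by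
  refine BD_map (pderiv (k, e)).toLinearMap (BD d') (fun m hm => ?_) hf
  show pderiv (k, e) (monomial m 1) ∈ BD d'
  rw [pderiv_monomial]
  by_cases h0 : m (k, e) = 0
  · rw [h0]; simp
  refine monomial_mem_BD (fun l => ?_) _
  have h1 := hm l
  simp only [Finsupp.tsub_apply]
  by_cases hlk : l = k
  · subst hlk
    fin_cases e
    · simp at h0 ⊢; omega
    · simp at h0 ⊢; omega
  · rw [Finsupp.single_apply, Finsupp.single_apply, if_neg, if_neg, hl l hlk]
    · omega
    · intro h; exact hlk (congrArg Prod.fst h).symm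
    · intro h; exact hlk (congrArg Prod.fst h).symm

/-- symplectic derivatives -/
noncomputable def sd (i : Ix) : Derivation ℂ Pol Pol :=
  if i.2 = 0 then pderiv (i.1, 1) else - pderiv (i.1, 0)

/-- symplectic form on the variables -/
noncomputable def sf (i j : Ix) : ℂ :=
  if i.1 = j.1 then (if i.2 = 0 then (if j.2 = 1 then 1 else 0) else (if j.2 = 0 then -1 else 0))
  else 0

lemma sd_X (i j : Ix) : sd i (X j) = C (sf i j) := by
  classical
  obtain ⟨k, e⟩ := i
  obtain ⟨l, e'⟩ := j
  fin_cases k <;> fin_cases l <;> fin_cases e <;> fin_cases e' <;>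
    simp [sd, sf, pderiv_X]

lemma sd_comm (i j : Ix) (f : Pol) : sd i (sd j f) = sd j (sd i f) := by
  have h : ⁅sd i, sd j⁆ = 0 := by
    apply derivation_ext
    intro l
    rw [Derivation.commutator_apply, sd_X, sd_X]
    simp
  have h1 := congrArg (fun D : Derivation ℂ Pol Pol => D f) h
  simp only [Derivation.commutator_apply, Derivation.coe_zero, Pi.zero_apply] at h1
  exact sub_eq_zero.mp h1

lemma sd_mem_BD {d d' : Fin 2 → ℕ} (i : Ix) (hk : d' i.1 + 1 = d i.1)
    (hl : ∀ l, l ≠ i.1 → d' l = d l) {f : Pol} (hf : f ∈ BD d) : sd i f ∈ BD d' := by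
  rw [sd]
  split_ifs with h
  · exact pderiv_mem_BD _ _ hk hl hf
  · exact Submodule.neg_mem _ (pderiv_mem_BD _ _ hk hl hf)

/-- the big module -/
abbrev Md := (Fin 2 → Bool) → Pol

/-- deformed multiplication operators -/
noncomputable def XX (i : Ix) : Md →ₗ[ℂ] Md where
  toFun F := fun c => if c i.1 = true then X i * F (Function.update c i.1 false)
    else sd i (F (Function.update c i.1 true))
  map_add' F G := by
    funext c
    simp only [Pi.add_apply]
    split_ifs
    · rw [mul_add]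
    · rw [map_add]
  map_smul' r F := by
    funext c
    simp only [Pi.smul_apply, RingHom.id_apply]
    split_ifs
    · rw [mul_smul_comm]
    · rw [Derivation.map_smul]

lemma XX_true (i : Ix) (F : Md) {c : Fin 2 → Bool} (hc : c i.1 = true) :
    XX i F c = X i * F (Function.update c i.1 false) := by
  simp [XX, hc]

lemma XX_false (i : Ix) (F : Md) {c : Fin 2 → Bool} (hc : c i.1 = false) :
    XX i F c = sd i (F (Function.update c i.1 true)) := by
  simp [XX, hc]

lemma XX_comm {i j : Ix} (hij : i.1 ≠ j.1) (F : Md) : XX i (XX j F) = XX j (XX i F) := by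
  funext c
  have hsf : sf i j = 0 := by rw [sf, if_neg hij]
  have hsf' : sf j i = 0 := by rw [sf, if_neg hij.symm]
  have e1 : ∀ b, Function.update c i.1 b j.1 = c j.1 := fun b => Function.update_of_ne hij.symm _ _
  have e2 : ∀ b, Function.update c j.1 b i.1 = c i.1 := fun b => Function.update_of_ne hij _ _
  have e3 : ∀ b b', Function.update (Function.update c i.1 b) j.1 b' =
      Function.update (Function.update c j.1 b') i.1 b :=
    fun b b' => Function.update_comm hij _ _ _
  rcases hi : c i.1 with _ | _ <;> rcases hj : c j.1 with _ | _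
  · rw [XX_false _ _ hi, XX_false _ _ (by rw [e1, hj]), XX_false _ _ hj,
      XX_false _ _ (by rw [e2, hi]), e3, sd_comm]
  · rw [XX_false _ _ hi, XX_true _ _ (by rw [e1, hj]), XX_true _ _ hj,
      XX_false _ _ (by rw [e2, hi]), e3, Derivation.leibniz, sd_X, hsf]
    simp
  · rw [XX_true _ _ hi, XX_false _ _ (by rw [e1, hj]), XX_false _ _ hj,
      XX_true _ _ (by rw [e2, hi]), e3, Derivation.leibniz, sd_X, hsf']
    simp
  · rw [XX_true _ _ hi, XX_true _ _ (by rw [e1, hj]), XX_true _ _ hj,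
      XX_true _ _ (by rw [e2, hi]), e3]
    ring

lemma XX_same_true (k e e' : Fin 2) (F : Md) {c : Fin 2 → Bool} (hc : c k = true) :
    XX (k, e) (XX (k, e') F) c = X (k, e) * sd (k, e') (F c) := by
  rw [XX_true _ _ (by exact hc), XX_false _ _ (by simp)]
  simp only [Function.update_idem]
  have : Function.update c k true = c := by rw [← hc]; exact Function.update_eq_self k c
  rw [this]

lemma XX_same_false (k e e' : Fin 2) (F : Md) {c : Fin 2 → Bool} (hc : c k = false) :
    XX (k, e) (XX (k, e') F) c = sd (k, e) (X (k, e') * F c) := by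
  rw [XX_false _ _ (by exact hc), XX_true _ _ (by simp)]
  simp only [Function.update_idem]
  have : Function.update c k false = c := by rw [← hc]; exact Function.update_eq_self k c
  rw [this]

/-- multidegree of the component `c` -/
def dd (M : ℕ) (c : Fin 2 → Bool) : Fin 2 → ℕ := fun k => M + if c k = true then 1 else 0

/-- the finite-dimensional module -/
def LL (M : ℕ) : Submodule ℂ Md where
  carrier := {F | ∀ c, F c ∈ BD (dd M c)}
  add_mem' := fun ha hb c => Submodule.add_mem _ (ha c) (hb c)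
  zero_mem' := fun _ => Submodule.zero_mem _
  smul_mem' := fun r _ ha c => Submodule.smul_mem _ r (ha c)

lemma mem_LL {M : ℕ} {F : Md} : F ∈ LL M ↔ ∀ c, F c ∈ BD (dd M c) := Iff.rfl

lemma XX_mem_LL {M : ℕ} (i : Ix) {F : Md} (hF : F ∈ LL M) : XX i F ∈ LL M := by
  intro c
  rcases hc : c i.1 with _ | _
  · rw [XX_false _ _ hc]
    refine sd_mem_BD i ?_ ?_ (hF _)
    · simp [dd, hc]
    · intro l hl
      simp [dd, Function.update_of_ne hl]
  · rw [XX_true _ _ hc]
    obtain ⟨k, e⟩ := i
    refine X_mul_mem_BD k e ?_ ?_ (hF _)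
    · simp only at hc; simp [dd, hc]
    · intro l hl
      simp [dd, Function.update_of_ne hl]

/-- the diagonal operators -/
noncomputable def EE (M : ℕ) (k : Fin 2) : Md →ₗ[ℂ] Md where
  toFun F := fun c => (if c k = true then -((M : ℂ) + 1) else (M : ℂ) + 2) • F c
  map_add' F G := by funext c; simp only [Pi.add_apply, smul_add]
  map_smul' r F := by
    funext c
    simp only [Pi.smul_apply, RingHom.id_apply]
    rw [smul_comm]

lemma EE_apply (M : ℕ) (k : Fin 2) (F : Md) (c : Fin 2 → Bool) :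
    EE M k F c = (if c k = true then -((M : ℂ) + 1) else (M : ℂ) + 2) • F c := rfl

lemma comm_same {M : ℕ} (k : Fin 2) {F : Md} (hF : F ∈ LL M) :
    XX (k, 0) (XX (k, 1) F) - XX (k, 1) (XX (k, 0) F) = EE M k F := by
  funext c
  rw [Pi.sub_apply, EE_apply]
  have hE := euler (hF c) k
  rcases hc : c k with _ | _
  · rw [XX_same_false _ _ _ _ hc, XX_same_false _ _ _ _ hc, Derivation.leibniz, Derivation.leibniz,
      sd_X, sd_X]
    have hd : (dd M c k : ℂ) = M := by simp [dd, hc]
    rw [hd] at hE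
    simp only [sd, sf, if_true, Fin.isValue, one_ne_zero, if_false, Derivation.neg_apply,
      smul_eq_mul, Bool.false_eq_true, C_neg, C_1, MvPolynomial.smul_eq_C_mul, C_add] at hE ⊢
    have h2 : (C (2 : ℂ) : Pol) = 2 := map_ofNat C 2
    rw [h2]
    linear_combination hE
  · rw [XX_same_true _ _ _ _ hc, XX_same_true _ _ _ _ hc]
    have hd : (dd M c k : ℂ) = M + 1 := by simp [dd, hc]
    rw [hd] at hE
    simp only [sd, if_true, Fin.isValue, one_ne_zero, if_false, Derivation.neg_apply,
      smul_eq_mul, C_neg, C_1, MvPolynomial.smul_eq_C_mul, C_add] at hE ⊢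
    linear_combination -hE

lemma EE_XX_same (M : ℕ) (k e : Fin 2) (F : Md) :
    EE M k (XX (k, e) F) = XX (k, e) (F - EE M k F) := by
  funext c
  rw [EE_apply]
  rcases hc : c k with _ | _
  · rw [XX_false _ _ hc, XX_false _ _ hc, Pi.sub_apply, EE_apply]
    simp only [Function.update_self, if_true, Bool.false_eq_true, if_false]
    rw [map_sub, Derivation.map_smul]
    module
  · rw [XX_true _ _ hc, XX_true _ _ hc, Pi.sub_apply, EE_apply]
    simp only [Function.update_self, if_true, Bool.false_eq_true, if_false]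
    rw [mul_sub, mul_smul_comm]
    module

lemma EE_XX_diff (M : ℕ) {k : Fin 2} {i : Ix} (hk : i.1 ≠ k) (F : Md) :
    EE M k (XX i F) = XX i (EE M k F) := by
  funext c
  rw [EE_apply]
  have e1 : ∀ b, Function.update c i.1 b k = c k := fun b => Function.update_of_ne hk.symm _ _
  rcases hc : c i.1 with _ | _
  · rw [XX_false _ _ hc, XX_false _ _ hc, EE_apply, e1, Derivation.map_smul]
  · rw [XX_true _ _ hc, XX_true _ _ hc, EE_apply, e1, mul_smul_comm]

lemma Flt_le_LL {M : ℕ} {u : Md} (hu : u ∈ LL M) (n : ℕ) : Flt XX u n ≤ LL M :=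
  Flt_le_of_stable XX u (LL M) hu (fun i _ hv => XX_mem_LL i hv) n

/-- the commutators preserve the filtration -/
lemma EE_Flt {M : ℕ} {u : Md} (k : Fin 2) (hE : EE M k u ∈ ℂ ∙ u) (n : ℕ) :
    ∀ v ∈ Flt XX u n, EE M k v ∈ Flt XX u n := by
  refine Flt_stable_of XX u (EE M k) hE ?_ n
  intro n i v hv ih
  by_cases hk : i.1 = k
  · obtain ⟨k', e⟩ := i
    simp only at hk
    subst hk
    rw [EE_XX_same]
    exact X_mem XX u (Submodule.sub_mem _ hv (ih v hv)) _
  · rw [EE_XX_diff M hk]
    exact X_mem XX u (ih v hv) _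

lemma hcomm_XX {M : ℕ} {u : Md} (hu : u ∈ LL M) (hE : ∀ k, EE M k u ∈ ℂ ∙ u) :
    ∀ n i j, ∀ v ∈ Flt XX u n, XX i (XX j v) - XX j (XX i v) ∈ Flt XX u (n + 1) := by
  intro n i j v hv
  have hvL := Flt_le_LL hu n hv
  by_cases hij : i.1 = j.1
  · obtain ⟨k, e⟩ := i
    obtain ⟨k', e'⟩ := j
    simp only at hij
    subst hij
    have hmem := Flt_le_succ XX u n (EE_Flt k (hE k) n v hv)
    rw [← comm_same k hvL] at hmem
    fin_cases e <;> fin_cases e'
    · simp
    · exact hmem
    · have := Submodule.neg_mem _ hmem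
      rwa [neg_sub] at this
    · simp
  · rw [XX_comm hij, sub_self]
    exact Submodule.zero_mem _

end Run7.h580
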