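import Pool.Agent.Run7.h580.Main
import Pool.Agent.Run7.h580.Defs

/-!
Reduction of imprimitive groups of rank two to the standard form.
-/

namespace Run7.h580

open MvPolynomial Quaternion QRefl

/-- matrices as linear maps of right vector spaces -/
noncomputable def mulL {n : ℕ} (w : QMat n) : QVec n →ₗ[ℍ[ℝ]ᵐᵒᵖ] QVec n where
  toFun := w.mulVec
  map_add' := Matrix.mulVec_add w
  map_smul' c v := Matrix.mulVec_smul w c v

@[simp] lemma mulL_apply {n : ℕ} (w : QMat n) (v : QVec n) : mulL w v = w.mulVec v := rfl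

lemma mulL_mul {n : ℕ} (w w' : QMat n) (v : QVec n) :
    mulL (w * w') v = mulL w (mulL w' v) := by
  simp [Matrix.mulVec_mulVec]

lemma inv_mulVec {n : ℕ} (g : (QMat n)ˣ) (v : QVec n) :
    ((g⁻¹ : (QMat n)ˣ) : QMat n).mulVec ((g : QMat n).mulVec v) = v := by
  rw [Matrix.mulVec_mulVec, Units.inv_mul, Matrix.one_mulVec]

lemma mulVec_inv {n : ℕ} (g : (QMat n)ˣ) (v : QVec n) :
    (g : QMat n).mulVec (((g⁻¹ : (QMat n)ˣ) : QMat n).mulVec v) = v := by
  rw [Matrix.mulVec_mulVec, Units.mul_inv, Matrix.one_mulVec]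

lemma mem_fixedSpace {n : ℕ} {w : QMat n} {v : QVec n} : v ∈ fixedSpace w ↔ w.mulVec v = v := Iff.rfl

lemma mem_fixed_conj {n : ℕ} {g w : (QMat n)ˣ} {v : QVec n} :
    v ∈ fixedSpace ((g * w * g⁻¹ : (QMat n)ˣ) : QMat n) ↔
      ((g⁻¹ : (QMat n)ˣ) : QMat n).mulVec v ∈ fixedSpace (w : QMat n) := by
  rw [mem_fixedSpace, mem_fixedSpace, Units.val_mul, Units.val_mul, ← Matrix.mulVec_mulVec,
    ← Matrix.mulVec_mulVec]
  constructor
  · intro h
    have := congrArg (((g⁻¹ : (QMat n)ˣ) : QMat n).mulVec) h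
    rwa [inv_mulVec] at this
  · intro h
    rw [h, mulVec_inv]

/-- fixed spaces of conjugate matrices -/
noncomputable def fixedEquiv {n : ℕ} (g w : (QMat n)ˣ) :
    fixedSpace (w : QMat n) ≃ₗ[ℍ[ℝ]ᵐᵒᵖ] fixedSpace ((g * w * g⁻¹ : (QMat n)ˣ) : QMat n) where
  toFun v := ⟨(g : QMat n).mulVec v.1, by
    rw [mem_fixed_conj, inv_mulVec]; exact v.2⟩
  invFun v := ⟨((g⁻¹ : (QMat n)ˣ) : QMat n).mulVec v.1, mem_fixed_conj.mp v.2⟩
  map_add' a b := Subtype.ext (Matrix.mulVec_add (g : QMat n) a.1 b.1)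
  map_smul' c a := Subtype.ext (Matrix.mulVec_smul (g : QMat n) c a.1)
  left_inv v := Subtype.ext (inv_mulVec g v.1)
  right_inv v := Subtype.ext (mulVec_inv g v.1)

lemma isReflection_conj {n : ℕ} (g w : (QMat n)ˣ) :
    IsReflection (g * w * g⁻¹) ↔ IsReflection w := by
  rw [IsReflection, IsReflection, (fixedEquiv g w).finrank_eq]
  constructor
  · rintro ⟨h1, h2⟩
    refine ⟨?_, h2⟩
    rw [isOfFinOrder_iff_pow_eq_one] at *
    obtain ⟨m, hm, h⟩ := h1
    refine ⟨m, hm, ?_⟩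
    rw [conj_pow] at h
    rw [mul_inv_eq_one] at h
    exact mul_eq_left.mp h
  · rintro ⟨h1, h2⟩
    refine ⟨?_, h2⟩
    rw [isOfFinOrder_iff_pow_eq_one] at *
    obtain ⟨m, hm, h⟩ := h1
    refine ⟨m, hm, ?_⟩
    rw [conj_pow, h, mul_one, mul_inv_cancel]

/-- conjugate group -/
noncomputable def conjW {n : ℕ} (g : (QMat n)ˣ) (W : Subgroup (QMat n)ˣ) : Subgroup (QMat n)ˣ :=
  W.map (MulAut.conj g).toMonoidHom

lemma mem_conjW {n : ℕ} {g w : (QMat n)ˣ} {W : Subgroup (QMat n)ˣ} :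
    w ∈ conjW g W ↔ g⁻¹ * w * g ∈ W := by
  rw [conjW, Subgroup.mem_map]
  constructor
  · rintro ⟨x, hx, rfl⟩
    have : g⁻¹ * ((MulAut.conj g).toMonoidHom x) * g = x := by
      simp [MulAut.conj_apply]; group
    rw [this]; exact hx
  · intro h
    refine ⟨_, h, ?_⟩
    simp [MulAut.conj_apply]; group

lemma conj_mem_conjW {n : ℕ} {g w : (QMat n)ˣ} {W : Subgroup (QMat n)ˣ} (hw : w ∈ W) :
    g * w * g⁻¹ ∈ conjW g W := by
  rw [mem_conjW]
  have : g⁻¹ * (g * w * g⁻¹) * g = w := by group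
  rw [this]; exact hw

lemma numReflections_conj {n : ℕ} (g : (QMat n)ˣ) (W : Subgroup (QMat n)ˣ) :
    numReflections (conjW g W) = numReflections W := by
  rw [numReflections, numReflections]
  refine Nat.card_congr ?_
  refine (Equiv.subtypeEquiv (MulAut.conj g).toEquiv (fun w => ?_)).symm
  have h1 : (MulAut.conj g).toEquiv w = g * w * g⁻¹ := rfl
  rw [h1, isReflection_conj, mem_conjW]
  have : g⁻¹ * (g * w * g⁻¹) * g = w := by group
  rw [this]

lemma finite_conj {n : ℕ} (g : (QMat n)ˣ) {W : Subgroup (QMat n)ˣ} (h : Finite W) :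
    Finite (conjW g W) := by
  rw [conjW]
  exact Set.Finite.to_subtype (by
    rw [Subgroup.coe_map]
    exact Set.Finite.image _ (Set.toFinite _))

lemma isComplex_conj {n : ℕ} (g : (QMat n)ˣ) {W : Subgroup (QMat n)ˣ} (h : IsComplex (conjW g W)) :
    IsComplex W := by
  obtain ⟨k, hk⟩ := h
  refine ⟨k * g, fun w hw i j => ?_⟩
  have := hk _ (conj_mem_conjW (g := g) hw) i j
  have h2 : k * g * w * (k * g)⁻¹ = k * (g * w * g⁻¹) * k⁻¹ := by group
  rw [h2]; exact this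

lemma cvec_eq (v : QVec 2) : cvec v = coords v := rfl

lemma isInvariant_iff {W : Subgroup (QMat 2)ˣ} {f : Pol} :
    IsInvariant W f ↔ ∀ w ∈ W, act (w : QMat 2) f = f := by
  constructor
  · intro h w hw
    apply pol_ext
    intro p
    rw [evn_act]
    exact h w hw p
  · intro h w hw v
    have := evn_act (w : QMat 2) f v
    rw [h w hw] at this
    exact this.symm

/-- there is an ideal of the given colength containing the zero-fiber ideal -/
def HasQuot (W : Subgroup (QMat 2)ˣ) (D : ℕ) : Prop :=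
  ∃ J : Ideal Pol, zeroFiberIdeal W ≤ J ∧ Module.finrank ℂ (Pol ⧸ J) = D

/-- the algebra automorphism attached to an invertible matrix -/
noncomputable def actE (g : (QMat 2)ˣ) : Pol ≃ₐ[ℂ] Pol :=
  AlgEquiv.ofAlgHom (act (g : QMat 2)) (act ((g⁻¹ : (QMat 2)ˣ) : QMat 2))
    (by
      apply AlgHom.ext
      intro f
      rw [AlgHom.comp_apply, ← act_mul, Units.inv_mul, act_one]; rfl)
    (by
      apply AlgHom.ext
      intro f
      rw [AlgHom.comp_apply, ← act_mul, Units.mul_inv, act_one]; rfl)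

lemma act_isHomogeneous {w : QMat 2} {f : Pol} {d : ℕ} (hf : f.IsHomogeneous d) :
    (act w f).IsHomogeneous d := subst_isHomogeneous _ hf

lemma act_units_mul (a b : (QMat 2)ˣ) (f : Pol) :
    act ((a * b : (QMat 2)ˣ) : QMat 2) f = act (b : QMat 2) (act (a : QMat 2) f) := by
  rw [Units.val_mul, act_mul]

lemma isInvariant_conj (g : (QMat 2)ˣ) {W : Subgroup (QMat 2)ˣ} {f : Pol} (hf : IsInvariant W f) :
    IsInvariant (conjW g W) (act ((g⁻¹ : (QMat 2)ˣ) : QMat 2) f) := by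
  rw [isInvariant_iff] at hf ⊢
  intro w hw
  have h1 := hf _ (mem_conjW.mp hw)
  rw [← act_units_mul]
  have h2 : g⁻¹ * w = (g⁻¹ * w * g) * g⁻¹ := by group
  rw [h2, act_units_mul, h1]

lemma actE_map (g : (QMat 2)ˣ) (f : Pol) (J : Ideal Pol)
    (h : act ((g⁻¹ : (QMat 2)ˣ) : QMat 2) f ∈ J) : f ∈ Ideal.map (actE g : Pol →+* Pol) J := by
  have h3 := Ideal.mem_map_of_mem (actE g : Pol →+* Pol) h
  have h4 : (actE g : Pol →+* Pol) (act ((g⁻¹ : (QMat 2)ˣ) : QMat 2) f) = f :=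
    (actE g).apply_symm_apply f
  exact h4 ▸ h3

lemma finrank_map (g : (QMat 2)ˣ) (J : Ideal Pol) :
    Module.finrank ℂ (Pol ⧸ Ideal.map (actE g : Pol →+* Pol) J) = Module.finrank ℂ (Pol ⧸ J) :=
  (LinearEquiv.finrank_eq
      (Ideal.quotientEquivAlg J (Ideal.map (actE g : Pol →+* Pol) J) (actE g) rfl).toLinearEquiv).symm

lemma hasQuot_conj (g : (QMat 2)ˣ) {W : Subgroup (QMat 2)ˣ} {D : ℕ} (h : HasQuot (conjW g W) D) :
    HasQuot W D := by
  obtain ⟨J, hJ, hD⟩ := h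
  refine ⟨Ideal.map (actE g : Pol →+* Pol) J, ?_, ?_⟩
  · rw [zeroFiberIdeal, Ideal.span_le]
    rintro f ⟨hf, d, hd, hhom⟩
    refine actE_map g f J (hJ (Ideal.subset_span ⟨isInvariant_conj g hf, d, hd, ?_⟩))
    exact act_isHomogeneous hhom
  · rw [finrank_map, hD]

lemma hasQuot_quot {W : Subgroup (QMat 2)ˣ} {D : ℕ} (h : HasQuot W D) :
    ∃ J : Ideal (ZeroFiberRing W), Module.finrank ℂ (ZeroFiberRing W ⧸ J) = D := by
  obtain ⟨J, hJ, hD⟩ := h
  refine ⟨J.map (Ideal.Quotient.mkₐ ℂ (zeroFiberIdeal W)), ?_⟩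
  rw [← hD]
  exact LinearEquiv.finrank_eq (DoubleQuot.quotQuotEquivQuotOfLEₐ ℂ hJ).toLinearEquiv

end Run7.h580
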