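import Pool.Agent.Run7.h580.Red

/-!
Imprimitive groups of rank two: monomial form.
-/

namespace Run7.h580

open MvPolynomial Quaternion QRefl

lemma finrank_H : Module.finrank ℍ[ℝ]ᵐᵒᵖ ℍ[ℝ] = 1 :=
  finrank_eq_one 1 one_ne_zero (fun w => ⟨MulOpposite.op w, by simp⟩)

instance finite_H : Module.Finite ℍ[ℝ]ᵐᵒᵖ ℍ[ℝ] :=
  Module.finite_of_finrank_pos (by rw [finrank_H]; exact one_pos)

lemma finrank_QVec (n : ℕ) : Module.finrank ℍ[ℝ]ᵐᵒᵖ (QVec n) = n := by
  rw [Module.finrank_pi_fintype]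
  simp [finrank_H]

lemma finrank_pos_of_ne_bot {n : ℕ} {U : Submodule ℍ[ℝ]ᵐᵒᵖ (QVec n)} (h : U ≠ ⊥) :
    0 < Module.finrank ℍ[ℝ]ᵐᵒᵖ U := by
  rw [Module.finrank_pos_iff]
  exact (Submodule.nontrivial_iff_ne_bot).mpr h

/-- two lines permuted by the group -/
lemma exists_lines {W : Subgroup (QMat 2)ˣ} (himp : IsImprimitive W) :
    ∃ U0 U1 : Submodule ℍ[ℝ]ᵐᵒᵖ (QVec 2), U0 ≠ ⊥ ∧ U1 ≠ ⊥ ∧ U0 ⊓ U1 = ⊥ ∧ U0 ⊔ U1 = ⊤ ∧
      ∀ w ∈ W, ((∀ v ∈ U0, (w : QMat 2).mulVec v ∈ U0) ∧ (∀ v ∈ U1, (w : QMat 2).mulVec v ∈ U1)) ∨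
        ((∀ v ∈ U0, (w : QMat 2).mulVec v ∈ U1) ∧ (∀ v ∈ U1, (w : QMat 2).mulVec v ∈ U0)) := by
  obtain ⟨k, U, hk, hne, hind, hsup, hperm⟩ := himp
  let i0 : Fin k := ⟨0, by omega⟩
  let i1 : Fin k := ⟨1, hk⟩
  have h01 : i0 ≠ i1 := by
    intro h
    have := congrArg Fin.val h
    simp [i0, i1] at this
  have hinf : U i0 ⊓ U i1 = ⊥ := disjoint_iff.mp (hind.pairwiseDisjoint h01)
  have htop : U i0 ⊔ U i1 = ⊤ := by
    apply Submodule.eq_top_of_finrank_eq
    have h1 := Submodule.finrank_sup_add_finrank_inf_eq (U i0) (U i1)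
    rw [hinf, finrank_bot, add_zero] at h1
    have h2 := finrank_pos_of_ne_bot (hne i0)
    have h3 := finrank_pos_of_ne_bot (hne i1)
    have h4 : Module.finrank ℍ[ℝ]ᵐᵒᵖ ((U i0 ⊔ U i1 : Submodule ℍ[ℝ]ᵐᵒᵖ (QVec 2))) ≤
        Module.finrank ℍ[ℝ]ᵐᵒᵖ (QVec 2) := Submodule.finrank_le _
    rw [finrank_QVec] at h4 ⊢
    omega
  have hall : ∀ i, i = i0 ∨ i = i1 := by
    intro i
    by_contra hcon
    push Not at hcon
    apply hne i
    have h1 := hind i
    have h2 : U i0 ⊔ U i1 ≤ ⨆ j, ⨆ (_ : j ≠ i), U j := by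
      refine sup_le ?_ ?_
      · exact le_iSup₂_of_le i0 hcon.1.symm le_rfl
      · exact le_iSup₂_of_le i1 hcon.2.symm le_rfl
    rw [htop, top_le_iff] at h2
    rw [h2] at h1
    simpa using h1
  refine ⟨U i0, U i1, hne i0, hne i1, hinf, htop, ?_⟩
  intro w hw
  obtain ⟨j0, hj0⟩ := hperm w hw i0
  obtain ⟨j1, hj1⟩ := hperm w hw i1
  have hj : j0 ≠ j1 := by
    rintro rfl
    -- then the image of `w` lies in `U j0`
    have htop' : U j0 = ⊤ := by
      rw [eq_top_iff]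
      intro v _
      have hv : ((w⁻¹ : (QMat 2)ˣ) : QMat 2).mulVec v ∈ U i0 ⊔ U i1 := by rw [htop]; trivial
      obtain ⟨a, ha, b, hb, hab⟩ := Submodule.mem_sup.mp hv
      have h5 : v = (w : QMat 2).mulVec a + (w : QMat 2).mulVec b := by
        rw [← Matrix.mulVec_add, hab, mulVec_inv]
      rw [h5]
      exact Submodule.add_mem _ (hj0 a ha) (hj1 b hb)
    rcases hall j0 with rfl | rfl
    · rw [htop', top_inf_eq] at hinf
      exact hne i1 hinf
    · rw [htop', inf_top_eq] at hinf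
      exact hne i0 hinf
  rcases hall j0 with rfl | rfl <;> rcases hall j1 with rfl | rfl
  · exact absurd rfl hj
  · exact Or.inl ⟨hj0, hj1⟩
  · exact Or.inr ⟨hj0, hj1⟩
  · exact absurd rfl hj

/-- some reflection exchanges the two lines -/
lemma exists_swap {W : Subgroup (QMat 2)ˣ} (hW : IsReflectionGroup W) (hirr : IsIrreducible W)
    {U0 U1 : Submodule ℍ[ℝ]ᵐᵒᵖ (QVec 2)} (h0 : U0 ≠ ⊥) (h1 : U1 ≠ ⊥) (hinf : U0 ⊓ U1 = ⊥)
    (hperm : ∀ w ∈ W,
      ((∀ v ∈ U0, (w : QMat 2).mulVec v ∈ U0) ∧ (∀ v ∈ U1, (w : QMat 2).mulVec v ∈ U1)) ∨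
        ((∀ v ∈ U0, (w : QMat 2).mulVec v ∈ U1) ∧ (∀ v ∈ U1, (w : QMat 2).mulVec v ∈ U0))) :
    ∃ s ∈ W, IsReflection s ∧ (∀ v ∈ U0, (s : QMat 2).mulVec v ∈ U1) ∧
      (∀ v ∈ U1, (s : QMat 2).mulVec v ∈ U0) := by
  by_contra hcon
  push Not at hcon
  have hmem0 : ∀ v, v ∈ U0 → v ∈ U1 → v = 0 := by
    intro v hv hv'
    have : v ∈ U0 ⊓ U1 := ⟨hv, hv'⟩
    rwa [hinf, Submodule.mem_bot] at this
  have key : ∀ w ∈ W, (∀ v ∈ U0, (w : QMat 2).mulVec v ∈ U0) ∧
      (∀ v ∈ U1, (w : QMat 2).mulVec v ∈ U1) := by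
    intro w hw
    rw [← hW.gen] at hw
    induction hw using Subgroup.closure_induction with
    | mem x hx =>
      rcases hperm x hx.1 with h | h
      · exact h
      · exfalso
        obtain ⟨v, hv, hv'⟩ := hcon x hx.1 hx.2 h.1
        exact hv' (h.2 v hv)
    | one => exact ⟨fun v hv => by simpa using hv, fun v hv => by simpa using hv⟩
    | mul x y _ _ hx hy =>
      refine ⟨fun v hv => ?_, fun v hv => ?_⟩
      · rw [Units.val_mul, ← Matrix.mulVec_mulVec]; exact hx.1 _ (hy.1 v hv)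
      · rw [Units.val_mul, ← Matrix.mulVec_mulVec]; exact hx.2 _ (hy.2 v hv)
    | inv x hx h =>
      have hxW : x⁻¹ ∈ W := by
        rw [← hW.gen]; exact inv_mem hx
      rcases hperm _ hxW with h' | h'
      · exact h'
      · exfalso
        obtain ⟨v, hv, hv0⟩ := (Submodule.ne_bot_iff _).mp h0
        apply hv0
        apply hmem0 v hv
        rw [← mulVec_inv x v]
        exact h.2 _ (h'.1 v hv)
  rcases hirr U0 (fun w hw => (key w hw).1) with h | h
  · exact h0 h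
  · rw [h, top_inf_eq] at hinf
    exact h1 hinf

/-- matrix with given columns -/
def cols (a b : QVec 2) : QMat 2 := !![a 0, b 0; a 1, b 1]

lemma cols_mulVec (a b p : QVec 2) :
    (cols a b).mulVec p = MulOpposite.op (p 0) • a + MulOpposite.op (p 1) • b := by
  funext i
  fin_cases i <;> simp [cols, Matrix.mulVec, dotProduct, Fin.sum_univ_two]

/-- an injective matrix is invertible -/
lemma exists_unit {T : QMat 2} (h : ∀ p, T.mulVec p = 0 → p = 0) : ∃ t : (QMat 2)ˣ, (t : QMat 2) = T := by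
  have hinj : Function.Injective (mulL T) := by
    rw [← LinearMap.ker_eq_bot, LinearMap.ker_eq_bot']
    exact h
  have hsurj : Function.Surjective (mulL T) := LinearMap.injective_iff_surjective.mp hinj
  choose f hf using fun j : Fin 2 => hsurj (Pi.single j 1)
  let S : QMat 2 := fun i j => f j i
  have hTS : T * S = 1 := by
    refine Matrix.ext (fun i j => ?_)
    have h1 := congrFun (hf j) i
    rw [mulL_apply] at h1
    rw [Matrix.one_apply]
    have h2 : (T * S) i j = T.mulVec (f j) i := rfl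
    rw [h2, h1, Pi.single_apply]
  have hST : S * T = 1 := by
    refine Matrix.ext (fun i j => ?_)
    have h2 : (S * T).mulVec (Pi.single j 1) = Pi.single j 1 := by
      apply hinj
      rw [mulL_apply, mulL_apply, ← Matrix.mulVec_mulVec, Matrix.mulVec_mulVec, hTS, Matrix.one_mulVec]
    have h3 := congrFun h2 i
    rw [Matrix.mulVec_single_one] at h3
    rw [Matrix.one_apply]
    rw [Pi.single_apply] at h3
    exact h3
  exact ⟨⟨T, S, hTS, hST⟩, rfl⟩

/-- Monomial form of irreducible imprimitive reflection groups of rank two. -/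
theorem exists_monomial {W : Subgroup (QMat 2)ˣ} (hW : IsReflectionGroup W)
    (hirr : IsIrreducible W) (himp : IsImprimitive W) :
    ∃ g : (QMat 2)ˣ, (∀ w ∈ conjW g W, (∃ x y, (w : QMat 2) = dg x y) ∨
      (∃ x y, (w : QMat 2) = ag x y)) ∧ (∃ s ∈ conjW g W, (s : QMat 2) = ag 1 1) := by
  obtain ⟨U0, U1, h0, h1, hinf, htop, hperm⟩ := exists_lines himp
  obtain ⟨s, hs, hsr, hs0, hs1⟩ := exists_swap hW hirr h0 h1 hinf hperm
  have hmem0 : ∀ v, v ∈ U0 → v ∈ U1 → v = 0 := by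
    intro v hv hv'
    have : v ∈ U0 ⊓ U1 := ⟨hv, hv'⟩
    rwa [hinf, Submodule.mem_bot] at this
  -- a fixed vector of `s`
  have hfix : fixedSpace (s : QMat 2) ≠ ⊥ := by
    intro h
    have h2 := hsr.2
    rw [h, finrank_bot] at h2
    exact absurd h2 (by norm_num)
  obtain ⟨v, hv, hv0⟩ := (Submodule.ne_bot_iff _).mp hfix
  rw [mem_fixedSpace] at hv
  have hvt : v ∈ U0 ⊔ U1 := by rw [htop]; trivial
  obtain ⟨a, ha, b, hb, hab⟩ := Submodule.mem_sup.mp hvt
  have hsa : (s : QMat 2).mulVec a = b := by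
    rw [← hab, Matrix.mulVec_add] at hv
    have h2 : (s : QMat 2).mulVec a - b = a - (s : QMat 2).mulVec b := by
      rw [sub_eq_sub_iff_add_eq_add, hv]
    have h3 := hmem0 ((s : QMat 2).mulVec a - b)
      (by rw [h2]; exact U0.sub_mem ha (hs1 b hb)) (U1.sub_mem (hs0 a ha) hb)
    exact sub_eq_zero.mp h3
  have hsb : (s : QMat 2).mulVec b = a := by
    rw [← hab, Matrix.mulVec_add, hsa] at hv
    rw [add_comm a b] at hv
    exact add_left_cancel hv
  have ha0 : a ≠ 0 := by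
    rintro rfl
    rw [Matrix.mulVec_zero] at hsa
    apply hv0
    rw [← hab, ← hsa, add_zero]
  have hb0 : b ≠ 0 := by
    rintro rfl
    rw [Matrix.mulVec_zero] at hsb
    exact ha0 hsb.symm
  have hsm : ∀ (c : QVec 2) (q : ℍ[ℝ]), c ≠ 0 → MulOpposite.op q • c = 0 → q = 0 := by
    intro c q hc hq
    by_contra hq0
    apply hc
    have h2 : (MulOpposite.op q : ℍ[ℝ]ᵐᵒᵖ) ≠ 0 := by
      rw [Ne, MulOpposite.op_eq_zero_iff]; exact hq0
    exact (smul_eq_zero.mp hq).resolve_left h2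
  have hU0 : ∀ p, (cols a b).mulVec p ∈ U0 ↔ p 1 = 0 := by
    intro p
    rw [cols_mulVec]
    constructor
    · intro h
      have h2 : MulOpposite.op (p 1) • b ∈ U0 := by
        have := U0.sub_mem h (U0.smul_mem (MulOpposite.op (p 0)) ha)
        rwa [add_sub_cancel_left] at this
      exact hsm b (p 1) hb0 (hmem0 _ h2 (U1.smul_mem _ hb))
    · intro h
      rw [h]
      simpa using U0.smul_mem (MulOpposite.op (p 0)) ha
  have hU1 : ∀ p, (cols a b).mulVec p ∈ U1 ↔ p 0 = 0 := by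
    intro p
    rw [cols_mulVec]
    constructor
    · intro h
      have h2 : MulOpposite.op (p 0) • a ∈ U1 := by
        have := U1.sub_mem h (U1.smul_mem (MulOpposite.op (p 1)) hb)
        rwa [add_sub_cancel_right] at this
      exact hsm a (p 0) ha0 (hmem0 _ (U0.smul_mem _ ha) h2)
    · intro h
      rw [h]
      simpa using U1.smul_mem (MulOpposite.op (p 1)) hb
  obtain ⟨t, ht⟩ := exists_unit (T := cols a b) (by
    intro p hp
    have e0 : p 1 = 0 := (hU0 p).mp (by rw [hp]; exact U0.zero_mem)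
    have e1 : p 0 = 0 := (hU1 p).mp (by rw [hp]; exact U1.zero_mem)
    funext i
    fin_cases i
    · exact e1
    · exact e0)
  have hta : (t : QMat 2).mulVec (Pi.single 0 1) = a := by
    rw [ht, cols_mulVec]; simp
  have htb : (t : QMat 2).mulVec (Pi.single 1 1) = b := by
    rw [ht, cols_mulVec]; simp
  refine ⟨t⁻¹, ?_, ?_⟩
  · intro w hw
    rw [mem_conjW, inv_inv] at hw
    have e : ∀ j : Fin 2, (t : QMat 2).mulVec ((w : QMat 2).mulVec (Pi.single j 1)) =
        ((t * w * t⁻¹ : (QMat 2)ˣ) : QMat 2).mulVec ((t : QMat 2).mulVec (Pi.single j 1)) := by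
      intro j
      rw [Units.val_mul, Units.val_mul, ← Matrix.mulVec_mulVec, ← Matrix.mulVec_mulVec, inv_mulVec]
    have e0 := e 0
    have e1 := e 1
    rw [hta] at e0
    rw [htb] at e1
    rw [ht] at e0 e1
    rcases hperm _ hw with ⟨hw0, hw1⟩ | ⟨hw0, hw1⟩
    · left
      have h10 : (w : QMat 2) 1 0 = 0 := by
        have := (hU0 _).mp (e0 ▸ hw0 a ha)
        rwa [Matrix.mulVec_single_one] at this
      have h01 : (w : QMat 2) 0 1 = 0 := by
        have := (hU1 _).mp (e1 ▸ hw1 b hb)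
        rwa [Matrix.mulVec_single_one] at this
      refine ⟨(w : QMat 2) 0 0, (w : QMat 2) 1 1, Matrix.ext (fun i j => ?_)⟩
      fin_cases i <;> fin_cases j <;> simp [dg, h10, h01]
    · right
      have h00 : (w : QMat 2) 0 0 = 0 := by
        have := (hU1 _).mp (e0 ▸ hw0 a ha)
        rwa [Matrix.mulVec_single_one] at this
      have h11 : (w : QMat 2) 1 1 = 0 := by
        have := (hU0 _).mp (e1 ▸ hw1 b hb)
        rwa [Matrix.mulVec_single_one] at this
      refine ⟨(w : QMat 2) 0 1, (w : QMat 2) 1 0, Matrix.ext (fun i j => ?_)⟩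
      fin_cases i <;> fin_cases j <;> simp [ag, h00, h11]
  · refine ⟨t⁻¹ * s * t⁻¹⁻¹, conj_mem_conjW hs, ?_⟩
    have e : ∀ j : Fin 2, ((t⁻¹ * s * t⁻¹⁻¹ : (QMat 2)ˣ) : QMat 2).mulVec (Pi.single j 1) =
        ((t⁻¹ : (QMat 2)ˣ) : QMat 2).mulVec ((s : QMat 2).mulVec ((t : QMat 2).mulVec (Pi.single j 1))) := by
      intro j
      rw [inv_inv, Units.val_mul, Units.val_mul, ← Matrix.mulVec_mulVec, ← Matrix.mulVec_mulVec]
    have e0 := e 0
    have e1 := e 1
    rw [hta, hsa, ← htb, inv_mulVec, Matrix.mulVec_single_one] at e0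
    rw [htb, hsb, ← hta, inv_mulVec, Matrix.mulVec_single_one] at e1
    refine Matrix.ext (fun i j => ?_)
    have e0i := congrFun e0 i
    have e1i := congrFun e1 i
    fin_cases j
    · refine Eq.trans e0i ?_
      fin_cases i <;> simp [ag]
    · refine Eq.trans e1i ?_
      fin_cases i <;> simp [ag]

end Run7.h580
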