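import Pool.Agent.Run7.h580.Defs
import Pool.Agent.Run7.h580.Delta

/-!
Imprimitive groups of rank two: the central element, and the number of reflections.
-/

namespace Run7.h580

open MvPolynomial Quaternion QRefl

/-- finite monomial groups containing the exchange of the coordinates -/
structure SF (W : Subgroup (QMat 2)ˣ) : Prop where
  fin : Finite W
  form : ∀ w ∈ W, (∃ x y, (w : QMat 2) = dg x y) ∨ (∃ x y, (w : QMat 2) = ag x y)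
  swap : ∃ s ∈ W, (s : QMat 2) = ag 1 1

lemma dg_pow (x y : ℍ[ℝ]) (m : ℕ) : dg x y ^ m = dg (x ^ m) (y ^ m) := by
  induction m with
  | zero => rw [pow_zero, pow_zero, pow_zero, dg_one]
  | succ m ih => rw [pow_succ, ih, dg_mul_dg, pow_succ, pow_succ]

lemma normSq_eq_one_of_pow {x : ℍ[ℝ]} {m : ℕ} (hm : m ≠ 0) (h : x ^ m = 1) : normSq x = 1 := by
  have h1 : normSq x ^ m = 1 := by rw [← map_pow, h, map_one]
  exact (pow_eq_one_iff_of_nonneg normSq_nonneg hm).mp h1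

section sf

variable {W : Subgroup (QMat 2)ˣ} (hW : SF W)

include hW

/-- elements are of finite order -/
lemma SF.pow {w : (QMat 2)ˣ} (hw : w ∈ W) : ∃ m : ℕ, m ≠ 0 ∧ w ^ m = 1 := by
  have := hW.fin
  obtain ⟨m, hm, h⟩ := isOfFinOrder_iff_pow_eq_one.mp (isOfFinOrder_of_finite (⟨w, hw⟩ : W))
  refine ⟨m, hm.ne', ?_⟩
  have := congrArg Subtype.val h
  simpa using this

lemma SF.norm_dg {w : (QMat 2)ˣ} (hw : w ∈ W) {x y : ℍ[ℝ]} (h : (w : QMat 2) = dg x y) :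
    normSq x = 1 ∧ normSq y = 1 := by
  obtain ⟨m, hm, h1⟩ := hW.pow hw
  have h2 : (w : QMat 2) ^ m = 1 := by rw [← Units.val_pow_eq_pow_val, h1, Units.val_one]
  rw [h, dg_pow, ← dg_one] at h2
  obtain ⟨h3, h4⟩ := dg_inj h2
  exact ⟨normSq_eq_one_of_pow hm h3, normSq_eq_one_of_pow hm h4⟩

lemma SF.norm_ag {w : (QMat 2)ˣ} (hw : w ∈ W) {x y : ℍ[ℝ]} (h : (w : QMat 2) = ag x y) :
    normSq x = 1 ∧ normSq y = 1 := by
  obtain ⟨s, hs, hs1⟩ := hW.swap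
  refine hW.norm_dg (W.mul_mem hw hs) ?_
  rw [Units.val_mul, h, hs1, ag_mul_ag, mul_one, mul_one]

/-- the underlying finite set of matrices -/
noncomputable def SF.fset : Finset (QMat 2) :=
  (show Set.Finite {A : QMat 2 | ∃ w ∈ W, (w : QMat 2) = A} from by
    have := hW.fin
    have h1 : {A : QMat 2 | ∃ w ∈ W, (w : QMat 2) = A} = (fun w : (QMat 2)ˣ => (w : QMat 2)) '' (W : Set (QMat 2)ˣ) := by
      ext A; simp
    rw [h1]
    exact Set.Finite.image _ (Set.toFinite _)).toFinset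

lemma SF.mem_fset {A : QMat 2} : A ∈ hW.fset ↔ ∃ w ∈ W, (w : QMat 2) = A := by
  simp [SF.fset]

lemma SF.mono (hneg : ∃ t ∈ W, (t : QMat 2) = dg (-1) (-1)) : Mono hW.fset where
  one := hW.mem_fset.mpr ⟨1, W.one_mem, rfl⟩
  mul := by
    intro a ha b hb
    rw [hW.mem_fset] at *
    obtain ⟨x, hx, rfl⟩ := ha
    obtain ⟨y, hy, rfl⟩ := hb
    exact ⟨x * y, W.mul_mem hx hy, Units.val_mul x y⟩
  inv := by
    intro a ha
    rw [hW.mem_fset] at ha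
    obtain ⟨x, hx, rfl⟩ := ha
    exact ⟨((x⁻¹ : (QMat 2)ˣ) : QMat 2), hW.mem_fset.mpr ⟨x⁻¹, W.inv_mem hx, rfl⟩, Units.mul_inv x,
      Units.inv_mul x⟩
  form := by
    intro a ha
    rw [hW.mem_fset] at ha
    obtain ⟨w, hw, rfl⟩ := ha
    rcases hW.form w hw with ⟨x, y, h⟩ | ⟨x, y, h⟩
    · obtain ⟨h1, h2⟩ := hW.norm_dg hw h
      exact ⟨x, y, h1, h2, Or.inl h⟩
    · obtain ⟨h1, h2⟩ := hW.norm_ag hw h
      exact ⟨x, y, h1, h2, Or.inr h⟩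
  swap := hW.mem_fset.mpr hW.swap
  neg := hW.mem_fset.mpr hneg

/-- from `-1 ∈ K` to `-1 ∈ W` -/
lemma SF.neg_of {t : (QMat 2)ˣ} (ht : t ∈ W) {y : ℍ[ℝ]} (h : (t : QMat 2) = dg (-1) y) :
    ∃ t ∈ W, (t : QMat 2) = dg (-1) (-1) := by
  obtain ⟨s, hs, hs1⟩ := hW.swap
  -- `dg (-y) (-y)`
  have h1 : t * (s * t * s) ∈ W := W.mul_mem ht (W.mul_mem (W.mul_mem hs ht) hs)
  have h2 : ((t * (s * t * s) : (QMat 2)ˣ) : QMat 2) = dg (-y) (-y) := by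
    rw [Units.val_mul, Units.val_mul, Units.val_mul, h, hs1, ag_mul_dg, ag_mul_ag, dg_mul_dg]
    simp
  set u := t * (s * t * s) with hu
  obtain ⟨m, hm, hum⟩ := hW.pow h1
  have huo : IsOfFinOrder u := isOfFinOrder_iff_pow_eq_one.mpr ⟨m, Nat.pos_of_ne_zero hm, hum⟩
  set k := orderOf u with hk
  have hk0 : 0 < k := huo.orderOf_pos
  have hyk : (-y) ^ k = 1 := by
    have h3 : (u : QMat 2) ^ k = 1 := by
      rw [← Units.val_pow_eq_pow_val, hk, pow_orderOf_eq_one, Units.val_one]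
    rw [h2, dg_pow, ← dg_one] at h3
    exact (dg_inj h3).1
  rcases Nat.even_or_odd k with ⟨l, hl⟩ | hodd
  · -- even
    refine ⟨u ^ l, W.pow_mem h1 l, ?_⟩
    rw [Units.val_pow_eq_pow_val, h2, dg_pow]
    have h4 : (-y) ^ l * (-y) ^ l = 1 := by rw [← pow_add, ← hl, hyk]
    have h5 : (-y) ^ l ≠ 1 := by
      intro h6
      have h7 : u ^ l = 1 := by
        apply Units.ext
        rw [Units.val_pow_eq_pow_val, h2, dg_pow, h6, dg_one, Units.val_one]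
      have h8 := orderOf_dvd_of_pow_eq_one h7
      have h9 : 0 < l := by omega
      have := Nat.le_of_dvd h9 h8
      omega
    have h6 : (-y) ^ l = -1 := (mul_self_eq_one_iff.mp h4).resolve_left h5
    rw [h6]
  · refine ⟨t ^ k, W.pow_mem ht k, ?_⟩
    rw [Units.val_pow_eq_pow_val, h, dg_pow, hodd.neg_one_pow]
    rw [hodd.neg_pow] at hyk
    have : y ^ k = -1 := by rw [← hyk, neg_neg]
    rw [this]

omit hW in
lemma inv_dg_unit {w : (QMat 2)ˣ} {x y : ℍ[ℝ]ˣ} (h : (w : QMat 2) = dg x y) :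
    ((w⁻¹ : (QMat 2)ˣ) : QMat 2) = dg ((x⁻¹ : ℍ[ℝ]ˣ) : ℍ[ℝ]) ((y⁻¹ : ℍ[ℝ]ˣ) : ℍ[ℝ]) := by
  apply Units.inv_eq_of_mul_eq_one_right
  rw [h, dg_mul_dg, Units.mul_inv, Units.mul_inv, dg_one]

omit hW in
variable (W) in
/-- the diagonal group `K` as a group of units -/
def KK : Subgroup ℍ[ℝ]ˣ where
  carrier := {x | ∃ y : ℍ[ℝ]ˣ, ∃ w ∈ W, (w : QMat 2) = dg x y}
  mul_mem' := by
    rintro a b ⟨y, w, hw, h⟩ ⟨y', w', hw', h'⟩
    refine ⟨y * y', w * w', W.mul_mem hw hw', ?_⟩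
    rw [Units.val_mul, h, h', dg_mul_dg, Units.val_mul, Units.val_mul]
  one_mem' := ⟨1, 1, W.one_mem, by simp only [Units.val_one]; exact dg_one.symm⟩
  inv_mem' := by
    rintro a ⟨y, w, hw, h⟩
    exact ⟨y⁻¹, w⁻¹, W.inv_mem hw, inv_dg_unit h⟩

omit hW in
lemma mem_KK {x : ℍ[ℝ]ˣ} : x ∈ KK W ↔ ∃ y : ℍ[ℝ]ˣ, ∃ w ∈ W, (w : QMat 2) = dg x y := Iff.rfl

lemma SF.finite_KK : Finite (KK W) := by
  have := hW.fin
  have h1 : ((fun x : ℍ[ℝ]ˣ => (x : ℍ[ℝ])) '' (KK W : Set ℍ[ℝ]ˣ)) ⊆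
      (fun w : (QMat 2)ˣ => (w : QMat 2) 0 0) '' (W : Set (QMat 2)ˣ) := by
    rintro _ ⟨x, ⟨y, w, hw, h⟩, rfl⟩
    refine ⟨w, hw, ?_⟩
    simp only
    rw [h]; simp [dg]
  have h2 : Set.Finite (KK W : Set ℍ[ℝ]ˣ) := by
    refine Set.Finite.of_finite_image (Set.Finite.subset (Set.Finite.image _ (Set.toFinite _)) h1) ?_
    intro a _ b _ hab
    exact Units.ext hab
  exact h2.to_subtype

lemma SF.mem_KK_of_dg {w : (QMat 2)ˣ} (hw : w ∈ W) {x y : ℍ[ℝ]} (h : (w : QMat 2) = dg x y) :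
    (∃ u ∈ KK W, (u : ℍ[ℝ]) = x) ∧ (∃ u ∈ KK W, (u : ℍ[ℝ]) = y) := by
  obtain ⟨hx, hy⟩ := hW.norm_dg hw h
  obtain ⟨s, hs, hs1⟩ := hW.swap
  refine ⟨⟨Units.mk0 x (ne_zero_of_norm hx), ⟨Units.mk0 y (ne_zero_of_norm hy), w, hw, h⟩, rfl⟩,
    ⟨Units.mk0 y (ne_zero_of_norm hy), ⟨Units.mk0 x (ne_zero_of_norm hx), s * w * s,
      W.mul_mem (W.mul_mem hs hw) hs, ?_⟩, rfl⟩⟩
  rw [Units.val_mul, Units.val_mul, h, hs1, ag_mul_dg, ag_mul_ag]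
  simp

lemma SF.mem_KK_of_ag {w : (QMat 2)ˣ} (hw : w ∈ W) {x y : ℍ[ℝ]} (h : (w : QMat 2) = ag x y) :
    (∃ u ∈ KK W, (u : ℍ[ℝ]) = x) ∧ (∃ u ∈ KK W, (u : ℍ[ℝ]) = y) := by
  obtain ⟨s, hs, hs1⟩ := hW.swap
  refine hW.mem_KK_of_dg (W.mul_mem hw hs) ?_
  rw [Units.val_mul, h, hs1, ag_mul_ag, mul_one, mul_one]

end sf

lemma re_sum' {ι : Type*} (s : Finset ι) (f : ι → ℍ[ℝ]) : (∑ i ∈ s, f i).re = ∑ i ∈ s, (f i).re := by
  classical
  induction s using Finset.induction_on with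
  | empty => simp
  | insert a s ha ih => rw [Finset.sum_insert ha, Finset.sum_insert ha, re_add, ih]

lemma imI_sum' {ι : Type*} (s : Finset ι) (f : ι → ℍ[ℝ]) : (∑ i ∈ s, f i).imI = ∑ i ∈ s, (f i).imI := by
  classical
  induction s using Finset.induction_on with
  | empty => simp
  | insert a s ha ih => rw [Finset.sum_insert ha, Finset.sum_insert ha, imI_add, ih]

lemma imJ_sum' {ι : Type*} (s : Finset ι) (f : ι → ℍ[ℝ]) : (∑ i ∈ s, f i).imJ = ∑ i ∈ s, (f i).imJ := by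
  classical
  induction s using Finset.induction_on with
  | empty => simp
  | insert a s ha ih => rw [Finset.sum_insert ha, Finset.sum_insert ha, imJ_add, ih]

lemma imK_sum' {ι : Type*} (s : Finset ι) (f : ι → ℍ[ℝ]) : (∑ i ∈ s, f i).imK = ∑ i ∈ s, (f i).imK := by
  classical
  induction s using Finset.induction_on with
  | empty => simp
  | insert a s ha ih => rw [Finset.sum_insert ha, Finset.sum_insert ha, imK_add, ih]

/-- the quaternion `i` -/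
def qI : ℍ[ℝ] := ⟨0, 1, 0, 0⟩

@[simp] lemma qI_re : qI.re = 0 := rfl
@[simp] lemma qI_imI : qI.imI = 1 := rfl
@[simp] lemma qI_imJ : qI.imJ = 0 := rfl
@[simp] lemma qI_imK : qI.imK = 0 := rfl

lemma comm_i {y : ℍ[ℝ]} (h : y * qI = qI * y) : y.imJ = 0 ∧ y.imK = 0 := by
  have h1 := congrArg (fun q : ℍ[ℝ] => q.imJ) h
  have h2 := congrArg (fun q : ℍ[ℝ] => q.imK) h
  simp only [imJ_mul, imK_mul, qI_re, qI_imI, qI_imJ, qI_imK] at h1 h2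
  constructor <;> linarith

/-- conjugating a commuting imaginary quaternion to a multiple of `i` -/
lemma exists_conj {v : ℍ[ℝ]} (hv : v ≠ 0) (hre : v.re = 0) :
    ∃ c : ℍ[ℝ], c ≠ 0 ∧ ∀ x : ℍ[ℝ], x * v = v * x → (c * x * c⁻¹).imJ = 0 ∧ (c * x * c⁻¹).imK = 0 := by
  set ρ : ℝ := Real.sqrt (normSq v) with hρ
  have hn : 0 < normSq v := lt_of_le_of_ne normSq_nonneg (fun h => hv (normSq_eq_zero.mp h.symm))
  have hρ0 : 0 < ρ := Real.sqrt_pos.mpr hn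
  have hρ2 : ρ * ρ = normSq v := Real.mul_self_sqrt hn.le
  have hII : qI * qI = -1 := by
    ext <;> simp
  have hvv : v * v = -((normSq v : ℝ) : ℍ[ℝ]) := by
    have h1 : star v = -v := by
      ext <;> simp [hre]
    have h2 := Quaternion.self_mul_star v
    rw [h1, mul_neg] at h2
    rw [← h2, neg_neg]
  have hcomm : ∀ y : ℍ[ℝ], (ρ : ℍ[ℝ]) * y = y * (ρ : ℍ[ℝ]) := fun y => Quaternion.coe_commutes ρ y
  have hρne : (ρ : ℍ[ℝ]) ≠ 0 := by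
    intro h
    have := congrArg (fun q : ℍ[ℝ] => q.re) h
    simp only [re_coe, re_zero] at this
    exact hρ0.ne' this
  by_cases hc : v + ρ * qI = 0
  · refine ⟨1, one_ne_zero, fun x hx => ?_⟩
    rw [one_mul, inv_one, mul_one]
    apply comm_i
    have h1 : v = -(ρ * qI) := eq_neg_of_add_eq_zero_left hc
    rw [h1] at hx
    have h2 : (ρ : ℍ[ℝ]) * (x * qI) = (ρ : ℍ[ℝ]) * (qI * x) := by
      have h3 : x * (ρ * qI) = ρ * qI * x := by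
        have := congrArg Neg.neg hx
        simpa using this
      rw [← mul_assoc, hcomm x, mul_assoc, h3, mul_assoc]
    exact mul_left_cancel₀ hρne h2
  · set c := v + ρ * qI with hcdef
    have h1 : c * v = ρ * qI * c := by
      rw [hcdef, add_mul, mul_add, hvv]
      have h2 : (ρ : ℍ[ℝ]) * qI * (ρ * qI) = -((normSq v : ℝ) : ℍ[ℝ]) := by
        have : (ρ : ℍ[ℝ]) * qI * (ρ * qI) = ρ * ρ * (qI * qI) := by
          rw [mul_assoc, ← mul_assoc qI, ← hcomm qI]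
          simp only [mul_assoc]
        rw [this, hII, mul_neg, mul_one, ← Quaternion.coe_mul, hρ2]
      rw [h2, add_comm]
    refine ⟨c, hc, fun x hx => ?_⟩
    apply comm_i
    have h2 : c⁻¹ * (ρ * qI) = v * c⁻¹ := by
      have h3 : c⁻¹ * (ρ * qI) * c = v := by
        rw [mul_assoc, ← h1, ← mul_assoc, inv_mul_cancel₀ hc, one_mul]
      calc c⁻¹ * (ρ * qI) = c⁻¹ * (ρ * qI) * c * c⁻¹ := by
            rw [mul_assoc (c⁻¹ * (ρ * qI)), mul_inv_cancel₀ hc, mul_one]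
        _ = v * c⁻¹ := by rw [h3]
    have h4 : (c * x * c⁻¹) * (ρ * qI) = (ρ * qI) * (c * x * c⁻¹) := by
      calc (c * x * c⁻¹) * (ρ * qI) = c * x * (c⁻¹ * (ρ * qI)) := by rw [mul_assoc (c * x)]
        _ = c * (x * v) * c⁻¹ := by rw [h2]; simp only [mul_assoc]
        _ = (c * v) * x * c⁻¹ := by rw [hx]; simp only [mul_assoc]
        _ = (ρ * qI) * (c * x * c⁻¹) := by rw [h1]; simp only [mul_assoc]
    have h5 : (ρ : ℍ[ℝ]) * ((c * x * c⁻¹) * qI) = (ρ : ℍ[ℝ]) * (qI * (c * x * c⁻¹)) := by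
      rw [← mul_assoc (ρ : ℍ[ℝ]), hcomm (c * x * c⁻¹), mul_assoc (c * x * c⁻¹), h4, mul_assoc]
    exact mul_left_cancel₀ hρne h5

/-- Finite groups of quaternions without `-1` are conjugate to groups of complex numbers. -/
theorem conj_complex (K : Subgroup ℍ[ℝ]ˣ) (hK : Finite K) (hneg : (-1 : ℍ[ℝ]ˣ) ∉ K) :
    ∃ c : ℍ[ℝ], c ≠ 0 ∧ ∀ x ∈ K, (c * (x : ℍ[ℝ]) * c⁻¹).imJ = 0 ∧ (c * (x : ℍ[ℝ]) * c⁻¹).imK = 0 := by
  classical
  have := Fintype.ofFinite K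
  have hnorm : ∀ x ∈ K, normSq (x : ℍ[ℝ]) = 1 := by
    intro x hx
    have h1 : (⟨x, hx⟩ : K) ^ Fintype.card K = 1 := pow_card_eq_one
    have h2 := congrArg (fun z : K => ((z : ℍ[ℝ]ˣ) : ℍ[ℝ])) h1
    simp only [Subgroup.coe_pow, Units.val_pow_eq_pow_val, Subgroup.coe_one, Units.val_one] at h2
    exact normSq_eq_one_of_pow Fintype.card_ne_zero h2
  -- the order is odd
  have hodd : Odd (Fintype.card K) := by
    by_contra h
    rw [Nat.not_odd_iff_even] at h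
    have : Fact (Nat.Prime 2) := ⟨Nat.prime_two⟩
    obtain ⟨x, hx⟩ := exists_prime_orderOf_dvd_card 2 h.two_dvd
    have h1 : x ^ 2 = 1 := by rw [← hx]; exact pow_orderOf_eq_one x
    have h2 : ((x : ℍ[ℝ]ˣ) : ℍ[ℝ]) * ((x : ℍ[ℝ]ˣ) : ℍ[ℝ]) = 1 := by
      have := congrArg (fun z : K => ((z : ℍ[ℝ]ˣ) : ℍ[ℝ])) h1
      simpa [sq] using this
    rcases mul_self_eq_one_iff.mp h2 with h3 | h3
    · have : x = 1 := by
        apply Subtype.ext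
        apply Units.ext
        simpa using h3
      rw [this, orderOf_one] at hx
      exact absurd hx (by norm_num)
    · apply hneg
      have : (x : ℍ[ℝ]ˣ) = -1 := by
        apply Units.ext
        rw [h3]; simp
      rw [← this]; exact x.2
  -- squaring is bijective
  have hsq : Function.Bijective (fun x : K => x ^ 2) := by
    refine Function.Injective.bijective_of_finite ?_
    obtain ⟨m, hm⟩ := hodd
    intro x y hxy
    simp only at hxy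
    have h1 : ∀ z : K, (z ^ 2) ^ (m + 1) = z := by
      intro z
      rw [← pow_mul]
      have : 2 * (m + 1) = Fintype.card K + 1 := by omega
      rw [this, pow_succ, pow_card_eq_one, one_mul]
    rw [← h1 x, ← h1 y, hxy]
  by_cases htriv : ∀ x : K, x = 1
  · refine ⟨1, one_ne_zero, fun x hx => ?_⟩
    have h1 := htriv ⟨x, hx⟩
    have h2 : x = 1 := congrArg Subtype.val h1
    rw [h2]; simp
  push Not at htriv
  obtain ⟨y, hy⟩ := htriv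
  have hsum : ∑ x : K, ((x : ℍ[ℝ]ˣ) : ℍ[ℝ]) = 0 := by
    have h1 : ((y : ℍ[ℝ]ˣ) : ℍ[ℝ]) * ∑ x : K, ((x : ℍ[ℝ]ˣ) : ℍ[ℝ]) = ∑ x : K, ((x : ℍ[ℝ]ˣ) : ℍ[ℝ]) := by
      rw [Finset.mul_sum]
      refine Fintype.sum_bijective (fun x : K => y * x) (Group.mulLeft_bijective y) _ _ ?_
      intro x; simp
    have h2 : (((y : ℍ[ℝ]ˣ) : ℍ[ℝ]) - 1) * ∑ x : K, ((x : ℍ[ℝ]ˣ) : ℍ[ℝ]) = 0 := by
      rw [sub_mul, h1, one_mul, sub_self]
    refine (mul_eq_zero.mp h2).resolve_left ?_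
    intro h3
    apply hy
    apply Subtype.ext
    apply Units.ext
    exact sub_eq_zero.mp h3
  have hsum2 : ∑ x : K, (((x : ℍ[ℝ]ˣ) : ℍ[ℝ]) * ((x : ℍ[ℝ]ˣ) : ℍ[ℝ])) = 0 := by
    rw [← hsum]
    refine Fintype.sum_bijective (fun x : K => x ^ 2) hsq _ _ ?_
    intro x; simp [sq]
  -- averages
  let Φ : ℍ[ℝ] → ℍ[ℝ] := fun q => ∑ x : K, ((x : ℍ[ℝ]ˣ) : ℍ[ℝ]) * q * (((x : ℍ[ℝ]ˣ)⁻¹ : ℍ[ℝ]ˣ) : ℍ[ℝ])
  have hΦc : ∀ q, ∀ x ∈ K, (x : ℍ[ℝ]) * Φ q = Φ q * (x : ℍ[ℝ]) := by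
    intro q x hx
    have h1 : (x : ℍ[ℝ]) * Φ q * ((x⁻¹ : ℍ[ℝ]ˣ) : ℍ[ℝ]) = Φ q := by
      simp only [Φ]
      rw [Finset.mul_sum, Finset.sum_mul]
      refine Fintype.sum_bijective (fun z : K => (⟨x, hx⟩ : K) * z) (Group.mulLeft_bijective _) _ _ ?_
      intro z
      simp [mul_assoc]
    calc (x : ℍ[ℝ]) * Φ q = (x : ℍ[ℝ]) * Φ q * (((x⁻¹ : ℍ[ℝ]ˣ) : ℍ[ℝ]) * (x : ℍ[ℝ])) := by
          rw [Units.inv_mul, mul_one]
      _ = Φ q * (x : ℍ[ℝ]) := by rw [← mul_assoc, h1]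
  have hinvstar : ∀ x ∈ K, ((x⁻¹ : ℍ[ℝ]ˣ) : ℍ[ℝ]) = star (x : ℍ[ℝ]) := by
    intro x hx
    apply Units.inv_eq_of_mul_eq_one_right
    rw [Quaternion.self_mul_star, hnorm x hx]; simp
  have hre : ∀ q : ℍ[ℝ], q.re = 0 → (Φ q).re = 0 := by
    intro q hq
    simp only [Φ]
    rw [re_sum']
    refine Finset.sum_eq_zero (fun x _ => ?_)
    rw [hinvstar x.1 x.2]
    simp only [re_mul, imI_mul, imJ_mul, imK_mul, re_star, imI_star, imJ_star, imK_star, hq]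
    ring
  obtain ⟨v, hv0, hvre, hvc⟩ : ∃ v : ℍ[ℝ], v ≠ 0 ∧ v.re = 0 ∧ ∀ x ∈ K, (x : ℍ[ℝ]) * v = v * x := by
    by_contra hcon
    push Not at hcon
    have hz : ∀ q : ℍ[ℝ], q.re = 0 → Φ q = 0 := by
      intro q hq
      by_contra hne
      obtain ⟨x, hx, hxne⟩ := hcon _ hne (hre q hq)
      exact hxne (hΦc q x hx)
    obtain ⟨i, i1, i2, i3, i4⟩ : ∃ p : ℍ[ℝ], p.re = 0 ∧ p.imI = 1 ∧ p.imJ = 0 ∧ p.imK = 0 :=
      ⟨⟨0, 1, 0, 0⟩, rfl, rfl, rfl, rfl⟩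
    obtain ⟨j, j1, j2, j3, j4⟩ : ∃ p : ℍ[ℝ], p.re = 0 ∧ p.imI = 0 ∧ p.imJ = 1 ∧ p.imK = 0 :=
      ⟨⟨0, 0, 1, 0⟩, rfl, rfl, rfl, rfl⟩
    obtain ⟨k, k1, k2, k3, k4⟩ : ∃ p : ℍ[ℝ], p.re = 0 ∧ p.imI = 0 ∧ p.imJ = 0 ∧ p.imK = 1 :=
      ⟨⟨0, 0, 0, 1⟩, rfl, rfl, rfl, rfl⟩
    have h1 := congrArg (fun q : ℍ[ℝ] => q.imI) (hz i i1)
    have h2 := congrArg (fun q : ℍ[ℝ] => q.imJ) (hz j j1)
    have h3 := congrArg (fun q : ℍ[ℝ] => q.imK) (hz k k1)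
    have h4 := congrArg (fun q : ℍ[ℝ] => q.re) hsum2
    simp only [Φ, imI_sum', imJ_sum', imK_sum', re_sum', imI_zero, imJ_zero, imK_zero, re_zero] at h1 h2 h3 h4
    have h5 : ∑ x : K, (1 : ℝ) = ∑ x : K,
        ((((x : ℍ[ℝ]ˣ) : ℍ[ℝ]) * i * (((x : ℍ[ℝ]ˣ)⁻¹ : ℍ[ℝ]ˣ) : ℍ[ℝ])).imI +
        (((x : ℍ[ℝ]ˣ) : ℍ[ℝ]) * j * (((x : ℍ[ℝ]ˣ)⁻¹ : ℍ[ℝ]ˣ) : ℍ[ℝ])).imJ +
        (((x : ℍ[ℝ]ˣ) : ℍ[ℝ]) * k * (((x : ℍ[ℝ]ˣ)⁻¹ : ℍ[ℝ]ˣ) : ℍ[ℝ])).imK -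
        2 * (((x : ℍ[ℝ]ˣ) : ℍ[ℝ]) * ((x : ℍ[ℝ]ˣ) : ℍ[ℝ])).re) := by
      refine Finset.sum_congr rfl (fun x _ => ?_)
      have hn := hnorm x.1 x.2
      rw [normSq_def'] at hn
      rw [hinvstar x.1 x.2]
      simp only [re_mul, imI_mul, imJ_mul, imK_mul, re_star, imI_star, imJ_star, imK_star,
        i1, i2, i3, i4, j1, j2, j3, j4, k1, k2, k3, k4]
      linear_combination -hn
    rw [Finset.sum_sub_distrib, Finset.sum_add_distrib, Finset.sum_add_distrib, h1, h2, h3,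
      ← Finset.mul_sum, h4] at h5
    simp at h5
  obtain ⟨c, hc, h⟩ := exists_conj hv0 hvre
  exact ⟨c, hc, fun x hx => h x (hvc x hx)⟩

section sf2

variable {W : Subgroup (QMat 2)ˣ} (hW : SF W)

include hW

/-- a group in standard form without central involution is complex -/
lemma SF.isComplex (h : (-1 : ℍ[ℝ]ˣ) ∉ KK W) : IsComplex W := by
  obtain ⟨c, hc, hcx⟩ := conj_complex (KK W) hW.finite_KK h
  let g : (QMat 2)ˣ := ⟨dg c c, dg c⁻¹ c⁻¹,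
    by rw [dg_mul_dg, mul_inv_cancel₀ hc, dg_one], by rw [dg_mul_dg, inv_mul_cancel₀ hc, dg_one]⟩
  have hg : (g : QMat 2) = dg c c := rfl
  have hg' : ((g⁻¹ : (QMat 2)ˣ) : QMat 2) = dg c⁻¹ c⁻¹ := rfl
  refine ⟨g, fun w hw i j => ?_⟩
  rcases hW.form w hw with ⟨x, y, hxy⟩ | ⟨x, y, hxy⟩
  · obtain ⟨⟨u, hu, rfl⟩, ⟨u', hu', rfl⟩⟩ := hW.mem_KK_of_dg hw hxy
    have h1 := hcx u hu
    have h2 := hcx u' hu'
    rw [Units.val_mul, Units.val_mul, hg, hg', hxy, dg_mul_dg, dg_mul_dg]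
    fin_cases i <;> fin_cases j
    · exact h1
    · exact ⟨rfl, rfl⟩
    · exact ⟨rfl, rfl⟩
    · exact h2
  · obtain ⟨⟨u, hu, rfl⟩, ⟨u', hu', rfl⟩⟩ := hW.mem_KK_of_ag hw hxy
    have h1 := hcx u hu
    have h2 := hcx u' hu'
    rw [Units.val_mul, Units.val_mul, hg, hg', hxy, dg_mul_ag, ag_mul_dg]
    fin_cases i <;> fin_cases j
    · exact ⟨rfl, rfl⟩
    · exact h1
    · exact h2
    · exact ⟨rfl, rfl⟩

lemma SF.neg_mem (h : ¬ IsComplex W) : ∃ t ∈ W, (t : QMat 2) = dg (-1) (-1) := by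
  have h1 : (-1 : ℍ[ℝ]ˣ) ∈ KK W := by
    by_contra hcon
    exact h (hW.isComplex hcon)
  obtain ⟨y, w, hw, hwy⟩ := h1
  refine hW.neg_of hw (y := y) ?_
  rw [hwy]; simp

end sf2

end Run7.h580
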