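import Pool.Agent.Run7.h580.Red2
import Pool.Agent.Run7.h580.Red3

/-!
Imprimitive groups of rank two: the number of reflections and the conclusion.
-/

namespace Run7.h580

open MvPolynomial Quaternion QRefl

lemma op_smul_apply {n : ℕ} (c : ℍ[ℝ]ᵐᵒᵖ) (v : QVec n) (i : Fin n) : (c • v) i = v i * c.unop := rfl

lemma finrank_fix_dg {x y : ℍ[ℝ]} :
    Module.finrank ℍ[ℝ]ᵐᵒᵖ (fixedSpace (dg x y : QMat 2)) + 1 = 2 ↔
      (x = 1 ∧ y ≠ 1) ∨ (x ≠ 1 ∧ y = 1) := by
  have hmem : ∀ v : QVec 2, v ∈ fixedSpace (dg x y : QMat 2) ↔ x * v 0 = v 0 ∧ y * v 1 = v 1 := by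
    intro v
    rw [mem_fixedSpace, dg_mulVec]
    constructor
    · intro h
      exact ⟨congrFun h 0, congrFun h 1⟩
    · rintro ⟨h1, h2⟩
      funext i
      fin_cases i
      · exact h1
      · exact h2
  have hz : ∀ {x t : ℍ[ℝ]}, x ≠ 1 → x * t = t → t = 0 := by
    intro x t hx ht
    by_contra h0
    apply hx
    exact mul_right_cancel₀ h0 (by rw [ht, one_mul])
  by_cases hx : x = 1 <;> by_cases hy : y = 1
  · have htop : fixedSpace (dg x y : QMat 2) = ⊤ := by
      rw [eq_top_iff]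
      intro v _
      rw [hmem, hx, hy, one_mul, one_mul]
      exact ⟨rfl, rfl⟩
    rw [htop, finrank_top, finrank_QVec]
    simp [hx, hy]
  · have h1 : Module.finrank ℍ[ℝ]ᵐᵒᵖ (fixedSpace (dg x y : QMat 2)) = 1 := by
      refine finrank_eq_one ⟨![1, 0], by rw [hmem]; simp [hx]⟩ ?_ ?_
      · intro h
        have := congrFun (congrArg Subtype.val h) 0
        simp at this
      · rintro ⟨w, hw⟩
        rw [hmem] at hw
        refine ⟨MulOpposite.op (w 0), Subtype.ext (funext (fun i => ?_))⟩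
        fin_cases i
        · simp
        · simp [hz hy hw.2]
    simp [h1, hx, hy]
  · have h1 : Module.finrank ℍ[ℝ]ᵐᵒᵖ (fixedSpace (dg x y : QMat 2)) = 1 := by
      refine finrank_eq_one ⟨![0, 1], by rw [hmem]; simp [hy]⟩ ?_ ?_
      · intro h
        have := congrFun (congrArg Subtype.val h) 1
        simp at this
      · rintro ⟨w, hw⟩
        rw [hmem] at hw
        refine ⟨MulOpposite.op (w 1), Subtype.ext (funext (fun i => ?_))⟩
        fin_cases i
        · simp [hz hx hw.1]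
        · simp
    simp [h1, hx, hy]
  · have hbot : fixedSpace (dg x y : QMat 2) = ⊥ := by
      rw [eq_bot_iff]
      intro v hv
      rw [hmem] at hv
      rw [Submodule.mem_bot]
      funext i
      fin_cases i
      · exact hz hx hv.1
      · exact hz hy hv.2
    rw [hbot, finrank_bot]
    simp [hx, hy]

lemma finrank_fix_ag {x y : ℍ[ℝ]} :
    Module.finrank ℍ[ℝ]ᵐᵒᵖ (fixedSpace (ag x y : QMat 2)) + 1 = 2 ↔ x * y = 1 := by
  have hmem : ∀ v : QVec 2, v ∈ fixedSpace (ag x y : QMat 2) ↔ x * v 1 = v 0 ∧ y * v 0 = v 1 := by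
    intro v
    rw [mem_fixedSpace, ag_mulVec]
    constructor
    · intro h
      exact ⟨congrFun h 0, congrFun h 1⟩
    · rintro ⟨h1, h2⟩
      funext i
      fin_cases i
      · exact h1
      · exact h2
  by_cases hxy : x * y = 1
  · have hyx : y * x = 1 := by
      have hx : x ≠ 0 := by rintro rfl; simp at hxy
      have : y = x⁻¹ := eq_inv_of_mul_eq_one_right hxy
      rw [this, inv_mul_cancel₀ hx]
    have h1 : Module.finrank ℍ[ℝ]ᵐᵒᵖ (fixedSpace (ag x y : QMat 2)) = 1 := by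
      refine finrank_eq_one ⟨![x, 1], by rw [hmem]; simp [hyx]⟩ ?_ ?_
      · intro h
        have := congrFun (congrArg Subtype.val h) 1
        simp at this
      · rintro ⟨w, hw⟩
        rw [hmem] at hw
        refine ⟨MulOpposite.op (w 1), Subtype.ext (funext (fun i => ?_))⟩
        fin_cases i
        · simp [hw.1]
        · simp
    simp [h1, hxy]
  · have hbot : fixedSpace (ag x y : QMat 2) = ⊥ := by
      rw [eq_bot_iff]
      intro v hv
      rw [hmem] at hv
      rw [Submodule.mem_bot]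
      have h0 : v 0 = 0 := by
        by_contra h0
        apply hxy
        have : x * y * v 0 = 1 * v 0 := by rw [mul_assoc, hv.2, hv.1, one_mul]
        exact mul_right_cancel₀ h0 this
      have h1 : v 1 = 0 := by rw [← hv.2, h0, mul_zero]
      funext i
      fin_cases i
      · exact h0
      · exact h1
    rw [hbot, finrank_bot]
    simp [hxy]

section sf3

variable {W : Subgroup (QMat 2)ˣ} (hW : SF W)

include hW

lemma SF.isReflection_iff {w : (QMat 2)ˣ} (hw : w ∈ W) :
    IsReflection w ↔ Module.finrank ℍ[ℝ]ᵐᵒᵖ (fixedSpace (w : QMat 2)) + 1 = 2 := by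
  rw [IsReflection]
  refine ⟨fun h => h.2, fun h => ⟨?_, h⟩⟩
  obtain ⟨m, hm, hwm⟩ := hW.pow hw
  exact isOfFinOrder_iff_pow_eq_one.mpr ⟨m, Nat.pos_of_ne_zero hm, hwm⟩

/-- the number of reflections -/
lemma SF.numReflections (hM : Mono hW.fset) :
    numReflections W = 2 * ((grpH hW.fset).card - 1) + (setR hW.fset).card := by
  classical
  have hinjval : Function.Injective (fun w : {w : (QMat 2)ˣ // w ∈ W ∧ IsReflection w} => (w.1 : QMat 2)) :=
    fun a b h => Subtype.ext (Units.ext h)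
  set A : Finset (QMat 2) := ((grpH hW.fset).erase 1).image (fun y => dg 1 y) with hA
  set B : Finset (QMat 2) := ((grpH hW.fset).erase 1).image (fun y => dg y 1) with hB
  set R : Finset (QMat 2) := (setR hW.fset).image (fun x => ag x⁻¹ x) with hR
  have hmemA : ∀ M, M ∈ A ↔ ∃ y, y ≠ 1 ∧ dg 1 y ∈ hW.fset ∧ dg 1 y = M := by
    intro M
    simp only [hA, Finset.mem_image, Finset.mem_erase, mem_grpH, and_assoc]
  have hmemB : ∀ M, M ∈ B ↔ ∃ y, y ≠ 1 ∧ dg 1 y ∈ hW.fset ∧ dg y 1 = M := by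
    intro M
    simp only [hB, Finset.mem_image, Finset.mem_erase, mem_grpH, and_assoc]
  have hmemR : ∀ M, M ∈ R ↔ ∃ x, x ≠ 0 ∧ ag x⁻¹ x ∈ hW.fset ∧ ag x⁻¹ x = M := by
    intro M
    simp only [hR, Finset.mem_image, mem_setR, and_assoc]
  have hset : Set.range (fun w : {w : (QMat 2)ˣ // w ∈ W ∧ IsReflection w} => (w.1 : QMat 2)) =
      ((A ∪ B ∪ R : Finset (QMat 2)) : Set (QMat 2)) := by
    ext M
    rw [Finset.mem_coe, Finset.mem_union, Finset.mem_union, hmemA, hmemB, hmemR]
    constructor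
    · rintro ⟨⟨w, hw, hr⟩, rfl⟩
      simp only
      rw [hW.isReflection_iff hw] at hr
      rcases hW.form w hw with ⟨x, y, h⟩ | ⟨x, y, h⟩
      · rw [h, finrank_fix_dg] at hr
        left
        rcases hr with ⟨rfl, hy⟩ | ⟨hx, rfl⟩
        · exact Or.inl ⟨y, hy, hW.mem_fset.mpr ⟨w, hw, h⟩, h.symm⟩
        · exact Or.inr ⟨x, hx, dg_swap hM (hW.mem_fset.mpr ⟨w, hw, h⟩), h.symm⟩
      · rw [h, finrank_fix_ag] at hr
        right
        have hy0 : y ≠ 0 := by rintro rfl; simp at hr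
        have hx : x = y⁻¹ := eq_inv_of_mul_eq_one_left hr
        subst hx
        exact ⟨y, hy0, hW.mem_fset.mpr ⟨w, hw, h⟩, h.symm⟩
    · rintro ((⟨y, hy, hmem, rfl⟩ | ⟨y, hy, hmem, rfl⟩) | ⟨x, hx, hmem, rfl⟩)
      · obtain ⟨w, hw, h⟩ := hW.mem_fset.mp hmem
        refine ⟨⟨w, hw, ?_⟩, h⟩
        rw [hW.isReflection_iff hw, h, finrank_fix_dg]
        exact Or.inl ⟨rfl, hy⟩
      · obtain ⟨w, hw, h⟩ := hW.mem_fset.mp (dg_swap hM hmem)
        refine ⟨⟨w, hw, ?_⟩, h⟩
        rw [hW.isReflection_iff hw, h, finrank_fix_dg]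
        exact Or.inr ⟨hy, rfl⟩
      · obtain ⟨w, hw, h⟩ := hW.mem_fset.mp hmem
        refine ⟨⟨w, hw, ?_⟩, h⟩
        rw [hW.isReflection_iff hw, h, finrank_fix_ag]
        exact inv_mul_cancel₀ hx
  have hcardA : A.card = (grpH hW.fset).card - 1 := by
    rw [hA, Finset.card_image_of_injective _ (fun a b h => (dg_inj h).2),
      Finset.card_erase_of_mem (ugrp_H hM).one]
  have hcardB : B.card = (grpH hW.fset).card - 1 := by
    rw [hB, Finset.card_image_of_injective _ (fun a b h => (dg_inj h).1),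
      Finset.card_erase_of_mem (ugrp_H hM).one]
  have hcardR : R.card = (setR hW.fset).card := by
    rw [hR, Finset.card_image_of_injective _ (fun a b h => (ag_inj h).2)]
  have hAB : Disjoint A B := by
    rw [Finset.disjoint_left]
    intro M h1 h2
    rw [hmemA] at h1
    rw [hmemB] at h2
    obtain ⟨y, hy, _, rfl⟩ := h1
    obtain ⟨z, hz, _, h⟩ := h2
    exact hz (dg_inj h).1
  have hABR : Disjoint (A ∪ B) R := by
    rw [Finset.disjoint_left]
    intro M h1 h2
    rw [Finset.mem_union, hmemA, hmemB] at h1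
    rw [hmemR] at h2
    obtain ⟨x, hx, _, rfl⟩ := h2
    rcases h1 with ⟨y, hy, _, h⟩ | ⟨y, hy, hmem, h⟩
    · exact dg_ne_ag one_ne_zero h
    · have hmem' : y ∈ grpH hW.fset := mem_grpH.mpr hmem
      exact dg_ne_ag (ne_zero_of_norm ((ugrp_H hM).norm y hmem')) h
  rw [QRefl.numReflections, ← Nat.card_range_of_injective hinjval, hset]
  rw [Nat.card_coe_set_eq, Set.ncard_coe_finset, Finset.card_union_of_disjoint hABR,
    Finset.card_union_of_disjoint hAB, hcardA, hcardB, hcardR]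
  ring

/-- the conclusion for groups in standard form -/
lemma SF.hasQuot (h : ¬ IsComplex W) : HasQuot W ((QRefl.numReflections W + 1) ^ 2) := by
  have hM : Mono hW.fset := hW.mono (hW.neg_mem h)
  obtain ⟨J, h1, h2⟩ := main_mono hM
  refine ⟨J, ?_, ?_⟩
  · rw [zeroFiberIdeal, Ideal.span_le]
    rintro f ⟨hf, d, hd, hhom⟩
    obtain ⟨e, rfl⟩ : ∃ e, d = e + 1 := ⟨d - 1, by omega⟩
    refine h1 e f hhom (fun w hw => ?_)
    obtain ⟨u, hu, rfl⟩ := hW.mem_fset.mp hw
    exact isInvariant_iff.mp hf u hu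
  · rw [h2, hW.numReflections hM]

end sf3

/-- **Zero fibers of imprimitive quaternionic reflection groups of rank two.** -/
theorem imprimitive_rank_two (W : Subgroup (QMat 2)ˣ) (hW : IsReflectionGroup W)
    (hirr : IsIrreducible W) (himp : IsImprimitive W) (hnc : ¬ IsComplex W) :
    ∃ J : Ideal (ZeroFiberRing W),
      Module.finrank ℂ (ZeroFiberRing W ⧸ J) = (QRefl.numReflections W + 1) ^ 2 := by
  apply hasQuot_quot
  obtain ⟨g, h1, h2⟩ := exists_monomial hW hirr himp
  apply hasQuot_conj g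
  have hSF : SF (conjW g W) := ⟨finite_conj g hW.finite, h1, h2⟩
  rw [← numReflections_conj g W]
  exact hSF.hasQuot (fun h => hnc (isComplex_conj g h))

end Run7.h580
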