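import Pool.Agent.Run7.h580.T1
import Pool.Agent.Run7.h580.Delta

/-!
Semi-invariants for groups of tensor type: orders of vanishing at eigenvectors.
-/

namespace Run7.h580.Ten

open MvPolynomial Run7.h580 Quaternion

/-- eigenvectors of unit quaternions -/
lemma exists_eig {q : ℍ[ℝ]} {l : ℂ} (hq : normSq q = 1) (hl : Complex.normSq l = 1)
    (hre : q.re = l.re) : ∃ p : ℍ[ℝ], qvec p ≠ 0 ∧ qvec (q * p) = l⁻¹ • qvec p := by
  have hl0 : l ≠ 0 := by rintro rfl; simp at hl
  have hinv : l⁻¹ = (starRingEnd ℂ) l := by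
    rw [Complex.inv_def, hl]; simp
  let A : Matrix (Fin 2) (Fin 2) ℂ := fun i j => qmat q i j - if i = j then l⁻¹ else 0
  have hdet : A.det = 0 := by
    rw [Matrix.det_fin_two]
    have h1 := det_qmat q
    rw [hq] at h1
    have h2 : qmat q 0 0 + qmat q 1 1 = l + l⁻¹ := by
      rw [hinv]
      apply Complex.ext
      · simp [qmat, hre]
      · simp [qmat]
    simp only [A, Fin.isValue, if_true, zero_ne_one, one_ne_zero, if_false, sub_zero]
    have h3 : l * l⁻¹ = 1 := mul_inv_cancel₀ hl0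
    simp only [Complex.ofReal_one] at h1
    linear_combination h1 - l⁻¹ * h2 - h3
  obtain ⟨v, hv, hAv⟩ := Matrix.exists_mulVec_eq_zero_iff.mpr hdet
  obtain ⟨p, rfl⟩ := qvec_surj v
  refine ⟨p, hv, ?_⟩
  funext i
  have h1 := congrFun hAv i
  simp only [A, Matrix.mulVec, dotProduct, Fin.sum_univ_two, Pi.zero_apply] at h1
  rw [qvec_mul, Fin.sum_univ_two, Pi.smul_apply, smul_eq_mul]
  rcases fin2 i with rfl | rfl
  · simp only [Fin.isValue, if_true, zero_ne_one, if_false, sub_zero] at h1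
    linear_combination h1
  · simp only [Fin.isValue, if_true, one_ne_zero, if_false, sub_zero] at h1
    linear_combination h1

lemma det2_smul_right (c : ℂ) (v w : Fin 2 → ℂ) : det2 v (c • w) = c * det2 v w := by
  simp [det2]; ring

lemma lin_smul (c : ℂ) (w : Fin 2 → ℂ) : lin (c • w) = C c * lin w := by
  apply MvPolynomial.funext
  intro v
  rw [map_mul, eval_lin, eval_lin, det2_smul_right, eval_C]

/-- proportional vectors -/
lemma exists_smul_of_det {v w : Fin 2 → ℂ} (hw : w ≠ 0) (h : det2 v w = 0) : ∃ c : ℂ, v = c • w := by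
  rw [det2] at h
  by_cases h0 : w 0 = 0
  · have h1 : w 1 ≠ 0 := by
      intro h1
      apply hw
      funext i
      rcases fin2 i with rfl | rfl
      · exact h0
      · exact h1
    refine ⟨v 1 / w 1, funext (fun i => ?_)⟩
    rcases fin2 i with rfl | rfl
    · rw [Pi.smul_apply, h0, smul_zero]
      rw [h0, mul_zero, sub_zero] at h
      exact (mul_eq_zero.mp h).resolve_right h1
    · rw [Pi.smul_apply, smul_eq_mul, div_mul_cancel₀ _ h1]
  · refine ⟨v 0 / w 0, funext (fun i => ?_)⟩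
    rcases fin2 i with rfl | rfl
    · rw [Pi.smul_apply, smul_eq_mul, div_mul_cancel₀ _ h0]
    · rw [Pi.smul_apply, smul_eq_mul]
      field_simp
      linear_combination -h

/-- pullback of a linear form -/
lemma lin_pull {q : ℍ[ℝ]} (hq : normSq q = 1) {p p' : ℍ[ℝ]} {c : ℂ}
    (h : qvec p = c • qvec (q * p')) : subst (qmat q) (lin (qvec p)) = C c * lin (qvec p') := by
  apply poly_ext
  intro v
  rw [ev_subst, ev_mul, ev_lin, ev_lin, om, h, det2_smul_right]
  have h1 : det2 (qvec (q * v)) (qvec (q * p')) = om v p' := om_mul_unit hq v p'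
  rw [h1]
  simp [ev]

/-- The order formula: a product of linear forms times a form not vanishing at an eigenvector. -/
lemma order_formula {ι : Type*} (S : Finset ι) (P : ι → ℍ[ℝ]) (hP : ∀ i ∈ S, qvec (P i) ≠ 0)
    {Q : Bf} {d : ℕ} (hQ : Q.IsHomogeneous d) {p0 : ℍ[ℝ]} (hp0 : qvec p0 ≠ 0) (hQ0 : ev Q p0 ≠ 0)
    {q : ℍ[ℝ]} (hq : normSq q = 1) {μ : ℂ} (hμ : μ ≠ 0) (hqp : qvec (q * p0) = μ • qvec p0) {χ : ℂ}
    (hχ : subst (qmat q) ((∏ i ∈ S, lin (qvec (P i))) * Q) = C χ * ((∏ i ∈ S, lin (qvec (P i))) * Q)) :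
    χ * μ ^ (2 * (S.filter (fun i => det2 (qvec (P i)) (qvec p0) = 0)).card) = μ ^ (S.card + d) := by
  classical
  set A := S.filter (fun i => det2 (qvec (P i)) (qvec p0) = 0) with hA
  set B := S.filter (fun i => ¬ det2 (qvec (P i)) (qvec p0) = 0) with hB
  have hsplit : ∏ i ∈ S, lin (qvec (P i)) = (∏ i ∈ A, lin (qvec (P i))) * ∏ i ∈ B, lin (qvec (P i)) :=
    (Finset.prod_filter_mul_prod_filter_not S _ _).symm
  have hcard : A.card + B.card = S.card := Finset.card_filter_add_card_filter_not _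
  have hAp : ∀ i ∈ A, ∃ c : ℂ, qvec (P i) = c • qvec p0 := by
    intro i hi
    rw [hA, Finset.mem_filter] at hi
    exact exists_smul_of_det hp0 hi.2
  choose! c hc using hAp
  have hc0 : ∀ i ∈ A, c i ≠ 0 := by
    intro i hi h0
    have h1 := hc i hi
    rw [h0, zero_smul] at h1
    exact hP i (Finset.mem_filter.mp hi).1 h1
  have hAprod : ∏ i ∈ A, lin (qvec (P i)) = C (∏ i ∈ A, c i) * lin (qvec p0) ^ A.card := by
    rw [map_prod, ← Finset.prod_const, ← Finset.prod_mul_distrib]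
    refine Finset.prod_congr rfl (fun i hi => ?_)
    rw [hc i hi, lin_smul]
  set Q' : Bf := C (∏ i ∈ A, c i) * (∏ i ∈ B, lin (qvec (P i))) * Q with hQ'
  have hQ'hom : Q'.IsHomogeneous (B.card + d) := by
    have h1 := MvPolynomial.IsHomogeneous.prod B (fun i => lin (qvec (P i))) (fun _ => 1)
      (fun i _ => lin_isHomogeneous _)
    have h1' : (∏ i ∈ B, lin (qvec (P i))).IsHomogeneous B.card := by simpa using h1
    have h2 := ((isHomogeneous_C (Fin 2) (∏ i ∈ A, c i)).mul h1').mul hQ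
    rw [zero_add] at h2
    exact h2
  have hQ'0 : ev Q' p0 ≠ 0 := by
    rw [hQ', ev_mul, ev_mul]
    refine mul_ne_zero (mul_ne_zero ?_ ?_) hQ0
    · simp only [ev, eval_C]
      exact Finset.prod_ne_zero_iff.mpr hc0
    · rw [ev_prod, Finset.prod_ne_zero_iff]
      intro i hi
      rw [ev_lin, om, det2_swap, neg_ne_zero]
      exact (Finset.mem_filter.mp hi).2
  have hfac : (∏ i ∈ S, lin (qvec (P i))) * Q = lin (qvec p0) ^ A.card * Q' := by
    rw [hsplit, hAprod, hQ']; ring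
  have hlin : subst (qmat q) (lin (qvec p0)) = C μ⁻¹ * lin (qvec p0) := by
    apply lin_pull hq
    rw [hqp, smul_smul, inv_mul_cancel₀ hμ, one_smul]
  rw [hfac, map_mul, map_pow, hlin, mul_pow, ← C_pow] at hχ
  have hlne : lin (qvec p0) ^ A.card ≠ 0 := pow_ne_zero _ (lin_ne_zero hp0)
  have h1 : C (μ⁻¹ ^ A.card) * subst (qmat q) Q' = C χ * Q' := by
    have h2 : lin (qvec p0) ^ A.card * (C (μ⁻¹ ^ A.card) * subst (qmat q) Q' - C χ * Q') = 0 := by
      linear_combination hχ
    exact sub_eq_zero.mp ((mul_eq_zero.mp h2).resolve_left hlne)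
  have h2 := congrArg (fun g => ev g p0) h1
  simp only [ev_mul] at h2
  rw [ev_subst] at h2
  have h3 : ev Q' (q * p0) = μ ^ (B.card + d) * ev Q' p0 := by
    rw [ev, hqp, eval_smul_of_isHomogeneous hQ'hom]; rfl
  rw [h3] at h2
  have h4 : ev (C (μ⁻¹ ^ A.card) : Bf) p0 = μ⁻¹ ^ A.card := by simp [ev]
  have h5 : ev (C χ : Bf) p0 = χ := by simp [ev]
  rw [h4, h5, ← mul_assoc] at h2
  have h6 := mul_right_cancel₀ hQ'0 h2
  rw [← h6, ← hcard]
  have h7 : μ⁻¹ ^ A.card * μ ^ A.card = 1 := by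
    rw [← mul_pow, inv_mul_cancel₀ hμ, one_pow]
  rw [two_mul, pow_add, add_assoc, pow_add μ A.card]
  linear_combination (μ ^ (B.card + d) * μ ^ A.card) * h7

/-- distinct roots of unity -/
lemma roots_bound (A : Finset ℂ) {b : ℕ} (hb : 0 < b) (h : ∀ x ∈ A, x ^ b = 1) : A.card ≤ b := by
  classical
  have h1 : A ⊆ (Polynomial.nthRoots b (1 : ℂ)).toFinset := by
    intro x hx
    rw [Multiset.mem_toFinset, Polynomial.mem_nthRoots hb]
    exact h x hx
  calc A.card ≤ (Polynomial.nthRoots b (1 : ℂ)).toFinset.card := Finset.card_le_card h1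
    _ ≤ Multiset.card (Polynomial.nthRoots b (1 : ℂ)) := Multiset.toFinset_card_le _
    _ ≤ b := Polynomial.card_nthRoots b 1

end Run7.h580.Ten
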