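import Pool.Agent.Run7.h580.T5
import Pool.Agent.Run7.h580.T6

/-!
Groups of tensor type: the semi-invariant and its uniqueness.
-/

namespace Run7.h580.Ten

open MvPolynomial Run7.h580 Quaternion

/-- finite groups of tensor type in standard form -/
structure TG (Γ : Subgroup Tr) : Prop where
  fin : (Γ : Set Tr).Finite
  normq : ∀ t ∈ Γ, normSq (t.q : ℍ[ℝ]) = 1
  norml : ∀ t ∈ Γ, Complex.normSq (t.l : ℂ) = 1
  swap : (⟨1, 1, true⟩ : Tr) ∈ Γ
  neg : (⟨-1, -1, false⟩ : Tr) ∈ Γ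
  cen : (⟨-1, 1, false⟩ : Tr) ∈ Γ

/-- rotations as triples -/
noncomputable def rot : ℂˣ →* Tr where
  toFun l := ⟨1, l, false⟩
  map_one' := rfl
  map_mul' a b := tr_ext (by simp) (by simp) (by simp)

/-- rotations in the group -/
noncomputable def Zs (Γ : Subgroup Tr) : Subgroup ℂˣ := Γ.comap rot

lemma mem_Zs {Γ : Subgroup Tr} {l : ℂˣ} : l ∈ Zs Γ ↔ (⟨1, l, false⟩ : Tr) ∈ Γ := Iff.rfl

/-- number of rotations -/
noncomputable def zz (Γ : Subgroup Tr) : ℕ := Nat.card (Zs Γ)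

open Classical in
/-- reflections in the rotation part, up to sign -/
noncomputable def rf {Γ : Subgroup Tr} (hΓ : TG Γ) : Finset Tr :=
  hΓ.fin.toFinset.filter (fun t => t.e = false ∧ (t.q : ℍ[ℝ]).re = (t.l : ℂ).re ∧ 0 < (t.l : ℂ).im)

variable {Γ : Subgroup Tr} (hΓ : TG Γ)

lemma mem_rf {t : Tr} : t ∈ rf hΓ ↔
    t ∈ Γ ∧ t.e = false ∧ (t.q : ℍ[ℝ]).re = (t.l : ℂ).re ∧ 0 < (t.l : ℂ).im := by
  classical
  simp [rf]

include hΓ

lemma TG.finite_Zs : Finite (Zs Γ) := by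
  have h1 : (Zs Γ : Set ℂˣ).Finite := by
    refine Set.Finite.preimage (f := rot) ?_ hΓ.fin
    intro a _ b _ hab
    exact congrArg Tr.l hab
  exact h1.to_subtype

lemma TG.pow_z {l : ℂˣ} (hl : l ∈ Zs Γ) : l ^ (zz Γ) = 1 := by
  have := hΓ.finite_Zs
  have h1 : (⟨l, hl⟩ : Zs Γ) ^ Nat.card (Zs Γ) = 1 := pow_card_eq_one'
  exact congrArg Subtype.val h1

lemma TG.dvd_of {n : ℤ} (h : ∀ l ∈ Zs Γ, l ^ n = 1) : ((zz Γ : ℕ) : ℤ) ∣ n := by
  have := hΓ.finite_Zs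
  have hcyc : IsCyclic (Zs Γ) := by infer_instance
  obtain ⟨g, hg⟩ := hcyc.exists_generator
  have h1 : orderOf g = Nat.card (Zs Γ) := orderOf_eq_card_of_forall_mem_zpowers hg
  rw [zz, ← h1]
  apply orderOf_dvd_iff_zpow_eq_one.mpr
  apply Subtype.ext
  simpa using h g.1 g.2

lemma TG.sq_mem {t : Tr} (ht : t ∈ Γ) : t.l * t.l ∈ Zs Γ := by
  have key : ∀ t ∈ Γ, t.e = false → t.l * t.l ∈ Zs Γ := by
    intro t ht he
    have h1 := Γ.mul_mem (Γ.mul_mem (Γ.mul_mem ht hΓ.swap) (Γ.inv_mem ht)) hΓ.swap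
    rw [mem_Zs]
    convert h1 using 1
    refine tr_ext ?_ ?_ ?_
    · simp
    · simp [he]
    · simp [he]
  rcases he : t.e with _ | _
  · exact key t ht he
  · have h1 := key (t * ⟨1, 1, true⟩) (Γ.mul_mem ht hΓ.swap) (by simp [he])
    simpa [he] using h1

lemma TG.pow_2z {t : Tr} (ht : t ∈ Γ) : t.l ^ (2 * (zz Γ : ℤ)) = 1 := by
  have h1 := hΓ.pow_z (hΓ.sq_mem ht)
  rw [← sq, ← pow_mul] at h1
  exact_mod_cast h1

lemma TG.neg_one_mem : (-1 : ℂˣ) ∈ Zs Γ := by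
  rw [mem_Zs]
  have h1 := Γ.mul_mem hΓ.cen hΓ.neg
  convert h1 using 1
  refine tr_ext ?_ ?_ ?_ <;> simp

lemma TG.even_z : Even (zz Γ) := by
  have h1 := hΓ.pow_z hΓ.neg_one_mem
  by_contra h
  rw [Nat.not_even_iff_odd] at h
  rw [h.neg_one_pow] at h1
  have h2 := congrArg (fun u : ℂˣ => (u : ℂ)) h1
  simp only [Units.val_neg, Units.val_one] at h2
  have h3 := congrArg Complex.re h2
  norm_num at h3

lemma TG.z_pos : 0 < zz Γ := by
  have := hΓ.finite_Zs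
  exact Nat.card_pos

lemma TG.two_le_z : 2 ≤ zz Γ := by
  obtain ⟨k, hk⟩ := hΓ.even_z
  have := hΓ.z_pos
  omega

omit hΓ in
lemma re_mul_comm (a b : ℍ[ℝ]) : (a * b).re = (b * a).re := by
  simp only [re_mul]; ring

omit hΓ in
lemma inv_l_coe {l : ℂˣ} (hl : Complex.normSq (l : ℂ) = 1) :
    ((l⁻¹ : ℂˣ) : ℂ) = (starRingEnd ℂ) (l : ℂ) := by
  rw [Units.val_inv_eq_inv_val, Complex.inv_def, hl]; simp

/-- the number of reflections in the rotation part is even -/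
lemma TG.even_rf : Even (rf hΓ).card := by
  classical
  have h1 : ∑ _t ∈ rf hΓ, (1 : ZMod 2) = 0 := by
    refine Finset.sum_involution (fun t _ => (⟨-1, -1, false⟩ : Tr) * (⟨1, 1, true⟩ * t * ⟨1, 1, true⟩))
      ?_ ?_ ?_ ?_
    · intro t ht
      exact CharTwo.add_self_eq_zero 1
    · intro t ht _ h
      have h2 := congrArg (fun t : Tr => (t.q : ℍ[ℝ])) h
      simp at h2
      have h3 : (t.q : ℍ[ℝ]) = 0 := by
        have a1 := congrArg (fun x : ℍ[ℝ] => x.re) h2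
        have a2 := congrArg (fun x : ℍ[ℝ] => x.imI) h2
        have a3 := congrArg (fun x : ℍ[ℝ] => x.imJ) h2
        have a4 := congrArg (fun x : ℍ[ℝ] => x.imK) h2
        simp only [re_neg, imI_neg, imJ_neg, imK_neg] at a1 a2 a3 a4
        ext
        · rw [re_zero]; linarith
        · rw [imI_zero]; linarith
        · rw [imJ_zero]; linarith
        · rw [imK_zero]; linarith
      exact t.q.ne_zero h3
    · intro t ht
      rw [mem_rf] at ht ⊢
      obtain ⟨h1, h2, h3, h4⟩ := ht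
      refine ⟨Γ.mul_mem hΓ.neg (Γ.mul_mem (Γ.mul_mem hΓ.swap h1) hΓ.swap), by simp [h2], ?_, ?_⟩
      · simp only [Tr.mul_q, Tr.mul_l, one_mul, mul_one, Bool.false_eq_true, if_false, if_true,
          Units.val_neg, Units.val_mul, neg_mul, re_neg]
        simp only [h2, Tr.mul_e, Bool.xor_false, if_true, inv_one]
        rw [inv_l_coe (hΓ.norml t h1)]
        simp [h3]
      · simp only [Tr.mul_l, Tr.mul_e, h2, Bool.xor_false, if_true, inv_one, mul_one, one_mul,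
          Bool.false_eq_true, if_false, Units.val_neg, neg_mul]
        rw [inv_l_coe (hΓ.norml t h1)]
        simpa using h4
    · intro t ht
      rw [mem_rf] at ht
      refine tr_ext ?_ ?_ ?_
      · simp
      · simp [ht.2.1]
      · simp
  rw [Finset.sum_const, nsmul_one] at h1
  exact (ZMod.natCast_eq_zero_iff_even).mp h1

/-- eigenvectors of reflections -/
lemma TG.exists_pt : ∃ P : Tr → ℍ[ℝ], ∀ t ∈ rf hΓ, qvec (P t) ≠ 0 ∧
    qvec ((t.q : ℍ[ℝ]) * P t) = ((t.l⁻¹ : ℂˣ) : ℂ) • qvec (P t) := by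
  have h : ∀ t : Tr, ∃ p : ℍ[ℝ], t ∈ rf hΓ → qvec p ≠ 0 ∧
      qvec ((t.q : ℍ[ℝ]) * p) = ((t.l⁻¹ : ℂˣ) : ℂ) • qvec p := by
    intro t
    by_cases ht : t ∈ rf hΓ
    · have ht' := (mem_rf hΓ).mp ht
      obtain ⟨p, h1, h2⟩ := exists_eig (hΓ.normq t ht'.1) (hΓ.norml t ht'.1) ht'.2.2.1
      refine ⟨p, fun _ => ⟨h1, ?_⟩⟩
      rw [h2, Units.val_inv_eq_inv_val]
    · exact ⟨0, fun h' => absurd h' ht⟩
  choose P hP using h
  exact ⟨P, fun t ht => hP t ht⟩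

omit hΓ in
/-- two eigenvectors for the same eigenvalue are proportional -/
lemma eig_unique {q v w : ℍ[ℝ]} (hq : normSq q = 1) {μ : ℂ} (hμ : μ * μ ≠ 1)
    (hv : qvec (q * v) = μ • qvec v) (hw : qvec (q * w) = μ • qvec w) :
    det2 (qvec v) (qvec w) = 0 := by
  have h1 : om (q * v) (q * w) = om v w := om_mul_unit hq v w
  rw [om, om, hv, hw] at h1
  have h2 : det2 (μ • qvec v) (μ • qvec w) = μ * μ * det2 (qvec v) (qvec w) := by
    simp [det2]; ring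
  rw [h2] at h1
  have h3 : (μ * μ - 1) * det2 (qvec v) (qvec w) = 0 := by linear_combination h1
  refine (mul_eq_zero.mp h3).resolve_left ?_
  intro h4
  exact hμ (by linear_combination h4)

omit hΓ in
lemma qvec_mul_smul (x : ℍ[ℝ]) {a b : ℍ[ℝ]} {c : ℂ} (h : qvec a = c • qvec b) :
    qvec (x * a) = c • qvec (x * b) := by
  funext i
  rw [qvec_mul, h, Pi.smul_apply, qvec_mul, smul_eq_mul, Finset.mul_sum]
  refine Finset.sum_congr rfl (fun j _ => ?_)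
  rw [Pi.smul_apply, smul_eq_mul]; ring

omit hΓ in
/-- `l ^ (-2) ≠ 1` when the imaginary part is positive -/
lemma inv_sq_ne {l : ℂˣ} (him : 0 < (l : ℂ).im) :
    ((l⁻¹ : ℂˣ) : ℂ) * ((l⁻¹ : ℂˣ) : ℂ) ≠ 1 := by
  intro h
  have h1 : (l : ℂ) * (l : ℂ) = 1 := by
    have h2 : (l : ℂ) * ((l⁻¹ : ℂˣ) : ℂ) = 1 := by rw [Units.mul_inv]
    calc (l : ℂ) * l = (l : ℂ) * l * (((l⁻¹ : ℂˣ) : ℂ) * ((l⁻¹ : ℂˣ) : ℂ)) := by rw [h, mul_one]
      _ = ((l : ℂ) * ((l⁻¹ : ℂˣ) : ℂ)) * ((l : ℂ) * ((l⁻¹ : ℂˣ) : ℂ)) := by ring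
      _ = 1 := by rw [h2, one_mul]
  rcases mul_self_eq_one_iff.mp h1 with h3 | h3
  · rw [h3] at him; simp at him
  · rw [h3] at him; simp at him

section semi

variable {P : Tr → ℍ[ℝ]} (hP : ∀ t ∈ rf hΓ, qvec (P t) ≠ 0 ∧
    qvec ((t.q : ℍ[ℝ]) * P t) = ((t.l⁻¹ : ℂˣ) : ℂ) • qvec (P t))

/-- the product of the linear forms attached to the reflections -/
noncomputable def JJ (P : Tr → ℍ[ℝ]) : Bf := ∏ t ∈ rf hΓ, lin (qvec (P t))

lemma JJ_isHomogeneous (P : Tr → ℍ[ℝ]) : (JJ hΓ P).IsHomogeneous (rf hΓ).card := by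
  have := MvPolynomial.IsHomogeneous.prod (rf hΓ) (fun t => lin (qvec (P t))) (fun _ => 1)
    (fun t _ => lin_isHomogeneous _)
  simpa [JJ] using this

include hP

lemma JJ_ne_zero : JJ hΓ P ≠ 0 := by
  rw [JJ, Finset.prod_ne_zero_iff]
  intro t ht
  exact lin_ne_zero (hP t ht).1

/-- `JJ` is a semi-invariant. -/
lemma JJ_semi {t : Tr} (ht : t ∈ Γ) : ∃ c : ℂ, c ≠ 0 ∧
    subst (qmat (t.q : ℍ[ℝ])) (JJ hΓ P) = C c * JJ hΓ P := by
  -- reduce to the rotation part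
  have key : ∀ t ∈ Γ, t.e = false → ∃ c : ℂ, c ≠ 0 ∧
      subst (qmat (t.q : ℍ[ℝ])) (JJ hΓ P) = C c * JJ hΓ P := by
    intro t ht he
    have hconj : ∀ s ∈ rf hΓ, t⁻¹ * s * t ∈ rf hΓ := by
      intro s hs
      rw [mem_rf] at hs ⊢
      obtain ⟨h1, h2, h3, h4⟩ := hs
      have hl : (t⁻¹ * s * t).l = s.l := by simp [he, h2]
      refine ⟨Γ.mul_mem (Γ.mul_mem (Γ.inv_mem ht) h1) ht, by simp [he, h2], ?_, by rw [hl]; exact h4⟩
      rw [hl, ← h3]
      simp only [Tr.mul_q, Tr.inv_q, Units.val_mul]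
      rw [re_mul_comm, ← mul_assoc, Units.mul_inv, one_mul]
    have hc : ∀ s ∈ rf hΓ, ∃ c : ℂ, qvec (P s) = c • qvec ((t.q : ℍ[ℝ]) * P (t⁻¹ * s * t)) := by
      intro s hs
      have hs' := (mem_rf hΓ).mp hs
      obtain ⟨h1, h2⟩ := hP s hs
      obtain ⟨h3, h4⟩ := hP _ (hconj s hs)
      have hl : (t⁻¹ * s * t).l = s.l := by simp [he, hs'.2.1]
      rw [hl] at h4
      have h5 := qvec_mul_smul (t.q : ℍ[ℝ]) h4
      have h6 : (t.q : ℍ[ℝ]) * (((t⁻¹ * s * t).q : ℍ[ℝ]) * P (t⁻¹ * s * t)) =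
          (s.q : ℍ[ℝ]) * ((t.q : ℍ[ℝ]) * P (t⁻¹ * s * t)) := by
        simp only [Tr.mul_q, Tr.inv_q, Units.val_mul]
        rw [← mul_assoc, ← mul_assoc, ← mul_assoc, ← mul_assoc, Units.mul_inv, one_mul]
      rw [h6] at h5
      have h7 := eig_unique (hΓ.normq s hs'.1) (inv_sq_ne hs'.2.2.2) h2 h5
      refine exists_smul_of_det ?_ h7
      intro h8
      have h9 : (t.q : ℍ[ℝ]) * P (t⁻¹ * s * t) = 0 := qvec_injective (by rw [h8, qvec_zero])
      have h10 := (mul_eq_zero.mp h9).resolve_left t.q.ne_zero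
      rw [h10, qvec_zero] at h3
      exact h3 rfl
    choose! c hc using hc
    refine ⟨∏ s ∈ rf hΓ, c s, ?_, ?_⟩
    · rw [Finset.prod_ne_zero_iff]
      intro s hs h0
      have h1 := hc s hs
      rw [h0, zero_smul] at h1
      exact (hP s hs).1 h1
    · have h1 : subst (qmat (t.q : ℍ[ℝ])) (JJ hΓ P) =
          ∏ s ∈ rf hΓ, (C (c s) * lin (qvec (P (t⁻¹ * s * t)))) := by
        rw [JJ, map_prod]
        refine Finset.prod_congr rfl (fun s hs => ?_)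
        exact lin_pull (hΓ.normq t ht) (hc s hs)
      rw [h1, Finset.prod_mul_distrib, map_prod]
      congr 1
      rw [JJ]
      refine Finset.prod_nbij' (fun s => t⁻¹ * s * t) (fun s => t * s * t⁻¹) ?_ ?_ ?_ ?_ ?_
      · intro s hs; exact hconj s hs
      · intro s hs
        rw [mem_rf] at hs ⊢
        obtain ⟨h1, h2, h3, h4⟩ := hs
        have hl : (t * s * t⁻¹).l = s.l := by simp [he, h2]
        refine ⟨Γ.mul_mem (Γ.mul_mem ht h1) (Γ.inv_mem ht), by simp [he, h2], ?_, by rw [hl]; exact h4⟩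
        rw [hl, ← h3]
        simp only [Tr.mul_q, Tr.inv_q, Units.val_mul]
        rw [re_mul_comm, ← mul_assoc, Units.inv_mul, one_mul]
      · intro s _; group
      · intro s _; group
      · intro s _; rfl
  rcases he : t.e with _ | _
  · exact key t ht he
  · have h1 := key (t * ⟨1, 1, true⟩) (Γ.mul_mem ht hΓ.swap) (by simp [he])
    simpa using h1

end semi

end Run7.h580.Ten
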