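import Pool.Agent.Run7.h580.Red2
import Pool.Agent.Run7.h580.T7

/-!
Groups of tensor type: the standard form and the number of reflections.
-/

namespace Run7.h580

open MvPolynomial Quaternion QRefl Run7.h580.Ten

/-- rotation matrices with quaternionic factor -/
noncomputable def rtM (q : ℍ[ℝ]) (l : ℂ) : QMat 2 := !![l.re • q, -(l.im • q); l.im • q, l.re • q]

/-- reflection matrices with quaternionic factor -/
noncomputable def rfM (q : ℍ[ℝ]) (l : ℂ) : QMat 2 := !![l.re • q, l.im • q; l.im • q, -(l.re • q)]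

lemma rtM_mul_rtM (q q' : ℍ[ℝ]) (l l' : ℂ) : rtM q l * rtM q' l' = rtM (q * q') (l * l') := by
  refine Matrix.ext (fun i j => ?_)
  fin_cases i <;> fin_cases j <;>
    simp [rtM, Matrix.mul_apply, Fin.sum_univ_two, smul_smul, sub_smul, add_smul] <;> module

lemma rfM_mul_rtM (q q' : ℍ[ℝ]) (l l' : ℂ) :
    rfM q l * rtM q' l' = rfM (q * q') (l * (starRingEnd ℂ) l') := by
  refine Matrix.ext (fun i j => ?_)
  fin_cases i <;> fin_cases j <;>
    simp [rtM, rfM, Matrix.mul_apply, Fin.sum_univ_two, smul_smul, sub_smul, add_smul] <;> module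

lemma rtM_mul_rfM (q q' : ℍ[ℝ]) (l l' : ℂ) : rtM q l * rfM q' l' = rfM (q * q') (l * l') := by
  refine Matrix.ext (fun i j => ?_)
  fin_cases i <;> fin_cases j <;>
    simp [rtM, rfM, Matrix.mul_apply, Fin.sum_univ_two, smul_smul, sub_smul, add_smul] <;> module

lemma rfM_mul_rfM (q q' : ℍ[ℝ]) (l l' : ℂ) :
    rfM q l * rfM q' l' = rtM (q * q') (l * (starRingEnd ℂ) l') := by
  refine Matrix.ext (fun i j => ?_)
  fin_cases i <;> fin_cases j <;>
    simp [rtM, rfM, Matrix.mul_apply, Fin.sum_univ_two, smul_smul, sub_smul, add_smul] <;> module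

lemma rtM_one : rtM 1 1 = 1 := by
  refine Matrix.ext (fun i j => ?_)
  fin_cases i <;> fin_cases j <;> simp [rtM]

lemma rtM_neg_one : rtM (-1) 1 = -1 := by
  refine Matrix.ext (fun i j => ?_)
  fin_cases i <;> fin_cases j <;> simp [rtM]

/-- the matrix of a triple -/
noncomputable def mat (t : Tr) : QMat 2 := if t.e = true then rfM t.q t.l else rtM t.q t.l

lemma mat_false {t : Tr} (h : t.e = false) : mat t = rtM t.q t.l := by simp [mat, h]
lemma mat_true {t : Tr} (h : t.e = true) : mat t = rfM t.q t.l := by simp [mat, h]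

/-- unit triples -/
def Uni (t : Tr) : Prop := normSq (t.q : ℍ[ℝ]) = 1 ∧ Complex.normSq (t.l : ℂ) = 1

lemma mat_mul {t t' : Tr} (h' : Uni t') : mat (t * t') = mat t * mat t' := by
  have hl := inv_l_coe h'.2
  rcases he : t.e with _ | _ <;> rcases he' : t'.e with _ | _
  · rw [mat_false (by simp [he, he']), mat_false he, mat_false he', rtM_mul_rtM]
    simp [he]
  · rw [mat_true (by simp [he, he']), mat_false he, mat_true he', rtM_mul_rfM]
    simp [he]
  · rw [mat_true (by simp [he, he']), mat_true he, mat_false he', rfM_mul_rtM, ← hl]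
    simp [he]
  · rw [mat_false (by simp [he, he']), mat_true he, mat_true he', rfM_mul_rfM, ← hl]
    simp [he]

lemma mat_one : mat 1 = 1 := by
  rw [mat_false (by simp)]
  simpa using rtM_one

lemma Uni.mul {t t' : Tr} (h : Uni t) (h' : Uni t') : Uni (t * t') := by
  refine ⟨?_, ?_⟩
  · rw [Tr.mul_q, Units.val_mul, map_mul, h.1, h'.1, one_mul]
  · rw [Tr.mul_l, Units.val_mul, map_mul, h.2, one_mul]
    split_ifs
    · rw [inv_l_coe h'.2, Complex.normSq_conj, h'.2]
    · exact h'.2

lemma Uni.inv {t : Tr} (h : Uni t) : Uni t⁻¹ := by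
  refine ⟨?_, ?_⟩
  · rw [Tr.inv_q, Units.val_inv_eq_inv_val, map_inv₀, h.1, inv_one]
  · rw [Tr.inv_l]
    split_ifs
    · exact h.2
    · rw [inv_l_coe h.2, Complex.normSq_conj, h.2]

lemma Uni.one : Uni 1 := by
  refine ⟨?_, ?_⟩ <;> simp

lemma Uni.mk {a : ℍ[ℝ]ˣ} {b : ℂˣ} {e : Bool} (ha : normSq (a : ℍ[ℝ]) = 1)
    (hb : Complex.normSq (b : ℂ) = 1) : Uni ⟨a, b, e⟩ := ⟨ha, hb⟩

/-- the central triple with trivial matrix -/
noncomputable def ngt : Tr := ⟨-1, -1, false⟩

lemma Uni.ngt : Uni ngt := by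
  refine ⟨?_, ?_⟩
  · simp [Run7.h580.ngt]
  · simp [Run7.h580.ngt]

lemma mat_ngt : mat ngt = 1 := by
  rw [mat_false rfl]
  refine Matrix.ext (fun i j => ?_)
  fin_cases i <;> fin_cases j <;> simp [rtM, ngt]

lemma smul_q_eq {r : ℝ} {q : ℍ[ℝ]} (h : r • q = 0) (hq : q ≠ 0) : r = 0 :=
  (smul_eq_zero.mp h).resolve_right hq

lemma mat_ker {t : Tr} (ht : Uni t) (h : mat t = 1) : t = 1 ∨ t = ngt := by
  have hq0 : (t.q : ℍ[ℝ]) ≠ 0 := t.q.ne_zero
  rcases he : t.e with _ | _
  · rw [mat_false he] at h
    have h10 := congrFun (congrFun h 1) 0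
    have h00 := congrFun (congrFun h 0) 0
    simp [rtM] at h10 h00
    have him : (t.l : ℂ).im = 0 := h10
    have hn := ht.2
    rw [Complex.normSq_apply, him] at hn
    have hre : (t.l : ℂ).re = 1 ∨ (t.l : ℂ).re = -1 := by
      apply mul_self_eq_one_iff.mp
      linarith
    rcases hre with hre | hre
    · left
      refine tr_ext ?_ ?_ he
      · apply Units.ext
        rw [hre, one_smul] at h00
        simpa using h00
      · apply Units.ext
        apply Complex.ext
        · rw [hre]; simp
        · rw [him]; simp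
    · right
      refine tr_ext ?_ ?_ he
      · apply Units.ext
        rw [hre, neg_smul, one_smul] at h00
        have : (t.q : ℍ[ℝ]) = -1 := by rw [← h00, neg_neg]
        simpa [ngt] using this
      · apply Units.ext
        apply Complex.ext
        · rw [hre]; simp [ngt]
        · rw [him]; simp [ngt]
  · exfalso
    rw [mat_true he] at h
    have h11 := congrFun (congrFun h 1) 1
    have h00 := congrFun (congrFun h 0) 0
    simp [rfM] at h11 h00
    rw [h00] at h11
    have := congrArg (fun q : ℍ[ℝ] => q.re) h11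
    simp at this
    norm_num at this

lemma mat_inj {t t' : Tr} (ht : Uni t) (ht' : Uni t') (h : mat t = mat t') :
    t' = t ∨ t' = t * ngt := by
  have h1 : mat (t⁻¹ * t') = 1 := by
    rw [mat_mul ht', ← h, ← mat_mul ht, inv_mul_cancel, mat_one]
  rcases mat_ker (ht.inv.mul ht') h1 with h2 | h2
  · left
    exact (inv_mul_eq_one.mp h2).symm
  · right
    rw [← h2, mul_inv_cancel_left]

/-- finite groups of tensor type -/
structure TF (W : Subgroup (QMat 2)ˣ) : Prop where
  fin : Finite W
  form : ∀ w ∈ W, ∃ t : Tr, Uni t ∧ (w : QMat 2) = mat t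
  swap : ∃ s ∈ W, (s : QMat 2) = mat ⟨1, 1, true⟩

variable (W : Subgroup (QMat 2)ˣ) in
/-- the group of triples -/
noncomputable def GG : Subgroup Tr where
  carrier := {t | Uni t ∧ ∃ w ∈ W, (w : QMat 2) = mat t}
  mul_mem' := by
    rintro a b ⟨ha, w, hw, hwa⟩ ⟨hb, w', hw', hwb⟩
    exact ⟨ha.mul hb, w * w', W.mul_mem hw hw', by rw [Units.val_mul, hwa, hwb, mat_mul hb]⟩
  one_mem' := ⟨Uni.one, 1, W.one_mem, by rw [mat_one, Units.val_one]⟩
  inv_mem' := by
    rintro a ⟨ha, w, hw, hwa⟩
    refine ⟨ha.inv, w⁻¹, W.inv_mem hw, ?_⟩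
    apply Units.inv_eq_of_mul_eq_one_right
    rw [hwa, ← mat_mul ha.inv, mul_inv_cancel, mat_one]

section tf

variable {W : Subgroup (QMat 2)ˣ}

lemma mem_GG {t : Tr} : t ∈ GG W ↔ Uni t ∧ ∃ w ∈ W, (w : QMat 2) = mat t := Iff.rfl

variable (hW : TF W)

include hW

lemma TF.finite_GG : ((GG W : Subgroup Tr) : Set Tr).Finite := by
  classical
  have := hW.fin
  choose! f hf using hW.form
  refine Set.Finite.subset (Set.finite_range (fun p : W × Bool => if p.2 = true then f p.1.1 else f p.1.1 * ngt)) ?_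
  rintro t ⟨ht, w, hw, hwt⟩
  obtain ⟨h1, h2⟩ := hf w hw
  rw [hwt] at h2
  rcases mat_inj h1 ht h2.symm with h3 | h3
  · exact ⟨(⟨w, hw⟩, true), by simp [h3]⟩
  · exact ⟨(⟨w, hw⟩, false), by simp [h3]⟩

lemma TF.tg (hneg : ∃ s ∈ W, (s : QMat 2) = -1) : TG (GG W) where
  fin := hW.finite_GG
  normq := fun t ht => ht.1.1
  norml := fun t ht => ht.1.2
  swap := ⟨Uni.mk (by simp) (by simp), hW.swap⟩
  neg := ⟨Uni.ngt, 1, W.one_mem, by
    have := mat_ngt
    rw [ngt] at this
    rw [this, Units.val_one]⟩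
  cen := by
    obtain ⟨s, hs, h⟩ := hneg
    refine ⟨Uni.mk (by simp) (by simp), s, hs, ?_⟩
    rw [h, mat_false rfl, ← rtM_neg_one]
    simp

end tf

/-- fixed spaces of rotation matrices -/
lemma finrank_fix_rt {q : ℍ[ℝ]} {l : ℂ} (hq : normSq q = 1) (hl : Complex.normSq l = 1) :
    Module.finrank ℍ[ℝ]ᵐᵒᵖ (fixedSpace (rtM q l)) + 1 = 2 ↔ q.re = l.re ∧ l.im ≠ 0 := by
  have hq0 : q ≠ 0 := ne_zero_of_norm hq
  have hss : star q * q = 1 := by rw [Quaternion.star_mul_self, hq]; simp
  have hqs : q * star q = 1 := by rw [Quaternion.self_mul_star, hq]; simp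
  have hmem : ∀ v : QVec 2, v ∈ fixedSpace (rtM q l) ↔
      l.re • v 0 - l.im • v 1 = star q * v 0 ∧ l.im • v 0 + l.re • v 1 = star q * v 1 := by
    intro v
    have e0 : (rtM q l).mulVec v 0 = q * (l.re • v 0 - l.im • v 1) := by
      simp [rtM, Matrix.mulVec, dotProduct, Fin.sum_univ_two, sub_eq_add_neg, mul_add]
    have e1 : (rtM q l).mulVec v 1 = q * (l.im • v 0 + l.re • v 1) := by
      simp [rtM, Matrix.mulVec, dotProduct, Fin.sum_univ_two, mul_add]
    have hh : ∀ a b : ℍ[ℝ], q * a = b ↔ a = star q * b := by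
      intro a b
      constructor
      · intro h; rw [← h, ← mul_assoc, hss, one_mul]
      · intro h; rw [h, ← mul_assoc, hqs, one_mul]
    rw [mem_fixedSpace, _root_.funext_iff, Fin.forall_fin_two, e0, e1, hh, hh]
  -- quadratic relation
  have hquad : ∀ v : QVec 2, v ∈ fixedSpace (rtM q l) → v ≠ 0 → q.re = l.re := by
    intro v hv hv0
    rw [hmem] at hv
    obtain ⟨h0, h1⟩ := hv
    have hn : l.re * l.re + l.im * l.im = 1 := by rw [← Complex.normSq_apply, hl]
    have hstar : star q * star q = (2 * q.re) • star q - 1 := by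
      have h2 : star q = (2 * q.re) • (1 : ℍ[ℝ]) - q := by
        ext <;> simp; ring
      calc star q * star q = star q * ((2 * q.re) • (1 : ℍ[ℝ]) - q) := by rw [← h2]
        _ = (2 * q.re) • star q - 1 := by rw [mul_sub, hss, mul_smul_comm, mul_one]
    have key : ∀ i, (2 * (q.re - l.re)) • (star q * v i) = 0 := by
      intro i
      have e0 : star q * (star q * v 0) = (2 * l.re) • (star q * v 0) - v 0 := by
        rw [← h0, mul_sub, mul_smul_comm, mul_smul_comm, ← h0, ← h1]
        have h2 : (2 * l.re) • (l.re • v 0 - l.im • v 1) - v 0 =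
            (2 * l.re) • (l.re • v 0 - l.im • v 1) - (l.re * l.re + l.im * l.im) • v 0 := by
          rw [hn, one_smul]
        rw [h2]
        module
      have e1 : star q * (star q * v 1) = (2 * l.re) • (star q * v 1) - v 1 := by
        rw [← h1, mul_add, mul_smul_comm, mul_smul_comm, ← h0, ← h1]
        have h2 : (2 * l.re) • (l.im • v 0 + l.re • v 1) - v 1 =
            (2 * l.re) • (l.im • v 0 + l.re • v 1) - (l.re * l.re + l.im * l.im) • v 1 := by
          rw [hn, one_smul]
        rw [h2]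
        module
      have e : star q * (star q * v i) = (2 * l.re) • (star q * v i) - v i := by
        fin_cases i
        · exact e0
        · exact e1
      rw [← mul_assoc, hstar, sub_mul, one_mul, smul_mul_assoc] at e
      have e2 : (2 * q.re) • (star q * v i) = (2 * l.re) • (star q * v i) := sub_left_inj.mp e
      rw [mul_sub, sub_smul, e2, sub_self]
    by_contra hne
    apply hv0
    funext i
    have h3 := key i
    rcases smul_eq_zero.mp h3 with h4 | h4
    · exfalso; apply hne; linarith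
    · have h5 : q * (star q * v i) = 0 := by rw [h4, mul_zero]
      rw [← mul_assoc, hqs, one_mul] at h5
      exact h5
  constructor
  · intro h
    have h1 : fixedSpace (rtM q l) ≠ ⊥ := by
      intro hb
      rw [hb, finrank_bot] at h
      exact absurd h (by norm_num)
    obtain ⟨v, hv, hv0⟩ := (Submodule.ne_bot_iff _).mp h1
    have hre := hquad v hv hv0
    refine ⟨hre, fun him => ?_⟩
    -- then the matrix is the identity
    have hn : l.re * l.re + l.im * l.im = 1 := by rw [← Complex.normSq_apply, hl]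
    rw [him, mul_zero, add_zero] at hn
    rw [normSq_def'] at hq
    rw [← hre] at hn
    have hI : q.imI ^ 2 = 0 := by nlinarith [sq_nonneg q.imI, sq_nonneg q.imJ, sq_nonneg q.imK]
    have hJ : q.imJ ^ 2 = 0 := by nlinarith [sq_nonneg q.imI, sq_nonneg q.imJ, sq_nonneg q.imK]
    have hK : q.imK ^ 2 = 0 := by nlinarith [sq_nonneg q.imI, sq_nonneg q.imJ, sq_nonneg q.imK]
    rw [sq_eq_zero_iff] at hI hJ hK
    have hsq : star q = l.re • (1 : ℍ[ℝ]) := by
      ext <;> simp [hre, hI, hJ, hK]
    have htop : fixedSpace (rtM q l) = ⊤ := by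
      rw [eq_top_iff]
      intro u _
      rw [hmem, hsq, him]
      simp
    rw [htop, finrank_top, finrank_QVec] at h
    exact absurd h (by norm_num)
  · rintro ⟨hre, him⟩
    have hn : l.re * l.re + l.im * l.im = 1 := by rw [← Complex.normSq_apply, hl]
    set v : ℍ[ℝ] := l.im⁻¹ • (l.re • (1 : ℍ[ℝ]) - star q) with hv
    have hbv : l.im • v = l.re • (1 : ℍ[ℝ]) - star q := by
      rw [hv, smul_smul, mul_inv_cancel₀ him, one_smul]
    have h1 : Module.finrank ℍ[ℝ]ᵐᵒᵖ (fixedSpace (rtM q l)) = 1 := by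
      refine finrank_eq_one ⟨![1, v], ?_⟩ ?_ ?_
      · rw [hmem]
        simp only [Matrix.cons_val_zero, Matrix.cons_val_one]
        refine ⟨?_, ?_⟩
        · rw [hbv]; simp
        · have h2 : l.im • (l.im • (1 : ℍ[ℝ]) + l.re • v) = l.im • (star q * v) := by
            rw [smul_add, smul_comm l.im l.re v, hbv, ← mul_smul_comm, hbv, mul_sub,
              mul_smul_comm, mul_one]
            have hstar : star q * star q = (2 * q.re) • star q - 1 := by
              have h2 : star q = (2 * q.re) • (1 : ℍ[ℝ]) - q := by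
                ext <;> simp; ring
              calc star q * star q = star q * ((2 * q.re) • (1 : ℍ[ℝ]) - q) := by rw [← h2]
                _ = (2 * q.re) • star q - 1 := by rw [mul_sub, hss, mul_smul_comm, mul_one]
            rw [hstar, hre]
            have h1 : (1 : ℍ[ℝ]) = (l.re * l.re + l.im * l.im) • (1 : ℍ[ℝ]) := by rw [hn, one_smul]
            have h3 : (2 * l.re) • star q - (1 : ℍ[ℝ]) = (2 * l.re) • star q - (l.re * l.re + l.im * l.im) • (1 : ℍ[ℝ]) := by
              rw [hn, one_smul]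
            rw [h3]
            module
          have h3 := congrArg (fun x : ℍ[ℝ] => l.im⁻¹ • x) h2
          simp only [smul_smul, inv_mul_cancel₀ him, one_smul] at h3
          exact h3
      · intro h
        have := congrFun (congrArg Subtype.val h) 0
        simp at this
      · rintro ⟨w, hw⟩
        rw [hmem] at hw
        refine ⟨MulOpposite.op (w 0), Subtype.ext (funext (fun i => ?_))⟩
        fin_cases i
        · simp
        · have h2 : l.im • w 1 = l.im • (v * w 0) := by
            rw [← smul_mul_assoc, hbv, sub_mul, ← hw.1, smul_mul_assoc, one_mul]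
            module
          have h3 := congrArg (fun x : ℍ[ℝ] => l.im⁻¹ • x) h2
          simp only [smul_smul, inv_mul_cancel₀ him, one_smul] at h3
          simp [h3]
    simp [h1]

end Run7.h580
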