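import Pool.Agent.Run7.h580.S9

/-!
Systems of four lines.
-/

namespace Run7.h580

open MvPolynomial Quaternion QRefl Run7.h580.Ten

/-- the fixed space of a reflection in the complexification -/
lemma fix_span {s : (QMat 2)ˣ} (hs : IsReflection s) : ∃ f : CE, f ≠ 0 ∧ LW (s : QMat 2) f = f ∧
    (∀ v, LW (s : QMat 2) v = v → ∃ x y : ℂ, v = x • f + y • jl f) ∧
    (∀ x y : ℂ, x • f + y • jl f = 0 → x = 0 ∧ y = 0) := by
  have h1 : Module.finrank ℍ[ℝ]ᵐᵒᵖ (fixedSpace (s : QMat 2)) = 1 := by
    have := hs.2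
    omega
  have hne : fixedSpace (s : QMat 2) ≠ ⊥ := by
    intro h
    rw [h, finrank_bot] at h1
    exact absurd h1 (by norm_num)
  obtain ⟨p, hp, hp0⟩ := (Submodule.ne_bot_iff _).mp hne
  have hf0 : cvec p ≠ 0 := fun h => hp0 (cvec_eq_zero h)
  refine ⟨cvec p, hf0, ?_, ?_, ?_⟩
  · rw [LW_cvec, mem_fixedSpace.mp hp]
  · intro v hv
    obtain ⟨q, rfl⟩ := cvec_surj v
    rw [LW_cvec] at hv
    have hq : q ∈ fixedSpace (s : QMat 2) := mem_fixedSpace.mpr (cvec_injective hv)
    have h2 := (finrank_eq_one_iff_of_nonzero' (⟨p, hp⟩ : fixedSpace (s : QMat 2))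
      (fun h => hp0 (congrArg Subtype.val h))).mp h1 ⟨q, hq⟩
    obtain ⟨c, hc⟩ := h2
    have h3 : c • p = q := congrArg Subtype.val hc
    obtain ⟨d, rfl⟩ : ∃ d, c = MulOpposite.op d := ⟨c.unop, rfl⟩
    exact ⟨_, _, by rw [← h3, cvec_smul']⟩
  · intro x y hxy
    have h2 : cvec (MulOpposite.op (qab x y) • p) = 0 := by rw [cvec_smul, hxy]
    have h3 := (smul_eq_zero.mp (cvec_eq_zero h2)).resolve_right hp0
    rw [MulOpposite.op_eq_zero_iff] at h3
    have h4 := congrArg (fun q : ℍ[ℝ] => qvec q 0) h3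
    have h5 := congrArg (fun q : ℍ[ℝ] => qvec q 1) h3
    simp only [qvec_qab, qvec_zero] at h4 h5
    exact ⟨h4, h5⟩

/-- a linear functional kills a nonzero fixed vector -/
lemma fix_kill {s : (QMat 2)ˣ} (hs : IsReflection s) (φ : CE →ₗ[ℂ] ℂ) :
    ∃ v, v ≠ 0 ∧ LW (s : QMat 2) v = v ∧ φ v = 0 := by
  obtain ⟨f, hf0, hf, _, hind⟩ := fix_span hs
  have hjf : LW (s : QMat 2) (jl f) = jl f := by rw [LW_jl, hf]
  by_cases h : φ f = 0
  · exact ⟨f, hf0, hf, h⟩
  · refine ⟨φ (jl f) • f + (-(φ f)) • jl f, ?_, ?_, ?_⟩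
    · intro h0
      exact h (neg_eq_zero.mp (hind _ _ h0).2)
    · rw [map_add, map_smul, map_smul, hf, hjf]
    · rw [map_add, map_smul, map_smul, smul_eq_mul, smul_eq_mul]; ring

/-- three independent fixed vectors do not exist -/
lemma fix_three {s : (QMat 2)ˣ} (hs : IsReflection s) {u v w : CE} (hu : LW (s : QMat 2) u = u)
    (hv : LW (s : QMat 2) v = v) (hw : LW (s : QMat 2) w = w) :
    ∃ x y z : ℂ, (x ≠ 0 ∨ y ≠ 0 ∨ z ≠ 0) ∧ x • u + y • v + z • w = 0 := by
  obtain ⟨f, hf0, hf, hspan, hind⟩ := fix_span hs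
  obtain ⟨a, b, rfl⟩ := hspan u hu
  obtain ⟨c, d, rfl⟩ := hspan v hv
  obtain ⟨e, g, rfl⟩ := hspan w hw
  by_cases h1 : a = 0 ∧ b = 0
  · refine ⟨1, 0, 0, Or.inl one_ne_zero, ?_⟩
    rw [h1.1, h1.2]; simp
  · by_cases h2 : a * d - b * c = 0
    · by_cases ha : a = 0
      · have hb : b ≠ 0 := fun h => h1 ⟨ha, h⟩
        have hc : c = 0 := by
          rw [ha] at h2
          have : b * c = 0 := by linear_combination -h2
          exact (mul_eq_zero.mp this).resolve_left hb
        refine ⟨-d, b, 0, Or.inr (Or.inl hb), ?_⟩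
        rw [ha, hc]
        module
      · refine ⟨-c, a, 0, Or.inr (Or.inl ha), ?_⟩
        have h3 : -c * b + a * d = 0 := by linear_combination h2
        have : -c • (a • f + b • jl f) + a • (c • f + d • jl f) + (0 : ℂ) • (e • f + g • jl f) =
            (-c * b + a * d) • jl f := by module
        rw [this, h3, zero_smul]
    · refine ⟨c * g - d * e, b * e - a * g, a * d - b * c, Or.inr (Or.inr h2), ?_⟩
      module

section four

variable {W : Subgroup (QMat 2)ˣ} (hW : IsReflectionGroup W) (hirr : IsIrreducible W)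
  (hnc : ¬ IsComplex W) {U : Fin 4 → Submodule ℂ CE} (hS : Sys W 4 U)

include hW hirr hnc hS

/-- groups with a system of four lines -/
theorem four_hasQuot : HasQuot W ((QRefl.numReflections W + 1) ^ 2) := by
  classical
  obtain ⟨σ, hσ⟩ := hS.exists_hom
  -- pairings
  by_cases hp1 : ∀ w : W, Pres f1 (σ w)
  · exact hS.lump hW hirr hnc hσ f1 ⟨0, rfl⟩ ⟨2, rfl⟩ hp1
  by_cases hp2 : ∀ w : W, Pres f2 (σ w)
  · exact hS.lump hW hirr hnc hσ f2 ⟨0, rfl⟩ ⟨1, rfl⟩ hp2
  by_cases hp3 : ∀ w : W, Pres f3 (σ w)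
  · exact hS.lump hW hirr hnc hσ f3 ⟨0, rfl⟩ ⟨1, rfl⟩ hp3
  exfalso
  push Not at hp1 hp2 hp3
  obtain ⟨x1, hx1⟩ := hp1
  obtain ⟨x2, hx2⟩ := hp2
  obtain ⟨x3, hx3⟩ := hp3
  -- a three-cycle
  obtain ⟨y, hy⟩ : ∃ y : W, Thr (σ y) := by
    rcases comb12 _ _ hx1 hx2 with h | h | h | h
    · exact ⟨x1, h⟩
    · exact ⟨x2, h⟩
    · exact ⟨x1 * x2, by rw [map_mul]; exact h⟩
    · rcases comb13 _ _ hx1 hx3 with h' | h' | h' | h'
      · exact ⟨x1, h'⟩
      · exact ⟨x3, h'⟩
      · exact ⟨x1 * x3, by rw [map_mul]; exact h'⟩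
      · exact absurd h'.2 h.1
  have htrans := fun i j => hS.trans hirr hnc hσ i j
  -- a basis
  have hd : ∀ i, Module.finrank ℂ (U i) = 1 := by
    intro i
    have := hS.finrank hirr hnc i
    omega
  have hnz : ∀ i, ∃ v ∈ U i, v ≠ 0 := fun i => (Submodule.ne_bot_iff _).mp (hS.ne i)
  choose e he he0 using hnz
  have hli : LinearIndependent ℂ e := hS.ind.linearIndependent _ he he0
  let b : Module.Basis (Fin 4) ℂ CE := basisOfLinearIndependentOfCardEqFinrank hli (by simp)
  have hb : ∀ i, b i = e i := fun i => by simp [b]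
  have hbU : ∀ i, b i ∈ U i := fun i => by rw [hb]; exact he i
  have hspan : ∀ i, ∀ v ∈ U i, ∃ c : ℂ, v = c • b i := by
    intro i v hv
    obtain ⟨c, hc⟩ := (finrank_eq_one_iff_of_nonzero' (⟨e i, he i⟩ : U i)
      (fun h => he0 i (congrArg Subtype.val h))).mp (hd i) ⟨v, hv⟩
    exact ⟨c, by rw [hb]; exact (congrArg Subtype.val hc).symm⟩
  -- monomial coefficients
  have ha : ∀ (w : W) (i : Fin 4), ∃ c : ℂ, LW ((w : (QMat 2)ˣ) : QMat 2) (b i) = c • b (σ w i) :=
    fun w i => hspan _ _ (hσ w i _ (hbU i))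
  choose a ha using ha
  have hcoord : ∀ (w : W) (v : CE) (j : Fin 4),
      b.repr (LW ((w : (QMat 2)ˣ) : QMat 2) v) (σ w j) = a w j * b.repr v j := by
    intro w v j
    conv_lhs => rw [← b.sum_repr v, map_sum]
    simp only [map_smul, ha, map_sum, Finsupp.coe_finsetSum, Finset.sum_apply, Finsupp.smul_apply,
      Module.Basis.repr_self]
    rw [Finset.sum_eq_single j]
    · rw [Finsupp.single_eq_same, smul_eq_mul, smul_eq_mul, mul_one]; ring
    · intro i _ hij
      rw [Finsupp.single_eq_of_ne (fun h => hij ((σ w).injective h.symm)), smul_zero, smul_zero]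
    · intro h; exact absurd (Finset.mem_univ _) h
  -- the matrix of the quaternionic structure
  set c : Fin 4 → Fin 4 → ℂ := fun j i => b.repr (jl (b i)) j with hc
  have hequi : ∀ (w : W) (i j : Fin 4),
      (starRingEnd ℂ) (a w i) * c (σ w j) (σ w i) = a w j * c j i := by
    intro w i j
    have h1 : LW ((w : (QMat 2)ˣ) : QMat 2) (jl (b i)) = (starRingEnd ℂ) (a w i) • jl (b (σ w i)) := by
      rw [LW_jl, ha, LinearMap.map_smulₛₗ]
    have h2 := hcoord w (jl (b i)) j
    rw [h1, map_smul, Finsupp.smul_apply, smul_eq_mul] at h2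
    exact h2
  have ha0 : ∀ (w : W) (i : Fin 4), a w i ≠ 0 := by
    intro w i h
    have h1 := ha w i
    rw [h, zero_smul] at h1
    have h2 := LW_eq_zero h1
    rw [hb] at h2
    exact he0 i h2
  have hcne : ∀ (w : W) (i j : Fin 4), c j i ≠ 0 → c (σ w j) (σ w i) ≠ 0 := by
    intro w i j h h0
    have h1 := hequi w i j
    rw [h0, mul_zero] at h1
    exact (mul_ne_zero (ha0 w j) h) h1.symm
  have hcol : ∀ i, ∃ j, j ≠ i ∧ c j i ≠ 0 := by
    intro i
    by_contra hcon
    push Not at hcon
    have h1 : jl (b i) = c i i • b i := by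
      rw [← b.sum_repr (jl (b i)), Finset.sum_eq_single i]
      · intro j _ hj
        have : b.repr (jl (b i)) j = 0 := hcon j hj
        rw [this, zero_smul]
      · intro h; exact absurd (Finset.mem_univ _) h
    have h2 := jl_jl (b i)
    set μ := c i i
    rw [h1, LinearMap.map_smulₛₗ, h1, smul_smul] at h2
    have h5 : ((starRingEnd ℂ) μ * μ + 1) • b i = 0 := by rw [add_smul, h2, one_smul, neg_add_cancel]
    have hbi : b i ≠ 0 := by rw [hb]; exact he0 i
    have h6 := (smul_eq_zero.mp h5).resolve_right hbi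
    have h7 : (starRingEnd ℂ) μ * μ = ((Complex.normSq μ : ℝ) : ℂ) := by
      rw [mul_comm, Complex.mul_conj]
    rw [h7] at h6
    have h8 : Complex.normSq μ + 1 = 0 := by exact_mod_cast h6
    have := Complex.normSq_nonneg μ
    linarith
  -- all off-diagonal entries are nonzero
  have hall : ∀ i j, j ≠ i → c j i ≠ 0 := by
    obtain ⟨p, hp, hcyc⟩ := hy
    have hcolp : ∀ i, i ≠ p → c i p ≠ 0 := by
      obtain ⟨j, hj, hj0⟩ := hcol p
      intro i hi
      have e1 := hcne y p j hj0
      rw [hp] at e1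
      have e2 := hcne y p _ e1
      rw [hp] at e2
      rcases hcyc j hj i hi with h | h | h
      · rw [h]; exact hj0
      · rw [← h]; exact e1
      · rw [← h]; exact e2
    intro i j hij
    obtain ⟨w, hw⟩ := htrans i p
    have h1 : σ w j ≠ p := by
      intro h
      rw [← hw] at h
      exact hij ((σ w).injective h)
    have h2 := hcolp _ h1
    intro h0
    apply h2
    have h3 := hequi w i j
    rw [h0, mul_zero, hw] at h3
    exact (mul_eq_zero.mp h3).resolve_left ((map_ne_zero _).mpr (ha0 w i))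
  -- the signs of reflections
  have hsign : ∀ s : W, IsReflection (s : (QMat 2)ˣ) → Equiv.Perm.sign (σ s) = 1 := by
    intro s hs
    rcases comb_sign (σ s) with h | ⟨i1, i2, i3, i4, n12, n13, n14, n23, n24, n34, h | h⟩
    · exact h
    · exfalso
      obtain ⟨h1, h2, h3, h4⟩ := h
      -- the transposition case
      have e34 := hequi s i3 i4
      rw [h3, h4] at e34
      have q4 : a s i4 = (starRingEnd ℂ) (a s i3) := by
        refine mul_right_cancel₀ (hall i3 i4 n34.symm) ?_
        rw [← e34]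
      have g3 : LW ((s : (QMat 2)ˣ) : QMat 2) (b i3) = a s i3 • b i3 := by
        have := ha s i3; rwa [h3] at this
      have g4 : LW ((s : (QMat 2)ˣ) : QMat 2) (b i4) = a s i4 • b i4 := by
        have := ha s i4; rwa [h4] at this
      have g1 : LW ((s : (QMat 2)ˣ) : QMat 2) (b i1) = a s i1 • b i2 := by
        have := ha s i1; rwa [h1] at this
      have g2 : LW ((s : (QMat 2)ˣ) : QMat 2) (b i2) = a s i2 • b i1 := by
        have := ha s i2; rwa [h2] at this
      -- the fixed coefficient is one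
      have hγ : a s i3 = 1 := by
        by_contra hγ
        obtain ⟨v, hv0, hv, hφ⟩ := fix_kill hs (b.coord i1)
        rw [Module.Basis.coord_apply] at hφ
        have k1 := hcoord s v i1
        rw [hv, h1, hφ, mul_zero] at k1
        have k3 := hcoord s v i3
        rw [hv, h3] at k3
        have k4 := hcoord s v i4
        rw [hv, h4, q4] at k4
        have k3' : b.repr v i3 = 0 := by
          have : (a s i3 - 1) * b.repr v i3 = 0 := by linear_combination -k3
          exact (mul_eq_zero.mp this).resolve_left (sub_ne_zero.mpr hγ)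
        have k4' : b.repr v i4 = 0 := by
          have h5 : (starRingEnd ℂ) (a s i3) - 1 ≠ 0 := by
            intro h6
            apply hγ
            have h7 := congrArg (starRingEnd ℂ) (sub_eq_zero.mp h6)
            simpa using h7
          have : ((starRingEnd ℂ) (a s i3) - 1) * b.repr v i4 = 0 := by linear_combination -k4
          exact (mul_eq_zero.mp this).resolve_left h5
        apply hv0
        apply b.ext_elem
        intro i
        rw [map_zero, Finsupp.zero_apply]
        have hcase : ∀ i1 i2 i3 i4 i : Fin 4, i1 ≠ i2 → i1 ≠ i3 → i1 ≠ i4 → i2 ≠ i3 → i2 ≠ i4 → i3 ≠ i4 →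
            i = i1 ∨ i = i2 ∨ i = i3 ∨ i = i4 := by decide
        rcases hcase i1 i2 i3 i4 i n12 n13 n14 n23 n24 n34 with rfl | rfl | rfl | rfl
        · exact hφ
        · exact k1
        · exact k3'
        · exact k4'
      have hδ : a s i4 = 1 := by rw [q4, hγ, map_one]
      have e1 := hequi s i1 i3
      have e2 := hequi s i2 i3
      rw [h1, h3, hγ, one_mul] at e1
      rw [h2, h3, hγ, one_mul] at e2
      have hprod : a s i1 * a s i2 = 1 := by
        have h5 : (starRingEnd ℂ) (a s i1) * (starRingEnd ℂ) (a s i2) = 1 := by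
          have h6 : c i3 i1 ≠ 0 := hall _ _ n13.symm
          have h7 : (starRingEnd ℂ) (a s i1) * (starRingEnd ℂ) (a s i2) * c i3 i1 = 1 * c i3 i1 := by
            rw [mul_assoc, e2, e1, one_mul]
          exact mul_right_cancel₀ h6 h7
        have h8 := congrArg (starRingEnd ℂ) h5
        simpa using h8
      obtain ⟨x, y', z, hne, hsum⟩ := fix_three hs (u := b i3) (v := b i4) (w := b i1 + a s i1 • b i2)
        (by rw [g3, hγ, one_smul]) (by rw [g4, hδ, one_smul])
        (by rw [map_add, map_smul, g1, g2, smul_smul, hprod, one_smul, add_comm])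
      have hr : ∀ i, x * (if i3 = i then 1 else 0) + y' * (if i4 = i then 1 else 0) +
          z * ((if i1 = i then 1 else 0) + a s i1 * (if i2 = i then 1 else 0)) = 0 := by
        intro i
        have h5 := congrArg (fun v => b.repr v i) hsum
        simp only [map_add, map_smul, map_zero, Finsupp.add_apply, Finsupp.smul_apply, Finsupp.zero_apply,
          Module.Basis.repr_self, Finsupp.single_apply, smul_eq_mul] at h5
        exact h5
      have r3 := hr i3
      have r4 := hr i4
      have r1 := hr i1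
      simp [n13, n23, n34, n34.symm] at r3
      simp [n14, n24, n34] at r4
      simp [n13.symm, n14.symm, n12.symm] at r1
      rcases hne with h | h | h
      · exact h r3
      · exact h r4
      · exact h r1
    · exfalso
      obtain ⟨h1, h2, h3, h4⟩ := h
      obtain ⟨v, hv0, hv, hφ⟩ := fix_kill hs (b.coord i1)
      rw [Module.Basis.coord_apply] at hφ
      have k1 := hcoord s v i1
      rw [hv, h1, hφ, mul_zero] at k1
      have k2 := hcoord s v i2
      rw [hv, h2, k1, mul_zero] at k2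
      have k3 := hcoord s v i3
      rw [hv, h3, k2, mul_zero] at k3
      apply hv0
      apply b.ext_elem
      intro i
      rw [map_zero, Finsupp.zero_apply]
      have hcase : ∀ i1 i2 i3 i4 i : Fin 4, i1 ≠ i2 → i1 ≠ i3 → i1 ≠ i4 → i2 ≠ i3 → i2 ≠ i4 → i3 ≠ i4 →
          i = i1 ∨ i = i2 ∨ i = i3 ∨ i = i4 := by decide
      rcases hcase i1 i2 i3 i4 i n12 n13 n14 n23 n24 n34 with rfl | rfl | rfl | rfl
      · exact hφ
      · exact k1
      · exact k2
      · exact k3
  have heven : ∀ w : W, Equiv.Perm.sign (σ w) = 1 := by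
    rintro ⟨w, hw⟩
    have hw' := hw
    rw [← hW.gen] at hw'
    induction hw' using Subgroup.closure_induction with
    | mem x hx => exact hsign ⟨x, hw⟩ hx.2
    | one =>
      have : (⟨1, hw⟩ : W) = 1 := rfl
      rw [this, map_one, map_one]
    | mul x z hx hz ihx ihz =>
      rw [hW.gen] at hx hz
      have : (⟨x * z, hw⟩ : W) = ⟨x, hx⟩ * ⟨z, hz⟩ := rfl
      rw [this, map_mul, map_mul, ihx hx, ihz hz, one_mul]
    | inv x hx ihx =>
      rw [hW.gen] at hx
      have : (⟨x⁻¹, hw⟩ : W) = (⟨x, hx⟩ : W)⁻¹ := rfl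
      rw [this, map_inv, map_inv, ihx hx, inv_one]
  -- averaging an elementary operator
  have hfin := hW.finite
  have := Fintype.ofFinite W
  set E10 : CE →ₗ[ℂ] CE := (b.coord 0).smulRight (b 1) with hE10
  have hE : ∀ v, E10 v = b.repr v 0 • b 1 := fun v => rfl
  let T : CE →ₗ[ℂ] CE := ∑ w : W, (LW ((w : (QMat 2)ˣ) : QMat 2)) ∘ₗ E10 ∘ₗ
    (LW (((w⁻¹ : W) : (QMat 2)ˣ) : QMat 2))
  have hT : ∀ v, T v = ∑ w : W, LW ((w : (QMat 2)ˣ) : QMat 2) (E10 (LW (((w⁻¹ : W) : (QMat 2)ˣ) : QMat 2) v)) := by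
    intro v
    simp only [T, LinearMap.sum_apply, LinearMap.comp_apply]
  have hTcomm : ∀ (w0 : W) (v : CE), T (LW ((w0 : (QMat 2)ˣ) : QMat 2) v) =
      LW ((w0 : (QMat 2)ˣ) : QMat 2) (T v) := by
    intro w0 v
    rw [hT, hT, map_sum]
    refine (Fintype.sum_equiv (Equiv.mulLeft w0) _ _ (fun w => ?_)).symm
    rw [Equiv.coe_mulLeft]
    rw [← LW_mul, ← LW_mul]
    rw [← Units.val_mul, ← Units.val_mul, ← Subgroup.coe_mul, ← Subgroup.coe_mul]
    have : (w0 * w)⁻¹ * w0 = w⁻¹ := by group
    rw [this]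
  obtain ⟨μ, hμ⟩ := Module.End.exists_eigenvalue T
  obtain ⟨v0, hv0⟩ := hμ.exists_hasEigenvector
  have hTμ : ∀ v, T v = μ • v := by
    let M : Submodule ℂ CE :=
      { carrier := {v | T v = μ • v}
        add_mem' := by
          intro x z hx hz
          simp only [Set.mem_ofPred_eq] at *
          rw [map_add, hx, hz, smul_add]
        zero_mem' := by simp
        smul_mem' := by
          intro d x hx
          simp only [Set.mem_ofPred_eq] at *
          rw [map_smul, hx, smul_comm] }
    have hM : ∀ v, v ∈ M ↔ T v = μ • v := fun v => Iff.rfl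
    rcases irred_complex hirr hnc M (fun w hw v hv => by
      rw [hM] at hv ⊢
      have := hTcomm ⟨w, hw⟩ v
      simp only at this
      rw [this, hv, map_smul]) with h | h
    · exfalso
      have h1 : v0 ∈ M := (hM v0).mpr hv0.apply_eq_smul
      rw [h, Submodule.mem_bot] at h1
      exact hv0.2 h1
    · intro v
      rw [← hM, h]; trivial
  -- the matrix entry
  have hterm : ∀ w : W, b.repr (LW ((w : (QMat 2)ˣ) : QMat 2) (E10 (LW (((w⁻¹ : W) : (QMat 2)ˣ) : QMat 2) (b 0)))) 1 =
      if σ w = 1 then 1 else 0 := by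
    intro w
    rw [hE, ha w⁻¹ 0, map_smul, map_smul, ha w 1, map_smul, map_smul]
    simp only [Module.Basis.repr_self, Finsupp.smul_apply, Finsupp.single_apply, smul_eq_mul]
    by_cases hw : σ w = 1
    · have hw' : σ w⁻¹ = 1 := by rw [map_inv, hw, inv_one]
      rw [hw, hw']
      simp only [Equiv.Perm.one_apply, if_true, mul_one]
      -- compare the coefficients
      have q1 := hequi w 2 0
      have q2 := hequi w 2 1
      rw [hw] at q1 q2
      simp only [Equiv.Perm.one_apply] at q1 q2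
      have q3 : a w 0 = (starRingEnd ℂ) (a w 2) :=
        mul_right_cancel₀ (hall 2 0 (by decide)) q1.symm
      have q4 : a w 1 = (starRingEnd ℂ) (a w 2) :=
        mul_right_cancel₀ (hall 2 1 (by decide)) q2.symm
      have q5 : a w⁻¹ 0 * a w 0 = 1 := by
        have h1 := LW_inv' (w : (QMat 2)ˣ) (b 0)
        have h2 : LW (((w : (QMat 2)ˣ)⁻¹ : (QMat 2)ˣ) : QMat 2) (b 0) = a w⁻¹ 0 • b 0 := by
          have := ha w⁻¹ 0
          rw [hw'] at this
          exact this
        rw [h2, map_smul, ha w 0, hw, smul_smul] at h1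
        have h3 := congrArg (fun v => b.repr v 0) h1
        simp only [map_smul, Module.Basis.repr_self, Finsupp.smul_apply, Equiv.Perm.one_apply,
          Finsupp.single_eq_same, smul_eq_mul, mul_one] at h3
        exact h3
      rw [q4, ← q3]
      exact q5
    · rw [if_neg hw]
      by_cases h0 : σ w⁻¹ 0 = 0
      · by_cases h1 : σ w 1 = 1
        · exfalso
          apply hw
          refine comb_even (σ w) (heven w) ?_ h1
          have : σ w (σ w⁻¹ 0) = 0 := by
            rw [← Equiv.Perm.mul_apply, ← map_mul, mul_inv_cancel, map_one]; rfl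
          rw [h0] at this
          exact this
        · rw [if_neg h1, mul_zero, mul_zero]
      · rw [if_neg h0, mul_zero, zero_mul]
  have h1 := congrArg (fun v => b.repr v 1) (hTμ (b 0))
  simp only [hT, map_sum, Finsupp.coe_finsetSum, Finset.sum_apply, hterm, map_smul,
    Module.Basis.repr_self, Finsupp.smul_apply, smul_eq_mul] at h1
  rw [Finsupp.single_eq_of_ne (by decide), mul_zero, Finset.sum_ite, Finset.sum_const_zero, add_zero,
    Finset.sum_const, nsmul_one] at h1
  have h2 : (Finset.univ.filter (fun w : W => σ w = 1)).card = 0 := by exact_mod_cast h1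
  rw [Finset.card_eq_zero] at h2
  have h3 : (1 : W) ∈ Finset.univ.filter (fun w : W => σ w = 1) := by simp
  rw [h2] at h3
  exact absurd h3 (Finset.notMem_empty _)

end four

/-- **Groups with imprimitive complexification.** -/
theorem sys_hasQuot {W : Subgroup (QMat 2)ˣ} (hW : IsReflectionGroup W) (hirr : IsIrreducible W)
    (hnc : ¬ IsComplex W) {k : ℕ} (hk : 1 < k) {U : Fin k → Submodule ℂ CE} (hS : Sys W k U) :
    HasQuot W ((QRefl.numReflections W + 1) ^ 2) := by
  have h1 := hS.finrank hirr hnc ⟨0, by omega⟩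
  have h2 : k ≤ 4 := by
    by_contra hcon
    have h3 : 0 < Module.finrank ℂ (U ⟨0, by omega⟩) := by
      rcases Nat.eq_zero_or_pos (Module.finrank ℂ (U ⟨0, by omega⟩)) with h | h
      · rw [h, mul_zero] at h1
        exact absurd h1 (by norm_num)
      · exact h
    nlinarith
  have h4 : k = 2 ∨ k = 3 ∨ k = 4 := by omega
  rcases h4 with rfl | rfl | rfl
  · obtain ⟨σ, hσ⟩ := hS.exists_hom
    refine hS.lump hW hirr hnc hσ ![false, true] ⟨0, rfl⟩ ⟨1, rfl⟩ ?_
    intro w i j hij
    have : i = j := by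
      fin_cases i <;> fin_cases j <;> first | rfl | (simp at hij)
    rw [this]
  · exfalso
    omega
  · exact four_hasQuot hW hirr hnc hS

end Run7.h580
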