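import Pool.Agent.Run7.h580.Defs2
import Pool.Agent.Run7.h580.S10

/-!
The theorem for groups of rank two with imprimitive complexification.
-/

namespace Run7.h580

open MvPolynomial Quaternion QRefl Run7.h580.Ten

/-- imprimitive groups have imprimitive complexification -/
lemma complexification_of_imprimitive {W : Subgroup (QMat 2)ˣ} (h : IsImprimitive W) :
    HasImprimitiveComplexification W := by
  obtain ⟨U0, U1, h0, h1, hinf, htop, hperm⟩ := exists_lines h
  let C : Submodule ℍ[ℝ]ᵐᵒᵖ (QVec 2) → Submodule ℂ CE := fun M =>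
    { carrier := {v | ∃ p ∈ M, cvec p = v}
      add_mem' := by
        rintro _ _ ⟨p, hp, rfl⟩ ⟨q, hq, rfl⟩
        exact ⟨p + q, M.add_mem hp hq, cvec_add p q⟩
      zero_mem' := ⟨0, M.zero_mem, cvec_zero⟩
      smul_mem' := by
        rintro c _ ⟨p, hp, rfl⟩
        exact ⟨_, M.smul_mem (MulOpposite.op (qab c 0)) hp, by rw [cvec_smul, zero_smul, add_zero]⟩ }
  have hC : ∀ M p, cvec p ∈ C M ↔ p ∈ M := by
    intro M p
    constructor
    · rintro ⟨q, hq, h2⟩
      rw [← cvec_injective h2]; exact hq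
    · intro hp
      exact ⟨p, hp, rfl⟩
  have hCne : ∀ M, M ≠ ⊥ → C M ≠ ⊥ := by
    intro M hM
    obtain ⟨p, hp, hp0⟩ := (Submodule.ne_bot_iff _).mp hM
    rw [Submodule.ne_bot_iff]
    exact ⟨cvec p, (hC M p).mpr hp, fun h2 => hp0 (cvec_eq_zero h2)⟩
  let U : Fin 2 → Submodule ℂ CE := ![C U0, C U1]
  refine ⟨2, U, by norm_num, ?_, ?_, ?_, ?_⟩
  · intro i
    fin_cases i
    · exact hCne U0 h0
    · exact hCne U1 h1
  · rw [iSupIndep_pair (i := (0 : Fin 2)) (j := 1) (by norm_num)]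
    · show Disjoint (C U0) (C U1)
      rw [Submodule.disjoint_def]
      rintro _ ⟨p, hp, rfl⟩ hp'
      have h2 : p ∈ U0 ⊓ U1 := ⟨hp, (hC U1 p).mp hp'⟩
      rw [hinf, Submodule.mem_bot] at h2
      rw [h2, cvec_zero]
    · intro k; fin_cases k <;> simp
  · rw [eq_top_iff]
    intro v _
    obtain ⟨p, rfl⟩ := cvec_surj v
    have h2 : p ∈ U0 ⊔ U1 := by rw [htop]; trivial
    obtain ⟨a, ha, b, hb, rfl⟩ := Submodule.mem_sup.mp h2
    rw [cvec_add]
    refine Submodule.add_mem _ ?_ ?_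
    · exact (le_iSup U 0) ((hC U0 a).mpr ha)
    · exact (le_iSup U 1) ((hC U1 b).mpr hb)
  · intro w hw i
    rcases hperm w hw with ⟨h2, h3⟩ | ⟨h2, h3⟩
    · fin_cases i
      · exact ⟨0, fun v hv => (hC U0 _).mpr (h2 v ((hC U0 v).mp hv))⟩
      · exact ⟨1, fun v hv => (hC U1 _).mpr (h3 v ((hC U1 v).mp hv))⟩
    · fin_cases i
      · exact ⟨1, fun v hv => (hC U1 _).mpr (h2 v ((hC U0 v).mp hv))⟩
      · exact ⟨0, fun v hv => (hC U0 _).mpr (h3 v ((hC U1 v).mp hv))⟩

lemma sys_of_complexification {W : Subgroup (QMat 2)ˣ} (h : HasImprimitiveComplexification W) :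
    ∃ (k : ℕ) (U : Fin k → Submodule ℂ CE), 1 < k ∧ Sys W k U := by
  obtain ⟨k, U, hk, hne, hind, htop, hperm⟩ := h
  refine ⟨k, U, hk, ⟨hne, hind, htop, ?_⟩⟩
  intro w hw i
  obtain ⟨j, hj⟩ := hperm w hw i
  refine ⟨j, fun v hv => ?_⟩
  obtain ⟨p, rfl⟩ := cvec_surj v
  rw [LW_cvec]
  exact hj p hv

/-- **Zero fibers of quaternionic reflection groups of rank two with imprimitive
complexification.** -/
theorem complexImprimitive_rank_two (W : Subgroup (QMat 2)ˣ) (hW : IsReflectionGroup W)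
    (hirr : IsIrreducible W) (hnc : ¬ IsComplex W) (himp : HasImprimitiveComplexification W) :
    ∃ J : Ideal (ZeroFiberRing W),
      Module.finrank ℂ (ZeroFiberRing W ⧸ J) = (gNumber W + 1) ^ 2 := by
  obtain ⟨k, U, hk, hS⟩ := sys_of_complexification himp
  have hg : gNumber W = QRefl.numReflections W := by
    rw [gNumber]; omega
  rw [hg]
  exact hasQuot_quot (sys_hasQuot hW hirr hnc hk hS)

end Run7.h580
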