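import Pool.Agent.Run7.h580.T7

/-!
Groups of tensor type: uniqueness of the semi-invariant and the main theorem.
-/

namespace Run7.h580.Ten

open MvPolynomial Run7.h580 Quaternion

variable {Γ : Subgroup Tr} (hΓ : TG Γ) {P : Tr → ℍ[ℝ]}
  (hP : ∀ t ∈ rf hΓ, qvec (P t) ≠ 0 ∧
    qvec ((t.q : ℍ[ℝ]) * P t) = ((t.l⁻¹ : ℂˣ) : ℂ) • qvec (P t))

/-- the number of reflections plus one -/
noncomputable def rr : ℕ := zz Γ + (rf hΓ).card + 1

/-- the semi-invariant vector -/
noncomputable def uu (P : Tr → ℍ[ℝ]) : Mz :=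
  fun m => if m = (zz Γ : ℤ) then JJ hΓ P else if m = -(zz Γ : ℤ) then - JJ hΓ P else 0

lemma uu_z (P : Tr → ℍ[ℝ]) : uu hΓ P (zz Γ : ℤ) = JJ hΓ P := by simp [uu]

lemma uu_neg_z (P : Tr → ℍ[ℝ]) : uu hΓ P (-(zz Γ : ℤ)) = - JJ hΓ P := by
  have h := hΓ.z_pos
  rw [uu, if_neg (by omega), if_pos rfl]

lemma uu_other (P : Tr → ℍ[ℝ]) {m : ℤ} (h1 : m ≠ (zz Γ : ℤ)) (h2 : m ≠ -(zz Γ : ℤ)) :
    uu hΓ P m = 0 := by
  rw [uu, if_neg h1, if_neg h2]

lemma not_dvd_rr : ¬ zz Γ ∣ rr hΓ := by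
  intro h
  have h1 : 2 ∣ rr hΓ := dvd_trans (even_iff_two_dvd.mp hΓ.even_z) h
  have h2 : Even (zz Γ + (rf hΓ).card) := hΓ.even_z.add hΓ.even_rf
  have h3 : Odd (rr hΓ) := by
    rw [rr]; exact h2.add_one
  rw [← Nat.not_even_iff_odd] at h3
  exact h3 (even_iff_two_dvd.mpr h1)

lemma uu_mem (P : Tr → ℍ[ℝ]) : uu hΓ P ∈ LZ (rr hΓ) := by
  have hhom := JJ_isHomogeneous hΓ P
  refine ⟨fun m hm => ?_, fun m hm => ?_⟩
  · by_cases h1 : m = (zz Γ : ℤ)
    · subst h1
      rw [uu_z]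
      have : rr hΓ - 1 - (zz Γ : ℤ).natAbs = (rf hΓ).card := by
        rw [rr, Int.natAbs_natCast]; omega
      rw [this]; exact hhom
    · by_cases h2 : m = -(zz Γ : ℤ)
      · subst h2
        rw [uu_neg_z]
        have : rr hΓ - 1 - (-(zz Γ : ℤ)).natAbs = (rf hΓ).card := by
          rw [rr, Int.natAbs_neg, Int.natAbs_natCast]; omega
        rw [this]; exact hhom.neg
      · rw [uu_other hΓ P h1 h2]
        exact isHomogeneous_zero _ _ _
  · apply uu_other
    · rintro rfl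
      rw [Int.natAbs_natCast, rr] at hm
      omega
    · rintro rfl
      rw [Int.natAbs_neg, Int.natAbs_natCast, rr] at hm
      omega

lemma ss_uu (P : Tr → ℍ[ℝ]) : ss (uu hΓ P) = - uu hΓ P := by
  funext m
  rw [ss_apply, Pi.neg_apply]
  have h := hΓ.z_pos
  by_cases h1 : m = (zz Γ : ℤ)
  · subst h1
    rw [uu_z, uu_neg_z]
  · by_cases h2 : m = -(zz Γ : ℤ)
    · subst h2
      rw [neg_neg, uu_z, uu_neg_z, neg_neg]
    · rw [uu_other hΓ P h1 h2, uu_other hΓ P (by omega) (by omega), neg_zero]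

lemma pz_uu (P : Tr → ℍ[ℝ]) (k : ℤ) : pz (zz Γ) k (uu hΓ P) ∈ ℂ ∙ uu hΓ P := by
  by_cases hk : (zz Γ : ℤ) ∣ k
  · have : pz (zz Γ) k (uu hΓ P) = uu hΓ P := by
      funext m
      rw [pz_apply]
      split_ifs with h
      · rfl
      · rw [uu_other]
        · rintro rfl
          exact h (dvd_sub dvd_rfl hk)
        · rintro rfl
          exact h (dvd_sub (dvd_neg.mpr dvd_rfl) hk)
    rw [this]
    exact Submodule.mem_span_singleton_self _
  · have : pz (zz Γ) k (uu hΓ P) = 0 := by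
      funext m
      rw [pz_apply]
      split_ifs with h
      · rw [uu_other]
        · rfl
        · rintro rfl
          apply hk
          have := dvd_sub (dvd_refl (zz Γ : ℤ)) h
          rwa [sub_sub_cancel] at this
        · rintro rfl
          apply hk
          have := dvd_sub (dvd_neg.mpr (dvd_refl (zz Γ : ℤ))) h
          rwa [sub_sub_cancel] at this
      · rfl
    rw [this]
    exact Submodule.zero_mem _

/-- the semi-invariant transforms by a character -/
lemma uu_semi {t : Tr} (ht : t ∈ Γ) {c : ℂ}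
    (hc : subst (qmat (t.q : ℍ[ℝ])) (JJ hΓ P) = C c * JJ hΓ P) :
    ta t (uu hΓ P) = ((if t.e = true then -1 else 1) * (((t.l ^ (zz Γ : ℤ) : ℂˣ) : ℂ) * c)) • uu hΓ P := by
  have h2z := hΓ.pow_2z ht
  have hinv : t.l ^ (-(zz Γ : ℤ)) = t.l ^ (zz Γ : ℤ) := by
    rw [zpow_neg, inv_eq_iff_mul_eq_one, ← zpow_add, ← two_mul, h2z]
  have hz := hΓ.z_pos
  funext m
  rw [Pi.smul_apply]
  rcases he : t.e with _ | _
  · rw [ta_false he]
    simp only [Bool.false_eq_true, if_false, one_mul]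
    by_cases h1 : m = (zz Γ : ℤ)
    · subst h1
      rw [uu_z, hc, ← MvPolynomial.smul_eq_C_mul, smul_smul]
    · by_cases h2 : m = -(zz Γ : ℤ)
      · subst h2
        rw [uu_neg_z, map_neg, hc, ← MvPolynomial.smul_eq_C_mul, hinv, smul_neg, smul_neg, smul_smul]
      · rw [uu_other hΓ P h1 h2, map_zero, smul_zero, smul_zero]
  · rw [ta_true he]
    simp only [if_true, neg_mul, one_mul]
    by_cases h1 : m = (zz Γ : ℤ)
    · subst h1
      rw [uu_z, uu_neg_z, map_neg, hc, ← MvPolynomial.smul_eq_C_mul, hinv, smul_neg, smul_smul,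
        neg_smul]
    · by_cases h2 : m = -(zz Γ : ℤ)
      · subst h2
        rw [neg_neg, uu_z, uu_neg_z, hc, ← MvPolynomial.smul_eq_C_mul, smul_smul, neg_smul, smul_neg,
          neg_neg]
      · rw [uu_other hΓ P h1 h2, uu_other hΓ P (by omega) (by omega), map_zero, smul_zero, smul_zero]

include hP

/-- divisibility of semi-invariants by the product of linear forms -/
lemma dvd_key {p : Bf} {n k : ℕ} (hp : p.IsHomogeneous n)
    (hn : n + k * zz Γ = (rf hΓ).card + zz Γ)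
    (hsemi : ∀ t ∈ Γ, t.e = false → ∀ c : ℂ,
      subst (qmat (t.q : ℍ[ℝ])) (JJ hΓ P) = C c * JJ hΓ P →
      C (((t.l ^ (k * zz Γ) : ℂˣ) : ℂ)) * subst (qmat (t.q : ℍ[ℝ])) p =
        C (((t.l ^ (zz Γ) : ℂˣ) : ℂ) * c) * p)
    (hp0 : p ≠ 0) : ∃ (Q : Bf) (d : ℕ), Q.IsHomogeneous d ∧ (rf hΓ).card + d = n ∧
      p = JJ hΓ P * Q := by
  classical
  let Pr : Finset Tr → Prop := fun S => ∃ (Q : Bf) (d : ℕ), Q.IsHomogeneous d ∧ S.card + d = n ∧
      p = (∏ t ∈ S, lin (qvec (P t))) * Q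
  have hne : ((rf hΓ).powerset.filter Pr).Nonempty := by
    refine ⟨∅, ?_⟩
    rw [Finset.mem_filter]
    exact ⟨Finset.empty_mem_powerset _, p, n, hp, by simp, by simp⟩
  obtain ⟨S, hS, hmax⟩ := Finset.exists_max_image _ Finset.card hne
  rw [Finset.mem_filter, Finset.mem_powerset] at hS
  obtain ⟨hSsub, Q, d, hQ, hd, hpQ⟩ := hS
  have hSeq : S = rf hΓ := by
    by_contra hcon
    obtain ⟨t, ht, htS⟩ : ∃ t ∈ rf hΓ, t ∉ S := by
      by_contra h
      push Not at h
      exact hcon (Finset.Subset.antisymm hSsub h)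
    have ht' := (mem_rf hΓ).mp ht
    -- `Q` does not vanish at `P t`
    have hQt : ev Q (P t) ≠ 0 := by
      intro hQ0
      rcases Nat.eq_zero_or_pos d with hd0 | hd0
      · rw [hd0] at hQ
        have := eq_zero_of_isHomogeneous_zero hQ hQ0
        rw [this, mul_zero] at hpQ
        exact hp0 hpQ
      · obtain ⟨d', rfl⟩ : ∃ d', d = d' + 1 := ⟨d - 1, by omega⟩
        obtain ⟨Q', hQ', hQQ'⟩ := exists_quot_of_zero hQ (hP t ht).1 hQ0
        have h1 := hmax (insert t S) (by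
          rw [Finset.mem_filter, Finset.mem_powerset]
          refine ⟨Finset.insert_subset ht hSsub, Q', d', hQ', ?_, ?_⟩
          · rw [Finset.card_insert_of_notMem htS]; omega
          · rw [Finset.prod_insert htS, hpQ, hQQ']; ring)
        rw [Finset.card_insert_of_notMem htS] at h1
        omega
    -- the reflections with the same fixed line
    set A := (rf hΓ).filter (fun s => det2 (qvec (P s)) (qvec (P t)) = 0) with hA
    set B := S.filter (fun s => det2 (qvec (P s)) (qvec (P t)) = 0) with hB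
    have hBA : B.card < A.card := by
      apply Finset.card_lt_card
      rw [Finset.ssubset_iff_of_subset]
      · refine ⟨t, ?_, ?_⟩
        · rw [hA, Finset.mem_filter]
          exact ⟨ht, det2_self _⟩
        · rw [hB, Finset.mem_filter]
          exact fun h => htS h.1
      · intro s hs
        rw [hB, Finset.mem_filter] at hs
        rw [hA, Finset.mem_filter]
        exact ⟨hSsub hs.1, hs.2⟩
    have hAeig : ∀ s ∈ A, qvec ((s.q : ℍ[ℝ]) * P t) = ((s.l⁻¹ : ℂˣ) : ℂ) • qvec (P t) := by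
      intro s hs
      rw [hA, Finset.mem_filter] at hs
      obtain ⟨h1, h2⟩ := hP s hs.1
      have h3 : det2 (qvec (P t)) (qvec (P s)) = 0 := by rw [det2_swap, hs.2, neg_zero]
      obtain ⟨a, ha⟩ := exists_smul_of_det h1 h3
      rw [qvec_mul_smul _ ha, h2, ha, smul_smul, smul_smul, mul_comm]
    -- the key relation
    have hroot : ∀ s ∈ A, (((s.l⁻¹ : ℂˣ) : ℂ) ^ 2) ^ (A.card - B.card) = 1 := by
      intro s hs
      have hs' := (mem_rf hΓ).mp (Finset.mem_filter.mp (hA ▸ hs)).1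
      obtain ⟨c, hc0, hc⟩ := JJ_semi hΓ hP hs'.1
      set μ : ℂ := ((s.l⁻¹ : ℂˣ) : ℂ) with hμ
      have hμ0 : μ ≠ 0 := (s.l⁻¹).ne_zero
      have hlμ : (s.l : ℂ) * μ = 1 := by rw [hμ, Units.mul_inv]
      have hμz : μ ^ (2 * zz Γ) = 1 := by
        have h1 := hΓ.pow_2z hs'.1
        have h2 : s.l ^ (2 * zz Γ) = 1 := by exact_mod_cast h1
        have h3 : (s.l⁻¹) ^ (2 * zz Γ) = 1 := by rw [inv_pow, h2, inv_one]
        rw [hμ, ← Units.val_pow_eq_pow_val, h3, Units.val_one]
      have f1 := order_formula (rf hΓ) P (fun i hi => (hP i hi).1) (Q := (1 : Bf)) (d := 0)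
        (isHomogeneous_one _ _) (hP t ht).1 (by simp [ev]) (hΓ.normq s hs'.1) hμ0 (hAeig s hs)
        (χ := c) (by rw [mul_one]; exact hc)
      rw [← hA, add_zero] at f1
      -- character of `p`
      have hsem := hsemi s hs'.1 hs'.2.1 c hc
      have hk0 : (((s.l ^ (k * zz Γ) : ℂˣ) : ℂ)) * μ ^ (k * zz Γ) = 1 := by
        rw [Units.val_pow_eq_pow_val, ← mul_pow, hlμ, one_pow]
      have hz0 : (((s.l ^ (zz Γ) : ℂˣ) : ℂ)) * μ ^ (zz Γ) = 1 := by
        rw [Units.val_pow_eq_pow_val, ← mul_pow, hlμ, one_pow]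
      have hχ : subst (qmat (s.q : ℍ[ℝ])) p =
          C (μ ^ (k * zz Γ) * (((s.l ^ (zz Γ) : ℂˣ) : ℂ) * c)) * p := by
        rw [C_mul, mul_assoc, ← hsem, ← mul_assoc, ← C_mul, mul_comm (μ ^ (k * zz Γ)), hk0, C_1,
          one_mul]
      rw [hpQ] at hχ
      have f2 := order_formula S P (fun i hi => (hP i (hSsub hi)).1) hQ (hP t ht).1 hQt
        (hΓ.normq s hs'.1) hμ0 (hAeig s hs) hχ
      rw [← hB, hd] at f2
      -- combine
      set L : ℂ := (((s.l ^ (zz Γ) : ℂˣ) : ℂ)) with hL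
      have hLμ : L * μ ^ (zz Γ) = 1 := hz0
      have e1 : μ ^ n * μ ^ (k * zz Γ) = μ ^ (rf hΓ).card * μ ^ (zz Γ) := by
        rw [← pow_add, ← pow_add, hn]
      have e2 : μ ^ (2 * zz Γ) = μ ^ (zz Γ) * μ ^ (zz Γ) := by rw [two_mul, pow_add]
      have e3 : μ ^ (k * zz Γ) * μ ^ (k * zz Γ) = 1 := by
        rw [← pow_add]
        have : k * zz Γ + k * zz Γ = (2 * zz Γ) * k := by ring
        rw [this, pow_mul, hμz, one_pow]
      rw [hμz] at e2
      -- μ ^ (2 B) = μ ^ (2 A)
      have e4 : μ ^ (2 * B.card) = μ ^ (2 * A.card) := by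
        have hcc : c * (μ ^ (2 * B.card) - μ ^ (2 * A.card)) = 0 := by
          have g1 : μ ^ (k * zz Γ) * (L * c) * μ ^ (2 * B.card) * μ ^ (k * zz Γ) =
              c * μ ^ (2 * A.card) * μ ^ (zz Γ) := by rw [f2, e1, f1]
          have g2 : L * c * μ ^ (2 * B.card) = c * μ ^ (2 * A.card) * μ ^ (zz Γ) := by
            linear_combination g1 - L * c * μ ^ (2 * B.card) * e3
          have g3 : c * μ ^ (2 * B.card) = c * μ ^ (2 * A.card) * (μ ^ (zz Γ) * μ ^ (zz Γ)) := by
            linear_combination μ ^ (zz Γ) * g2 - c * μ ^ (2 * B.card) * hLμ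
          rw [← e2, mul_one] at g3
          linear_combination g3
        exact sub_eq_zero.mp ((mul_eq_zero.mp hcc).resolve_left hc0)
      have e5 : μ ^ (2 * B.card) * (μ ^ 2) ^ (A.card - B.card) = μ ^ (2 * B.card) * 1 := by
        rw [← pow_mul, ← pow_add, mul_one, e4]
        congr 1
        omega
      exact mul_left_cancel₀ (pow_ne_zero _ hμ0) e5
    -- too many roots
    have hinj : Set.InjOn (fun s : Tr => ((s.l⁻¹ : ℂˣ) : ℂ) ^ 2) A := by
      intro s hs s' hs' hss
      have h1 := (mem_rf hΓ).mp (Finset.mem_filter.mp (hA ▸ hs)).1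
      have h2 := (mem_rf hΓ).mp (Finset.mem_filter.mp (hA ▸ hs')).1
      simp only [Units.val_inv_eq_inv_val, inv_pow] at hss
      have h3 := inv_injective hss
      have hl : s.l = s'.l := by
        rcases sq_eq_sq_iff_eq_or_eq_neg.mp h3 with h4 | h4
        · exact Units.ext h4
        · exfalso
          have h5 := h1.2.2.2
          rw [h4, Complex.neg_im] at h5
          have h6 := h2.2.2.2
          linarith
      have hq : s.q = s'.q := by
        have e1 := hAeig s hs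
        have e2 := hAeig s' hs'
        rw [hl, ← e2] at e1
        have e3 := qvec_injective e1
        apply Units.ext
        refine mul_right_cancel₀ ?_ e3
        intro h0
        have := (hP t ht).1
        rw [h0, qvec_zero] at this
        exact this rfl
      exact tr_ext hq hl (by rw [h1.2.1, h2.2.1])
    have hnot : (1 : ℂ) ∉ A.image (fun s : Tr => ((s.l⁻¹ : ℂˣ) : ℂ) ^ 2) := by
      intro h
      rw [Finset.mem_image] at h
      obtain ⟨s, hs, hs1⟩ := h
      have h1 := (mem_rf hΓ).mp (Finset.mem_filter.mp (hA ▸ hs)).1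
      rw [sq] at hs1
      exact inv_sq_ne h1.2.2.2 hs1
    have hb := roots_bound (insert 1 (A.image (fun s : Tr => ((s.l⁻¹ : ℂˣ) : ℂ) ^ 2)))
      (b := A.card - B.card) (by omega) (by
        intro x hx
        rw [Finset.mem_insert] at hx
        rcases hx with rfl | hx
        · exact one_pow _
        · rw [Finset.mem_image] at hx
          obtain ⟨s, hs, rfl⟩ := hx
          exact hroot s hs)
    rw [Finset.card_insert_of_notMem hnot, Finset.card_image_of_injOn hinj] at hb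
    omega
  subst hSeq
  exact ⟨Q, d, hQ, hd, hpQ⟩

end Run7.h580.Ten
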