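import Pool.Agent.Run7.h580.T4
import Pool.Agent.Run7.h580.T8

/-!
Groups of tensor type: the main theorem in standard form.
-/

namespace Run7.h580.Ten

open MvPolynomial Run7.h580 Quaternion

variable {Γ : Subgroup Tr} (hΓ : TG Γ) {P : Tr → ℍ[ℝ]}
  (hP : ∀ t ∈ rf hΓ, qvec (P t) ≠ 0 ∧
    qvec ((t.q : ℍ[ℝ]) * P t) = ((t.l⁻¹ : ℂˣ) : ℂ) • qvec (P t))

include hP

/-- uniqueness of the semi-invariant -/
lemma uu_unique {F : Mz} (hF : F ∈ LZ (rr hΓ))
    (hinv : ∀ t ∈ Γ, ∀ c : ℂ, subst (qmat (t.q : ℍ[ℝ])) (JJ hΓ P) = C c * JJ hΓ P →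
      ta t F = ((if t.e = true then -1 else 1) * (((t.l ^ (zz Γ : ℤ) : ℂˣ) : ℂ) * c)) • F) :
    ∃ a : ℂ, F = a • uu hΓ P := by
  have hz := hΓ.z_pos
  have hone : subst (qmat ((1 : ℍ[ℝ]ˣ) : ℍ[ℝ])) (JJ hΓ P) = C 1 * JJ hΓ P := by
    rw [Units.val_one, subst_qmat_one, C_1, one_mul]
  -- weights divisible by `z`
  have h1 : ∀ m : ℤ, ¬ (zz Γ : ℤ) ∣ m → F m = 0 := by
    intro m hm
    by_contra hne
    apply hm
    refine hΓ.dvd_of (fun l hl => ?_)
    have h2 := hinv ⟨1, l, false⟩ hl 1 hone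
    have h3 := congrFun h2 m
    rw [ta_false rfl, Pi.smul_apply] at h3
    simp only [Units.val_one, subst_qmat_one, Bool.false_eq_true, if_false, one_mul, mul_one] at h3
    have h4 : (l ^ (zz Γ : ℤ) : ℂˣ) = 1 := by exact_mod_cast hΓ.pow_z hl
    rw [h4, Units.val_one, one_smul] at h3
    have h5 : (((l ^ m : ℂˣ) : ℂ) - 1) • F m = 0 := by rw [sub_smul, h3, one_smul, sub_self]
    rcases smul_eq_zero.mp h5 with h6 | h6
    · apply Units.ext
      rw [Units.val_one]
      linear_combination h6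
    · exact absurd h6 hne
  -- antisymmetry
  have h2 : ∀ m : ℤ, F (-m) = - F m := by
    intro m
    have h3 := congrFun (hinv ⟨1, 1, true⟩ hΓ.swap 1 hone) m
    rw [ta_true rfl, Pi.smul_apply] at h3
    simp only [Units.val_one, subst_qmat_one, if_true, one_zpow, mul_one, one_smul, neg_smul] at h3
    exact h3
  -- positive weights
  have h3 : ∀ k : ℕ, 0 < k → F ((k * zz Γ : ℕ) : ℤ) ≠ 0 →
      k = 1 ∧ ∃ a : ℂ, F ((k * zz Γ : ℕ) : ℤ) = C a * JJ hΓ P := by
    intro k hk hne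
    have hlt : k * zz Γ < rr hΓ := by
      by_contra hcon
      apply hne
      apply hF.2
      rw [Int.natAbs_natCast]; omega
    have hhom := hF.1 ((k * zz Γ : ℕ) : ℤ) (by rw [Int.natAbs_natCast]; exact hlt)
    rw [Int.natAbs_natCast] at hhom
    have hrr : rr hΓ = zz Γ + (rf hΓ).card + 1 := rfl
    obtain ⟨Q, d, hQ, hd, hFQ⟩ := dvd_key hΓ hP (k := k) hhom (by omega) (by
      intro t ht he c hc
      have h4 := congrFun (hinv t ht c hc) ((k * zz Γ : ℕ) : ℤ)
      rw [ta_false he, Pi.smul_apply, he] at h4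
      simp only [Bool.false_eq_true, if_false, one_mul, MvPolynomial.smul_eq_C_mul,
        zpow_natCast] at h4
      exact h4) hne
    have hk1 : k = 1 := by
      by_contra hk1
      have : 2 ≤ k := by omega
      have : 2 * zz Γ ≤ k * zz Γ := Nat.mul_le_mul_right _ this
      omega
    refine ⟨hk1, ?_⟩
    subst hk1
    have hd0 : d = 0 := by omega
    rw [hd0] at hQ
    have hQc : Q = C (coeff 0 Q) := by
      rw [← homogeneousComponent_zero]
      rw [homogeneousComponent_of_mem ((mem_homogeneousSubmodule _ _).mpr hQ)]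
      simp
    exact ⟨coeff 0 Q, by rw [hFQ, mul_comm, ← hQc]⟩
  by_cases hzero : F (zz Γ : ℤ) = 0
  · refine ⟨0, ?_⟩
    rw [zero_smul]
    have hpos : ∀ m : ℤ, 0 < m → F m = 0 := by
      intro m hm
      by_contra hne
      have hdvd : (zz Γ : ℤ) ∣ m := by
        by_contra hcon
        exact hne (h1 m hcon)
      obtain ⟨k, rfl⟩ := hdvd
      have hk : 0 < k := by
        by_contra hcon
        push Not at hcon
        have : (zz Γ : ℤ) * k ≤ 0 := mul_nonpos_of_nonneg_of_nonpos (by positivity) hcon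
        omega
      obtain ⟨k', rfl⟩ : ∃ k' : ℕ, k = (k' : ℤ) := ⟨k.toNat, by omega⟩
      have e1 : (zz Γ : ℤ) * (k' : ℤ) = ((k' * zz Γ : ℕ) : ℤ) := by push_cast; ring
      rw [e1] at hne
      obtain ⟨h5, _⟩ := h3 k' (by omega) hne
      subst h5
      rw [one_mul] at hne
      exact hne hzero
    funext m
    rcases lt_trichotomy m 0 with hm | hm | hm
    · have h5 := h2 m
      rw [hpos (-m) (by omega)] at h5
      exact (neg_eq_zero.mp h5.symm)
    · subst hm
      have h5 := h2 0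
      rw [neg_zero] at h5
      have h6 : (2 : Bf) * F 0 = 0 := by linear_combination h5
      exact (mul_eq_zero.mp h6).resolve_left two_ne_zero
    · exact hpos m hm
  · obtain ⟨_, a, ha⟩ := h3 1 one_pos (by rw [one_mul]; exact hzero)
    rw [one_mul] at ha
    refine ⟨a, ?_⟩
    have hpos : ∀ m : ℤ, 0 < m → m ≠ (zz Γ : ℤ) → F m = 0 := by
      intro m hm hmz
      by_contra hne
      have hdvd : (zz Γ : ℤ) ∣ m := by
        by_contra hcon
        exact hne (h1 m hcon)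
      obtain ⟨k, rfl⟩ := hdvd
      have hk : 0 < k := by
        by_contra hcon
        push Not at hcon
        have : (zz Γ : ℤ) * k ≤ 0 := mul_nonpos_of_nonneg_of_nonpos (by positivity) hcon
        omega
      obtain ⟨k', rfl⟩ : ∃ k' : ℕ, k = (k' : ℤ) := ⟨k.toNat, by omega⟩
      have e1 : (zz Γ : ℤ) * (k' : ℤ) = ((k' * zz Γ : ℕ) : ℤ) := by push_cast; ring
      rw [e1] at hne
      obtain ⟨h5, _⟩ := h3 k' (by omega) hne
      subst h5
      apply hmz
      push_cast; ring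
    have hpos' : ∀ m : ℤ, 0 < m → F m = (a • uu hΓ P) m := by
      intro m hm
      rw [Pi.smul_apply]
      by_cases hmz : m = (zz Γ : ℤ)
      · subst hmz
        rw [uu_z, ha, MvPolynomial.smul_eq_C_mul]
      · rw [hpos m hm hmz, uu_other hΓ P hmz (by omega), smul_zero]
    have hodd : ∀ m : ℤ, (a • uu hΓ P) (-m) = - (a • uu hΓ P) m := by
      intro m
      have h5 := congrFun (ss_uu hΓ P) m
      rw [ss_apply, Pi.neg_apply] at h5
      rw [Pi.smul_apply, Pi.smul_apply, h5, smul_neg]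
    funext m
    rcases lt_trichotomy m 0 with hm | hm | hm
    · have h5 := h2 (-m)
      have h6 := hodd (-m)
      rw [neg_neg] at h5 h6
      rw [h5, h6, hpos' (-m) (by omega)]
    · subst hm
      have h5 := h2 0
      have h7 := hodd 0
      rw [neg_zero] at h5 h7
      have h6 : (2 : Bf) * F 0 = 0 := by linear_combination h5
      have h8 : (2 : Bf) * (a • uu hΓ P) 0 = 0 := by linear_combination h7
      rw [(mul_eq_zero.mp h6).resolve_left two_ne_zero, (mul_eq_zero.mp h8).resolve_left two_ne_zero]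
    · exact hpos' m hm

omit hP in
include hΓ in
lemma TG.cmp (r : ℕ) {t : Tr} (ht : t ∈ Γ) : Cmp (zz Γ) r t.l := by
  intro n hn
  by_cases hc : (0 : ℤ) < n ∧ (zz Γ : ℤ) ∣ n
  · obtain ⟨k, rfl⟩ := hc.2
    have h1 := hΓ.pow_2z ht
    have h2 : 2 * ((zz Γ : ℤ) * k) = (2 * (zz Γ : ℤ)) * k := by ring
    rw [h2, zpow_mul, h1, one_zpow]
  · exact absurd (cg_of_not hc) hn

omit hP in
/-- **Main theorem for groups of tensor type in standard form.** -/
theorem main_ten : ∃ J : Ideal Pol,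
    (∀ d, ∀ f : Pol, f.IsHomogeneous (d + 1) → (∀ t ∈ Γ, subst (am t) f = f) → f ∈ J) ∧
      Module.finrank ℂ (Pol ⧸ J) = (zz Γ + (rf hΓ).card + 1) ^ 2 := by
  classical
  obtain ⟨P, hP⟩ := hΓ.exists_pt
  set u := uu hΓ P with hu
  set z := zz Γ with hzdef
  set r := rr hΓ with hrdef
  have hz2 : 2 ≤ z := hΓ.two_le_z
  have hzr : ¬ z ∣ r := not_dvd_rr hΓ
  have hr0 : 0 < r := by rw [hrdef, rr]; omega
  have huL : u ∈ LZ r := uu_mem hΓ P
  have hu0 : u ≠ 0 := by
    intro h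
    have h1 := congrFun h (z : ℤ)
    rw [hu, uu_z] at h1
    exact JJ_ne_zero hΓ hP h1
  have hss : ss u ∈ ℂ ∙ u := by
    rw [hu, ss_uu]
    exact Submodule.neg_mem _ (Submodule.mem_span_singleton_self _)
  have hpz : ∀ k, pz z k u ∈ ℂ ∙ u := fun k => pz_uu hΓ P k
  have hcomm := hcomm_XZ hz2 hzr huL hss hpz
  have hfin : Finite Γ := hΓ.fin.to_subtype
  have := Fintype.ofFinite Γ
  choose c hc0 hc using fun t : Γ => JJ_semi hΓ hP t.2
  let η : Γ → ℂ := fun t => (if t.1.e = true then -1 else 1) * (((t.1.l ^ (z : ℤ) : ℂˣ) : ℂ) * c t)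
  have hη0 : ∀ t, η t ≠ 0 := by
    intro t
    refine mul_ne_zero ?_ (mul_ne_zero (Units.ne_zero _) (hc0 t))
    split_ifs <;> norm_num
  have hηu : ∀ t : Γ, ta t.1 u = η t • u := fun t => uu_semi hΓ t.2 (hc t)
  have hηmul : ∀ t t' : Γ, η (t * t') = η t * η t' := by
    intro t t'
    have h1 := hηu (t * t')
    rw [Subgroup.coe_mul, ← ta_ta, hηu t, map_smul, hηu t', smul_smul] at h1
    have h2 : (η (t * t') - η t * η t') • u = 0 := by rw [sub_smul, h1, sub_self]
    exact sub_eq_zero.mp ((smul_eq_zero.mp h2).resolve_right hu0)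
  let τ : Γ → Mz →ₗ[ℂ] Mz := fun t => (η t)⁻¹ • ta t.1
  have hτ : ∀ t i v, τ t (XZ z r i v) = ∑ j, am t.1 i j • XZ z r j (τ t v) := by
    intro t i v
    show (η t)⁻¹ • ta t.1 (XZ z r i v) = ∑ j, am t.1 i j • XZ z r j ((η t)⁻¹ • ta t.1 v)
    rw [ta_XZ (hΓ.normq t.1 t.2) (hΓ.cmp r t.2), Finset.smul_sum]
    refine Finset.sum_congr rfl (fun j _ => ?_)
    rw [map_smul, smul_comm]
  have hτu : ∀ t, τ t u = u := by
    intro t
    show (η t)⁻¹ • ta t.1 u = u
    rw [hηu, smul_smul, inv_mul_cancel₀ (hη0 t), one_smul]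
  have hτmul : ∀ (t t' : Γ) (F : Mz), τ t' (τ t F) = τ (t * t') F := by
    intro t t' F
    show (η t')⁻¹ • ta t'.1 ((η t)⁻¹ • ta t.1 F) = (η (t * t'))⁻¹ • ta (t * t').1 F
    rw [map_smul, smul_smul, ta_ta, hηmul, ← mul_inv_rev (η t) (η t')]
    rfl
  have hFst : ∀ t, ∀ n, ∀ v ∈ Flt (XZ z r) u n, τ t v ∈ Flt (XZ z r) u n := by
    intro t
    refine Flt_stable_of (XZ z r) u (τ t) ?_ ?_
    · rw [hτu]; exact Submodule.mem_span_singleton_self u
    · intro n i v hv ih
      rw [hτ]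
      exact Submodule.sum_mem _ (fun j _ => Submodule.smul_mem _ _ (X_mem _ u (ih v hv) j))
  have hav : ∀ n, ∀ v ∈ Flt (XZ z r) u n, ∑ t, τ t v ∈ ℂ ∙ u := by
    intro n v hv
    set f := ∑ t, τ t v with hf
    have hfL : f ∈ LZ r := Flt_le_LZ huL n (Submodule.sum_mem _ (fun t _ => hFst t n v hv))
    have hfinv : ∀ t', τ t' f = f := by
      intro t'
      rw [hf, map_sum]
      rw [← (Group.mulRight_bijective t').sum_comp (fun t => τ t v)]
      exact Finset.sum_congr rfl (fun t _ => hτmul t t' v)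
    obtain ⟨a, ha⟩ := uu_unique hΓ hP hfL (by
      intro t ht c' hc'
      have h1 : c' = c ⟨t, ht⟩ := by
        have h2 := hc ⟨t, ht⟩
        simp only at h2
        rw [hc'] at h2
        exact C_injective _ _ (mul_right_cancel₀ (JJ_ne_zero hΓ hP) h2)
      have h3 : (η ⟨t, ht⟩)⁻¹ • ta t f = f := hfinv ⟨t, ht⟩
      rw [h1]
      show ta t f = η ⟨t, ht⟩ • f
      conv_rhs => rw [← h3, smul_smul, mul_inv_cancel₀ (hη0 _), one_smul])
    rw [ha]
    exact Submodule.mem_span_singleton.mpr ⟨a, rfl⟩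
  refine ⟨symIdeal hcomm, ?_, ?_⟩
  · intro d f hf hinv
    have h5 : ∀ t : Γ, subst (am t.1) f = f := fun t => hinv t.1 t.2
    exact invariant_mem_symIdeal hcomm (Γ := Γ) (fun t => am t.1) τ hτ hτu hav hf h5
  · obtain ⟨D, hD⟩ := exists_Flt_eq_LZ hz2 hr0 huL hu0
    rw [finrank_quot_symIdeal hcomm D (fun n => by rw [hD]; exact Flt_le_LZ huL n), hD, finrank_LZ]
    rfl

end Run7.h580.Ten
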