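import Pool.Agent.Run7.h580.S1
import Pool.Agent.Run7.h580.Red4
import Pool.Agent.Run7.h580.T9

/-!
Groups of tensor type: the number of reflections and the conclusion.
-/

namespace Run7.h580

open MvPolynomial Quaternion QRefl Run7.h580.Ten

/-- square roots of unit complex numbers -/
lemma exists_sqrt {l : ℂ} (hl : Complex.normSq l = 1) : ∃ m : ℂ, m * m = l ∧ Complex.normSq m = 1 := by
  obtain ⟨m, hm⟩ := IsAlgClosed.exists_pow_nat_eq l (n := 2) (by norm_num)
  rw [sq] at hm
  refine ⟨m, hm, ?_⟩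
  have h1 : Complex.normSq m * Complex.normSq m = 1 := by rw [← map_mul, hm, hl]
  rcases mul_self_eq_one_iff.mp h1 with h2 | h2
  · exact h2
  · have := Complex.normSq_nonneg m
    linarith

/-- rotation as a unit -/
noncomputable def rtU {m : ℂ} (hm : Complex.normSq m = 1) : (QMat 2)ˣ :=
  ⟨rtM 1 m, rtM 1 ((starRingEnd ℂ) m),
    by rw [rtM_mul_rtM, Complex.mul_conj, hm, mul_one]; simpa using rtM_one,
    by rw [rtM_mul_rtM, mul_comm ((starRingEnd ℂ) m), Complex.mul_conj, hm, mul_one]; simpa using rtM_one⟩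

lemma rtU_val {m : ℂ} (hm : Complex.normSq m = 1) : (rtU hm : QMat 2) = rtM 1 m := rfl
lemma rtU_inv {m : ℂ} (hm : Complex.normSq m = 1) :
    (((rtU hm)⁻¹ : (QMat 2)ˣ) : QMat 2) = rtM 1 ((starRingEnd ℂ) m) := rfl

lemma rfM_one_one : rfM 1 1 = dg 1 (-1) := by
  refine Matrix.ext (fun i j => ?_)
  fin_cases i <;> fin_cases j <;> simp [rfM, dg]

lemma rfM_mul_self (q : ℍ[ℝ]) {l : ℂ} (hl : Complex.normSq l = 1) :
    rfM q l * rfM q l = dg (q * q) (q * q) := by
  rw [rfM_mul_rfM, Complex.mul_conj, hl]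
  refine Matrix.ext (fun i j => ?_)
  fin_cases i <;> fin_cases j <;> simp [rtM, dg]

lemma rfM_neg_one (l : ℂ) : rfM (-1) l = rfM 1 (-l) := by
  refine Matrix.ext (fun i j => ?_)
  fin_cases i <;> fin_cases j <;> simp [rfM]

/-- fixed space of a matrix is the one of a unit -/
lemma finrank_fix_rf_one {l : ℂ} (hl : Complex.normSq l = 1) :
    Module.finrank ℍ[ℝ]ᵐᵒᵖ (fixedSpace (rfM 1 l)) + 1 = 2 := by
  obtain ⟨m, hm, hm1⟩ := exists_sqrt hl
  let d : (QMat 2)ˣ := ⟨rfM 1 1, rfM 1 1, by rw [rfM_mul_self 1 (by simp)]; simpa using dg_one,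
    by rw [rfM_mul_self 1 (by simp)]; simpa using dg_one⟩
  have hd : (d : QMat 2) = rfM 1 1 := rfl
  have h1 : ((rtU hm1 * d * (rtU hm1)⁻¹ : (QMat 2)ˣ) : QMat 2) = rfM 1 l := by
    rw [Units.val_mul, Units.val_mul, rtU_val, rtU_inv, hd, rtM_mul_rfM, rfM_mul_rtM]
    simp [hm]
  have h2 := (fixedEquiv (rtU hm1) d).finrank_eq
  rw [h1] at h2
  rw [← h2, hd, rfM_one_one, finrank_fix_dg]
  left
  refine ⟨rfl, fun h => ?_⟩
  have := congrArg (fun q : ℍ[ℝ] => q.re) h
  simp at this
  norm_num at this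

/-- fixed spaces of reflection matrices -/
lemma finrank_fix_rf {q : ℍ[ℝ]} {l : ℂ} (hl : Complex.normSq l = 1) :
    Module.finrank ℍ[ℝ]ᵐᵒᵖ (fixedSpace (rfM q l)) + 1 = 2 ↔ q = 1 ∨ q = -1 := by
  constructor
  · intro h
    have h1 : fixedSpace (rfM q l) ≠ ⊥ := by
      intro hb
      rw [hb, finrank_bot] at h
      exact absurd h (by norm_num)
    obtain ⟨v, hv, hv0⟩ := (Submodule.ne_bot_iff _).mp h1
    rw [mem_fixedSpace] at hv
    have h2 : (rfM q l * rfM q l).mulVec v = v := by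
      rw [← Matrix.mulVec_mulVec, hv, hv]
    rw [rfM_mul_self q hl, dg_mulVec] at h2
    apply mul_self_eq_one_iff.mp
    by_contra hne
    apply hv0
    funext i
    have h3 : q * q * v i = v i := by
      have := congrFun h2 i
      fin_cases i
      · exact this
      · exact this
    by_contra h0
    apply hne
    exact mul_right_cancel₀ h0 (by rw [h3, one_mul])
  · rintro (rfl | rfl)
    · exact finrank_fix_rf_one hl
    · rw [rfM_neg_one]
      exact finrank_fix_rf_one (by simpa using hl)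

section tf

variable {W : Subgroup (QMat 2)ˣ} (hW : TF W)

include hW

lemma TF.isReflection_iff {w : (QMat 2)ˣ} (hw : w ∈ W) :
    IsReflection w ↔ Module.finrank ℍ[ℝ]ᵐᵒᵖ (fixedSpace (w : QMat 2)) + 1 = 2 := by
  rw [IsReflection]
  refine ⟨fun h => h.2, fun h => ⟨?_, h⟩⟩
  have := hW.fin
  obtain ⟨m, hm, h⟩ := isOfFinOrder_iff_pow_eq_one.mp (isOfFinOrder_of_finite (⟨w, hw⟩ : W))
  refine isOfFinOrder_iff_pow_eq_one.mpr ⟨m, hm, ?_⟩
  have := congrArg Subtype.val h
  simpa using this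

/-- the number of reflections -/
lemma TF.numReflections (hneg : ∃ s ∈ W, (s : QMat 2) = -1) :
    numReflections W = zz (GG W) + (rf (hW.tg hneg)).card := by
  classical
  have hG := hW.tg hneg
  have hfin := hG.finite_Zs
  have hngt : ngt ∈ GG W := hG.neg
  have hsw : (⟨1, 1, true⟩ : Tr) ∈ GG W := hG.swap
  -- choice of elements
  have hch : ∀ t : Tr, ∃ w : (QMat 2)ˣ, t ∈ GG W → w ∈ W ∧ (w : QMat 2) = mat t := by
    intro t
    by_cases ht : t ∈ GG W
    · obtain ⟨_, w, hw, h⟩ := ht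
      exact ⟨w, fun _ => ⟨hw, h⟩⟩
    · exact ⟨1, fun h => absurd h ht⟩
  choose f hf using hch
  have hout : ∀ l ∈ Zs (GG W), (⟨1, l, true⟩ : Tr) ∈ GG W := by
    intro l hl
    have h1 := (GG W).mul_mem (mem_Zs.mp hl) hsw
    convert h1 using 1
    refine tr_ext ?_ ?_ ?_ <;> simp
  let F : Zs (GG W) ⊕ {t // t ∈ rf hG} → {w : (QMat 2)ˣ // w ∈ W ∧ IsReflection w} := fun x =>
    match x with
    | Sum.inl l => ⟨f ⟨1, l.1, true⟩, (hf _ (hout l.1 l.2)).1, by
        rw [hW.isReflection_iff (hf _ (hout l.1 l.2)).1, (hf _ (hout l.1 l.2)).2, mat_true rfl,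
          finrank_fix_rf (hout l.1 l.2).1.2]
        left; simp⟩
    | Sum.inr t => ⟨f t.1, (hf _ ((mem_rf hG).mp t.2).1).1, by
        have ht := (mem_rf hG).mp t.2
        rw [hW.isReflection_iff (hf _ ht.1).1, (hf _ ht.1).2, mat_false ht.2.1,
          finrank_fix_rt ht.1.1.1 ht.1.1.2]
        exact ⟨ht.2.2.1, ht.2.2.2.ne'⟩⟩
  have hF1 : ∀ l : Zs (GG W), ((F (Sum.inl l)).1 : QMat 2) = mat ⟨1, l.1, true⟩ := fun l =>
    (hf _ (hout l.1 l.2)).2
  have hF2 : ∀ t : {t // t ∈ rf hG}, ((F (Sum.inr t)).1 : QMat 2) = mat t.1 := fun t =>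
    (hf _ ((mem_rf hG).mp t.2).1).2
  have hbij : Function.Bijective F := by
    constructor
    · intro x y hxy
      have h1 : ((F x).1 : QMat 2) = ((F y).1 : QMat 2) := by rw [hxy]
      rcases x with l | t <;> rcases y with l' | t'
      · rw [hF1, hF1] at h1
        rcases mat_inj (hout l.1 l.2).1 (hout l'.1 l'.2).1 h1 with h2 | h2
        · have := congrArg Tr.l h2
          simp only at this
          rw [Subtype.ext this]
        · exfalso
          have := congrArg (fun t : Tr => (t.q : ℍ[ℝ]).re) h2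
          simp [ngt] at this
          norm_num at this
      · exfalso
        rw [hF1, hF2] at h1
        have ht := (mem_rf hG).mp t'.2
        rcases mat_inj (hout l.1 l.2).1 ht.1.1 h1 with h2 | h2
        · have := congrArg Tr.e h2
          rw [ht.2.1] at this
          simp at this
        · have := congrArg Tr.e h2
          rw [ht.2.1] at this
          simp [ngt] at this
      · exfalso
        rw [hF1, hF2] at h1
        have ht := (mem_rf hG).mp t.2
        rcases mat_inj ht.1.1 (hout l'.1 l'.2).1 h1 with h2 | h2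
        · have := congrArg Tr.e h2
          rw [ht.2.1] at this
          simp at this
        · have := congrArg Tr.e h2
          simp [ngt, ht.2.1] at this
      · rw [hF2, hF2] at h1
        have ht := (mem_rf hG).mp t.2
        have ht' := (mem_rf hG).mp t'.2
        rcases mat_inj ht.1.1 ht'.1.1 h1 with h2 | h2
        · rw [Subtype.ext h2]
        · exfalso
          have h3 := congrArg (fun t : Tr => (t.l : ℂ).im) h2
          simp [ngt, ht.2.1] at h3
          have h4 := ht.2.2.2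
          have h5 := ht'.2.2.2
          linarith
    · rintro ⟨w, hw, hr⟩
      obtain ⟨t, ht, hwt⟩ := hW.form w hw
      have htG : t ∈ GG W := ⟨ht, w, hw, hwt⟩
      rw [hW.isReflection_iff hw, hwt] at hr
      have hmng : mat (t * ngt) = mat t := by rw [mat_mul Uni.ngt, mat_ngt, mul_one]
      rcases he : t.e with _ | _
      · rw [mat_false he, finrank_fix_rt ht.1 ht.2] at hr
        rcases lt_or_gt_of_ne hr.2 with hlt | hgt
        · have hmem : t * ngt ∈ rf hG := by
            rw [mem_rf]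
            refine ⟨(GG W).mul_mem htG hngt, by simp [he, ngt], ?_, ?_⟩
            · simp [he, ngt, hr.1]
            · simp [he, ngt, hlt]
          refine ⟨Sum.inr ⟨t * ngt, hmem⟩, Subtype.ext (Units.ext ?_)⟩
          rw [hF2, hwt, hmng]
        · have hmem : t ∈ rf hG := by
            rw [mem_rf]
            exact ⟨htG, he, hr.1, hgt⟩
          refine ⟨Sum.inr ⟨t, hmem⟩, Subtype.ext (Units.ext ?_)⟩
          rw [hF2, hwt]
      · rw [mat_true he, finrank_fix_rf ht.2] at hr
        have key : ∀ t ∈ GG W, t.e = true → (t.q : ℍ[ℝ]) = 1 → t = ⟨1, t.l, true⟩ ∧ t.l ∈ Zs (GG W) := by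
          intro t ht he h1
          have h2 : t = ⟨1, t.l, true⟩ := tr_ext (Units.ext h1) rfl he
          refine ⟨h2, ?_⟩
          rw [mem_Zs]
          have h3 := (GG W).mul_mem ht hsw
          convert h3 using 1
          refine tr_ext ?_ ?_ ?_
          · rw [h2]; simp
          · simp [he]
          · simp [he]
        rcases hr with h1 | h1
        · obtain ⟨h2, h3⟩ := key t htG he h1
          refine ⟨Sum.inl ⟨t.l, h3⟩, Subtype.ext (Units.ext ?_)⟩
          rw [hF1, hwt]
          exact congrArg mat h2.symm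
        · obtain ⟨h2, h3⟩ := key (t * ngt) ((GG W).mul_mem htG hngt) (by simp [he, ngt])
            (by simp [ngt, h1])
          refine ⟨Sum.inl ⟨(t * ngt).l, h3⟩, Subtype.ext (Units.ext ?_)⟩
          rw [hF1, hwt, ← hmng]
          exact congrArg mat h2.symm
  rw [QRefl.numReflections, ← Nat.card_congr (Equiv.ofBijective F hbij), Nat.card_sum]
  have : Nat.card {t // t ∈ rf hG} = (rf hG).card := by simp
  rw [this]
  rfl

end tf

/-- matrices of the change of coordinates -/
noncomputable def bm (i j : Ix) : ℂ :=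
  if i.2 = j.2 then (if i.1 = 0 then 1 / 2 else (if j.1 = 0 then -Complex.I / 2 else Complex.I / 2)) else 0

noncomputable def bn (i j : Ix) : ℂ :=
  if i.2 = j.2 then (if j.1 = 0 then 1 else (if i.1 = 0 then Complex.I else -Complex.I)) else 0

lemma sum_ix (f : Ix → ℂ) : ∑ j, f j = f (0, 0) + f (0, 1) + (f (1, 0) + f (1, 1)) := by
  rw [Fintype.sum_prod_type, Fin.sum_univ_two, Fin.sum_univ_two, Fin.sum_univ_two]

lemma bm_bn (v : Ix → ℂ) : (fun i => ∑ j, bm i j * (∑ k, bn j k * v k)) = v := by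
  have hI : Complex.I * Complex.I = -1 := Complex.I_mul_I
  funext ⟨k, e⟩
  rcases fin2 k with rfl | rfl <;> rcases fin2 e with rfl | rfl <;>
    simp only [sum_ix] <;> simp [bm, bn]
  · ring
  · ring
  · linear_combination (-(v (1, 0))) * hI
  · linear_combination (-(v (1, 1))) * hI

lemma bn_bm (v : Ix → ℂ) : (fun i => ∑ j, bn i j * (∑ k, bm j k * v k)) = v := by
  have hI : Complex.I * Complex.I = -1 := Complex.I_mul_I
  funext ⟨k, e⟩
  rcases fin2 k with rfl | rfl <;> rcases fin2 e with rfl | rfl <;>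
    simp only [sum_ix] <;> simp [bm, bn]
  · linear_combination ((-(v (0, 0))) / 2 + v (1, 0) / 2) * hI
  · linear_combination ((-(v (0, 1))) / 2 + v (1, 1) / 2) * hI
  · linear_combination ((v (0, 0)) / 2 - v (1, 0) / 2) * hI
  · linear_combination ((v (0, 1)) / 2 - v (1, 1) / 2) * hI

lemma subst_subst_of {a b : Ix → Ix → ℂ} (h : ∀ v : Ix → ℂ, (fun i => ∑ j, a i j * (∑ k, b j k * v k)) = v)
    (f : Pol) : subst b (subst a f) = f := by
  apply MvPolynomial.funext
  intro v
  rw [eval_subst, eval_subst, h]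

/-- the change of coordinates -/
noncomputable def psiE : Pol ≃ₐ[ℂ] Pol :=
  AlgEquiv.ofAlgHom (subst bn) (subst bm)
    (by
      apply AlgHom.ext
      intro f
      rw [AlgHom.comp_apply, subst_subst_of bm_bn]; rfl)
    (by
      apply AlgHom.ext
      intro f
      rw [AlgHom.comp_apply, subst_subst_of bn_bm]; rfl)

lemma psiE_map (f : Pol) (J : Ideal Pol) (h : subst bm f ∈ J) :
    f ∈ Ideal.map (psiE : Pol →+* Pol) J := by
  have h3 := Ideal.mem_map_of_mem (psiE : Pol →+* Pol) h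
  have h4 : (psiE : Pol →+* Pol) (subst bm f) = f := psiE.apply_symm_apply f
  exact h4 ▸ h3

lemma finrank_map_psiE (J : Ideal Pol) :
    Module.finrank ℂ (Pol ⧸ Ideal.map (psiE : Pol →+* Pol) J) = Module.finrank ℂ (Pol ⧸ J) :=
  (LinearEquiv.finrank_eq
      (Ideal.quotientEquivAlg J (Ideal.map (psiE : Pol →+* Pol) J) psiE rfl).toLinearEquiv).symm

/-- change of coordinates and the group action -/
lemma am_intertwine {t : Tr} (ht : Uni t) (f : Pol) :
    subst (am t) (subst bm f) = subst bm (act (mat t) f) := by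
  have hI : Complex.I * Complex.I = -1 := Complex.I_mul_I
  apply MvPolynomial.funext
  intro v
  rw [eval_subst, eval_subst, eval_subst, act, eval_subst]
  congr 1
  congr 1
  have hl := inv_l_coe ht.2
  have e1 : (t.l : ℂ) = ((t.l : ℂ).re : ℂ) + ((t.l : ℂ).im : ℂ) * Complex.I := (Complex.re_add_im _).symm
  have e2 : ((t.l⁻¹ : ℂˣ) : ℂ) = ((t.l : ℂ).re : ℂ) - ((t.l : ℂ).im : ℂ) * Complex.I := by
    rw [hl]
    apply Complex.ext <;> simp
  have hsm : ∀ (r : ℝ) (q : ℍ[ℝ]) (i j : Fin 2), qmat (r • q) i j = (r : ℂ) * qmat q i j := by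
    intro r q i j
    rcases fin2 i with rfl | rfl <;> rcases fin2 j with rfl | rfl <;>
      simp only [qmat, Matrix.cons_val_zero, Matrix.cons_val_one] <;> apply Complex.ext <;> simp
  have hsn : ∀ (q : ℍ[ℝ]) (i j : Fin 2), qmat (-q) i j = - qmat q i j := by
    intro q i j
    rcases fin2 i with rfl | rfl <;> rcases fin2 j with rfl | rfl <;>
      simp only [qmat, Matrix.cons_val_zero, Matrix.cons_val_one] <;> apply Complex.ext <;> simp
  funext ⟨k, e⟩
  rcases he : t.e with _ | _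
  · have hm : mat t = rtM t.q t.l := mat_false he
    rw [hm]
    rcases fin2 k with rfl | rfl <;>
      simp only [sum_ix, am_00 t _ _ he, am_01 t _ _ he, am_10 t _ _ he, am_11 t _ _ he, gmat, rtM,
        Matrix.of_apply, Matrix.cons_val', Matrix.cons_val_zero, Matrix.cons_val_one, hsn, hsm] <;>
      rw [e2] <;> simp only [bm] <;> rcases fin2 e with rfl | rfl <;> simp
    · linear_combination ((qmat t.q 0 0 * v (0, 0) + qmat t.q 0 1 * v (0, 1)) / 2) * e1
    · linear_combination ((qmat t.q 1 0 * v (0, 0) + qmat t.q 1 1 * v (0, 1)) / 2) * e1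
    · linear_combination (-Complex.I / 2 * (qmat t.q 0 0 * v (0, 0) + qmat t.q 0 1 * v (0, 1))) * e1
        - (((t.l : ℂ).im : ℂ) * (qmat t.q 0 0 * v (0, 0) + qmat t.q 0 1 * v (0, 1) +
          qmat t.q 0 0 * v (1, 0) + qmat t.q 0 1 * v (1, 1)) / 2) * hI
    · linear_combination (-Complex.I / 2 * (qmat t.q 1 0 * v (0, 0) + qmat t.q 1 1 * v (0, 1))) * e1
        - (((t.l : ℂ).im : ℂ) * (qmat t.q 1 0 * v (0, 0) + qmat t.q 1 1 * v (0, 1) +
          qmat t.q 1 0 * v (1, 0) + qmat t.q 1 1 * v (1, 1)) / 2) * hI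
  · have hm : mat t = rfM t.q t.l := mat_true he
    rw [hm]
    rcases fin2 k with rfl | rfl <;>
      simp only [sum_ix, am_00' t _ _ he, am_01' t _ _ he, am_10' t _ _ he, am_11' t _ _ he, gmat, rfM,
        Matrix.of_apply, Matrix.cons_val', Matrix.cons_val_zero, Matrix.cons_val_one, hsn, hsm] <;>
      rw [e2] <;> simp only [bm] <;> rcases fin2 e with rfl | rfl <;> simp
    · linear_combination ((qmat t.q 0 0 * v (1, 0) + qmat t.q 0 1 * v (1, 1)) / 2) * e1
    · linear_combination ((qmat t.q 1 0 * v (1, 0) + qmat t.q 1 1 * v (1, 1)) / 2) * e1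
    · linear_combination (-Complex.I / 2 * (qmat t.q 0 0 * v (1, 0) + qmat t.q 0 1 * v (1, 1))) * e1
        - (((t.l : ℂ).im : ℂ) * (qmat t.q 0 0 * v (0, 0) + qmat t.q 0 1 * v (0, 1) +
          qmat t.q 0 0 * v (1, 0) + qmat t.q 0 1 * v (1, 1)) / 2) * hI
    · linear_combination (-Complex.I / 2 * (qmat t.q 1 0 * v (1, 0) + qmat t.q 1 1 * v (1, 1))) * e1
        - (((t.l : ℂ).im : ℂ) * (qmat t.q 1 0 * v (0, 0) + qmat t.q 1 1 * v (0, 1) +
          qmat t.q 1 0 * v (1, 0) + qmat t.q 1 1 * v (1, 1)) / 2) * hI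

/-- the conclusion for groups of tensor type containing `-1` -/
lemma TF.hasQuot {W : Subgroup (QMat 2)ˣ} (hW : TF W) (hneg : ∃ s ∈ W, (s : QMat 2) = -1) :
    HasQuot W ((QRefl.numReflections W + 1) ^ 2) := by
  obtain ⟨J, h1, h2⟩ := main_ten (hW.tg hneg)
  refine ⟨Ideal.map (psiE : Pol →+* Pol) J, ?_, ?_⟩
  · rw [zeroFiberIdeal, Ideal.span_le]
    rintro f ⟨hf, d, hd, hhom⟩
    obtain ⟨e, rfl⟩ : ∃ e, d = e + 1 := ⟨d - 1, by omega⟩
    refine psiE_map f J (h1 e _ (subst_isHomogeneous _ hhom) (fun t ht => ?_))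
    obtain ⟨hu, w, hw, hwt⟩ := ht
    rw [am_intertwine hu, ← hwt, isInvariant_iff.mp hf w hw]
  · rw [finrank_map_psiE, h2, hW.numReflections hneg]

end Run7.h580
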