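import Pool.Agent.Run7.h580.S2

/-!
Groups of tensor type without the central involution.
-/

namespace Run7.h580

open MvPolynomial Quaternion QRefl Run7.h580.Ten

lemma comm_complex {a b : ℍ[ℝ]} (ha : a.imJ = 0 ∧ a.imK = 0) (hb : b.imJ = 0 ∧ b.imK = 0) :
    a * b = b * a := by
  ext
  · simp only [re_mul, ha.1, ha.2, hb.1, hb.2]; ring
  · simp only [imI_mul, ha.1, ha.2, hb.1, hb.2]; ring
  · simp only [imJ_mul, ha.1, ha.2, hb.1, hb.2]; ring
  · simp only [imK_mul, ha.1, ha.2, hb.1, hb.2]; ring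

lemma imag_mul_self {v : ℍ[ℝ]} (hre : v.re = 0) : v * v = -((normSq v : ℝ) : ℍ[ℝ]) := by
  have h1 : star v = -v := by
    ext <;> simp [hre]
  have h2 := Quaternion.self_mul_star v
  rw [h1, mul_neg] at h2
  rw [← h2, neg_neg]

section tf

variable {W : Subgroup (QMat 2)ˣ}

variable (W) in
/-- the quaternionic kernel -/
noncomputable def SS : Subgroup ℍ[ℝ]ˣ where
  carrier := {q | (⟨q, 1, false⟩ : Tr) ∈ GG W}
  mul_mem' := by
    intro a b ha hb
    have h := (GG W).mul_mem ha hb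
    have e : (⟨a * b, 1, false⟩ : Tr) = ⟨a, 1, false⟩ * ⟨b, 1, false⟩ := by
      refine tr_ext ?_ ?_ ?_ <;> simp
    show (⟨a * b, 1, false⟩ : Tr) ∈ GG W
    rw [e]; exact h
  one_mem' := (GG W).one_mem
  inv_mem' := by
    intro a ha
    have h := (GG W).inv_mem ha
    have e : (⟨a⁻¹, 1, false⟩ : Tr) = (⟨a, 1, false⟩ : Tr)⁻¹ := by
      refine tr_ext ?_ ?_ ?_ <;> simp
    show (⟨a⁻¹, 1, false⟩ : Tr) ∈ GG W
    rw [e]; exact h

lemma mem_SS {q : ℍ[ℝ]ˣ} : q ∈ SS W ↔ (⟨q, 1, false⟩ : Tr) ∈ GG W := Iff.rfl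

variable (hW : TF W)

include hW

lemma TF.finite_SS : Finite (SS W) := by
  have h1 : ((SS W : Subgroup ℍ[ℝ]ˣ) : Set ℍ[ℝ]ˣ).Finite := by
    refine Set.Finite.preimage (f := fun q => (⟨q, 1, false⟩ : Tr)) ?_ hW.finite_GG
    intro a _ b _ hab
    exact congrArg Tr.q hab
  exact h1.to_subtype

omit hW in
lemma conj_SS {t : Tr} (ht : t ∈ GG W) {x : ℍ[ℝ]ˣ} (hx : x ∈ SS W) : t.q * x * t.q⁻¹ ∈ SS W := by
  rw [mem_SS] at hx ⊢
  have h := (GG W).mul_mem ((GG W).mul_mem ht hx) ((GG W).inv_mem ht)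
  convert h using 1
  rcases he : t.e with _ | _
  · refine tr_ext ?_ ?_ ?_ <;> simp [he]
  · refine tr_ext ?_ ?_ ?_ <;> simp [he]

lemma TF.comm_SS (hneg : ¬ ∃ s ∈ W, (s : QMat 2) = -1) {x y : ℍ[ℝ]ˣ} (hx : x ∈ SS W) (hy : y ∈ SS W) :
    (x : ℍ[ℝ]) * y = y * x := by
  have h1 : (-1 : ℍ[ℝ]ˣ) ∉ SS W := by
    intro h
    obtain ⟨_, w, hw, hwt⟩ := mem_SS.mp h
    apply hneg
    refine ⟨w, hw, ?_⟩
    rw [hwt, mat_false rfl, ← rtM_neg_one]
    simp
  obtain ⟨c, hc, h⟩ := conj_complex (SS W) hW.finite_SS h1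
  have h2 := comm_complex (h x hx) (h y hy)
  have h3 : c * ((x : ℍ[ℝ]) * y) * c⁻¹ = c * ((y : ℍ[ℝ]) * x) * c⁻¹ := by
    calc c * ((x : ℍ[ℝ]) * y) * c⁻¹ = (c * x * c⁻¹) * (c * y * c⁻¹) := by
          rw [mul_assoc (c * (x : ℍ[ℝ])), ← mul_assoc c⁻¹, ← mul_assoc c⁻¹, inv_mul_cancel₀ hc, one_mul]
          simp only [mul_assoc]
      _ = (c * y * c⁻¹) * (c * x * c⁻¹) := h2
      _ = c * ((y : ℍ[ℝ]) * x) * c⁻¹ := by
          rw [mul_assoc (c * (y : ℍ[ℝ])), ← mul_assoc c⁻¹, ← mul_assoc c⁻¹, inv_mul_cancel₀ hc, one_mul]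
          simp only [mul_assoc]
  exact mul_left_cancel₀ hc (mul_right_cancel₀ (inv_ne_zero hc) h3)

omit hW in
lemma commutator_mem {t t' : Tr} (ht : t ∈ GG W) (ht' : t' ∈ GG W) (he : t.e = false) (he' : t'.e = false) :
    t.q * t'.q * t.q⁻¹ * t'.q⁻¹ ∈ SS W := by
  rw [mem_SS]
  have h := (GG W).mul_mem ((GG W).mul_mem ((GG W).mul_mem ht ht') ((GG W).inv_mem ht)) ((GG W).inv_mem ht')
  convert h using 1
  refine tr_ext ?_ ?_ ?_
  · simp
  · simp [he, he']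
  · simp [he, he']

lemma TF.rotate {t : Tr} (ht : t ∈ GG W) : (⟨t.q, t.l, false⟩ : Tr) ∈ GG W := by
  rcases he : t.e with _ | _
  · have : (⟨t.q, t.l, false⟩ : Tr) = t := tr_ext rfl rfl he.symm
    rw [this]; exact ht
  · have hsw : (⟨1, 1, true⟩ : Tr) ∈ GG W := ⟨Uni.mk (by simp) (by simp), hW.swap⟩
    have h1 := (GG W).mul_mem ht hsw
    convert h1 using 1
    refine tr_ext ?_ ?_ ?_
    · simp
    · simp [he]
    · simp [he]

/-- an imaginary unit normalised by the group -/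
lemma TF.exists_v (hneg : ¬ ∃ s ∈ W, (s : QMat 2) = -1) (hnc : ¬ IsComplex W) :
    ∃ v : ℍ[ℝ], v * v = -1 ∧ ∀ t ∈ GG W, (t.q : ℍ[ℝ]) * v = v * t.q ∨ (t.q : ℍ[ℝ]) * v = -(v * t.q) := by
  have hneg1 : (-1 : ℍ[ℝ]ˣ) ∉ SS W := by
    intro h
    obtain ⟨_, w, hw, hwt⟩ := mem_SS.mp h
    apply hneg
    refine ⟨w, hw, ?_⟩
    rw [hwt, mat_false rfl, ← rtM_neg_one]
    simp
  -- it is enough to find a nonreal element
  have key : ∀ x : ℍ[ℝ], (∀ r : ℝ, x ≠ r) →
      (∀ t ∈ GG W, x * ((t.q : ℍ[ℝ]) * x * ((t.q⁻¹ : ℍ[ℝ]ˣ) : ℍ[ℝ])) =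
        ((t.q : ℍ[ℝ]) * x * ((t.q⁻¹ : ℍ[ℝ]ˣ) : ℍ[ℝ])) * x) →
      ∃ v : ℍ[ℝ], v * v = -1 ∧ ∀ t ∈ GG W, (t.q : ℍ[ℝ]) * v = v * t.q ∨ (t.q : ℍ[ℝ]) * v = -(v * t.q) := by
    intro x hx hcomm
    set v0 : ℍ[ℝ] := x - (x.re : ℝ) with hv0
    have hv0re : v0.re = 0 := by simp [hv0]
    have hv0ne : v0 ≠ 0 := fun h => hx x.re (sub_eq_zero.mp h)
    have hn : 0 < normSq v0 := lt_of_le_of_ne normSq_nonneg (fun h => hv0ne (normSq_eq_zero.mp h.symm))
    set ρ : ℝ := Real.sqrt (normSq v0) with hρ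
    have hρ0 : 0 < ρ := Real.sqrt_pos.mpr hn
    have hρ2 : ρ * ρ = normSq v0 := Real.mul_self_sqrt hn.le
    refine ⟨ρ⁻¹ • v0, ?_, ?_⟩
    · rw [smul_mul_smul_comm, imag_mul_self hv0re, ← hρ2]
      have : ρ⁻¹ * ρ⁻¹ * (ρ * ρ) = 1 := by field_simp
      ext <;> simp [this]
    · intro t ht
      have h1 := hcomm t ht
      set q : ℍ[ℝ] := (t.q : ℍ[ℝ]) with hq
      set q' : ℍ[ℝ] := ((t.q⁻¹ : ℍ[ℝ]ˣ) : ℍ[ℝ]) with hq'
      have hqq' : q * q' = 1 := Units.mul_inv t.q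
      have hq'q : q' * q = 1 := Units.inv_mul t.q
      set v1 := q * v0 * q' with hv1
      have hc : v0 * v1 = v1 * v0 := by
        have e1 : v1 = q * x * q' - (x.re : ℝ) := by
          rw [hv1, hv0, mul_sub, sub_mul]
          congr 1
          rw [← Quaternion.coe_commutes, mul_assoc, hqq', mul_one]
        have e2 := Quaternion.coe_commutes x.re x
        have e3 := Quaternion.coe_commutes x.re (q * x * q')
        rw [e1, hv0, sub_mul, mul_sub, mul_sub, sub_mul, mul_sub, mul_sub, h1, e2, e3]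
        abel
      have hsq : v1 * v1 = v0 * v0 := by
        have e2 : v1 * v1 = q * (v0 * v0) * q' := by
          rw [hv1]
          calc q * v0 * q' * (q * v0 * q') = q * v0 * (q' * q) * v0 * q' := by simp only [mul_assoc]
            _ = q * (v0 * v0) * q' := by rw [hq'q, mul_one]; simp only [mul_assoc]
        rw [e2, imag_mul_self hv0re, mul_neg, neg_mul, ← Quaternion.coe_commutes, mul_assoc, hqq', mul_one]
      have hfac : (v1 - v0) * (v1 + v0) = 0 := by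
        rw [sub_mul, mul_add, mul_add, hsq, hc]
        abel
      have hqv : ∀ s : ℍ[ℝ], v1 = s → q * v0 = s * q := by
        intro s hs
        rw [← hs, hv1, mul_assoc, hq'q, mul_one]
      rcases mul_eq_zero.mp hfac with h | h
      · left
        rw [mul_smul_comm, smul_mul_assoc, hqv v0 (sub_eq_zero.mp h)]
      · right
        rw [mul_smul_comm, smul_mul_assoc, hqv (-v0) (eq_neg_of_add_eq_zero_left h), neg_mul, smul_neg]
  have hreal : ∀ x : ℍ[ℝ], normSq x = 1 → (∃ r : ℝ, x = r) → x = 1 ∨ x = -1 := by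
    rintro x hx ⟨r, rfl⟩
    rw [Quaternion.normSq_coe] at hx
    have : r * r = 1 := by rw [← sq]; exact hx
    rcases mul_self_eq_one_iff.mp this with h | h
    · left; rw [h]; simp
    · right; rw [h]; simp
  by_cases hS : ∃ x ∈ SS W, x ≠ 1
  · obtain ⟨x, hx, hx1⟩ := hS
    refine key x ?_ ?_
    · intro r hr
      rcases hreal x (mem_SS.mp hx).1.1 ⟨r, hr⟩ with h | h
      · exact hx1 (Units.ext h)
      · apply hneg1
        have : x = -1 := Units.ext (by simpa using h)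
        rw [← this]; exact hx
    · intro t ht
      have := hW.comm_SS hneg hx (conj_SS ht hx)
      simpa using this
  · push Not at hS
    -- the quaternion parts commute
    have hab : ∀ t ∈ GG W, ∀ t' ∈ GG W, (t.q : ℍ[ℝ]) * t'.q = t'.q * t.q := by
      intro t ht t' ht'
      have h1 := hS _ (commutator_mem (hW.rotate ht) (hW.rotate ht') rfl rfl)
      simp only at h1
      rw [mul_inv_eq_one] at h1
      rw [mul_inv_eq_iff_eq_mul] at h1
      have := congrArg (fun u : ℍ[ℝ]ˣ => (u : ℍ[ℝ])) h1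
      simpa using this
    by_cases hall : ∃ t ∈ GG W, ∀ r : ℝ, (t.q : ℍ[ℝ]) ≠ r
    · obtain ⟨t, ht, hr⟩ := hall
      refine key t.q hr ?_
      intro t' ht'
      have h1 : (t'.q : ℍ[ℝ]) * (t.q : ℍ[ℝ]) * ((t'.q⁻¹ : ℍ[ℝ]ˣ) : ℍ[ℝ]) = t.q := by
        rw [hab t' ht' t ht, mul_assoc, Units.mul_inv, mul_one]
      rw [h1]
    · exfalso
      push Not at hall
      apply hnc
      refine ⟨1, fun w hw i j => ?_⟩
      obtain ⟨t, ht, hwt⟩ := hW.form w hw
      have htG : t ∈ GG W := ⟨ht, w, hw, hwt⟩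
      obtain ⟨r, hr⟩ := hall t htG
      rw [one_mul, inv_one, mul_one, hwt]
      rcases he : t.e with _ | _
      · rw [mat_false he]
        fin_cases i <;> fin_cases j <;> simp [rtM, hr]
      · rw [mat_true he]
        fin_cases i <;> fin_cases j <;> simp [rfM, hr]

end tf

/-- the line of columns `(h, v h)` -/
def lineV (v : ℍ[ℝ]) : Submodule ℍ[ℝ]ᵐᵒᵖ (QVec 2) where
  carrier := {p | p 1 = v * p 0}
  add_mem' := by
    intro a b ha hb
    simp only [Set.mem_ofPred_eq] at *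
    rw [Pi.add_apply, Pi.add_apply, ha, hb, mul_add]
  zero_mem' := by simp
  smul_mem' := by
    intro c p hp
    simp only [Set.mem_ofPred_eq] at *
    rw [op_smul_apply, op_smul_apply, hp, mul_assoc]

lemma mem_lineV {v : ℍ[ℝ]} {p : QVec 2} : p ∈ lineV v ↔ p 1 = v * p 0 := Iff.rfl

lemma rtM_mulVec (q : ℍ[ℝ]) (l : ℂ) (p : QVec 2) :
    (rtM q l).mulVec p = ![q * (l.re • p 0 - l.im • p 1), q * (l.im • p 0 + l.re • p 1)] := by
  funext i
  fin_cases i <;> simp [rtM, Matrix.mulVec, dotProduct, Fin.sum_univ_two, sub_eq_add_neg, mul_add]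

lemma rfM_mulVec (q : ℍ[ℝ]) (l : ℂ) (p : QVec 2) :
    (rfM q l).mulVec p = ![q * (l.re • p 0 + l.im • p 1), q * (l.im • p 0 - l.re • p 1)] := by
  funext i
  fin_cases i <;> simp [rfM, Matrix.mulVec, dotProduct, Fin.sum_univ_two, sub_eq_add_neg, mul_add]

/-- tensor groups normalising an imaginary unit are imprimitive -/
lemma TF.isImprimitive {W : Subgroup (QMat 2)ˣ} (hW : TF W) {v : ℍ[ℝ]} (hv : v * v = -1)
    (h : ∀ t ∈ GG W, (t.q : ℍ[ℝ]) * v = v * t.q ∨ (t.q : ℍ[ℝ]) * v = -(v * t.q)) : IsImprimitive W := by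
  have hv0 : v ≠ 0 := by
    rintro rfl
    rw [mul_zero] at hv
    have := congrArg (fun q : ℍ[ℝ] => q.re) hv
    simp at this
  let U : Fin 2 → Submodule ℍ[ℝ]ᵐᵒᵖ (QVec 2) := ![lineV v, lineV (-v)]
  have hU0 : U 0 = lineV v := rfl
  have hU1 : U 1 = lineV (-v) := rfl
  have hdisj : Disjoint (lineV v) (lineV (-v)) := by
    rw [Submodule.disjoint_def]
    intro p hp hp'
    rw [mem_lineV] at hp hp'
    rw [hp, neg_mul] at hp'
    have h0 : v * p 0 = 0 := by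
      have : (2 : ℝ) • (v * p 0) = 0 := by
        rw [two_smul]
        nth_rewrite 1 [hp']
        rw [neg_add_cancel]
      exact (smul_eq_zero.mp this).resolve_left (by norm_num)
    have h1 : p 0 = 0 := (mul_eq_zero.mp h0).resolve_left hv0
    funext i
    fin_cases i
    · exact h1
    · simp [hp, h1]
  have hsup : lineV v ⊔ lineV (-v) = ⊤ := by
    rw [eq_top_iff]
    intro p _
    have hhalf : (2 : ℝ)⁻¹ + (2 : ℝ)⁻¹ = 1 := by norm_num
    rw [Submodule.mem_sup]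
    refine ⟨![(2 : ℝ)⁻¹ • (p 0 - v * p 1), (2 : ℝ)⁻¹ • (v * p 0 + p 1)], ?_,
      ![(2 : ℝ)⁻¹ • (p 0 + v * p 1), (2 : ℝ)⁻¹ • (p 1 - v * p 0)], ?_, ?_⟩
    · rw [mem_lineV]
      simp only [Matrix.cons_val_zero, Matrix.cons_val_one]
      rw [mul_smul_comm, mul_sub, ← mul_assoc, hv, neg_one_mul, sub_neg_eq_add]
    · rw [mem_lineV]
      simp only [Matrix.cons_val_zero, Matrix.cons_val_one]
      rw [mul_smul_comm, neg_mul, mul_add, ← mul_assoc, hv, neg_one_mul]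
      congr 1
      abel
    · funext i
      fin_cases i
      · simp only [Pi.add_apply, Fin.zero_eta, Matrix.cons_val_zero]
        rw [← smul_add]
        have : p 0 - v * p 1 + (p 0 + v * p 1) = (2 : ℝ) • p 0 := by rw [two_smul]; abel
        rw [this, smul_smul]; norm_num
      · simp only [Pi.add_apply, Fin.mk_one, Matrix.cons_val_one, Matrix.cons_val_zero]
        rw [← smul_add]
        have : v * p 0 + p 1 + (p 1 - v * p 0) = (2 : ℝ) • p 1 := by rw [two_smul]; abel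
        rw [this, smul_smul]; norm_num
  -- action on lines
  have hline : ∀ s : ℍ[ℝ], s * s = -1 → ∀ (q : ℍ[ℝ]) (l : ℂ) (s' : ℍ[ℝ]), q * s = s' * q →
      ∀ p ∈ lineV s, (rtM q l).mulVec p ∈ lineV s' := by
    intro s hs q l s' hqs p hp
    rw [mem_lineV] at hp
    rw [rtM_mulVec, mem_lineV]
    simp only [Matrix.cons_val_zero, Matrix.cons_val_one]
    rw [← mul_assoc, ← hqs, mul_assoc]
    congr 1
    rw [hp, mul_sub, mul_smul_comm, mul_smul_comm, ← mul_assoc, hs, neg_one_mul, smul_neg, sub_neg_eq_add,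
      add_comm]
  have hlineF : ∀ s : ℍ[ℝ], s * s = -1 → ∀ (q : ℍ[ℝ]) (l : ℂ) (s' : ℍ[ℝ]), q * (-s) = s' * q →
      ∀ p ∈ lineV s, (rfM q l).mulVec p ∈ lineV s' := by
    intro s hs q l s' hqs p hp
    have h1 : rfM q l = rtM q l * rfM 1 1 := by rw [rtM_mul_rfM, mul_one, mul_one]
    rw [h1, ← Matrix.mulVec_mulVec]
    refine hline (-s) (by rw [neg_mul_neg, hs]) q l s' hqs _ ?_
    rw [mem_lineV] at hp ⊢
    rw [rfM_one_one, dg_mulVec]
    simp [hp]
  have hvv : (-v) * (-v) = -1 := by rw [neg_mul_neg, hv]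
  refine ⟨2, U, by norm_num, ?_, ?_, ?_, ?_⟩
  · intro i
    have hne : ∀ s : ℍ[ℝ], lineV s ≠ ⊥ := by
      intro s
      rw [Submodule.ne_bot_iff]
      refine ⟨![1, s], by rw [mem_lineV]; simp, fun h0 => ?_⟩
      have := congrFun h0 0
      simp at this
    fin_cases i
    · exact hne v
    · exact hne (-v)
  · rw [iSupIndep_pair (i := (0 : Fin 2)) (j := 1) (by norm_num)]
    · exact hdisj
    · intro k; fin_cases k <;> simp
  · rw [eq_top_iff, ← hsup]
    exact sup_le (le_iSup U 0) (le_iSup U 1)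
  · intro w hw i
    obtain ⟨t, ht, hwt⟩ := hW.form w hw
    have htG : t ∈ GG W := ⟨ht, w, hw, hwt⟩
    rcases he : t.e with _ | _
    · rw [hwt, mat_false he]
      rcases h t htG with h1 | h1
      · fin_cases i
        · exact ⟨0, hline v hv _ _ _ h1⟩
        · exact ⟨1, hline (-v) hvv _ _ _ (by rw [mul_neg, h1, neg_mul])⟩
      · fin_cases i
        · exact ⟨1, hline v hv _ _ _ (by rw [h1, neg_mul])⟩
        · exact ⟨0, hline (-v) hvv _ _ _ (by rw [mul_neg, h1, neg_neg])⟩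
    · rw [hwt, mat_true he]
      rcases h t htG with h1 | h1
      · fin_cases i
        · exact ⟨1, hlineF v hv _ _ _ (by rw [mul_neg, h1, neg_mul])⟩
        · exact ⟨0, hlineF (-v) hvv _ _ _ (by rw [neg_neg, h1])⟩
      · fin_cases i
        · exact ⟨0, hlineF v hv _ _ _ (by rw [mul_neg, h1, neg_neg])⟩
        · exact ⟨1, hlineF (-v) hvv _ _ _ (by rw [neg_neg, h1, neg_mul])⟩

end Run7.h580
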