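import Pool.Agent.Run7.h580.S3

/-!
Groups of tensor type: reduction to the standard form.
-/

namespace Run7.h580

open MvPolynomial Quaternion QRefl Run7.h580.Ten

lemma isIrreducible_conj (g : (QMat 2)ˣ) {W : Subgroup (QMat 2)ˣ} (h : IsIrreducible W) :
    IsIrreducible (conjW g W) := by
  intro U hU
  have h1 : ∀ w ∈ W, ∀ v ∈ U.comap (mulL (g : QMat 2)), (w : QMat 2).mulVec v ∈ U.comap (mulL (g : QMat 2)) := by
    intro w hw v hv
    rw [Submodule.mem_comap, mulL_apply] at hv ⊢
    have h2 := hU _ (conj_mem_conjW (g := g) hw) _ hv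
    rw [Units.val_mul, Units.val_mul, ← Matrix.mulVec_mulVec, ← Matrix.mulVec_mulVec, inv_mulVec] at h2
    exact h2
  rcases h _ h1 with h2 | h2
  · left
    rw [eq_bot_iff]
    intro v hv
    have h3 : ((g⁻¹ : (QMat 2)ˣ) : QMat 2).mulVec v ∈ U.comap (mulL (g : QMat 2)) := by
      rw [Submodule.mem_comap, mulL_apply, mulVec_inv]; exact hv
    rw [h2, Submodule.mem_bot] at h3
    rw [Submodule.mem_bot, ← mulVec_inv g v, h3, Matrix.mulVec_zero]
  · right
    rw [eq_top_iff]
    intro v _
    have h3 : ((g⁻¹ : (QMat 2)ˣ) : QMat 2).mulVec v ∈ U.comap (mulL (g : QMat 2)) := by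
      rw [h2]; trivial
    rw [Submodule.mem_comap, mulL_apply, mulVec_inv] at h3
    exact h3

lemma isReflectionGroup_conj (g : (QMat 2)ˣ) {W : Subgroup (QMat 2)ˣ} (h : IsReflectionGroup W) :
    IsReflectionGroup (conjW g W) where
  finite := finite_conj g h.finite
  gen := by
    have h1 : {w | w ∈ conjW g W ∧ IsReflection w} =
        (MulAut.conj g).toMonoidHom '' {w | w ∈ W ∧ IsReflection w} := by
      ext w
      constructor
      · rintro ⟨hw, hr⟩
        rw [mem_conjW] at hw
        refine ⟨g⁻¹ * w * g, ⟨hw, ?_⟩, ?_⟩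
        · rw [← isReflection_conj g]
          have : g * (g⁻¹ * w * g) * g⁻¹ = w := by group
          rw [this]; exact hr
        · simp [MulAut.conj_apply]; group
      · rintro ⟨x, ⟨hx, hr⟩, rfl⟩
        refine ⟨?_, ?_⟩
        · exact conj_mem_conjW hx
        · exact (isReflection_conj g x).mpr hr
    rw [h1, ← MonoidHom.map_closure, h.gen, conjW]

lemma imprimitive_hasQuot (W : Subgroup (QMat 2)ˣ) (hW : IsReflectionGroup W)
    (hirr : IsIrreducible W) (himp : IsImprimitive W) (hnc : ¬ IsComplex W) :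
    HasQuot W ((QRefl.numReflections W + 1) ^ 2) := by
  obtain ⟨g, h1, h2⟩ := exists_monomial hW hirr himp
  apply hasQuot_conj g
  have hSF : SF (conjW g W) := ⟨finite_conj g hW.finite, h1, h2⟩
  rw [← numReflections_conj g W]
  exact hSF.hasQuot (fun h => hnc (isComplex_conj g h))

/-- the conclusion for groups of tensor type -/
lemma TF.hasQuot' {W : Subgroup (QMat 2)ˣ} (hT : TF W) (hW : IsReflectionGroup W)
    (hirr : IsIrreducible W) (hnc : ¬ IsComplex W) : HasQuot W ((QRefl.numReflections W + 1) ^ 2) := by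
  by_cases hneg : ∃ s ∈ W, (s : QMat 2) = -1
  · exact hT.hasQuot hneg
  · obtain ⟨v, hv, h⟩ := hT.exists_v hneg hnc
    exact imprimitive_hasQuot W hW hirr (hT.isImprimitive hv h) hnc

/-- all elements come from triples, some of them from reflecting triples -/
theorem tensor_hasQuot {W : Subgroup (QMat 2)ˣ} (hW : IsReflectionGroup W) (hirr : IsIrreducible W)
    (hnc : ¬ IsComplex W) (hform : ∀ w ∈ W, ∃ t : Tr, Uni t ∧ (w : QMat 2) = mat t)
    (hex : ∃ w ∈ W, ∃ t : Tr, Uni t ∧ t.e = true ∧ (w : QMat 2) = mat t) :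
    HasQuot W ((QRefl.numReflections W + 1) ^ 2) := by
  -- a reflecting reflection
  obtain ⟨s, hs, hsr, t, ht, hte, hst⟩ : ∃ s ∈ W, IsReflection s ∧ ∃ t : Tr, Uni t ∧ t.e = true ∧
      (s : QMat 2) = mat t := by
    by_contra hcon
    push Not at hcon
    have key : ∀ w ∈ W, ∀ t : Tr, Uni t → (w : QMat 2) = mat t → t.e = false := by
      intro w hw
      rw [← hW.gen] at hw
      have huniq : ∀ t t' : Tr, Uni t → Uni t' → mat t = mat t' → t.e = false → t'.e = false := by
        intro t t' ht ht' h he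
        rcases mat_inj ht ht' h with h1 | h1
        · rw [h1]; exact he
        · rw [h1]; simp [ngt, he]
      induction hw using Subgroup.closure_induction with
      | mem x hx =>
        intro t ht hxt
        by_contra he
        rw [Bool.not_eq_false] at he
        exact hcon x hx.1 hx.2 t ht he hxt
      | one =>
        intro t ht h1
        refine huniq 1 t Uni.one ht ?_ rfl
        rw [mat_one, ← h1, Units.val_one]
      | mul x y hx hy ihx ihy =>
        intro t ht hxy
        rw [hW.gen] at hx hy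
        obtain ⟨a, ha, hxa⟩ := hform x hx
        obtain ⟨b, hb, hyb⟩ := hform y hy
        refine huniq (a * b) t (ha.mul hb) ht ?_ ?_
        · rw [mat_mul hb, ← hxa, ← hyb, ← hxy, Units.val_mul]
        · rw [Tr.mul_e, ihx a ha hxa, ihy b hb hyb]; rfl
      | inv x hx ihx =>
        intro t ht hxt
        rw [hW.gen] at hx
        obtain ⟨a, ha, hxa⟩ := hform x hx
        refine huniq a⁻¹ t ha.inv ht ?_ ?_
        · rw [← hxt]
          symm
          apply Units.inv_eq_of_mul_eq_one_right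
          rw [hxa, ← mat_mul ha.inv, mul_inv_cancel, mat_one]
        · rw [Tr.inv_e]; exact ihx a ha hxa
    obtain ⟨w, hw, t, ht, hte, hwt⟩ := hex
    rw [key w hw t ht hwt] at hte
    exact absurd hte (by simp)
  obtain ⟨l, hl, hsl⟩ : ∃ l : ℂ, Complex.normSq l = 1 ∧ (s : QMat 2) = rfM 1 l := by
    have h1 := hsr.2
    rw [hst, mat_true hte, finrank_fix_rf ht.2] at h1
    rcases h1 with h1 | h1
    · exact ⟨t.l, ht.2, by rw [hst, mat_true hte, h1]⟩
    · exact ⟨-t.l, by simpa using ht.2, by rw [hst, mat_true hte, h1, rfM_neg_one]⟩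
  obtain ⟨m, hm, hm1⟩ := exists_sqrt hl
  have hm2 : Complex.normSq ((starRingEnd ℂ) m) = 1 := by rw [Complex.normSq_conj, hm1]
  have hmm : (starRingEnd ℂ) m * m = 1 := by
    rw [mul_comm, Complex.mul_conj, hm1]; simp
  have hm0 : m ≠ 0 := by
    rintro rfl
    simp at hm1
  apply hasQuot_conj (rtU hm2)
  rw [← numReflections_conj (rtU hm2) W]
  refine TF.hasQuot' ⟨finite_conj _ hW.finite, ?_, ?_⟩ (isReflectionGroup_conj _ hW)
    (isIrreducible_conj _ hirr) (fun h => hnc (isComplex_conj _ h))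
  · intro w hw
    rw [mem_conjW] at hw
    obtain ⟨a, ha, haw⟩ := hform _ hw
    let c : Tr := ⟨1, Units.mk0 m hm0, false⟩
    have hc : Uni c := Uni.mk (by simp) (by simpa using hm1)
    have hcm : mat c = rtM 1 m := by rw [mat_false rfl]; simp [c]
    refine ⟨c⁻¹ * a * c, (hc.inv.mul ha).mul hc, ?_⟩
    have h1 : mat c⁻¹ = rtM 1 ((starRingEnd ℂ) m) := by
      rw [mat_false (by simp [c])]
      simp only [Tr.inv_q, Tr.inv_l, c, Bool.false_eq_true, if_false, inv_one, Units.val_one]
      congr 1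
      rw [Units.val_inv_eq_inv_val, Units.val_mk0]
      exact inv_eq_of_mul_eq_one_left hmm
    rw [mat_mul hc, mat_mul ha, h1, hcm, ← haw]
    have h2 : (rtU hm2 : (QMat 2)ˣ) * ((rtU hm2)⁻¹ * w * rtU hm2) * (rtU hm2)⁻¹ = w := by group
    have h3 : (((rtU hm2)⁻¹ : (QMat 2)ˣ) : QMat 2) = rtM 1 m := by
      rw [rtU_inv]; simp
    conv_lhs => rw [← h2]
    rw [Units.val_mul, Units.val_mul, rtU_val, h3]
  · refine ⟨_, conj_mem_conjW (g := rtU hm2) hs, ?_⟩
    rw [Units.val_mul, Units.val_mul, rtU_val, rtU_inv, hsl, rtM_mul_rfM, rfM_mul_rtM, mat_true rfl]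
    simp only [mul_one, Complex.conj_conj, Units.val_one]
    congr 1
    rw [← hm]
    calc (starRingEnd ℂ) m * (m * m) * (starRingEnd ℂ) m = ((starRingEnd ℂ) m * m) * ((starRingEnd ℂ) m * m) := by ring
      _ = 1 := by rw [hmm, one_mul]

end Run7.h580
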