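import Pool.Agent.Run7.h580.S4

/-!
From groups preserving a complex plane and its conjugate to groups of tensor type.
-/

namespace Run7.h580

open MvPolynomial Quaternion QRefl Run7.h580.Ten
open scoped Matrix ComplexOrder MatrixOrder

/-- complex matrices as quaternionic matrices -/
noncomputable def cM : Matrix (Fin 2) (Fin 2) ℂ →+* QMat 2 := (ofComplex : ℂ →+* ℍ[ℝ]).mapMatrix

lemma cM_apply (u : Matrix (Fin 2) (Fin 2) ℂ) (i j : Fin 2) : cM u i j = ((u i j : ℂ) : ℍ[ℝ]) := rfl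

lemma coeComplex_inj {a b : ℂ} (h : (a : ℍ[ℝ]) = b) : a = b := by
  apply Complex.ext
  · have := congrArg (fun q : ℍ[ℝ] => q.re) h
    simpa using this
  · have := congrArg (fun q : ℍ[ℝ] => q.imI) h
    simpa using this

lemma cM_injective : Function.Injective cM := by
  intro u v h
  refine Matrix.ext (fun i j => coeComplex_inj ?_)
  rw [← cM_apply, ← cM_apply, h]

lemma cM_conjTranspose (u : Matrix (Fin 2) (Fin 2) ℂ) : cM uᴴ = (cM u)ᴴ := by
  refine Matrix.ext (fun i j => ?_)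
  rw [cM_apply, Matrix.conjTranspose_apply, Matrix.conjTranspose_apply, cM_apply]
  ext <;> simp

/-- the quaternion `j` -/
def qJ : ℍ[ℝ] := ⟨0, 0, 1, 0⟩

@[simp] lemma qJ_re : qJ.re = 0 := rfl
@[simp] lemma qJ_imI : qJ.imI = 0 := rfl
@[simp] lemma qJ_imJ : qJ.imJ = 1 := rfl
@[simp] lemma qJ_imK : qJ.imK = 0 := rfl

/-- the quaternion `k` -/
def qK : ℍ[ℝ] := ⟨0, 0, 0, 1⟩

@[simp] lemma qK_re : qK.re = 0 := rfl
@[simp] lemma qK_imI : qK.imI = 0 := rfl
@[simp] lemma qK_imJ : qK.imJ = 0 := rfl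
@[simp] lemma qK_imK : qK.imK = 1 := rfl

/-- the scalar matrix `j` -/
noncomputable def jM : QMat 2 := dg qJ qJ

lemma jM_mul (u : Matrix (Fin 2) (Fin 2) ℂ) : jM * cM (u.map (starRingEnd ℂ)) = cM u * jM := by
  refine Matrix.ext (fun i j => ?_)
  rw [Matrix.mul_apply, Matrix.mul_apply, Fin.sum_univ_two, Fin.sum_univ_two]
  simp only [cM_apply, Matrix.map_apply, jM, dg]
  fin_cases i <;> fin_cases j <;> ext <;> simp

lemma jM_star : (jM)ᴴ * jM = 1 := by
  refine Matrix.ext (fun i j => ?_)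
  rw [Matrix.mul_apply, Fin.sum_univ_two]
  simp only [jM, dg, Matrix.conjTranspose_apply]
  fin_cases i <;> fin_cases j <;> ext <;> simp

/-- elements of the two kinds -/
def Kd (w : QMat 2) (u : Matrix (Fin 2) (Fin 2) ℂ) : Prop := w = cM u ∨ w = jM * cM u

lemma Kd.star {w : QMat 2} {u : Matrix (Fin 2) (Fin 2) ℂ} (h : Kd w u) : wᴴ * w = cM (uᴴ * u) := by
  rcases h with rfl | rfl
  · rw [map_mul, cM_conjTranspose]
  · rw [Matrix.conjTranspose_mul, Matrix.mul_assoc, ← Matrix.mul_assoc jMᴴ, jM_star, Matrix.one_mul, map_mul,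
      cM_conjTranspose]

lemma Kd.injective {w : (QMat 2)ˣ} {u : Matrix (Fin 2) (Fin 2) ℂ} (h : Kd (w : QMat 2) u) :
    Function.Injective u.mulVec := by
  have h1 : ∀ x, u.mulVec x = 0 → x = 0 := by
    intro x hx
    have h2 : (cM u).mulVec (fun i => ((x i : ℂ) : ℍ[ℝ])) = 0 := by
      funext i
      have := RingHom.map_mulVec (ofComplex : ℂ →+* ℍ[ℝ]) u x i
      rw [hx] at this
      simp only [Pi.zero_apply, map_zero] at this
      exact this.symm
    have h3 : (w : QMat 2).mulVec (fun i => ((x i : ℂ) : ℍ[ℝ])) = 0 := by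
      rcases h with h | h
      · rw [h, h2]
      · rw [h, ← Matrix.mulVec_mulVec, h2, Matrix.mulVec_zero]
    have h4 := inv_mulVec w (fun i => ((x i : ℂ) : ℍ[ℝ]))
    rw [h3, Matrix.mulVec_zero] at h4
    funext i
    have h5 := congrFun h4 i
    simp only [Pi.zero_apply] at h5
    apply coeComplex_inj
    rw [← h5]; simp
  intro x y hxy
  have := h1 (x - y) (by rw [Matrix.mulVec_sub, hxy, sub_self])
  exact sub_eq_zero.mp this

/-- unitary form -/
lemma unitarize {W : Subgroup (QMat 2)ˣ} (hfin : Finite W)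
    (hform : ∀ w ∈ W, ∃ u, Kd (w : QMat 2) u) :
    ∃ g : (QMat 2)ˣ, ∀ w ∈ conjW g W, ∃ u, uᴴ * u = 1 ∧ Kd (w : QMat 2) u := by
  classical
  have := Fintype.ofFinite W
  choose! u hu using hform
  set H : Matrix (Fin 2) (Fin 2) ℂ := ∑ w : W, (u w)ᴴ * u w with hH
  have hsum : cM H = ∑ w : W, ((w : (QMat 2)ˣ) : QMat 2)ᴴ * ((w : (QMat 2)ˣ) : QMat 2) := by
    rw [hH, map_sum]
    refine Finset.sum_congr rfl (fun w _ => ?_)
    rw [Kd.star (hu w.1 w.2)]
  have hinv : ∀ w0 ∈ W, (w0 : QMat 2)ᴴ * cM H * (w0 : QMat 2) = cM H := by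
    intro w0 hw0
    rw [hsum, Finset.mul_sum, Finset.sum_mul]
    refine Fintype.sum_equiv (Equiv.mulRight (⟨w0, hw0⟩ : W)) _ _ (fun w => ?_)
    rw [Equiv.coe_mulRight, Subgroup.coe_mul, Units.val_mul, Matrix.conjTranspose_mul]
    simp only [Matrix.mul_assoc]
  have hpos : H.PosDef := by
    refine Matrix.posDef_sum ⟨1, Finset.mem_univ _⟩ (fun w _ => ?_)
    exact Matrix.PosDef.conjTranspose_mul_self _ (hu w w.2).injective
  obtain ⟨B, hB⟩ := CStarAlgebra.nonneg_iff_eq_star_mul_self.mp hpos.posSemidef.nonneg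
  rw [Matrix.star_eq_conjTranspose] at hB
  have hBu : IsUnit B := by
    have h1 := hpos.isUnit
    rw [Matrix.isUnit_iff_isUnit_det, hB, Matrix.det_mul] at h1
    rw [Matrix.isUnit_iff_isUnit_det]
    exact isUnit_of_mul_isUnit_right h1
  obtain ⟨b, rfl⟩ := hBu
  let g : (QMat 2)ˣ := Units.map (cM : Matrix (Fin 2) (Fin 2) ℂ →* QMat 2) b
  have hg : (g : QMat 2) = cM b := rfl
  have hg' : ((g⁻¹ : (QMat 2)ˣ) : QMat 2) = cM ((b⁻¹ : (Matrix (Fin 2) (Fin 2) ℂ)ˣ) : Matrix (Fin 2) (Fin 2) ℂ) := rfl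
  have hgg : (g : QMat 2)ᴴ * (g : QMat 2) = cM H := by
    rw [hg, ← cM_conjTranspose, ← map_mul, ← hB]
  refine ⟨g, fun w hw => ?_⟩
  rw [mem_conjW] at hw
  set w0 := g⁻¹ * w * g with hw0
  have hww : w = g * w0 * g⁻¹ := by rw [hw0]; group
  have hstar : (w : QMat 2)ᴴ * (w : QMat 2) = 1 := by
    have h1 : (w : QMat 2) = (g : QMat 2) * w0 * ((g⁻¹ : (QMat 2)ˣ) : QMat 2) := by
      rw [hww, Units.val_mul, Units.val_mul]
    have h2 : ((g⁻¹ : (QMat 2)ˣ) : QMat 2)ᴴ * (g : QMat 2)ᴴ = 1 := by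
      rw [← Matrix.conjTranspose_mul, Units.mul_inv, Matrix.conjTranspose_one]
    calc (w : QMat 2)ᴴ * (w : QMat 2)
        = ((g⁻¹ : (QMat 2)ˣ) : QMat 2)ᴴ * ((w0 : QMat 2)ᴴ * ((g : QMat 2)ᴴ * (g : QMat 2)) * w0) *
            ((g⁻¹ : (QMat 2)ˣ) : QMat 2) := by
          rw [h1, Matrix.conjTranspose_mul, Matrix.conjTranspose_mul]
          simp only [Matrix.mul_assoc]
      _ = (((g⁻¹ : (QMat 2)ˣ) : QMat 2)ᴴ * (g : QMat 2)ᴴ) * ((g : QMat 2) * ((g⁻¹ : (QMat 2)ˣ) : QMat 2)) := by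
          rw [hgg, hinv w0 hw, ← hgg]
          simp only [Matrix.mul_assoc]
      _ = 1 := by rw [h2, Units.mul_inv, Matrix.one_mul]
  have hfin : ∀ u' : Matrix (Fin 2) (Fin 2) ℂ, Kd (w : QMat 2) u' → u'ᴴ * u' = 1 := by
    intro u' h
    apply cM_injective
    rw [← h.star, hstar, map_one]
  rcases hu w0 hw with h | h
  · have h1 : Kd (w : QMat 2) (b * u w0 * ((b⁻¹ : (Matrix (Fin 2) (Fin 2) ℂ)ˣ) : Matrix (Fin 2) (Fin 2) ℂ)) := by
      left
      rw [hww, Units.val_mul, Units.val_mul, hg, hg', h, map_mul, map_mul]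
    exact ⟨_, hfin _ h1, h1⟩
  · have h1 : Kd (w : QMat 2) (((b : Matrix (Fin 2) (Fin 2) ℂ).map (starRingEnd ℂ)) * u w0 *
        ((b⁻¹ : (Matrix (Fin 2) (Fin 2) ℂ)ˣ) : Matrix (Fin 2) (Fin 2) ℂ)) := by
      right
      rw [hww, Units.val_mul, Units.val_mul, hg, hg', h, map_mul, map_mul, ← Matrix.mul_assoc, ← jM_mul]
      simp only [Matrix.mul_assoc]
    exact ⟨_, hfin _ h1, h1⟩

/-- unitary matrices as products of a scalar and a matrix of determinant one -/
lemma unitary_form {u : Matrix (Fin 2) (Fin 2) ℂ} (hu : uᴴ * u = 1) : ∃ l a b : ℂ,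
    Complex.normSq l = 1 ∧ Complex.normSq a + Complex.normSq b = 1 ∧
      u = !![l * a, -(l * (starRingEnd ℂ) b); l * b, l * (starRingEnd ℂ) a] := by
  have e00 := congrFun (congrFun hu 0) 0
  have hu' : u * uᴴ = 1 := mul_eq_one_comm.mp hu
  have hdet : Complex.normSq u.det = 1 := by
    have h1 : uᴴ.det * u.det = 1 := by rw [← Matrix.det_mul, hu, Matrix.det_one]
    rw [Matrix.det_conjTranspose] at h1
    have h2 : (starRingEnd ℂ) u.det * u.det = ((Complex.normSq u.det : ℝ) : ℂ) := by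
      rw [mul_comm, Complex.mul_conj]
    have h3 : ((Complex.normSq u.det : ℝ) : ℂ) = 1 := by rw [← h2]; exact h1
    exact_mod_cast h3
  obtain ⟨l, hl, hl1⟩ := exists_sqrt hdet
  have hll : l * (starRingEnd ℂ) l = 1 := by rw [Complex.mul_conj, hl1]; simp
  -- the adjugate
  have hadj : u.adjugate = u.det • uᴴ := by
    have h1 : u.adjugate * u = u.det • (1 : Matrix (Fin 2) (Fin 2) ℂ) := Matrix.adjugate_mul u
    calc u.adjugate = u.adjugate * (u * uᴴ) := by rw [hu', Matrix.mul_one]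
      _ = u.det • uᴴ := by rw [← Matrix.mul_assoc, h1, Matrix.smul_mul, Matrix.one_mul]
  rw [Matrix.adjugate_fin_two] at hadj
  have a00 := congrFun (congrFun hadj 0) 0
  have a01 := congrFun (congrFun hadj 0) 1
  simp only [Matrix.of_apply, Matrix.cons_val', Matrix.cons_val_zero, Matrix.cons_val_one,
    Matrix.smul_apply, Matrix.conjTranspose_apply, smul_eq_mul] at a00 a01
  refine ⟨l, (starRingEnd ℂ) l * u 0 0, (starRingEnd ℂ) l * u 1 0, hl1, ?_, ?_⟩
  · rw [map_mul, map_mul, Complex.normSq_conj, hl1, one_mul, one_mul]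
    rw [Matrix.mul_apply, Fin.sum_univ_two] at e00
    simp only [Matrix.conjTranspose_apply, Matrix.one_apply_eq] at e00
    have h1 : ∀ z : ℂ, star z * z = ((Complex.normSq z : ℝ) : ℂ) := by
      intro z; rw [mul_comm]; exact Complex.mul_conj z
    rw [h1, h1] at e00
    exact_mod_cast e00
  · have c00 : l * ((starRingEnd ℂ) l * u 0 0) = u 0 0 := by rw [← mul_assoc, hll, one_mul]
    have c10 : l * ((starRingEnd ℂ) l * u 1 0) = u 1 0 := by rw [← mul_assoc, hll, one_mul]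
    have c01 : -(l * (starRingEnd ℂ) ((starRingEnd ℂ) l * u 1 0)) = u 0 1 := by
      rw [map_mul, Complex.conj_conj, ← mul_assoc, hl]
      have h2 : -u 0 1 = u.det * (starRingEnd ℂ) (u 1 0) := a01
      rw [← h2, neg_neg]
    have c11 : l * (starRingEnd ℂ) ((starRingEnd ℂ) l * u 0 0) = u 1 1 := by
      rw [map_mul, Complex.conj_conj, ← mul_assoc, hl]
      exact a00.symm
    refine Matrix.ext (fun i j => ?_)
    fin_cases i <;> fin_cases j
    · exact c00.symm
    · exact c01.symm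
    · exact c10.symm
    · exact c11.symm

/-- the change of basis -/
noncomputable def tinv : QMat 2 := !![1, qI; -qJ, -qK]

lemma tinv_star : (((2 : ℝ)⁻¹ • tinvᴴ : QMat 2)) * tinv = 1 := by
  refine Matrix.ext (fun i j => ?_)
  rw [Matrix.mul_apply, Fin.sum_univ_two]
  simp only [tinv, Matrix.smul_apply, Matrix.conjTranspose_apply]
  fin_cases i <;> fin_cases j <;> ext <;> simp <;> norm_num

lemma tinv_star' : tinv * (((2 : ℝ)⁻¹ • tinvᴴ : QMat 2)) = 1 := by
  refine Matrix.ext (fun i j => ?_)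
  rw [Matrix.mul_apply, Fin.sum_univ_two]
  simp only [tinv, Matrix.smul_apply, Matrix.conjTranspose_apply]
  fin_cases i <;> fin_cases j <;> ext <;> simp <;> norm_num

noncomputable def tU : (QMat 2)ˣ := ⟨(2 : ℝ)⁻¹ • tinvᴴ, tinv, tinv_star, tinv_star'⟩

lemma tU_inv : ((tU⁻¹ : (QMat 2)ˣ) : QMat 2) = tinv := rfl

/-- quaternion with given complex coordinates -/
noncomputable def qab (a b : ℂ) : ℍ[ℝ] := ⟨a.re, a.im, b.re, -b.im⟩

@[simp] lemma qab_re (a b : ℂ) : (qab a b).re = a.re := rfl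
@[simp] lemma qab_imI (a b : ℂ) : (qab a b).imI = a.im := rfl
@[simp] lemma qab_imJ (a b : ℂ) : (qab a b).imJ = b.re := rfl
@[simp] lemma qab_imK (a b : ℂ) : (qab a b).imK = -b.im := rfl

lemma tinv_rt (l a b : ℂ) : tinv * rtM (qab a b) l =
    cM !![l * a, -(l * (starRingEnd ℂ) b); l * b, l * (starRingEnd ℂ) a] * tinv := by
  refine Matrix.ext (fun i j => ?_)
  rw [Matrix.mul_apply, Fin.sum_univ_two, Matrix.mul_apply, Fin.sum_univ_two]
  simp only [tinv, rtM, cM_apply]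
  fin_cases i <;> fin_cases j <;> ext <;> simp <;> ring

lemma tinv_rf : tinv * rfM qJ 1 = jM * tinv := by
  refine Matrix.ext (fun i j => ?_)
  rw [Matrix.mul_apply, Fin.sum_univ_two, Matrix.mul_apply, Fin.sum_univ_two]
  simp only [tinv, rfM, jM, dg]
  fin_cases i <;> fin_cases j <;> ext <;> simp

lemma tU_conj {w w' : QMat 2} (h : tinv * w' = w * tinv) :
    ((tU : (QMat 2)ˣ) : QMat 2) * w * ((tU⁻¹ : (QMat 2)ˣ) : QMat 2) = w' := by
  rw [tU_inv, mul_assoc, ← h, ← mul_assoc, ← tU_inv, Units.mul_inv, one_mul]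

lemma ne_zero_of_csq {z : ℂ} (h : Complex.normSq z = 1) : z ≠ 0 := by
  rintro rfl
  simp at h

/-- the conclusion for groups preserving a complex plane and its conjugate -/
theorem plane_hasQuot {W : Subgroup (QMat 2)ˣ} (hW : IsReflectionGroup W) (hirr : IsIrreducible W)
    (hnc : ¬ IsComplex W) (hform : ∀ w ∈ W, ∃ u, Kd (w : QMat 2) u) :
    HasQuot W ((QRefl.numReflections W + 1) ^ 2) := by
  obtain ⟨g, hg⟩ := unitarize hW.finite hform
  have hW1 := isReflectionGroup_conj g hW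
  have hirr1 := isIrreducible_conj g hirr
  have hnc1 : ¬ IsComplex (conjW g W) := fun h => hnc (isComplex_conj g h)
  apply hasQuot_conj g
  rw [← numReflections_conj g W]
  generalize conjW g W = W1 at hg hW1 hirr1 hnc1
  have hW2 := isReflectionGroup_conj tU hW1
  have hirr2 := isIrreducible_conj tU hirr1
  have hnc2 : ¬ IsComplex (conjW tU W1) := fun h => hnc1 (isComplex_conj tU h)
  apply hasQuot_conj tU
  rw [← numReflections_conj tU W1]
  -- the form of the elements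
  have key : ∀ w : QMat 2, ∀ u : Matrix (Fin 2) (Fin 2) ℂ, uᴴ * u = 1 → Kd w u → ∃ t : Tr, Uni t ∧
      ((tU : (QMat 2)ˣ) : QMat 2) * w * ((tU⁻¹ : (QMat 2)ˣ) : QMat 2) = mat t ∧
        (w = jM * cM u → t.e = true ∨ w = cM u) := by
    intro w u hu hk
    obtain ⟨l, a, b, hl, hab, hform⟩ := unitary_form hu
    have hq : normSq (qab a b) = 1 := by
      rw [Complex.normSq_apply, Complex.normSq_apply] at hab
      rw [normSq_def', qab_re, qab_imI, qab_imJ, qab_imK]
      linarith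
    have hq0 : qab a b ≠ 0 := ne_zero_of_norm hq
    have hJ : normSq (qJ * qab a b) = 1 := by
      rw [map_mul, hq, normSq_def']; simp
    rcases hk with h | h
    · refine ⟨⟨Units.mk0 _ hq0, Units.mk0 l (ne_zero_of_csq hl), false⟩, Uni.mk (by simpa using hq)
        (by simpa using hl), ?_, fun _ => Or.inr h⟩
      rw [mat_false rfl]
      apply tU_conj
      rw [h, hform]
      exact tinv_rt l a b
    · have hl' : Complex.normSq ((starRingEnd ℂ) l) = 1 := by rw [Complex.normSq_conj, hl]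
      refine ⟨⟨Units.mk0 _ (ne_zero_of_norm hJ), Units.mk0 _ (ne_zero_of_csq hl'), true⟩,
        Uni.mk (by simpa using hJ) (by simpa using hl'), ?_, fun _ => Or.inl rfl⟩
      rw [mat_true rfl]
      apply tU_conj
      simp only [Units.val_mk0]
      have h1 : rfM (qJ * qab a b) ((starRingEnd ℂ) l) = rfM qJ 1 * rtM (qab a b) l := by
        rw [rfM_mul_rtM, one_mul]
      rw [h1, ← mul_assoc, tinv_rf, mul_assoc, tinv_rt, h, hform, mul_assoc]
  refine tensor_hasQuot hW2 hirr2 hnc2 ?_ ?_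
  · intro w hw
    rw [mem_conjW] at hw
    obtain ⟨u, hu, hk⟩ := hg _ hw
    obtain ⟨t, ht, h, _⟩ := key _ u hu hk
    refine ⟨t, ht, ?_⟩
    rw [← h, ← Units.val_mul, ← Units.val_mul]
    congr 1
    group
  · by_contra hcon
    push Not at hcon
    apply hnc1
    refine ⟨1, fun w hw i j => ?_⟩
    rw [one_mul, inv_one, mul_one]
    obtain ⟨u, hu, hk⟩ := hg _ hw
    have h1 : (w : QMat 2) = cM u := by
      rcases hk with h | h
      · exact h
      · obtain ⟨t, ht, h2, h3⟩ := key _ u hu (Or.inr h)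
        rcases h3 h with h4 | h4
        · exfalso
          refine hcon _ (conj_mem_conjW (g := tU) hw) t ht h4 ?_
          rw [← h2, Units.val_mul, Units.val_mul]
        · exact h4
    rw [h1, cM_apply]
    exact ⟨rfl, rfl⟩

end Run7.h580
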