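import Pool.Agent.Run7.h580.S5

/-!
The complexification: invariant subspaces.
-/

namespace Run7.h580

open MvPolynomial Quaternion QRefl Run7.h580.Ten

/-- the complexification -/
abbrev CE := Ix → ℂ

/-- action of matrices on the complexification -/
noncomputable def LW (w : QMat 2) : CE →ₗ[ℂ] CE where
  toFun v := fun i => ∑ j, gmat w i j * v j
  map_add' a b := by
    funext i
    simp only [Pi.add_apply, mul_add, Finset.sum_add_distrib]
  map_smul' c a := by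
    funext i
    simp only [Pi.smul_apply, smul_eq_mul, RingHom.id_apply, Finset.mul_sum]
    exact Finset.sum_congr rfl (fun j _ => by ring)

lemma LW_cvec (w : QMat 2) (p : QVec 2) : LW w (cvec p) = cvec (w.mulVec p) := by
  funext i
  exact (cvec_mulVec w p i).symm

lemma cvec_surj (v : CE) : ∃ p : QVec 2, cvec p = v := by
  choose q hq using fun k : Fin 2 => qvec_surj (fun e => v (k, e))
  refine ⟨q, ?_⟩
  funext ⟨k, e⟩
  simp only [cvec]
  rw [hq]

lemma cvec_injective : Function.Injective cvec := by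
  intro p q h
  funext i
  apply qvec_injective
  funext e
  exact congrFun h (i, e)

lemma cvec_add (p q : QVec 2) : cvec (p + q) = cvec p + cvec q := by
  funext i
  simp only [cvec, Pi.add_apply, qvec_add]

lemma cvec_zero : cvec (0 : QVec 2) = 0 := by
  funext i
  simp only [cvec, Pi.zero_apply, qvec_zero]

lemma cvec_eq_zero {p : QVec 2} (h : cvec p = 0) : p = 0 := cvec_injective (by rw [h, cvec_zero])

/-- the quaternionic structure on the complexification -/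
noncomputable def jl : CE →ₛₗ[starRingEnd ℂ] CE where
  toFun v := fun i => if i.2 = 0 then -(starRingEnd ℂ) (v (i.1, 1)) else (starRingEnd ℂ) (v (i.1, 0))
  map_add' a b := by
    funext i
    simp only [Pi.add_apply, map_add]
    split_ifs <;> ring
  map_smul' c a := by
    funext i
    simp only [Pi.smul_apply, smul_eq_mul, map_mul]
    split_ifs <;> ring

lemma jl_0 (v : CE) (k : Fin 2) : jl v (k, 0) = -(starRingEnd ℂ) (v (k, 1)) := by
  simp [jl]

lemma jl_1 (v : CE) (k : Fin 2) : jl v (k, 1) = (starRingEnd ℂ) (v (k, 0)) := by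
  simp [jl]

lemma jl_jl (v : CE) : jl (jl v) = -v := by
  funext ⟨k, e⟩
  rcases fin2 e with rfl | rfl
  · rw [jl_0, jl_1]; simp
  · rw [jl_1, jl_0]; simp

lemma qvec_eq (q : ℍ[ℝ]) : q = qab (qvec q 0) (qvec q 1) := by
  ext <;> simp [qab, qvec]

lemma qvec_qab (a b : ℂ) : qvec (qab a b) = ![a, b] := by
  funext e
  rcases fin2 e with rfl | rfl
  · simp [qvec]
  · simp [qvec]

/-- right multiplication by a quaternion in coordinates -/
lemma cvec_smul (a b : ℂ) (p : QVec 2) :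
    cvec (MulOpposite.op (qab a b) • p) = a • cvec p + b • jl (cvec p) := by
  funext ⟨k, e⟩
  have h1 : (MulOpposite.op (qab a b) • p) k = p k * qab a b := rfl
  rcases fin2 e with rfl | rfl
  · simp only [Pi.add_apply, Pi.smul_apply, smul_eq_mul, jl_0]
    simp only [cvec]
    rw [h1]
    apply Complex.ext
    · simp [qvec]; ring
    · simp [qvec]; ring
  · simp only [Pi.add_apply, Pi.smul_apply, smul_eq_mul, jl_1]
    simp only [cvec]
    rw [h1]
    apply Complex.ext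
    · simp [qvec]; ring
    · simp [qvec]; ring

lemma cvec_smul' (q : ℍ[ℝ]) (p : QVec 2) :
    cvec (MulOpposite.op q • p) = (qvec q 0) • cvec p + (qvec q 1) • jl (cvec p) := by
  conv_lhs => rw [qvec_eq q]
  exact cvec_smul _ _ p

lemma jl_cvec (p : QVec 2) : jl (cvec p) = cvec (MulOpposite.op (qab 0 1) • p) := by
  rw [cvec_smul, zero_smul, one_smul, zero_add]

lemma LW_jl (w : QMat 2) (v : CE) : LW w (jl v) = jl (LW w v) := by
  obtain ⟨p, rfl⟩ := cvec_surj v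
  rw [jl_cvec, LW_cvec, LW_cvec, jl_cvec, Matrix.mulVec_smul]

lemma LW_mul (w w' : QMat 2) (v : CE) : LW (w * w') v = LW w (LW w' v) := by
  obtain ⟨p, rfl⟩ := cvec_surj v
  rw [LW_cvec, LW_cvec, LW_cvec, Matrix.mulVec_mulVec]

lemma LW_one (v : CE) : LW 1 v = v := by
  obtain ⟨p, rfl⟩ := cvec_surj v
  rw [LW_cvec, Matrix.one_mulVec]

lemma LW_inv (w : (QMat 2)ˣ) (v : CE) : LW ((w⁻¹ : (QMat 2)ˣ) : QMat 2) (LW (w : QMat 2) v) = v := by
  rw [← LW_mul, Units.inv_mul, LW_one]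

lemma LW_inv' (w : (QMat 2)ˣ) (v : CE) : LW (w : QMat 2) (LW ((w⁻¹ : (QMat 2)ˣ) : QMat 2) v) = v := by
  rw [← LW_mul, Units.mul_inv, LW_one]

lemma LW_eq_zero {w : (QMat 2)ˣ} {v : CE} (h : LW (w : QMat 2) v = 0) : v = 0 := by
  rw [← LW_inv w v, h, map_zero]

lemma jl_eq_zero {v : CE} (h : jl v = 0) : v = 0 := by
  have := jl_jl v
  rw [h, map_zero] at this
  exact neg_eq_zero.mp this.symm

/-- the quaternionic part of a subspace -/
def hInf (U : Submodule ℂ CE) : Submodule ℍ[ℝ]ᵐᵒᵖ (QVec 2) where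
  carrier := {p | cvec p ∈ U ∧ jl (cvec p) ∈ U}
  add_mem' := by
    rintro a b ⟨h1, h2⟩ ⟨h3, h4⟩
    refine ⟨?_, ?_⟩
    · rw [cvec_add]; exact U.add_mem h1 h3
    · rw [cvec_add, map_add]; exact U.add_mem h2 h4
  zero_mem' := by
    refine ⟨?_, ?_⟩
    · rw [cvec_zero]; exact U.zero_mem
    · rw [cvec_zero, map_zero]; exact U.zero_mem
  smul_mem' := by
    rintro c p ⟨h1, h2⟩
    obtain ⟨q, rfl⟩ : ∃ q, c = MulOpposite.op q := ⟨c.unop, rfl⟩
    refine ⟨?_, ?_⟩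
    · rw [cvec_smul']
      exact U.add_mem (U.smul_mem _ h1) (U.smul_mem _ h2)
    · rw [cvec_smul', map_add, LinearMap.map_smulₛₗ, LinearMap.map_smulₛₗ, jl_jl]
      exact U.add_mem (U.smul_mem _ h2) (U.smul_mem _ (U.neg_mem h1))

lemma mem_hInf {U : Submodule ℂ CE} {p : QVec 2} : p ∈ hInf U ↔ cvec p ∈ U ∧ jl (cvec p) ∈ U := Iff.rfl

/-- the quaternionic span of a subspace -/
def hSup (U : Submodule ℂ CE) : Submodule ℍ[ℝ]ᵐᵒᵖ (QVec 2) where
  carrier := {p | ∃ a ∈ U, ∃ b ∈ U, cvec p = a + jl b}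
  add_mem' := by
    rintro p q ⟨a, ha, b, hb, h⟩ ⟨a', ha', b', hb', h'⟩
    refine ⟨a + a', U.add_mem ha ha', b + b', U.add_mem hb hb', ?_⟩
    rw [cvec_add, h, h', map_add]; abel
  zero_mem' := ⟨0, U.zero_mem, 0, U.zero_mem, by rw [cvec_zero, map_zero, add_zero]⟩
  smul_mem' := by
    rintro c p ⟨a, ha, b, hb, h⟩
    obtain ⟨q, rfl⟩ : ∃ q, c = MulOpposite.op q := ⟨c.unop, rfl⟩
    refine ⟨(qvec q 0) • a - (qvec q 1) • b, U.sub_mem (U.smul_mem _ ha) (U.smul_mem _ hb),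
      ((starRingEnd ℂ) (qvec q 0)) • b + ((starRingEnd ℂ) (qvec q 1)) • a,
      U.add_mem (U.smul_mem _ hb) (U.smul_mem _ ha), ?_⟩
    rw [cvec_smul', h]
    simp only [map_add, LinearMap.map_smulₛₗ, jl_jl, Complex.conj_conj]
    module

lemma mem_hSup {U : Submodule ℂ CE} {p : QVec 2} :
    p ∈ hSup U ↔ ∃ a ∈ U, ∃ b ∈ U, cvec p = a + jl b := Iff.rfl

/-- a quaternionic basis inside a complex subspace -/
lemma exists_frame {U : Submodule ℂ CE} (h1 : ∀ v ∈ U, jl v ∈ U → v = 0)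
    (h2 : ∀ v : CE, ∃ a ∈ U, ∃ b ∈ U, v = a + jl b) :
    ∃ t : (QMat 2)ˣ, (∀ x : QVec 2, cvec ((t : QMat 2).mulVec x) ∈ U → ∀ i, (x i).imJ = 0 ∧ (x i).imK = 0) ∧
      (∀ x : QVec 2, jl (cvec ((t : QMat 2).mulVec x)) ∈ U → ∀ i, (x i).re = 0 ∧ (x i).imI = 0) ∧
      (∀ j, cvec ((t : QMat 2).mulVec (Pi.single j 1)) ∈ U) := by
  have hspan : ∀ M : Submodule ℍ[ℝ]ᵐᵒᵖ (QVec 2), (∀ p, cvec p ∈ U → p ∈ M) → M = ⊤ := by
    intro M hM
    rw [eq_top_iff]
    intro p _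
    obtain ⟨a, ha, b, hb, hab⟩ := h2 (cvec p)
    obtain ⟨p1, rfl⟩ := cvec_surj a
    obtain ⟨p2, rfl⟩ := cvec_surj b
    rw [jl_cvec, ← cvec_add] at hab
    rw [cvec_injective hab]
    exact M.add_mem (hM p1 ha) (M.smul_mem _ (hM p2 hb))
  obtain ⟨p1, hp1, hp10⟩ : ∃ p1, cvec p1 ∈ U ∧ p1 ≠ 0 := by
    by_contra hcon
    push Not at hcon
    have h3 := hspan ⊥ (fun p hp => by rw [Submodule.mem_bot]; exact hcon p hp)
    have h4 : Module.finrank ℍ[ℝ]ᵐᵒᵖ (⊥ : Submodule ℍ[ℝ]ᵐᵒᵖ (QVec 2)) = 2 := by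
      rw [h3, finrank_top, finrank_QVec]
    rw [finrank_bot] at h4
    exact absurd h4 (by norm_num)
  obtain ⟨p2, hp2, hp21⟩ : ∃ p2, cvec p2 ∈ U ∧ p2 ∉ Submodule.span ℍ[ℝ]ᵐᵒᵖ {p1} := by
    by_contra hcon
    push Not at hcon
    have h3 := hspan _ hcon
    have h4 : Module.finrank ℍ[ℝ]ᵐᵒᵖ (Submodule.span ℍ[ℝ]ᵐᵒᵖ {p1}) = 2 := by
      rw [h3, finrank_top, finrank_QVec]
    have h5 : Module.finrank ℍ[ℝ]ᵐᵒᵖ (Submodule.span ℍ[ℝ]ᵐᵒᵖ {p1}) ≤ 1 := by
      refine finrank_le_one (⟨p1, Submodule.mem_span_singleton_self p1⟩ : Submodule.span ℍ[ℝ]ᵐᵒᵖ {p1}) ?_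
      rintro ⟨w, hw⟩
      obtain ⟨c, hc⟩ := Submodule.mem_span_singleton.mp hw
      exact ⟨c, Subtype.ext hc⟩
    omega
  have hp12 : ∀ c d : ℍ[ℝ]ᵐᵒᵖ, c • p1 + d • p2 = 0 → c = 0 ∧ d = 0 := by
    intro c d hcd
    have hd : d = 0 := by
      by_contra hd
      apply hp21
      rw [Submodule.mem_span_singleton]
      refine ⟨-(d⁻¹ * c), ?_⟩
      have h3 : d • p2 = -(c • p1) := eq_neg_of_add_eq_zero_right hcd
      have h4 : p2 = d⁻¹ • (d • p2) := by rw [smul_smul, inv_mul_cancel₀ hd, one_smul]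
      rw [h4, h3, neg_smul, smul_neg, smul_smul]
    rw [hd, zero_smul, add_zero] at hcd
    exact ⟨(smul_eq_zero.mp hcd).resolve_right hp10, hd⟩
  obtain ⟨t, ht⟩ := exists_unit (T := cols p1 p2) (by
    intro x hx
    rw [cols_mulVec] at hx
    obtain ⟨h3, h4⟩ := hp12 _ _ hx
    funext i
    fin_cases i
    · exact (MulOpposite.op_eq_zero_iff _).mp h3
    · exact (MulOpposite.op_eq_zero_iff _).mp h4)
  have hcx : ∀ x : QVec 2, cvec ((t : QMat 2).mulVec x) =
      (qvec (x 0) 0 • cvec p1 + qvec (x 1) 0 • cvec p2) +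
        jl ((starRingEnd ℂ) (qvec (x 0) 1) • cvec p1 + (starRingEnd ℂ) (qvec (x 1) 1) • cvec p2) := by
    intro x
    rw [ht, cols_mulVec, cvec_add, cvec_smul', cvec_smul']
    simp only [map_add, LinearMap.map_smulₛₗ, Complex.conj_conj]
    abel
  have hind : ∀ a b : ℂ, a • cvec p1 + b • cvec p2 = 0 → a = 0 ∧ b = 0 := by
    intro a b hab
    have h3 : cvec (MulOpposite.op (qab a 0) • p1 + MulOpposite.op (qab b 0) • p2) = 0 := by
      rw [cvec_add, cvec_smul, cvec_smul]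
      simp [hab]
    obtain ⟨h4, h5⟩ := hp12 _ _ (cvec_eq_zero h3)
    rw [MulOpposite.op_eq_zero_iff] at h4 h5
    have h6 := congrArg (fun q : ℍ[ℝ] => qvec q 0) h4
    have h7 := congrArg (fun q : ℍ[ℝ] => qvec q 0) h5
    simp only [qvec_qab, qvec_zero] at h6 h7
    exact ⟨h6, h7⟩
  refine ⟨t, ?_, ?_, ?_⟩
  · intro x hx
    have h3 : jl ((starRingEnd ℂ) (qvec (x 0) 1) • cvec p1 + (starRingEnd ℂ) (qvec (x 1) 1) • cvec p2) ∈ U := by
      have h4 : (qvec (x 0) 0 • cvec p1 + qvec (x 1) 0 • cvec p2) ∈ U :=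
        U.add_mem (U.smul_mem _ hp1) (U.smul_mem _ hp2)
      rw [hcx] at hx
      have := U.sub_mem hx h4
      rwa [add_sub_cancel_left] at this
    have h5 := h1 _ (U.add_mem (U.smul_mem _ hp1) (U.smul_mem _ hp2)) h3
    obtain ⟨h6, h7⟩ := hind _ _ h5
    rw [map_eq_zero] at h6 h7
    intro i
    have h8 : qvec (x i) 1 = 0 := by
      rcases fin2 i with rfl | rfl
      · exact h6
      · exact h7
    simp only [qvec, Matrix.cons_val_one] at h8
    have e1 := congrArg Complex.re h8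
    have e2 := congrArg Complex.im h8
    simp at e1 e2
    exact ⟨e1, e2⟩
  · intro x hx
    have h3 : jl (qvec (x 0) 0 • cvec p1 + qvec (x 1) 0 • cvec p2) ∈ U := by
      have h4 : ((starRingEnd ℂ) (qvec (x 0) 1) • cvec p1 + (starRingEnd ℂ) (qvec (x 1) 1) • cvec p2) ∈ U :=
        U.add_mem (U.smul_mem _ hp1) (U.smul_mem _ hp2)
      rw [hcx, map_add, jl_jl] at hx
      have := U.add_mem hx h4
      rwa [neg_add_cancel_right] at this
    have h5 := h1 _ (U.add_mem (U.smul_mem _ hp1) (U.smul_mem _ hp2)) h3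
    obtain ⟨h6, h7⟩ := hind _ _ h5
    intro i
    have h8 : qvec (x i) 0 = 0 := by
      rcases fin2 i with rfl | rfl
      · exact h6
      · exact h7
    simp only [qvec, Matrix.cons_val_zero] at h8
    have e1 := congrArg Complex.re h8
    have e2 := congrArg Complex.im h8
    simp at e1 e2
    exact ⟨e1, e2⟩
  · intro j
    rw [ht, cols_mulVec]
    rcases fin2 j with rfl | rfl
    · simpa using hp1
    · simpa using hp2

/-- irreducibility over the complex numbers -/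
theorem irred_complex {W : Subgroup (QMat 2)ˣ} (hirr : IsIrreducible W) (hnc : ¬ IsComplex W)
    (U : Submodule ℂ CE) (hU : ∀ w ∈ W, ∀ v ∈ U, LW (w : QMat 2) v ∈ U) : U = ⊥ ∨ U = ⊤ := by
  have hs1 : ∀ w ∈ W, ∀ p ∈ hInf U, (w : QMat 2).mulVec p ∈ hInf U := by
    rintro w hw p ⟨h1, h2⟩
    refine ⟨?_, ?_⟩
    · rw [← LW_cvec]; exact hU w hw _ h1
    · rw [← LW_cvec, ← LW_jl]; exact hU w hw _ h2
  have hs2 : ∀ w ∈ W, ∀ p ∈ hSup U, (w : QMat 2).mulVec p ∈ hSup U := by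
    rintro w hw p ⟨a, ha, b, hb, h⟩
    refine ⟨_, hU w hw a ha, _, hU w hw b hb, ?_⟩
    rw [← LW_cvec, h, map_add, LW_jl]
  rcases hirr _ hs1 with h1 | h1
  · rcases hirr _ hs2 with h2 | h2
    · left
      rw [eq_bot_iff]
      intro v hv
      obtain ⟨p, rfl⟩ := cvec_surj v
      have h3 : p ∈ hSup U := ⟨cvec p, hv, 0, U.zero_mem, by rw [map_zero, add_zero]⟩
      rw [h2, Submodule.mem_bot] at h3
      rw [h3, cvec_zero]; exact Submodule.zero_mem _
    · exfalso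
      obtain ⟨t, ht1, _, ht3⟩ := exists_frame (U := U) (by
        intro v hv hjv
        obtain ⟨p, rfl⟩ := cvec_surj v
        have h3 : p ∈ hInf U := ⟨hv, hjv⟩
        rw [h1, Submodule.mem_bot] at h3
        rw [h3, cvec_zero]) (by
        intro v
        obtain ⟨p, rfl⟩ := cvec_surj v
        have h3 : p ∈ hSup U := by rw [h2]; trivial
        exact h3)
      apply hnc
      refine ⟨t⁻¹, fun w hw i j => ?_⟩
      have h3 : cvec ((t : QMat 2).mulVec (((t⁻¹ * w * t⁻¹⁻¹ : (QMat 2)ˣ) : QMat 2).mulVec (Pi.single j 1))) ∈ U := by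
        rw [inv_inv, Units.val_mul, Units.val_mul, ← Matrix.mulVec_mulVec, ← Matrix.mulVec_mulVec, mulVec_inv,
          ← LW_cvec]
        exact hU w hw _ (ht3 j)
      have h4 := ht1 _ h3 i
      rw [Matrix.mulVec_single_one] at h4
      exact h4
  · right
    rw [eq_top_iff]
    intro v _
    obtain ⟨p, rfl⟩ := cvec_surj v
    have h3 : p ∈ hInf U := by rw [h1]; trivial
    exact h3.1

/-- groups preserving a complex plane and its conjugate -/
theorem conjPlane_hasQuot {W : Subgroup (QMat 2)ˣ} (hW : IsReflectionGroup W) (hirr : IsIrreducible W)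
    (hnc : ¬ IsComplex W) {U : Submodule ℂ CE} (h1 : ∀ v ∈ U, jl v ∈ U → v = 0)
    (h2 : ∀ v : CE, ∃ a ∈ U, ∃ b ∈ U, v = a + jl b)
    (hU : ∀ w ∈ W, (∀ v ∈ U, LW (w : QMat 2) v ∈ U) ∨ (∀ v ∈ U, jl (LW (w : QMat 2) v) ∈ U)) :
    HasQuot W ((QRefl.numReflections W + 1) ^ 2) := by
  obtain ⟨t, ht1, ht2, ht3⟩ := exists_frame h1 h2
  apply hasQuot_conj t⁻¹
  rw [← numReflections_conj t⁻¹ W]
  refine plane_hasQuot (isReflectionGroup_conj _ hW) (isIrreducible_conj _ hirr)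
    (fun h => hnc (isComplex_conj _ h)) ?_
  intro w hw
  rw [mem_conjW, inv_inv] at hw
  have h3 : ∀ j, cvec ((t : QMat 2).mulVec ((w : QMat 2).mulVec (Pi.single j 1))) =
      LW ((t * w * t⁻¹ : (QMat 2)ˣ) : QMat 2) (cvec ((t : QMat 2).mulVec (Pi.single j 1))) := by
    intro j
    rw [LW_cvec, Units.val_mul, Units.val_mul, ← Matrix.mulVec_mulVec, ← Matrix.mulVec_mulVec, inv_mulVec]
  rcases hU _ hw with h | h
  · let u : Matrix (Fin 2) (Fin 2) ℂ := Matrix.of (fun i j => ⟨((w : QMat 2) i j).re, ((w : QMat 2) i j).imI⟩)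
    refine ⟨u, Or.inl ?_⟩
    refine Matrix.ext (fun i j => ?_)
    have h4 := ht1 _ (by rw [h3 j]; exact h _ (ht3 j)) i
    rw [Matrix.mulVec_single_one] at h4
    rw [cM_apply]
    ext
    · rfl
    · rfl
    · exact h4.1
    · exact h4.2
  · let u : Matrix (Fin 2) (Fin 2) ℂ := Matrix.of (fun i j => ⟨((w : QMat 2) i j).imJ, -((w : QMat 2) i j).imK⟩)
    refine ⟨u, Or.inr ?_⟩
    refine Matrix.ext (fun i j => ?_)
    have h4 := ht2 _ (by rw [h3 j]; exact h _ (ht3 j)) i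
    rw [Matrix.mulVec_single_one] at h4
    have h5 : ∀ u : Matrix (Fin 2) (Fin 2) ℂ, (jM * cM u) i j = qJ * ((u i j : ℂ) : ℍ[ℝ]) := by
      intro u
      rw [Matrix.mul_apply, Fin.sum_univ_two]
      simp only [jM, dg, cM_apply]
      fin_cases i <;> simp
    rw [h5]
    have h6 : (w : QMat 2) i j = (w : QMat 2).col j i := rfl
    ext
    · simp; rw [h6]; exact h4.1
    · simp; rw [h6]; exact h4.2
    · simp [u]
    · simp [u]

end Run7.h580
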