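import Mathlib

/-!
Two complementary subspaces exchanged by an involution, and a quaternionic structure.
-/

namespace Run7.h580

section core

variable {E : Type*} [AddCommGroup E] [Module ℂ E] [FiniteDimensional ℂ E]

/-- The linear algebra behind the reduction to complex planes. -/
theorem core_planes (S : E →ₗ[ℂ] E) (J : E →ₛₗ[starRingEnd ℂ] E) (hS : ∀ v, S (S v) = v)
    (hJ : ∀ v, J (J v) = -v) (hSJ : ∀ v, S (J v) = J (S v)) {A B : Submodule ℂ E}
    (hAB : IsCompl A B) (hSA : ∀ v ∈ A, S v ∈ B) (hSB : ∀ v ∈ B, S v ∈ A)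
    (G : Set (E →ₗ[ℂ] E)) (hGA : ∀ g ∈ G, ∀ v ∈ A, g v ∈ A) (hGB : ∀ g ∈ G, ∀ v ∈ B, g v ∈ B)
    (hGJ : ∀ g ∈ G, ∀ v, g (J v) = J (g v)) (hGS : ∀ g ∈ G, ∃ g' ∈ G, ∀ v, g (S v) = S (g' v))
    (h1 : ∃ a ∈ A, J a ∉ A) (h2 : ∃ a ∈ A, J a ∉ B)
    (h3 : ∀ L : Submodule ℂ E, L ≤ A → L ≠ ⊥ → (∀ g ∈ G, ∀ v ∈ L, g v ∈ L) → L = A) :
    ∃ U : Submodule ℂ E, U ≠ ⊥ ∧ U ≠ ⊤ ∧ (∀ g ∈ G, ∀ v ∈ U, g v ∈ U) ∧ (∀ v ∈ U, S v ∈ U) := by
  classical
  set P := A.projection B hAB with hP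
  have hPA : ∀ v ∈ A, P v = v := fun v hv => Submodule.projection_apply_of_mem_left hAB hv
  have hPB : ∀ v ∈ B, P v = 0 := fun v hv => (Submodule.projection_apply_eq_zero_iff hAB).mpr hv
  have hPm : ∀ v, P v ∈ A := fun v => Submodule.projection_apply_mem hAB v
  have hdecP : ∀ v, ∃ b ∈ B, v = P v + b := by
    intro v
    refine ⟨v - P v, ?_, by abel⟩
    rw [← Submodule.projection_apply_eq_zero_iff hAB, map_sub, ← hP, hPA _ (hPm v), sub_self]
  have dec : ∀ a, J a = P (J a) + S (P (S (J a))) := by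
    intro a
    obtain ⟨b, hb, hab⟩ := hdecP (J a)
    have e1 : P (S (J a)) = S b := by
      rw [hab, map_add, map_add, hPB _ (hSA _ (hPm _)), zero_add, hPA _ (hSB b hb)]
    rw [e1, hS]
    exact hab
  have uniq : ∀ x ∈ A, ∀ y ∈ A, ∀ x' ∈ A, ∀ y' ∈ A, x + S y = x' + S y' → x = x' ∧ y = y' := by
    intro x hx y hy x' hx' y' hy' h
    have e1 : x = x' := by
      have := congrArg P h
      rw [map_add, map_add, hPA x hx, hPA x' hx', hPB _ (hSA y hy), hPB _ (hSA y' hy'), add_zero,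
        add_zero] at this
      exact this
    refine ⟨e1, ?_⟩
    rw [e1] at h
    have e2 : S y = S y' := add_left_cancel h
    rw [← hS y, e2, hS]
  -- the two antilinear operators
  set X : E → E := fun v => P (J v) with hX
  set Y : E → E := fun v => P (S (J v)) with hY
  have Xm : ∀ v, X v ∈ A := fun v => hPm _
  have Ym : ∀ v, Y v ∈ A := fun v => hPm _
  have Xadd : ∀ a b, X (a + b) = X a + X b := fun a b => by simp only [hX, map_add]
  have Yadd : ∀ a b, Y (a + b) = Y a + Y b := fun a b => by simp only [hY, map_add]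
  have Xsm : ∀ (c : ℂ) a, X (c • a) = (starRingEnd ℂ) c • X a := fun c a => by
    simp only [hX, LinearMap.map_smulₛₗ, RingHom.id_apply]
  have Ysm : ∀ (c : ℂ) a, Y (c • a) = (starRingEnd ℂ) c • Y a := fun c a => by
    simp only [hY, LinearMap.map_smulₛₗ, RingHom.id_apply]
  have X0 : X 0 = 0 := by simp only [hX, map_zero]
  have Y0 : Y 0 = 0 := by simp only [hY, map_zero]
  have dec' : ∀ a, J a = X a + S (Y a) := dec
  have rel : ∀ a ∈ A, X (X a) + Y (Y a) = -a ∧ Y (X a) + X (Y a) = 0 := by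
    intro a ha
    have e1 : J (J a) = (X (X a) + Y (Y a)) + S (Y (X a) + X (Y a)) := by
      conv_lhs => rw [dec' a, map_add, ← hSJ, dec' (X a), dec' (Y a), map_add, hS]
      rw [map_add]; abel
    rw [hJ] at e1
    have e2 : -a + S 0 = (X (X a) + Y (Y a)) + S (Y (X a) + X (Y a)) := by rw [map_zero, add_zero, e1]
    obtain ⟨e3, e4⟩ := uniq _ (A.neg_mem ha) _ A.zero_mem _ (A.add_mem (Xm _) (Ym _)) _
      (A.add_mem (Ym _) (Xm _)) e2
    exact ⟨e3.symm, e4.symm⟩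
  have comm : ∀ g ∈ G, ∀ g' ∈ G, (∀ v, g (S v) = S (g' v)) → ∀ a, X (g a) = g (X a) ∧ Y (g a) = g' (Y a) := by
    intro g hg g' hg' hgg' a
    have e1 : X (g a) + S (Y (g a)) = g (X a) + S (g' (Y a)) := by
      rw [← dec', ← hGJ g hg, dec' a, map_add, hgg']
    exact uniq _ (Xm _) _ (Ym _) _ (hGA g hg _ (Xm _)) _ (hGA g' hg' _ (Ym _)) e1
  -- the eigenvalue
  have hAne : Nontrivial A := by
    obtain ⟨a, ha, hja⟩ := h1
    refine ⟨⟨⟨a, ha⟩, 0, fun h => hja ?_⟩⟩
    have : a = 0 := congrArg Subtype.val h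
    rw [this, map_zero]; exact A.zero_mem
  let T : A →ₗ[ℂ] A :=
    { toFun := fun a => ⟨X (X a), Xm _⟩
      map_add' := fun a b => Subtype.ext (by simp only [Submodule.coe_add, Xadd])
      map_smul' := fun c a => Subtype.ext (by
        simp only [Submodule.coe_smul, Xsm, Complex.conj_conj, RingHom.id_apply]) }
  obtain ⟨c0, hc0⟩ := Module.End.exists_eigenvalue T
  obtain ⟨a0, ha0⟩ := hc0.exists_hasEigenvector
  have ha0e : X (X (a0 : E)) = c0 • (a0 : E) := congrArg Subtype.val ha0.apply_eq_smul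
  have ha0n : (a0 : E) ≠ 0 := fun h => ha0.2 (Subtype.ext h)
  have hXX : ∀ a ∈ A, X (X a) = c0 • a := by
    let L : Submodule ℂ E :=
      { carrier := {a | a ∈ A ∧ X (X a) = c0 • a}
        add_mem' := by
          rintro a b ⟨h, h'⟩ ⟨k, k'⟩
          exact ⟨A.add_mem h k, by rw [Xadd, Xadd, h', k', smul_add]⟩
        zero_mem' := ⟨A.zero_mem, by rw [X0, X0, smul_zero]⟩
        smul_mem' := by
          rintro c a ⟨h, h'⟩
          exact ⟨A.smul_mem c h, by rw [Xsm, Xsm, h', Complex.conj_conj, smul_comm]⟩ }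
    have hL : L = A := by
      refine h3 L (fun a ha => ha.1) ?_ ?_
      · rw [Submodule.ne_bot_iff]
        exact ⟨a0, ⟨a0.2, ha0e⟩, ha0n⟩
      · rintro g hg v ⟨hv, hv'⟩
        obtain ⟨g', hg', hgg'⟩ := hGS g hg
        refine ⟨hGA g hg v hv, ?_⟩
        rw [(comm g hg g' hg' hgg' v).1, (comm g hg g' hg' hgg' _).1, hv', map_smul]
    intro a ha
    rw [← hL] at ha
    exact ha.2
  -- kernels
  have kerX : (∃ a ∈ A, a ≠ 0 ∧ X a = 0) → False := by
    rintro ⟨a, ha, hane, haX⟩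
    let L : Submodule ℂ E :=
      { carrier := {a | a ∈ A ∧ X a = 0}
        add_mem' := by
          rintro a b ⟨h, h'⟩ ⟨k, k'⟩
          exact ⟨A.add_mem h k, by rw [Xadd, h', k', add_zero]⟩
        zero_mem' := ⟨A.zero_mem, X0⟩
        smul_mem' := by
          rintro c a ⟨h, h'⟩
          exact ⟨A.smul_mem c h, by rw [Xsm, h', smul_zero]⟩ }
    have hL : L = A := by
      refine h3 L (fun a ha => ha.1) ?_ ?_
      · rw [Submodule.ne_bot_iff]
        exact ⟨a, ⟨ha, haX⟩, hane⟩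
      · rintro g hg v ⟨hv, hv'⟩
        obtain ⟨g', hg', hgg'⟩ := hGS g hg
        refine ⟨hGA g hg v hv, ?_⟩
        rw [(comm g hg g' hg' hgg' v).1, hv', map_zero]
    obtain ⟨b, hb, hjb⟩ := h2
    apply hjb
    rw [← hL] at hb
    rw [dec' b, hb.2, zero_add]
    exact hSA _ (Ym _)
  have kerY : (∃ a ∈ A, a ≠ 0 ∧ Y a = 0) → False := by
    rintro ⟨a, ha, hane, haY⟩
    let L : Submodule ℂ E :=
      { carrier := {a | a ∈ A ∧ Y a = 0}
        add_mem' := by
          rintro a b ⟨h, h'⟩ ⟨k, k'⟩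
          exact ⟨A.add_mem h k, by rw [Yadd, h', k', add_zero]⟩
        zero_mem' := ⟨A.zero_mem, Y0⟩
        smul_mem' := by
          rintro c a ⟨h, h'⟩
          exact ⟨A.smul_mem c h, by rw [Ysm, h', smul_zero]⟩ }
    have hL : L = A := by
      refine h3 L (fun a ha => ha.1) ?_ ?_
      · rw [Submodule.ne_bot_iff]
        exact ⟨a, ⟨ha, haY⟩, hane⟩
      · rintro g hg v ⟨hv, hv'⟩
        obtain ⟨g', hg', hgg'⟩ := hGS g hg
        refine ⟨hGA g hg v hv, ?_⟩
        rw [(comm g hg g' hg' hgg' v).2, hv', map_zero]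
    obtain ⟨b, hb, hjb⟩ := h1
    apply hjb
    rw [← hL] at hb
    rw [dec' b, hb.2, map_zero, add_zero]
    exact Xm _
  have hc00 : c0 ≠ 0 := by
    intro h
    apply kerX
    by_cases hz : X (a0 : E) = 0
    · exact ⟨a0, a0.2, ha0n, hz⟩
    · exact ⟨X a0, Xm _, hz, by rw [hXX a0 a0.2, h, zero_smul]⟩
  have hYY : ∀ a ∈ A, Y (Y a) = -((1 + c0) • a) := by
    intro a ha
    have e1 := (rel a ha).1
    rw [hXX a ha] at e1
    have e2 : Y (Y a) = -a - c0 • a := by rw [← e1]; abel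
    rw [e2]; module
  have hc01 : 1 + c0 ≠ 0 := by
    intro h
    apply kerY
    by_cases hz : Y (a0 : E) = 0
    · exact ⟨a0, a0.2, ha0n, hz⟩
    · exact ⟨Y a0, Ym _, hz, by rw [hYY a0 a0.2, h, zero_smul, neg_zero]⟩
  -- the operator `phi`
  let φ : E →ₗ[ℂ] E :=
    { toFun := fun a => Y (X a)
      map_add' := fun a b => by simp only [Xadd, Yadd]
      map_smul' := fun c a => by simp only [Xsm, Ysm, Complex.conj_conj, RingHom.id_apply] }
  have hφ : ∀ a, φ a = Y (X a) := fun a => rfl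
  have φm : ∀ a, φ a ∈ A := fun a => Ym _
  have hφφ : ∀ a ∈ A, φ (φ a) = (c0 * (1 + c0)) • a := by
    intro a ha
    have e1 : X (Y (X a)) = -(Y (X (X a))) := by
      have := (rel (X a) (Xm _)).2
      rw [add_comm] at this
      exact eq_neg_of_add_eq_zero_left this
    have e2 : Y (-(Y (X (X a)))) = -(Y (Y (X (X a)))) := by
      have : -(Y (X (X a))) = (-1 : ℂ) • (Y (X (X a))) := by module
      rw [this, Ysm]
      simp
    rw [hφ, hφ, e1, e2, hYY _ (Xm _), hXX a ha, neg_neg, smul_smul, mul_comm]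
  obtain ⟨c, hc⟩ : ∃ c : ℂ, c * c * (c0 * (1 + c0)) = 1 := by
    obtain ⟨c, hc⟩ := IsAlgClosed.exists_pow_nat_eq ((c0 * (1 + c0))⁻¹) (n := 2) (by norm_num)
    refine ⟨c, ?_⟩
    rw [← sq, hc, inv_mul_cancel₀ (mul_ne_zero hc00 hc01)]
  refine ⟨A.map (LinearMap.id + c • (S ∘ₗ φ)), ?_, ?_, ?_, ?_⟩
  · rw [Submodule.ne_bot_iff]
    refine ⟨_, Submodule.mem_map_of_mem a0.2, fun h => ha0n ?_⟩
    have e1 : (a0 : E) + S (c • φ a0) = 0 + S 0 := by
      rw [map_smul, map_zero, add_zero]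
      exact h
    exact (uniq _ a0.2 _ (A.smul_mem _ (φm _)) _ A.zero_mem _ A.zero_mem e1).1
  · intro htop
    have h5 : (a0 : E) ∈ A.map (LinearMap.id + c • (S ∘ₗ φ)) := by rw [htop]; trivial
    obtain ⟨a, ha, h6⟩ := Submodule.mem_map.mp h5
    have e1 : a + S (c • φ a) = a0 + S 0 := by
      rw [map_smul, map_zero, add_zero]
      exact h6
    obtain ⟨e2, e3⟩ := uniq _ ha _ (A.smul_mem _ (φm _)) _ a0.2 _ A.zero_mem e1
    rw [e2] at e3
    have hcne : c ≠ 0 := by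
      rintro rfl
      simp at hc
    have e4 : φ (a0 : E) = 0 := (smul_eq_zero.mp e3).resolve_left hcne
    have e5 := hφφ a0 a0.2
    rw [e4, map_zero] at e5
    exact (smul_ne_zero (mul_ne_zero hc00 hc01) ha0n) e5.symm
  · rintro g hg v hv
    obtain ⟨a, ha, rfl⟩ := Submodule.mem_map.mp hv
    obtain ⟨g', hg', hgg'⟩ := hGS g hg
    refine Submodule.mem_map.mpr ⟨g a, hGA g hg a ha, ?_⟩
    have e1 : φ (g a) = g' (φ a) := by
      rw [hφ, hφ, (comm g hg g' hg' hgg' a).1, (comm g hg g' hg' hgg' _).2]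
    show g a + c • S (φ (g a)) = g (a + c • S (φ a))
    rw [e1, map_add, map_smul, hgg']
  · intro v hv
    obtain ⟨a, ha, rfl⟩ := Submodule.mem_map.mp hv
    refine Submodule.mem_map.mpr ⟨c • φ a, A.smul_mem _ (φm _), ?_⟩
    show c • φ a + c • S (φ (c • φ a)) = S (a + c • S (φ a))
    have e1 : c • S (φ (c • φ a)) = S a := by
      rw [map_smul φ, hφφ a ha]
      simp only [map_smul, smul_smul]
      rw [← mul_assoc, hc, one_smul]
    have e2 : S (a + c • S (φ a)) = S a + c • φ a := by rw [map_add, map_smul, hS]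
    rw [e1, e2]; abel

end core

end Run7.h580
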