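import Pool.Agent.Run7.h580.S6
import Pool.Agent.Run7.h580.S7

/-!
Groups permuting two complementary subspaces of the complexification.
-/

namespace Run7.h580

open MvPolynomial Quaternion QRefl Run7.h580.Ten

lemma isImprimitive_of_pair {W : Subgroup (QMat 2)ˣ} {M N : Submodule ℍ[ℝ]ᵐᵒᵖ (QVec 2)} (hM : M ≠ ⊥)
    (hN : N ≠ ⊥) (hd : Disjoint M N) (hs : M ⊔ N = ⊤)
    (hp : ∀ w ∈ W, ((∀ v ∈ M, (w : QMat 2).mulVec v ∈ M) ∧ (∀ v ∈ N, (w : QMat 2).mulVec v ∈ N)) ∨
      ((∀ v ∈ M, (w : QMat 2).mulVec v ∈ N) ∧ (∀ v ∈ N, (w : QMat 2).mulVec v ∈ M))) :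
    IsImprimitive W := by
  let U : Fin 2 → Submodule ℍ[ℝ]ᵐᵒᵖ (QVec 2) := ![M, N]
  refine ⟨2, U, by norm_num, ?_, ?_, ?_, ?_⟩
  · intro i
    fin_cases i
    · exact hM
    · exact hN
  · rw [iSupIndep_pair (i := (0 : Fin 2)) (j := 1) (by norm_num)]
    · exact hd
    · intro k; fin_cases k <;> simp
  · rw [eq_top_iff, ← hs]
    exact sup_le (le_iSup U 0) (le_iSup U 1)
  · intro w hw i
    rcases hp w hw with ⟨h1, h2⟩ | ⟨h1, h2⟩
    · fin_cases i
      · exact ⟨0, h1⟩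
      · exact ⟨1, h2⟩
    · fin_cases i
      · exact ⟨1, h1⟩
      · exact ⟨0, h2⟩

/-- The lines spanned by a vector and its image under an involution. -/
lemma isImprimitive_of_line {W : Subgroup (QMat 2)ˣ} (hirr : IsIrreducible W) {s : (QMat 2)ˣ}
    (hss : ∀ v : CE, LW (s : QMat 2) (LW (s : QMat 2) v) = v) {u : CE} (hu : u ≠ 0)
    (h : ∀ w ∈ W, ((∃ c : ℂ, LW (w : QMat 2) u = c • u) ∧
        (∃ c : ℂ, LW (w : QMat 2) (LW (s : QMat 2) u) = c • LW (s : QMat 2) u)) ∨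
      ((∃ c : ℂ, LW (w : QMat 2) u = c • LW (s : QMat 2) u) ∧
        (∃ c : ℂ, LW (w : QMat 2) (LW (s : QMat 2) u) = c • u))) :
    IsImprimitive W := by
  obtain ⟨p, rfl⟩ := cvec_surj u
  have hp : p ≠ 0 := by
    rintro rfl
    exact hu cvec_zero
  set q : QVec 2 := (s : QMat 2).mulVec p with hq
  have hcq : LW (s : QMat 2) (cvec p) = cvec q := LW_cvec _ _
  have hq0 : q ≠ 0 := by
    intro h0
    have := hss (cvec p)
    rw [hcq, h0, cvec_zero, map_zero] at this
    exact hu this.symm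
  rw [hcq] at h
  have hline : ∀ (w : (QMat 2)ˣ) (a b : QVec 2) (c : ℂ), LW (w : QMat 2) (cvec a) = c • cvec b →
      ∀ v ∈ Submodule.span ℍ[ℝ]ᵐᵒᵖ {a}, (w : QMat 2).mulVec v ∈ Submodule.span ℍ[ℝ]ᵐᵒᵖ {b} := by
    intro w a b c hc v hv
    obtain ⟨d, rfl⟩ := Submodule.mem_span_singleton.mp hv
    have h1 : (w : QMat 2).mulVec a = MulOpposite.op (qab c 0) • b := by
      apply cvec_injective
      rw [← LW_cvec, hc, cvec_smul, zero_smul, add_zero]
    rw [Matrix.mulVec_smul, h1]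
    exact Submodule.smul_mem _ _ (Submodule.smul_mem _ _ (Submodule.mem_span_singleton_self b))
  have hfr : ∀ a : QVec 2, a ≠ 0 → Module.finrank ℍ[ℝ]ᵐᵒᵖ (Submodule.span ℍ[ℝ]ᵐᵒᵖ {a}) = 1 := by
    intro a ha
    refine finrank_eq_one (⟨a, Submodule.mem_span_singleton_self a⟩ : Submodule.span ℍ[ℝ]ᵐᵒᵖ {a}) ?_ ?_
    · intro h0; exact ha (congrArg Subtype.val h0)
    · rintro ⟨w, hw⟩
      obtain ⟨c, hc⟩ := Submodule.mem_span_singleton.mp hw
      exact ⟨c, Subtype.ext hc⟩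
  set M := Submodule.span ℍ[ℝ]ᵐᵒᵖ {p} with hM
  set N := Submodule.span ℍ[ℝ]ᵐᵒᵖ {q} with hN
  have hperm : ∀ w ∈ W, ((∀ v ∈ M, (w : QMat 2).mulVec v ∈ M) ∧ (∀ v ∈ N, (w : QMat 2).mulVec v ∈ N)) ∨
      ((∀ v ∈ M, (w : QMat 2).mulVec v ∈ N) ∧ (∀ v ∈ N, (w : QMat 2).mulVec v ∈ M)) := by
    intro w hw
    rcases h w hw with ⟨⟨c, hc⟩, ⟨d, hd⟩⟩ | ⟨⟨c, hc⟩, ⟨d, hd⟩⟩
    · exact Or.inl ⟨hline w p p c hc, hline w q q d hd⟩
    · exact Or.inr ⟨hline w p q c hc, hline w q p d hd⟩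
  have hMf : Module.finrank ℍ[ℝ]ᵐᵒᵖ M = 1 := hfr p hp
  have hNf : Module.finrank ℍ[ℝ]ᵐᵒᵖ N = 1 := hfr q hq0
  have hM0 : M ≠ ⊥ := by
    rw [hM, Ne, Submodule.span_singleton_eq_bot]; exact hp
  have hN0 : N ≠ ⊥ := by
    rw [hN, Ne, Submodule.span_singleton_eq_bot]; exact hq0
  have hinf : M ⊓ N = ⊥ := by
    by_contra hne
    have h1 := finrank_pos_of_ne_bot hne
    have h2 : M ⊓ N = M := Submodule.eq_of_le_of_finrank_le inf_le_left (by rw [hMf]; exact h1)
    have h3 : M ⊓ N = N := Submodule.eq_of_le_of_finrank_le inf_le_right (by rw [hNf]; exact h1)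
    have hMN : M = N := by rw [← h2, h3]
    rcases hirr M (fun w hw v hv => by
      rcases hperm w hw with ⟨h4, _⟩ | ⟨h4, _⟩
      · exact h4 v hv
      · rw [hMN]; exact h4 v hv) with h4 | h4
    · exact hM0 h4
    · rw [h4, finrank_top, finrank_QVec] at hMf
      exact absurd hMf (by norm_num)
  have hsup : M ⊔ N = ⊤ := by
    apply Submodule.eq_top_of_finrank_eq
    have h1 := Submodule.finrank_sup_add_finrank_inf_eq M N
    rw [hinf, finrank_bot, add_zero, hMf, hNf] at h1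
    rw [h1, finrank_QVec]
  exact isImprimitive_of_pair hM0 hN0 (disjoint_iff.mpr hinf) hsup hperm

/-- groups permuting two complementary complex subspaces -/
theorem two_hasQuot {W : Subgroup (QMat 2)ˣ} (hW : IsReflectionGroup W) (hirr : IsIrreducible W)
    (hnc : ¬ IsComplex W) {A B : Submodule ℂ CE} (hAB : IsCompl A B) (hA0 : A ≠ ⊥) (hB0 : B ≠ ⊥)
    (hperm : ∀ w ∈ W, ((∀ v ∈ A, LW (w : QMat 2) v ∈ A) ∧ (∀ v ∈ B, LW (w : QMat 2) v ∈ B)) ∨
      ((∀ v ∈ A, LW (w : QMat 2) v ∈ B) ∧ (∀ v ∈ B, LW (w : QMat 2) v ∈ A))) :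
    HasQuot W ((QRefl.numReflections W + 1) ^ 2) := by
  have hmem0 : ∀ v, v ∈ A → v ∈ B → v = 0 := by
    intro v hv hv'
    exact (Submodule.disjoint_def.mp hAB.disjoint) v hv hv'
  -- a reflection exchanging the subspaces
  obtain ⟨s, hs, hsr, hsA, hsB⟩ : ∃ s ∈ W, IsReflection s ∧ (∀ v ∈ A, LW (s : QMat 2) v ∈ B) ∧
      (∀ v ∈ B, LW (s : QMat 2) v ∈ A) := by
    by_contra hcon
    push Not at hcon
    have key : ∀ w ∈ W, (∀ v ∈ A, LW (w : QMat 2) v ∈ A) ∧ (∀ v ∈ B, LW (w : QMat 2) v ∈ B) := by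
      intro w hw
      rw [← hW.gen] at hw
      induction hw using Subgroup.closure_induction with
      | mem x hx =>
        rcases hperm x hx.1 with h | h
        · exact h
        · exfalso
          obtain ⟨v, hv, hv'⟩ := hcon x hx.1 hx.2 h.1
          exact hv' (h.2 v hv)
      | one => exact ⟨fun v hv => by simpa [LW_one] using hv, fun v hv => by simpa [LW_one] using hv⟩
      | mul x y _ _ hx hy =>
        refine ⟨fun v hv => ?_, fun v hv => ?_⟩
        · rw [Units.val_mul, LW_mul]; exact hx.1 _ (hy.1 v hv)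
        · rw [Units.val_mul, LW_mul]; exact hx.2 _ (hy.2 v hv)
      | inv x hx h =>
        have hxW : x⁻¹ ∈ W := by
          rw [← hW.gen]; exact inv_mem hx
        rcases hperm _ hxW with h' | h'
        · exact h'
        · exfalso
          obtain ⟨v, hv, hv0⟩ := (Submodule.ne_bot_iff _).mp hA0
          apply hv0
          apply hmem0 v hv
          rw [← LW_inv' x v]
          exact h.2 _ (h'.1 v hv)
    rcases irred_complex hirr hnc A (fun w hw => (key w hw).1) with h | h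
    · exact hA0 h
    · have h1 := hAB.inf_eq_bot
      rw [h, top_inf_eq] at h1
      exact hB0 h1
  set S : CE →ₗ[ℂ] CE := LW (s : QMat 2) with hS
  have hSinj : ∀ v, S v = 0 → v = 0 := fun v hv => LW_eq_zero hv
  -- dimensions
  have hcard : Module.finrank ℂ A + Module.finrank ℂ B = 4 := by
    rw [Submodule.finrank_add_eq_of_isCompl hAB]
    simp
  have hAle : Module.finrank ℂ A ≤ Module.finrank ℂ B := by
    refine LinearMap.finrank_le_finrank_of_injective (f := S.restrict hsA) ?_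
    rw [← LinearMap.ker_eq_bot, LinearMap.ker_eq_bot']
    intro m hm
    exact Subtype.ext (hSinj _ (congrArg Subtype.val hm))
  have hBle : Module.finrank ℂ B ≤ Module.finrank ℂ A := by
    refine LinearMap.finrank_le_finrank_of_injective (f := S.restrict hsB) ?_
    rw [← LinearMap.ker_eq_bot, LinearMap.ker_eq_bot']
    intro m hm
    exact Subtype.ext (hSinj _ (congrArg Subtype.val hm))
  have hA2 : Module.finrank ℂ A = 2 := by omega
  -- `s` is an involution
  have hSS : ∀ v, S (S v) = v := by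
    have hfix : fixedSpace (s : QMat 2) ≠ ⊥ := by
      intro h
      have h2 := hsr.2
      rw [h, finrank_bot] at h2
      exact absurd h2 (by norm_num)
    obtain ⟨p, hp, hp0⟩ := (Submodule.ne_bot_iff _).mp hfix
    rw [mem_fixedSpace] at hp
    set f := cvec p with hf
    have hf0 : f ≠ 0 := fun h => hp0 (cvec_eq_zero h)
    have hSf : S f = f := by rw [hS, hf, LW_cvec, hp]
    have hSjf : S (jl f) = jl f := by rw [hS, LW_jl, ← hS, hSf]
    have hdec : ∀ g, S g = g → ∃ a ∈ A, ∃ b ∈ B, g = a + b ∧ S a = b ∧ S b = a := by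
      intro g hg
      have hg' : g ∈ A ⊔ B := by rw [hAB.sup_eq_top]; trivial
      obtain ⟨a, ha, b, hb, hab⟩ := Submodule.mem_sup.mp hg'
      have h1 : S a + S b = a + b := by rw [← map_add, hab, hg]
      have h2 : S a - b = a - S b := by
        rw [sub_eq_sub_iff_add_eq_add, h1]
      have h3 := hmem0 (S a - b) (by rw [h2]; exact A.sub_mem ha (hsB b hb)) (B.sub_mem (hsA a ha) hb)
      have h4 : S a = b := sub_eq_zero.mp h3
      refine ⟨a, ha, b, hb, hab.symm, h4, ?_⟩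
      rw [h4, add_comm a b] at h1
      exact add_left_cancel h1
    obtain ⟨a, ha, b, hb, hab, hSa, hSb⟩ := hdec f hSf
    obtain ⟨a', ha', b', hb', hab', hSa', hSb'⟩ := hdec (jl f) hSjf
    have hind : ∀ x y : ℂ, x • a + y • a' = 0 → x = 0 ∧ y = 0 := by
      intro x y hxy
      have h1 : x • b + y • b' = 0 := by
        have := congrArg S hxy
        rw [map_add, map_smul, map_smul, hSa, hSa', map_zero] at this
        exact this
      have h2 : x • f + y • jl f = 0 := by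
        rw [hab', hab, smul_add, smul_add]
        calc x • a + x • b + (y • a' + y • b') = (x • a + y • a') + (x • b + y • b') := by abel
          _ = 0 := by rw [hxy, h1, add_zero]
      have hy : y = 0 := by
        by_contra hy
        have h3 : jl f = (-(y⁻¹ * x)) • f := by
          have h4 : y • jl f = -(x • f) := eq_neg_of_add_eq_zero_right h2
          have h5 : jl f = y⁻¹ • (y • jl f) := by rw [smul_smul, inv_mul_cancel₀ hy, one_smul]
          rw [h5, h4, neg_smul, smul_neg, smul_smul]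
        have h4 := jl_jl f
        set μ := -(y⁻¹ * x)
        rw [h3, LinearMap.map_smulₛₗ, h3, smul_smul] at h4
        have h5 : ((starRingEnd ℂ) μ * μ + 1) • f = 0 := by rw [add_smul, h4, one_smul, neg_add_cancel]
        have h6 := (smul_eq_zero.mp h5).resolve_right hf0
        have h7 : (starRingEnd ℂ) μ * μ = ((Complex.normSq μ : ℝ) : ℂ) := by
          rw [mul_comm, Complex.mul_conj]
        rw [h7] at h6
        have h8 : Complex.normSq μ + 1 = 0 := by exact_mod_cast h6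
        have := Complex.normSq_nonneg μ
        linarith
      rw [hy, zero_smul, add_zero] at h2
      exact ⟨(smul_eq_zero.mp h2).resolve_right hf0, hy⟩
    have hspan : ∀ v ∈ A, ∃ x y : ℂ, x • a + y • a' = v := by
      intro v hv
      have hli : LinearIndependent ℂ ![(⟨a, ha⟩ : A), ⟨a', ha'⟩] := by
        rw [LinearIndependent.pair_iff]
        intro x y hxy
        exact hind x y (congrArg Subtype.val hxy)
      have htop := hli.span_eq_top_of_card_eq_finrank (by rw [hA2]; simp)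
      have hv' : (⟨v, hv⟩ : A) ∈ Submodule.span ℂ (Set.range ![(⟨a, ha⟩ : A), ⟨a', ha'⟩]) := by
        rw [htop]; trivial
      rw [Matrix.range_cons, Matrix.range_cons, Matrix.range_empty, Set.union_empty, Set.singleton_union,
        Submodule.mem_span_pair] at hv'
      obtain ⟨x, y, hxy⟩ := hv'
      exact ⟨x, y, congrArg Subtype.val hxy⟩
    have hSSA : ∀ v ∈ A, S (S v) = v := by
      intro v hv
      obtain ⟨x, y, rfl⟩ := hspan v hv
      simp only [map_add, map_smul, hSa, hSb, hSa', hSb']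
    intro v
    have hv' : v ∈ A ⊔ B := by rw [hAB.sup_eq_top]; trivial
    obtain ⟨x, hx, y, hy, rfl⟩ := Submodule.mem_sup.mp hv'
    rw [map_add, map_add, hSSA x hx]
    congr 1
    have h1 := hSSA _ (hsB y hy)
    have h2 := hSinj (S (S y) - y) (by rw [map_sub, h1, sub_self])
    exact sub_eq_zero.mp h2
  have hSJ : ∀ v, S (jl v) = jl (S v) := fun v => LW_jl _ v
  -- reduction of elements exchanging the subspaces
  have hinv : ∀ w ∈ W, ∀ w' ∈ W, (∀ v ∈ A, LW (w : QMat 2) v ∈ B) → (∀ v ∈ A, LW (w' : QMat 2) v ∈ B) →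
      (∀ v ∈ A, LW ((w * w' : (QMat 2)ˣ) : QMat 2) v ∈ A) := by
    intro w hw w' hw' h h' v hv
    rw [Units.val_mul, LW_mul]
    rcases hperm w hw with h1 | h1
    · have h2 : v = 0 := by
        obtain ⟨x, hx, hx0⟩ := (Submodule.ne_bot_iff _).mp hA0
        exact absurd (LW_eq_zero (hmem0 _ (h1.1 x hx) (h x hx))) hx0
      rw [h2, map_zero, map_zero]; exact A.zero_mem
    · exact h1.2 _ (h' v hv)
  by_cases hc1 : ∀ a ∈ A, jl a ∈ A
  · -- imprimitive over the quaternions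
    have hcB : ∀ b ∈ B, jl b ∈ B := by
      intro b hb
      have h1 := hsA _ (hc1 _ (hsB b hb))
      rw [← hSJ, hSS] at h1
      exact h1
    refine imprimitive_hasQuot W hW hirr ?_ hnc
    have hmemh : ∀ (C : Submodule ℂ CE), (∀ a ∈ C, jl a ∈ C) → ∀ p, p ∈ hInf C ↔ cvec p ∈ C := by
      intro C hC p
      exact ⟨fun h => h.1, fun h => ⟨h, hC _ h⟩⟩
    refine isImprimitive_of_pair (M := hInf A) (N := hInf B) ?_ ?_ ?_ ?_ ?_
    · obtain ⟨x, hx, hx0⟩ := (Submodule.ne_bot_iff _).mp hA0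
      obtain ⟨p, rfl⟩ := cvec_surj x
      rw [Submodule.ne_bot_iff]
      refine ⟨p, (hmemh A hc1 p).mpr hx, ?_⟩
      rintro rfl
      exact hx0 cvec_zero
    · obtain ⟨x, hx, hx0⟩ := (Submodule.ne_bot_iff _).mp hB0
      obtain ⟨p, rfl⟩ := cvec_surj x
      rw [Submodule.ne_bot_iff]
      refine ⟨p, (hmemh B hcB p).mpr hx, ?_⟩
      rintro rfl
      exact hx0 cvec_zero
    · rw [Submodule.disjoint_def]
      intro p hp hp'
      exact cvec_eq_zero (hmem0 _ hp.1 hp'.1)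
    · rw [eq_top_iff]
      intro p _
      have hv' : cvec p ∈ A ⊔ B := by rw [hAB.sup_eq_top]; trivial
      obtain ⟨x, hx, y, hy, hxy⟩ := Submodule.mem_sup.mp hv'
      obtain ⟨p1, rfl⟩ := cvec_surj x
      obtain ⟨p2, rfl⟩ := cvec_surj y
      rw [← cvec_add] at hxy
      rw [← cvec_injective hxy]
      exact Submodule.mem_sup.mpr ⟨p1, (hmemh A hc1 p1).mpr hx, p2, (hmemh B hcB p2).mpr hy, rfl⟩
    · intro w hw
      have hh : ∀ (C D : Submodule ℂ CE), (∀ a ∈ C, jl a ∈ C) → (∀ a ∈ D, jl a ∈ D) →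
          (∀ v ∈ C, LW (w : QMat 2) v ∈ D) → ∀ p ∈ hInf C, (w : QMat 2).mulVec p ∈ hInf D := by
        intro C D hC hD h p hp
        rw [hmemh D hD, ← LW_cvec]
        exact h _ ((hmemh C hC p).mp hp)
      rcases hperm w hw with ⟨h1, h2⟩ | ⟨h1, h2⟩
      · exact Or.inl ⟨hh A A hc1 hc1 h1, hh B B hcB hcB h2⟩
      · exact Or.inr ⟨hh A B hc1 hcB h1, hh B A hcB hc1 h2⟩
  by_cases hc2 : ∀ a ∈ A, jl a ∈ B
  · have hcB : ∀ b ∈ B, jl b ∈ A := by
      intro b hb
      have h1 := hsB _ (hc2 _ (hsB b hb))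
      rw [← hSJ, hSS] at h1
      exact h1
    refine conjPlane_hasQuot hW hirr hnc (U := A) ?_ ?_ ?_
    · intro v hv hjv
      exact jl_eq_zero (hmem0 _ hjv (hc2 v hv))
    · intro v
      have hv' : v ∈ A ⊔ B := by rw [hAB.sup_eq_top]; trivial
      obtain ⟨x, hx, y, hy, rfl⟩ := Submodule.mem_sup.mp hv'
      refine ⟨x, hx, -(jl y), A.neg_mem (hcB y hy), ?_⟩
      rw [map_neg, jl_jl, neg_neg]
    · intro w hw
      rcases hperm w hw with ⟨h1, _⟩ | ⟨h1, _⟩
      · exact Or.inl h1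
      · exact Or.inr (fun v hv => hcB _ (h1 v hv))
  -- the preserving elements
  set G : Set (CE →ₗ[ℂ] CE) := {g | ∃ w ∈ W, (∀ v ∈ A, LW (w : QMat 2) v ∈ A) ∧ LW (w : QMat 2) = g} with hG
  have hGA : ∀ g ∈ G, ∀ v ∈ A, g v ∈ A := by
    rintro g ⟨w, hw, h1, rfl⟩ v hv
    exact h1 v hv
  have hGB : ∀ g ∈ G, ∀ v ∈ B, g v ∈ B := by
    rintro g ⟨w, hw, h1, rfl⟩ v hv
    rcases hperm w hw with h2 | h2
    · exact h2.2 v hv
    · exfalso
      obtain ⟨x, hx, hx0⟩ := (Submodule.ne_bot_iff _).mp hA0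
      exact hx0 (LW_eq_zero (hmem0 _ (h1 x hx) (h2.1 x hx)))
  have hGS : ∀ g ∈ G, ∃ g' ∈ G, ∀ v, g (S v) = S (g' v) := by
    rintro g ⟨w, hw, h1, rfl⟩
    refine ⟨LW ((s * w * s : (QMat 2)ˣ) : QMat 2), ⟨s * w * s, W.mul_mem (W.mul_mem hs hw) hs, ?_, rfl⟩, ?_⟩
    · intro v hv
      rw [Units.val_mul, Units.val_mul, LW_mul, LW_mul]
      exact hsB _ (hGB _ ⟨w, hw, h1, rfl⟩ _ (hsA v hv))
    · intro v
      rw [Units.val_mul, Units.val_mul, LW_mul, LW_mul]
      exact (hSS _).symm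
  by_cases hL : ∃ L : Submodule ℂ CE, L ≤ A ∧ L ≠ ⊥ ∧ (∀ g ∈ G, ∀ v ∈ L, g v ∈ L) ∧ L ≠ A
  · obtain ⟨L, hLA, hL0, hLG, hLne⟩ := hL
    have hL1 : Module.finrank ℂ L = 1 := by
      have h1 := Submodule.finrank_lt_finrank_of_lt (lt_of_le_of_ne hLA hLne)
      have h2 : 0 < Module.finrank ℂ L := by
        rw [Module.finrank_pos_iff]
        exact (Submodule.nontrivial_iff_ne_bot).mpr hL0
      omega
    obtain ⟨u, hu, hu0⟩ := (Submodule.ne_bot_iff _).mp hL0
    have huL : ∀ v ∈ L, ∃ c : ℂ, v = c • u := by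
      intro v hv
      obtain ⟨c, hc⟩ := (finrank_eq_one_iff_of_nonzero' (⟨u, hu⟩ : L) (fun h => hu0 (congrArg Subtype.val h))).mp
        hL1 ⟨v, hv⟩
      exact ⟨c, (congrArg Subtype.val hc).symm⟩
    have hpre : ∀ w ∈ W, (∀ v ∈ A, LW (w : QMat 2) v ∈ A) → ∃ c : ℂ, LW (w : QMat 2) u = c • u := by
      intro w hw h1
      exact huL _ (hLG _ ⟨w, hw, h1, rfl⟩ u hu)
    refine imprimitive_hasQuot W hW hirr (isImprimitive_of_line hirr (s := s) hSS hu0 ?_) hnc
    intro w hw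
    rcases hperm w hw with ⟨h1, h2⟩ | ⟨h1, h2⟩
    · left
      refine ⟨hpre w hw h1, ?_⟩
      obtain ⟨c, hc⟩ := hpre (s * w * s) (W.mul_mem (W.mul_mem hs hw) hs) (by
        intro v hv
        rw [Units.val_mul, Units.val_mul, LW_mul, LW_mul]
        exact hsB _ (h2 _ (hsA v hv)))
      refine ⟨c, ?_⟩
      rw [Units.val_mul, Units.val_mul, LW_mul, LW_mul] at hc
      have h3 := congrArg S hc
      rw [map_smul] at h3
      rw [← h3]
      exact (hSS _).symm
    · right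
      refine ⟨?_, ?_⟩
      · obtain ⟨c, hc⟩ := hpre (s * w) (W.mul_mem hs hw) (hinv s hs w hw hsA h1)
        refine ⟨c, ?_⟩
        rw [Units.val_mul, LW_mul] at hc
        have h3 := congrArg S hc
        rw [map_smul] at h3
        rw [← h3]
        exact (hSS _).symm
      · obtain ⟨c, hc⟩ := hpre (w * s) (W.mul_mem hw hs) (hinv w hw s hs h1 hsA)
        refine ⟨c, ?_⟩
        rw [Units.val_mul, LW_mul] at hc
        exact hc
  · exfalso
    push Not at hL hc1 hc2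
    obtain ⟨U, hU0, hUt, hUG, hUS⟩ := core_planes S jl hSS jl_jl hSJ hAB hsA hsB G hGA hGB
      (by rintro g ⟨w, hw, h1, rfl⟩ v; exact LW_jl _ v) hGS hc1 hc2 hL
    rcases irred_complex hirr hnc U (fun w hw v hv => by
      rcases hperm w hw with ⟨h1, h2⟩ | ⟨h1, h2⟩
      · exact hUG _ ⟨w, hw, h1, rfl⟩ v hv
      · have h3 := hUG _ ⟨s * w, W.mul_mem hs hw, hinv s hs w hw hsA h1, rfl⟩ v hv
        have h4 := hUS _ h3
        rw [Units.val_mul, LW_mul] at h4
        have h5 : S (LW (s : QMat 2) (LW (w : QMat 2) v)) = LW (w : QMat 2) v := hSS _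
        rwa [h5] at h4) with h | h
    · exact hU0 h
    · exact hUt h

end Run7.h580
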