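import Pool.Agent.Run7.h580.S8

/-!
Systems of imprimitivity of the complexification.
-/

namespace Run7.h580

open MvPolynomial Quaternion QRefl Run7.h580.Ten

/-- a system of imprimitivity of the complexification -/
structure Sys (W : Subgroup (QMat 2)ˣ) (k : ℕ) (U : Fin k → Submodule ℂ CE) : Prop where
  ne : ∀ i, U i ≠ ⊥
  ind : iSupIndep U
  top : ⨆ i, U i = ⊤
  perm : ∀ w ∈ W, ∀ i, ∃ j, ∀ v ∈ U i, LW (w : QMat 2) v ∈ U j

section sys

variable {W : Subgroup (QMat 2)ˣ} {k : ℕ} {U : Fin k → Submodule ℂ CE} (hS : Sys W k U)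

include hS

lemma Sys.eq_of_mem {i j : Fin k} {v : CE} (hv : v ∈ U i) (hv' : v ∈ U j) (h0 : v ≠ 0) : i = j := by
  by_contra hij
  exact h0 ((Submodule.disjoint_def.mp (hS.ind.pairwiseDisjoint hij)) v hv hv')

/-- the permutation action on the blocks -/
lemma Sys.exists_hom : ∃ σ : W →* Equiv.Perm (Fin k),
    ∀ w : W, ∀ i, ∀ v ∈ U i, LW ((w : (QMat 2)ˣ) : QMat 2) v ∈ U (σ w i) := by
  choose! f hf using hS.perm
  have hnz : ∀ i, ∃ v ∈ U i, v ≠ 0 := fun i => (Submodule.ne_bot_iff _).mp (hS.ne i)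
  have hmul : ∀ w ∈ W, ∀ w' ∈ W, ∀ i, f (w * w') i = f w (f w' i) := by
    intro w hw w' hw' i
    obtain ⟨v, hv, hv0⟩ := hnz i
    have h1 := hf _ (W.mul_mem hw hw') i v hv
    have h2 := hf w hw _ _ (hf w' hw' i v hv)
    rw [Units.val_mul, LW_mul] at h1
    exact hS.eq_of_mem h1 h2 (fun h => hv0 (LW_eq_zero (LW_eq_zero h)))
  have hone : ∀ i, f 1 i = i := by
    intro i
    obtain ⟨v, hv, hv0⟩ := hnz i
    have h1 := hf _ W.one_mem i v hv
    rw [Units.val_one, LW_one] at h1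
    exact hS.eq_of_mem h1 hv hv0
  let σ : W →* Equiv.Perm (Fin k) :=
    { toFun := fun w => ⟨f w, f (w : (QMat 2)ˣ)⁻¹, fun i => by
          rw [← hmul _ (W.inv_mem w.2) _ w.2, inv_mul_cancel, hone], fun i => by
          rw [← hmul _ w.2 _ (W.inv_mem w.2), mul_inv_cancel, hone]⟩
      map_one' := by
        ext i
        simp [hone]
      map_mul' := by
        intro a b
        ext i
        simp [hmul _ a.2 _ b.2] }
  exact ⟨σ, fun w i v hv => hf w w.2 i v hv⟩

/-- transitivity -/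
lemma Sys.trans (hirr : IsIrreducible W) (hnc : ¬ IsComplex W) {σ : W →* Equiv.Perm (Fin k)}
    (hσ : ∀ w : W, ∀ i, ∀ v ∈ U i, LW ((w : (QMat 2)ˣ) : QMat 2) v ∈ U (σ w i)) (i j : Fin k) :
    ∃ w : W, σ w i = j := by
  by_contra hcon
  push Not at hcon
  set O : Set (Fin k) := {j | ∃ w : W, σ w i = j} with hO
  set A : Submodule ℂ CE := ⨆ j ∈ O, U j with hA
  have hst : ∀ w ∈ W, ∀ v ∈ A, LW (w : QMat 2) v ∈ A := by
    intro w hw v hv
    have h1 : A ≤ A.comap (LW (w : QMat 2)) := by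
      rw [hA]
      refine iSup₂_le (fun j hj => ?_)
      intro u hu
      rw [Submodule.mem_comap]
      obtain ⟨w', hw'⟩ := hj
      have h2 : σ ⟨w, hw⟩ j ∈ O := ⟨⟨w, hw⟩ * w', by rw [map_mul, Equiv.Perm.mul_apply, hw']⟩
      exact (le_iSup₂_of_le (f := fun j (_ : j ∈ O) => U j) _ h2 le_rfl) (hσ ⟨w, hw⟩ j u hu)
    exact h1 hv
  have hi : i ∈ O := ⟨1, by rw [map_one]; rfl⟩
  rcases irred_complex hirr hnc A hst with h | h
  · apply hS.ne i
    rw [eq_bot_iff, ← h]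
    exact le_iSup₂_of_le (f := fun j (_ : j ∈ O) => U j) i hi le_rfl
  · have hj : j ∉ O := by
      rintro ⟨w, hw⟩
      exact hcon w hw
    have h1 := hS.ind.disjoint_biSup hj
    have h2 : Disjoint (U j) A := h1
    rw [h, disjoint_top] at h2
    exact hS.ne j h2

/-- dimensions of the blocks -/
lemma Sys.finrank (hirr : IsIrreducible W) (hnc : ¬ IsComplex W) (i : Fin k) :
    k * Module.finrank ℂ (U i) = 4 := by
  classical
  obtain ⟨σ, hσ⟩ := hS.exists_hom
  have hle : ∀ i j, Module.finrank ℂ (U i) ≤ Module.finrank ℂ (U j) := by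
    intro i j
    obtain ⟨w, hw⟩ := hS.trans hirr hnc hσ i j
    have h1 : ∀ v ∈ U i, LW ((w : (QMat 2)ˣ) : QMat 2) v ∈ U j := by
      intro v hv
      rw [← hw]; exact hσ w i v hv
    refine LinearMap.finrank_le_finrank_of_injective (f := (LW ((w : (QMat 2)ˣ) : QMat 2)).restrict h1) ?_
    rw [← LinearMap.ker_eq_bot, LinearMap.ker_eq_bot']
    intro m hm
    exact Subtype.ext (LW_eq_zero (congrArg Subtype.val hm))
  have hint := DirectSum.isInternal_submodule_of_iSupIndep_of_iSup_eq_top hS.ind hS.top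
  have h2 : Module.finrank ℂ (DirectSum (Fin k) (fun i => U i)) = 4 := by
    rw [(LinearEquiv.ofBijective (DirectSum.coeLinearMap U) hint).finrank_eq]
    simp
  rw [Module.finrank_directSum] at h2
  rw [← h2, Finset.sum_congr rfl (fun j _ => le_antisymm (hle j i) (hle i j))]
  simp

/-- lumping the blocks into two -/
lemma Sys.lump (hW : IsReflectionGroup W) (hirr : IsIrreducible W) (hnc : ¬ IsComplex W)
    {σ : W →* Equiv.Perm (Fin k)}
    (hσ : ∀ w : W, ∀ i, ∀ v ∈ U i, LW ((w : (QMat 2)ˣ) : QMat 2) v ∈ U (σ w i)) (f : Fin k → Bool)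
    (h0 : ∃ i, f i = false) (h1 : ∃ i, f i = true)
    (hf : ∀ w : W, ∀ i j, f i = f j → f (σ w i) = f (σ w j)) :
    HasQuot W ((QRefl.numReflections W + 1) ^ 2) := by
  obtain ⟨i0, hi0⟩ := h0
  obtain ⟨i1, hi1⟩ := h1
  set C : Bool → Submodule ℂ CE := fun b => ⨆ i ∈ {i | f i = b}, U i with hC
  have hle : ∀ i, U i ≤ C (f i) := fun i =>
    le_iSup₂_of_le (f := fun j (_ : j ∈ {j | f j = f i}) => U j) i rfl le_rfl
  have hdis : Disjoint (C false) (C true) := by
    apply hS.ind.disjoint_biSup_biSup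
    rw [Set.disjoint_left]
    intro i hi hi'
    rw [Set.mem_ofPred_eq] at hi hi'
    rw [hi] at hi'
    exact absurd hi' (by simp)
  have hsup : C false ⊔ C true = ⊤ := by
    rw [eq_top_iff, ← hS.top]
    refine iSup_le (fun i => ?_)
    rcases hfi : f i with _ | _
    · exact le_sup_of_le_left (by rw [← hfi]; exact hle i)
    · exact le_sup_of_le_right (by rw [← hfi]; exact hle i)
  have hne : ∀ i, C (f i) ≠ ⊥ := by
    intro i h
    apply hS.ne i
    rw [eq_bot_iff, ← h]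
    exact hle i
  have hmap : ∀ w : W, ∀ i, ∀ v ∈ C (f i), LW ((w : (QMat 2)ˣ) : QMat 2) v ∈ C (f (σ w i)) := by
    intro w i v hv
    have h1 : C (f i) ≤ (C (f (σ w i))).comap (LW ((w : (QMat 2)ˣ) : QMat 2)) := by
      refine iSup₂_le (fun j hj => ?_)
      intro u hu
      rw [Submodule.mem_comap]
      rw [Set.mem_ofPred_eq] at hj
      rw [hf w i j hj.symm]
      exact hle _ (hσ w j u hu)
    exact h1 hv
  refine two_hasQuot hW hirr hnc (A := C false) (B := C true) ⟨hdis, codisjoint_iff.mpr hsup⟩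
    (by rw [← hi0]; exact hne i0) (by rw [← hi1]; exact hne i1) ?_
  intro w hw
  have e0 := hmap ⟨w, hw⟩ i0
  have e1 := hmap ⟨w, hw⟩ i1
  rw [hi0] at e0
  rw [hi1] at e1
  have hdiff : f (σ ⟨w, hw⟩ i0) ≠ f (σ ⟨w, hw⟩ i1) := by
    intro h
    have h2 := hf (⟨w, hw⟩⁻¹) _ _ h
    rw [← Equiv.Perm.mul_apply, ← Equiv.Perm.mul_apply, ← map_mul, inv_mul_cancel, map_one] at h2
    simp only [Equiv.Perm.one_apply] at h2
    rw [hi0, hi1] at h2
    exact absurd h2 (by simp)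
  rcases h2 : f (σ ⟨w, hw⟩ i0) with _ | _
  · left
    have h3 : f (σ ⟨w, hw⟩ i1) = true := by
      rcases h4 : f (σ ⟨w, hw⟩ i1) with _ | _
      · exact absurd (h2.trans h4.symm) hdiff
      · rfl
    rw [h2] at e0
    rw [h3] at e1
    exact ⟨e0, e1⟩
  · right
    have h3 : f (σ ⟨w, hw⟩ i1) = false := by
      rcases h4 : f (σ ⟨w, hw⟩ i1) with _ | _
      · rfl
      · exact absurd (h2.trans h4.symm) hdiff
    rw [h2] at e0
    rw [h3] at e1
    exact ⟨e0, e1⟩

end sys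

/-- permutations of four points preserving a partition into two pairs -/
def Pres (f : Fin 4 → Bool) (x : Equiv.Perm (Fin 4)) : Prop := ∀ i j, f i = f j → f (x i) = f (x j)

instance (f : Fin 4 → Bool) (x : Equiv.Perm (Fin 4)) : Decidable (Pres f x) := by
  unfold Pres; infer_instance

/-- three-cycles -/
def Thr (x : Equiv.Perm (Fin 4)) : Prop := (∃ p, x p = p ∧ ∀ j, j ≠ p → ∀ i, i ≠ p → i = j ∨ x j = i ∨ x (x j) = i)

instance (x : Equiv.Perm (Fin 4)) : Decidable (Thr x) := by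
  unfold Thr; infer_instance

def f1 : Fin 4 → Bool := ![false, false, true, true]
def f2 : Fin 4 → Bool := ![false, true, false, true]
def f3 : Fin 4 → Bool := ![false, true, true, false]

set_option maxRecDepth 100000 in
lemma comb12 : ∀ x y : Equiv.Perm (Fin 4), ¬ Pres f1 x → ¬ Pres f2 y →
    Thr x ∨ Thr y ∨ Thr (x * y) ∨ (¬ Pres f2 x ∧ Pres f3 x) := by
  decide +kernel

set_option maxRecDepth 100000 in
lemma comb13 : ∀ x y : Equiv.Perm (Fin 4), ¬ Pres f1 x → ¬ Pres f3 y →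
    Thr x ∨ Thr y ∨ Thr (x * y) ∨ (¬ Pres f3 x ∧ Pres f2 x) := by
  decide +kernel

set_option maxRecDepth 100000 in
lemma comb_sign : ∀ x : Equiv.Perm (Fin 4), Equiv.Perm.sign x = 1 ∨
    (∃ a b c d : Fin 4, a ≠ b ∧ a ≠ c ∧ a ≠ d ∧ b ≠ c ∧ b ≠ d ∧ c ≠ d ∧
      ((x a = b ∧ x b = a ∧ x c = c ∧ x d = d) ∨ (x a = b ∧ x b = c ∧ x c = d ∧ x d = a))) := by
  decide +kernel

set_option maxRecDepth 100000 in
lemma comb_even : ∀ x : Equiv.Perm (Fin 4), Equiv.Perm.sign x = 1 → x 0 = 0 → x 1 = 1 → x = 1 := by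
  decide +kernel

end Run7.h580
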