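import Mathlib

/-!
The module for groups of tensor type.
-/

namespace Run7.h580.Ten

open MvPolynomial Run7.h580

/-- binary forms -/
abbrev Bf := MvPolynomial (Fin 2) ℂ

/-- families of binary forms indexed by weights -/
abbrev Mz := ℤ → Bf

/-- symplectic derivatives -/
noncomputable def dd (e : Fin 2) : Derivation ℂ Bf Bf := if e = 0 then pderiv 1 else - pderiv 0

/-- the symplectic form -/
noncomputable def jf (e e' : Fin 2) : ℂ :=
  if e = 0 then (if e' = 1 then 1 else 0) else (if e' = 0 then -1 else 0)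

lemma fin2 (e : Fin 2) : e = 0 ∨ e = 1 := by fin_cases e <;> simp

lemma jf_swap (e e' : Fin 2) : jf e' e = - jf e e' := by
  rcases fin2 e with rfl | rfl <;> rcases fin2 e' with rfl | rfl <;> simp [jf]

lemma dd_X (e e' : Fin 2) : dd e (X e' : Bf) = C (jf e e') := by
  classical
  rcases fin2 e with rfl | rfl <;> rcases fin2 e' with rfl | rfl <;> simp [dd, jf, pderiv_X]

lemma dd_comm (e e' : Fin 2) (f : Bf) : dd e (dd e' f) = dd e' (dd e f) := by
  have h : ⁅dd e, dd e'⁆ = 0 := by
    apply derivation_ext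
    intro l
    rw [Derivation.commutator_apply, dd_X, dd_X]
    simp
  have h1 := congrArg (fun D : Derivation ℂ Bf Bf => D f) h
  simp only [Derivation.commutator_apply, Derivation.coe_zero, Pi.zero_apply] at h1
  exact sub_eq_zero.mp h1

/-- Euler identity in symplectic form -/
lemma dd_euler {p : Bf} {n : ℕ} (hp : p.IsHomogeneous n) (e e' : Fin 2) :
    X e' * dd e p - X e * dd e' p = C (jf e e' * n) * p := by
  have h := hp.sum_X_mul_pderiv
  rw [Fin.sum_univ_two, nsmul_eq_mul] at h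
  have hn : (C (n : ℂ) : Bf) = (n : Bf) := by simp
  rcases fin2 e with rfl | rfl <;> rcases fin2 e' with rfl | rfl
  · simp [jf]
  · simp only [dd, jf, Fin.isValue, if_true, one_ne_zero, if_false, Derivation.neg_apply, one_mul, hn]
    linear_combination h
  · simp only [dd, jf, Fin.isValue, if_true, one_ne_zero, if_false, Derivation.neg_apply, C_mul,
      C_neg, C_1, hn]
    linear_combination -h
  · simp [jf]

lemma dd_mul (e e' : Fin 2) (p : Bf) : dd e (X e' * p) = C (jf e e') * p + X e' * dd e p := by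
  rw [Derivation.leibniz, dd_X, smul_eq_mul, smul_eq_mul]
  ring

lemma dd_isHomogeneous {p : Bf} {n : ℕ} (hp : p.IsHomogeneous n) (e : Fin 2) :
    (dd e p).IsHomogeneous (n - 1) := by
  rw [dd]
  split_ifs
  · exact hp.pderiv
  · exact (hp.pderiv (i := 0)).neg

lemma dd_zero_of_degree_zero {p : Bf} (hp : p.IsHomogeneous 0) (e : Fin 2) : dd e p = 0 := by
  have h1 : p = C (coeff 0 p) := by
    rw [← homogeneousComponent_zero]
    rw [homogeneousComponent_of_mem ((mem_homogeneousSubmodule _ _).mpr hp)]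
    simp
  rw [h1, derivation_C]

section module

variable (z r : ℕ)

/-- coupling constants -/
noncomputable def cg (n : ℤ) : ℂ := if 0 < n ∧ (z : ℤ) ∣ n then (r : ℂ) / ((r : ℂ) - n) else 0

/-- the raising operators -/
noncomputable def XP (e : Fin 2) : Mz →ₗ[ℂ] Mz where
  toFun F := fun m => if 1 ≤ m then dd e (F (m - 1)) + C (cg z r (m - 1)) * dd e (F (1 - m))
    else X e * F (m - 1) - C (cg z r (-m)) * dd e (F (-m - 1))
  map_add' F G := by
    funext m
    simp only [Pi.add_apply, map_add]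
    split_ifs <;> ring
  map_smul' c F := by
    funext m
    simp only [Pi.smul_apply, RingHom.id_apply, Derivation.map_smul]
    simp only [MvPolynomial.smul_eq_C_mul]
    split_ifs <;> ring

/-- exchange of weights -/
noncomputable def ss : Mz →ₗ[ℂ] Mz where
  toFun F := fun m => F (-m)
  map_add' F G := by funext m; simp
  map_smul' c F := by funext m; simp

/-- the lowering operators -/
noncomputable def XM (e : Fin 2) : Mz →ₗ[ℂ] Mz := ss ∘ₗ XP z r e ∘ₗ ss

/-- projections on classes of weights -/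
noncomputable def pz (k : ℤ) : Mz →ₗ[ℂ] Mz where
  toFun F := fun m => if (z : ℤ) ∣ (m - k) then F m else 0
  map_add' F G := by
    funext m
    simp only [Pi.add_apply]
    split_ifs <;> simp
  map_smul' c F := by
    funext m
    simp only [Pi.smul_apply, RingHom.id_apply]
    split_ifs <;> simp

/-- the finite-dimensional module -/
def LZ : Submodule ℂ Mz where
  carrier := {F | (∀ m : ℤ, m.natAbs < r → (F m).IsHomogeneous (r - 1 - m.natAbs)) ∧
    ∀ m : ℤ, r ≤ m.natAbs → F m = 0}
  add_mem' := by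
    rintro a b ⟨h1, h2⟩ ⟨h3, h4⟩
    exact ⟨fun m hm => (h1 m hm).add (h3 m hm), fun m hm => by simp [h2 m hm, h4 m hm]⟩
  zero_mem' := ⟨fun m _ => isHomogeneous_zero _ _ _, fun m _ => rfl⟩
  smul_mem' := by
    rintro c a ⟨h1, h2⟩
    refine ⟨fun m hm => ?_, fun m hm => by simp [h2 m hm]⟩
    rw [Pi.smul_apply, MvPolynomial.smul_eq_C_mul]
    have := (isHomogeneous_C (Fin 2) c).mul (h1 m hm)
    rwa [zero_add] at this

end module

variable {z r : ℕ}

lemma cg_of_not {n : ℤ} (h : ¬ ((0 : ℤ) < n ∧ (z : ℤ) ∣ n)) : cg z r n = 0 := by rw [cg, if_neg h]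

lemma cg_of {n : ℤ} (h : (0 : ℤ) < n ∧ (z : ℤ) ∣ n) : cg z r n = (r : ℂ) / ((r : ℂ) - n) := by
  rw [cg, if_pos h]

lemma cg_mul {n : ℤ} (hn : n ≠ r) (h : 0 < n ∧ (z : ℤ) ∣ n) : cg z r n * ((r : ℂ) - n) = r := by
  rw [cg_of h]
  have : (r : ℂ) - n ≠ 0 := by
    intro h'
    apply hn
    have h2 : (n : ℂ) = (r : ℂ) := by linear_combination -h'
    exact_mod_cast h2
  field_simp

lemma cg_succ (hz : 2 ≤ z) (n : ℤ) : cg z r n * cg z r (n + 1) = 0 := by
  by_cases h1 : (0 : ℤ) < n ∧ (z : ℤ) ∣ n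
  · by_cases h2 : (0 : ℤ) < n + 1 ∧ (z : ℤ) ∣ (n + 1)
    · exfalso
      have h3 : (z : ℤ) ∣ 1 := by
        have := dvd_sub h2.2 h1.2
        rwa [add_sub_cancel_left] at this
      have h4 := Int.eq_one_of_dvd_one (by positivity) h3
      omega
    · rw [cg_of_not h2, mul_zero]
  · rw [cg_of_not h1, zero_mul]

lemma XP_pos (e : Fin 2) (F : Mz) {m : ℤ} (hm : 1 ≤ m) :
    XP z r e F m = dd e (F (m - 1)) + C (cg z r (m - 1)) * dd e (F (1 - m)) := by
  show (if 1 ≤ m then _ else _) = _
  rw [if_pos hm]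

lemma XP_neg (e : Fin 2) (F : Mz) {m : ℤ} (hm : ¬ 1 ≤ m) :
    XP z r e F m = X e * F (m - 1) - C (cg z r (-m)) * dd e (F (-m - 1)) := by
  show (if 1 ≤ m then _ else _) = _
  rw [if_neg hm]

lemma ss_apply (F : Mz) (m : ℤ) : ss F m = F (-m) := rfl

lemma ss_ss (F : Mz) : ss (ss F) = F := by
  funext m
  rw [ss_apply, ss_apply, neg_neg]

lemma XM_apply (e : Fin 2) (F : Mz) (m : ℤ) : XM z r e F m = XP z r e (ss F) (-m) := rfl

lemma XM_neg (e : Fin 2) (F : Mz) {m : ℤ} (hm : m ≤ -1) :
    XM z r e F m = dd e (F (m + 1)) + C (cg z r (-m - 1)) * dd e (F (-m - 1)) := by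
  rw [XM_apply, XP_pos _ _ (by omega), ss_apply, ss_apply]
  have e1 : -(-m - 1) = m + 1 := by ring
  have e2 : -(1 - -m) = -m - 1 := by ring
  rw [e1, e2]

lemma XM_pos (e : Fin 2) (F : Mz) {m : ℤ} (hm : ¬ m ≤ -1) :
    XM z r e F m = X e * F (m + 1) - C (cg z r m) * dd e (F (1 - m)) := by
  rw [XM_apply, XP_neg _ _ (by omega), ss_apply, ss_apply]
  have e1 : -(-m - 1) = m + 1 := by ring
  have e2 : -(- -m - 1) = 1 - m := by ring
  rw [e1, e2, neg_neg]

lemma ss_XP (e : Fin 2) (F : Mz) : ss (XP z r e F) = XM z r e (ss F) := by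
  funext m
  rw [XM_apply, ss_ss, ss_apply]

lemma ss_XM (e : Fin 2) (F : Mz) : ss (XM z r e F) = XP z r e (ss F) := by
  funext m
  rw [ss_apply, XM_apply, neg_neg]

lemma ss_mem_LZ {F : Mz} (hF : F ∈ LZ r) : ss F ∈ LZ r := by
  refine ⟨fun m hm => ?_, fun m hm => ?_⟩
  · have := hF.1 (-m) (by rwa [Int.natAbs_neg])
    rwa [Int.natAbs_neg] at this
  · exact hF.2 (-m) (by rwa [Int.natAbs_neg])

lemma XP_mem_LZ (e : Fin 2) {F : Mz} (hF : F ∈ LZ r) : XP z r e F ∈ LZ r := by
  obtain ⟨h1, h2⟩ := hF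
  -- derivative pieces
  have hd : ∀ n : ℤ, ∀ k : ℕ, n.natAbs + 1 = k → (k < r → (dd e (F n)).IsHomogeneous (r - 1 - k)) ∧
      (r ≤ k → dd e (F n) = 0) := by
    intro n k hk
    constructor
    · intro hkr
      have := dd_isHomogeneous (h1 n (by omega)) e
      convert this using 1
      omega
    · intro hkr
      by_cases hn : n.natAbs < r
      · have h3 : r - 1 - n.natAbs = 0 := by omega
        have h4 := h1 n hn
        rw [h3] at h4
        exact dd_zero_of_degree_zero h4 e
      · rw [h2 n (by omega), map_zero]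
  have hC : ∀ (c : ℂ) (p : Bf) (k : ℕ), p.IsHomogeneous k → (C c * p).IsHomogeneous k := by
    intro c p k hp
    have := (isHomogeneous_C (Fin 2) c).mul hp
    rwa [zero_add] at this
  refine ⟨fun m hm => ?_, fun m hm => ?_⟩
  · by_cases hm1 : 1 ≤ m
    · rw [XP_pos e F hm1]
      have h3 := (hd (m - 1) m.natAbs (by omega)).1 hm
      have h4 := (hd (1 - m) m.natAbs (by omega)).1 hm
      exact h3.add (hC _ _ _ h4)
    · rw [XP_neg e F hm1]
      refine IsHomogeneous.sub ?_ ?_
      · by_cases hr : (m - 1).natAbs < r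
        · have h5 := (isHomogeneous_X ℂ e).mul (h1 (m - 1) hr)
          have h6 : 1 + (r - 1 - (m - 1).natAbs) = r - 1 - m.natAbs := by omega
          rw [h6] at h5
          exact h5
        · rw [h2 _ (by omega), mul_zero]
          exact isHomogeneous_zero _ _ _
      · by_cases h0 : m = 0
        · rw [h0]
          rw [cg_of_not (by simp)]
          simp only [C_0, zero_mul]
          exact isHomogeneous_zero _ _ _
        · have h4 := (hd (-m - 1) m.natAbs (by omega)).1 hm
          exact hC _ _ _ h4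
  · by_cases hm1 : 1 ≤ m
    · rw [XP_pos e F hm1, (hd (m - 1) m.natAbs (by omega)).2 hm,
        (hd (1 - m) m.natAbs (by omega)).2 hm]
      simp
    · rw [XP_neg e F hm1, h2 (m - 1) (by omega)]
      by_cases h0 : m = 0
      · rw [h0, cg_of_not (by simp)]
        simp
      · rw [(hd (-m - 1) m.natAbs (by omega)).2 hm]
        simp

lemma XM_mem_LZ (e : Fin 2) {F : Mz} (hF : F ∈ LZ r) : XM z r e F ∈ LZ r :=
  ss_mem_LZ (XP_mem_LZ e (ss_mem_LZ hF))

end Run7.h580.Ten
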