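import Pool.Agent.Run7.h580.T1

/-!
Commutation relations for the module of tensor type.
-/

namespace Run7.h580.Ten

open MvPolynomial Run7.h580

variable {z r : ℕ}

/-- Euler identity for members of the module -/
lemma LZ_euler {F : Mz} (hF : F ∈ LZ r) (n : ℤ) (e e' : Fin 2) :
    X e' * dd e (F n) - X e * dd e' (F n) = C (jf e e' * ((r : ℂ) - 1 - n.natAbs)) * F n := by
  by_cases hn : n.natAbs < r
  · rw [dd_euler (hF.1 n hn) e e']
    congr 3
    rw [Nat.cast_sub (by omega), Nat.cast_sub (by omega)]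
    simp
  · rw [hF.2 n (by omega)]
    simp

/-- antisymmetrised product rule -/
lemma LZ_rule {F : Mz} (hF : F ∈ LZ r) (n : ℤ) (e e' : Fin 2) :
    dd e (X e' * F n) - dd e' (X e * F n) = C (jf e e' * ((r : ℂ) + 1 - n.natAbs)) * F n := by
  rw [dd_mul, dd_mul, jf_swap e e']
  have h := LZ_euler hF n e e'
  have e1 : (C (jf e e' * ((r : ℂ) + 1 - n.natAbs)) : Bf) =
      C (jf e e' * ((r : ℂ) - 1 - n.natAbs)) + C (jf e e') + C (jf e e') := by
    rw [← C_add, ← C_add]; congr 1; ring
  rw [e1, C_neg]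
  linear_combination h

lemma natAbs_pos_cast {n : ℤ} (h : 0 ≤ n) : ((n.natAbs : ℕ) : ℂ) = (n : ℂ) := by
  have : ((n.natAbs : ℤ)) = n := Int.natAbs_of_nonneg h
  rw [← Int.cast_natCast, this]

lemma cg_zero : cg z r 0 = 0 := cg_of_not (by simp)

/-- relation between two raising operators -/
lemma rel_PP (hz : 2 ≤ z) (hzr : ¬ z ∣ r) {F : Mz} (hF : F ∈ LZ r) (e e' : Fin 2) (m : ℤ) :
    XP z r e (XP z r e' F) m - XP z r e' (XP z r e F) m =
      C (jf e e') * (if (z : ℤ) ∣ (m - 1) then C (r : ℂ) * F (-m) else 0) := by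
  by_cases hm : 1 ≤ m
  · rw [XP_pos _ _ hm, XP_pos _ _ hm]
    by_cases hm2 : 2 ≤ m
    · -- `n = m - 1 ≥ 1`
      have a1 : m - 1 - 1 = m - 2 := by ring
      have a2 : 1 - (m - 1) = 2 - m := by ring
      have a3 : 1 - m - 1 = -m := by ring
      have a4 : -(1 - m) = m - 1 := by ring
      rw [XP_pos e' F (by omega : 1 ≤ m - 1), XP_neg e' F (by omega : ¬ 1 ≤ 1 - m),
        XP_pos e F (by omega : 1 ≤ m - 1), XP_neg e F (by omega : ¬ 1 ≤ 1 - m)]
      rw [a1, a2, a3, a4, a1]
      have hR := LZ_rule hF (-m) e e'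
      have hc1 := dd_comm e e' (F (m - 2))
      have hc2 := dd_comm e e' (F (2 - m))
      simp only [map_add, map_sub, Derivation.leibniz, derivation_C, smul_eq_mul, mul_zero, add_zero,
        dd_X] at hR ⊢
      rw [hc1, hc2]
      by_cases hd : (z : ℤ) ∣ (m - 1)
      · rw [if_pos hd]
        by_cases hmr : m - 1 = r
        · exfalso
          rw [hmr] at hd
          exact hzr (by exact_mod_cast hd)
        · have hg := cg_mul (r := r) hmr ⟨(by omega : 0 < m - 1), hd⟩
          have hg2 : (C (cg z r (m - 1)) : Bf) * C ((r : ℂ) + 1 - (-m).natAbs) = C (r : ℂ) := by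
            rw [← C_mul, Int.natAbs_neg, natAbs_pos_cast (by omega)]
            congr 1
            push_cast at hg ⊢
            linear_combination hg
          rw [C_mul] at hR
          linear_combination C (cg z r (m - 1)) * hR + C (jf e e') * F (-m) * hg2
      · rw [if_neg hd, cg_of_not (fun h => hd h.2)]
        simp only [C_0, zero_mul]
        ring
    · have hm1 : m = 1 := by omega
      subst hm1
      have hR := LZ_rule hF (-1) e e'
      simp only [sub_self, cg_zero, C_0, zero_mul, add_zero]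
      rw [XP_neg e' F (by omega : ¬ (1 : ℤ) ≤ 0), XP_neg e F (by omega : ¬ (1 : ℤ) ≤ 0)]
      simp only [neg_zero, cg_zero, C_0, zero_mul, sub_zero, zero_sub, dvd_zero, if_true]
      have h2 : (C (jf e e' * ((r : ℂ) + 1 - (-1 : ℤ).natAbs)) : Bf) = C (jf e e') * C (r : ℂ) := by
        rw [← C_mul]; congr 1; simp
      rw [h2] at hR
      linear_combination hR
  · -- `n = -m ≥ 0`
    rw [XP_neg _ _ hm, XP_neg _ _ hm]
    have a1 : -(m - 1) = 1 - m := by ring
    have a2 : 1 - m - 1 = -m := by ring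
    rw [XP_neg e' F (by omega : ¬ 1 ≤ m - 1), XP_neg e F (by omega : ¬ 1 ≤ m - 1)]
    rw [a1, a2]
    -- the inner term with `cg (-m)` contributes nothing
    have hz1 : ∀ a b : Fin 2, C (cg z r (-m)) * dd a (XP z r b F (-m - 1)) =
        C (cg z r (-m)) * dd a (dd b (F (-m - 2))) + C (cg z r (-m)) * C (cg z r (-m - 2)) *
          dd a (dd b (F (m + 2))) := by
      intro a b
      by_cases hc : (0 : ℤ) < -m ∧ (z : ℤ) ∣ -m
      · have h2 : 2 ≤ -m := by
          have := Int.le_of_dvd hc.1 hc.2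
          omega
        rw [XP_pos b F (by omega)]
        have b1 : -m - 1 - 1 = -m - 2 := by ring
        have b2 : 1 - (-m - 1) = m + 2 := by ring
        rw [b1, b2, map_add, Derivation.leibniz, derivation_C, smul_eq_mul, smul_eq_mul, mul_zero,
          add_zero]
        ring
      · rw [cg_of_not hc]
        simp
    have h1 := hz1 e e'
    have h2 := hz1 e' e
    have hE := LZ_euler hF (-m) e e'
    have hc1 := dd_comm e e' (F (-m - 2))
    have hc2 := dd_comm e e' (F (m + 2))
    rw [hc1, hc2] at h1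
    by_cases hd : (z : ℤ) ∣ (m - 1)
    · rw [if_pos hd]
      have hd' : (z : ℤ) ∣ (1 - m) := by
        have := (dvd_neg (a := (z : ℤ))).mpr hd
        rwa [neg_sub] at this
      have hmr : 1 - m ≠ r := by
        intro h
        rw [h] at hd'
        exact hzr (by exact_mod_cast hd')
      have hg := cg_mul (r := r) hmr ⟨(by omega : 0 < 1 - m), hd'⟩
      have hg2 : (C (cg z r (1 - m)) : Bf) * C ((r : ℂ) - 1 - (-m).natAbs) = C (r : ℂ) := by
        rw [← C_mul, natAbs_pos_cast (by omega)]
        congr 1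
        push_cast at hg ⊢
        linear_combination hg
      rw [C_mul] at hE
      linear_combination -h1 + h2 + C (cg z r (1 - m)) * hE + C (jf e e') * F (-m) * hg2
    · rw [if_neg hd]
      have hd' : ¬ (z : ℤ) ∣ (1 - m) := by
        intro h
        apply hd
        have := (dvd_neg (a := (z : ℤ))).mpr h
        rwa [neg_sub] at this
      rw [cg_of_not (fun h => hd' h.2)]
      simp only [C_0, zero_mul]
      linear_combination -h1 + h2

/-- relation between a raising and a lowering operator, positive weights -/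
lemma rel_PM_pos (hz : 2 ≤ z) (hzr : ¬ z ∣ r) {F : Mz} (hF : F ∈ LZ r) (e e' : Fin 2) {m : ℤ}
    (hm : 0 ≤ m) :
    XP z r e (XM z r e' F) m - XM z r e' (XP z r e F) m =
      C (jf e e') * (F m - (if (z : ℤ) ∣ m then C (r : ℂ) * F (-m) else 0)) := by
  by_cases hm1 : 1 ≤ m
  · rw [XP_pos _ _ hm1, XM_pos e' (XP z r e F) (by omega : ¬ m ≤ -1),
      XM_pos e' F (by omega : ¬ m - 1 ≤ -1), XP_pos e F (by omega : 1 ≤ m + 1)]
    have a1 : m - 1 + 1 = m := by ring
    have a2 : 1 - (m - 1) = 2 - m := by ring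
    have a3 : m + 1 - 1 = m := by ring
    have a4 : 1 - (m + 1) = -m := by ring
    rw [a1, a2, a3, a4]
    have hg0 : (C (cg z r (m - 1)) : Bf) * C (cg z r m) = 0 := by
      have := cg_succ (r := r) hz (m - 1)
      rw [a1] at this
      rw [← C_mul, this, C_0]
    -- the two terms involving `1 - m`
    have h1 : C (cg z r (m - 1)) * dd e (XM z r e' F (1 - m)) =
        C (cg z r (m - 1)) * dd e (dd e' (F (2 - m))) := by
      by_cases hc : (0 : ℤ) < m - 1 ∧ (z : ℤ) ∣ (m - 1)
      · rw [XM_neg e' F (by omega : 1 - m ≤ -1)]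
        have b1 : 1 - m + 1 = 2 - m := by ring
        have b2 : -(1 - m) - 1 = m - 1 - 1 := by ring
        rw [b1, b2, map_add, Derivation.leibniz (dd e) (C _), derivation_C, smul_eq_mul,
          smul_eq_mul, mul_zero, add_zero]
        have hg1 : (C (cg z r (m - 1)) : Bf) * C (cg z r (m - 1 - 1)) = 0 := by
          have := cg_succ (r := r) hz (m - 1 - 1)
          rw [sub_add_cancel] at this
          rw [← C_mul, mul_comm, this, C_0]
        linear_combination dd e (dd e' (F (m - 1 - 1))) * hg1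
      · rw [cg_of_not hc]; simp
    have h2 : C (cg z r m) * dd e' (XP z r e F (1 - m)) =
        C (cg z r m) * dd e' (X e * F (-m)) := by
      rw [XP_neg e F (by omega : ¬ 1 ≤ 1 - m)]
      have b1 : 1 - m - 1 = -m := by ring
      have b2 : -(1 - m) = m - 1 := by ring
      rw [b1, b2, map_sub, Derivation.leibniz (dd e') (C _), derivation_C, smul_eq_mul,
        smul_eq_mul, mul_zero, add_zero]
      linear_combination -(dd e' (dd e (F (m - 1 - 1)))) * hg0
    rw [h1, h2]
    have hR := dd_mul e e' (F m)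
    have hE := LZ_euler hF (-m) e e'
    have hR2 := dd_mul e' e (F (-m))
    rw [jf_swap e e', C_neg] at hR2
    simp only [map_sub, Derivation.leibniz (dd e) (C _), derivation_C, smul_eq_mul, mul_zero,
      add_zero]
    rw [hR, hR2]
    by_cases hd : (z : ℤ) ∣ m
    · rw [if_pos hd]
      have hmr : m ≠ r := by
        intro h
        rw [h] at hd
        exact hzr (by exact_mod_cast hd)
      have hg := cg_mul (r := r) hmr ⟨(by omega : 0 < m), hd⟩
      have hg2 : (C (cg z r m) : Bf) * C ((r : ℂ) - 1 - (-m).natAbs) = C (r : ℂ) - C (cg z r m) := by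
        rw [← C_mul, ← C_sub, Int.natAbs_neg, natAbs_pos_cast hm]
        congr 1
        linear_combination hg
      rw [C_mul] at hE
      linear_combination -C (cg z r m) * hE - C (jf e e') * F (-m) * hg2
    · rw [if_neg hd, cg_of_not (fun h => hd h.2)]
      simp only [C_0, zero_mul]
      ring
  · have hm0 : m = 0 := by omega
    subst hm0
    rw [XP_neg _ _ (by omega : ¬ (1 : ℤ) ≤ 0), XM_pos e' (XP z r e F) (by omega : ¬ (0 : ℤ) ≤ -1)]
    simp only [neg_zero, cg_zero, C_0, zero_mul, sub_zero, zero_sub, zero_add, dvd_zero, if_true]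
    rw [XM_neg e' F (by omega : (-1 : ℤ) ≤ -1), XP_pos e F (by omega : (1 : ℤ) ≤ 1)]
    simp only [neg_neg, sub_self, cg_zero, C_0, zero_mul, add_zero]
    have hE := LZ_euler hF 0 e e'
    have a1 : (-1 : ℤ) + 1 = 0 := by ring
    rw [a1]
    simp only [Int.natAbs_zero, Nat.cast_zero, sub_zero, C_mul, C_sub, C_1] at hE
    linear_combination -hE

/-- relation between a raising and a lowering operator -/
lemma rel_PM (hz : 2 ≤ z) (hzr : ¬ z ∣ r) {F : Mz} (hF : F ∈ LZ r) (e e' : Fin 2) (m : ℤ) :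
    XP z r e (XM z r e' F) m - XM z r e' (XP z r e F) m =
      C (jf e e') * (F m - (if (z : ℤ) ∣ m then C (r : ℂ) * F (-m) else 0)) := by
  by_cases hm : 0 ≤ m
  · exact rel_PM_pos hz hzr hF e e' hm
  · have h1 := rel_PM_pos hz hzr (ss_mem_LZ hF) e' e (m := -m) (by omega)
    have e1 : XP z r e (XM z r e' F) m = XM z r e (XP z r e' (ss F)) (-m) := by
      rw [XM_apply, neg_neg, ss_XP, ss_ss]
    have e2 : XM z r e' (XP z r e F) m = XP z r e' (XM z r e (ss F)) (-m) := by
      rw [XM_apply, ss_XP]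
    rw [e1, e2]
    rw [ss_apply, ss_apply, neg_neg, jf_swap e e', C_neg] at h1
    have h3 : ((z : ℤ) ∣ -m) ↔ ((z : ℤ) ∣ m) := dvd_neg
    simp only [h3] at h1
    linear_combination -h1

/-- relation between two lowering operators -/
lemma rel_MM (hz : 2 ≤ z) (hzr : ¬ z ∣ r) {F : Mz} (hF : F ∈ LZ r) (e e' : Fin 2) (m : ℤ) :
    XM z r e (XM z r e' F) m - XM z r e' (XM z r e F) m =
      C (jf e e') * (if (z : ℤ) ∣ (m + 1) then C (r : ℂ) * F (-m) else 0) := by
  have h1 := rel_PP hz hzr (ss_mem_LZ hF) e e' (-m)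
  have e1 : ∀ a b : Fin 2, XM z r a (XM z r b F) m = XP z r a (XP z r b (ss F)) (-m) := by
    intro a b
    rw [XM_apply, ss_XM]
  rw [e1, e1, h1, ss_apply, neg_neg]
  have h3 : ((z : ℤ) ∣ (-m - 1)) ↔ ((z : ℤ) ∣ (m + 1)) := by
    have : -m - 1 = -(m + 1) := by ring
    rw [this]; exact dvd_neg
  simp only [h3]

end Run7.h580.Ten
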