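import Pool.Agent.Run7.h580.T2
import Pool.Agent.Run7.h580.Delta

/-!
Stability of the filtration, irreducibility and dimension for the module of tensor type.
-/

namespace Run7.h580

open MvPolynomial

/-- stability of the filtration under a family of operators -/
lemma Flt_stable_family {σ P κ : Type*} [AddCommGroup P] [Module ℂ P] {X : σ → P →ₗ[ℂ] P} {u : P}
    (E : κ → P →ₗ[ℂ] P) (hu : ∀ k, E k u ∈ ℂ ∙ u)
    (hE : ∀ n i k, ∀ v ∈ Flt X u n, (∀ k', ∀ w ∈ Flt X u n, E k' w ∈ Flt X u n) →
      E k (X i v) ∈ Flt X u (n + 1))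
    (n : ℕ) : ∀ k, ∀ v ∈ Flt X u n, E k v ∈ Flt X u n := by
  induction n with
  | zero => intro k v hv; simp at hv; simp [hv]
  | succ n ih =>
    intro k v hv
    have : Flt X u (n + 1) ≤ (Flt X u (n + 1)).comap (E k) := by
      conv_lhs => rw [Flt_succ]
      refine sup_le ?_ (sup_le ?_ (iSup_le ?_))
      · rw [Submodule.span_singleton_le_iff_mem, Submodule.mem_comap]
        have h1 : (ℂ ∙ u) ≤ Flt X u (n + 1) := by
          rw [Submodule.span_singleton_le_iff_mem]; exact u_mem X u n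
        exact h1 (hu k)
      · intro w hw
        exact Flt_le_succ X u n (ih k w hw)
      · intro i
        rw [Submodule.map_le_iff_le_comap]
        intro w hw
        exact hE n i k w hw ih
    exact this hv

namespace Ten

variable {z r : ℕ}

/-- the deformed variables -/
noncomputable def XZ (z r : ℕ) (i : Ix) : Mz →ₗ[ℂ] Mz := if i.1 = 0 then XP z r i.2 else XM z r i.2

lemma XZ_zero (e : Fin 2) : XZ z r (0, e) = XP z r e := by simp [XZ]

lemma XZ_one (e : Fin 2) : XZ z r (1, e) = XM z r e := by simp [XZ]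

lemma XZ_mem_LZ (i : Ix) {F : Mz} (hF : F ∈ LZ r) : XZ z r i F ∈ LZ r := by
  obtain ⟨k, e⟩ := i
  rcases fin2 k with rfl | rfl
  · rw [XZ_zero]; exact XP_mem_LZ e hF
  · rw [XZ_one]; exact XM_mem_LZ e hF

lemma pz_apply (k : ℤ) (F : Mz) (m : ℤ) : pz z k F m = if (z : ℤ) ∣ (m - k) then F m else 0 := rfl

lemma pz_XP (k : ℤ) (e : Fin 2) (F : Mz) : pz z k (XP z r e F) = XP z r e (pz z (k - 1) F) := by
  funext m
  rw [pz_apply]
  by_cases hm : 1 ≤ m
  · rw [XP_pos _ _ hm, XP_pos _ _ hm, pz_apply, pz_apply]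
    have e1 : m - 1 - (k - 1) = m - k := by ring
    rw [e1]
    by_cases hc : (0 : ℤ) < m - 1 ∧ (z : ℤ) ∣ (m - 1)
    · have e2 : ((z : ℤ) ∣ 1 - m - (k - 1)) ↔ ((z : ℤ) ∣ (m - k)) := by
        have h1 : 1 - m - (k - 1) = -(m - 1) - (k - 1) := by ring
        have h2 : m - k = (m - 1) - (k - 1) := by ring
        rw [h1, h2, dvd_sub_right ((dvd_neg).mpr hc.2), dvd_sub_right hc.2]
      simp only [e2]
      split_ifs
      · rfl
      · simp
    · rw [cg_of_not hc]
      split_ifs <;> simp
  · rw [XP_neg _ _ hm, XP_neg _ _ hm, pz_apply, pz_apply]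
    have e1 : m - 1 - (k - 1) = m - k := by ring
    rw [e1]
    by_cases hc : (0 : ℤ) < -m ∧ (z : ℤ) ∣ (-m)
    · have e2 : ((z : ℤ) ∣ -m - 1 - (k - 1)) ↔ ((z : ℤ) ∣ (m - k)) := by
        have h1 : -m - 1 - (k - 1) = -m - k := by ring
        rw [h1, dvd_sub_right hc.2, dvd_sub_right ((dvd_neg).mp hc.2)]
      simp only [e2]
      split_ifs
      · rfl
      · simp
    · rw [cg_of_not hc]
      split_ifs <;> simp

lemma pz_ss (k : ℤ) (F : Mz) : pz z k (ss F) = ss (pz z (-k) F) := by
  funext m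
  rw [pz_apply, ss_apply, ss_apply, pz_apply]
  have e1 : -m - -k = -(m - k) := by ring
  rw [e1]
  simp only [dvd_neg]

lemma pz_XM (k : ℤ) (e : Fin 2) (F : Mz) : pz z k (XM z r e F) = XM z r e (pz z (k + 1) F) := by
  have h1 : XM z r e F = ss (XP z r e (ss F)) := by rw [ss_XP, ss_ss]
  have h2 : XM z r e (pz z (k + 1) F) = ss (XP z r e (ss (pz z (k + 1) F))) := by rw [ss_XP, ss_ss]
  rw [h1, h2, pz_ss, pz_XP]
  congr 2
  have h3 : -k - 1 = -(k + 1) := by ring
  rw [h3, pz_ss, neg_neg]

/-- the family of operators preserving the filtration -/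
noncomputable def Efam (z : ℕ) : Option ℤ → Mz →ₗ[ℂ] Mz
  | none => ss
  | some k => pz z k

lemma Flt_le_LZ {u : Mz} (hu : u ∈ LZ r) (n : ℕ) : Flt (XZ z r) u n ≤ LZ r :=
  Flt_le_of_stable (XZ z r) u (LZ r) hu (fun i _ hv => XZ_mem_LZ i hv) n

lemma Efam_Flt {u : Mz} (hs : ss u ∈ ℂ ∙ u) (hp : ∀ k, pz z k u ∈ ℂ ∙ u) (n : ℕ) :
    ∀ k, ∀ v ∈ Flt (XZ z r) u n, Efam z k v ∈ Flt (XZ z r) u n := by
  refine Flt_stable_family (Efam z) ?_ ?_ n
  · rintro (_ | k)
    · exact hs
    · exact hp k
  · rintro n ⟨j, e⟩ (_ | k) v hv ih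
    · rcases fin2 j with rfl | rfl
      · have h1 : Efam z none (XZ z r (0, e) v) = XZ z r (1, e) (ss v) := by
          rw [XZ_zero, XZ_one]; exact ss_XP e v
        rw [h1]
        exact X_mem _ _ (ih none v hv) _
      · have h1 : Efam z none (XZ z r (1, e) v) = XZ z r (0, e) (ss v) := by
          rw [XZ_zero, XZ_one]; exact ss_XM e v
        rw [h1]
        exact X_mem _ _ (ih none v hv) _
    · rcases fin2 j with rfl | rfl
      · have h1 : Efam z (some k) (XZ z r (0, e) v) = XZ z r (0, e) (pz z (k - 1) v) := by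
          rw [XZ_zero]; exact pz_XP k e v
        rw [h1]
        exact X_mem _ _ (ih (some (k - 1)) v hv) _
      · have h1 : Efam z (some k) (XZ z r (1, e) v) = XZ z r (1, e) (pz z (k + 1) v) := by
          rw [XZ_one]; exact pz_XM k e v
        rw [h1]
        exact X_mem _ _ (ih (some (k + 1)) v hv) _

lemma hcomm_XZ (hz : 2 ≤ z) (hzr : ¬ z ∣ r) {u : Mz} (hu : u ∈ LZ r) (hs : ss u ∈ ℂ ∙ u)
    (hp : ∀ k, pz z k u ∈ ℂ ∙ u) :
    ∀ n i j, ∀ v ∈ Flt (XZ z r) u n,
      XZ z r i (XZ z r j v) - XZ z r j (XZ z r i v) ∈ Flt (XZ z r) u (n + 1) := by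
  intro n i j v hv
  have hvL := Flt_le_LZ hu n hv
  refine Flt_le_succ _ _ n ?_
  have hE := Efam_Flt (r := r) hs hp n
  have hsv : ss v ∈ Flt (XZ z r) u n := hE none v hv
  have hps : ∀ k, pz z k (ss v) ∈ Flt (XZ z r) u n := fun k => hE (some k) _ hsv
  obtain ⟨a, e⟩ := i
  obtain ⟨b, e'⟩ := j
  have hPM : ∀ e e' : Fin 2, XP z r e (XM z r e' v) - XM z r e' (XP z r e v) ∈
      Flt (XZ z r) u n := by
    intro e e'
    have h1 : XP z r e (XM z r e' v) - XM z r e' (XP z r e v) =
        (jf e e') • (v - (r : ℂ) • pz z 0 (ss v)) := by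
      funext m
      rw [Pi.sub_apply, rel_PM hz hzr hvL, Pi.smul_apply, Pi.sub_apply, Pi.smul_apply, pz_apply,
        ss_apply, sub_zero, MvPolynomial.smul_eq_C_mul, MvPolynomial.smul_eq_C_mul]
      split_ifs <;> simp
    rw [h1]
    exact Submodule.smul_mem _ _ (Submodule.sub_mem _ hv (Submodule.smul_mem _ _ (hps 0)))
  rcases fin2 a with rfl | rfl <;> rcases fin2 b with rfl | rfl
  · rw [XZ_zero, XZ_zero]
    have h1 : XP z r e (XP z r e' v) - XP z r e' (XP z r e v) =
        (jf e e') • ((r : ℂ) • pz z 1 (ss v)) := by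
      funext m
      rw [Pi.sub_apply, rel_PP hz hzr hvL, Pi.smul_apply, Pi.smul_apply, pz_apply,
        ss_apply, MvPolynomial.smul_eq_C_mul, MvPolynomial.smul_eq_C_mul]
      split_ifs <;> simp
    rw [h1]
    exact Submodule.smul_mem _ _ (Submodule.smul_mem _ _ (hps 1))
  · rw [XZ_zero, XZ_one]
    exact hPM e e'
  · rw [XZ_zero, XZ_one]
    have := Submodule.neg_mem _ (hPM e' e)
    rwa [neg_sub] at this
  · rw [XZ_one, XZ_one]
    have h1 : XM z r e (XM z r e' v) - XM z r e' (XM z r e v) =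
        (jf e e') • ((r : ℂ) • pz z (-1) (ss v)) := by
      funext m
      rw [Pi.sub_apply, rel_MM hz hzr hvL, Pi.smul_apply, Pi.smul_apply, pz_apply,
        ss_apply, MvPolynomial.smul_eq_C_mul, MvPolynomial.smul_eq_C_mul, sub_neg_eq_add]
      split_ifs <;> simp
    rw [h1]
    exact Submodule.smul_mem _ _ (Submodule.smul_mem _ _ (hps (-1)))

/-- depth -/
def dep (m : ℤ) (a : Fin 2 →₀ ℕ) : ℕ := m.natAbs + 2 * a 1

lemma XP_dep {F : Mz} {n : ℕ} (hF : ∀ m a, coeff a (F m) ≠ 0 → dep m a < n + 1) :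
    ∀ m a, coeff a (XP z r 0 F m) ≠ 0 → dep m a < n := by
  classical
  intro m a ha
  have hdd : ∀ (k : ℤ) (c : ℂ), c ≠ 0 → coeff a (C c * dd 0 (F k)) ≠ 0 →
      k.natAbs + 2 * (a 1 + 1) < n + 1 := by
    intro k c _ h
    rw [coeff_C_mul] at h
    have h2 := right_ne_zero_of_mul h
    simp only [dd, if_true] at h2
    rw [coeff_pderiv] at h2
    have := hF k _ (left_ne_zero_of_mul h2)
    simpa [dep] using this
  by_cases hm : 1 ≤ m
  · rw [XP_pos _ _ hm, coeff_add] at ha
    by_cases h1 : coeff a (dd 0 (F (m - 1))) = 0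
    · rw [h1, zero_add] at ha
      by_cases hc : cg z r (m - 1) = 0
      · rw [hc] at ha; simp at ha
      · have := hdd (1 - m) _ hc ha
        rw [dep]; omega
    · have := hdd (m - 1) 1 one_ne_zero (by simpa using h1)
      rw [dep]; omega
  · rw [XP_neg _ _ hm, coeff_sub] at ha
    by_cases h1 : coeff a (X 0 * F (m - 1)) = 0
    · rw [h1, zero_sub, neg_ne_zero] at ha
      by_cases hc : (0 : ℤ) < -m ∧ (z : ℤ) ∣ -m
      · by_cases hc0 : cg z r (-m) = 0
        · rw [hc0] at ha; simp at ha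
        · have := hdd (-m - 1) _ hc0 ha
          rw [dep]; omega
      · rw [cg_of_not hc] at ha; simp at ha
    · rw [coeff_X_mul'] at h1
      split_ifs at h1 with hs
      · have := hF _ _ h1
        simp only [dep, Finsupp.tsub_apply] at this ⊢
        rw [Finsupp.single_apply, if_neg (by simp)] at this
        omega
      · exact absurd rfl h1

lemma XM_dep {F : Mz} {n : ℕ} (hF : ∀ m a, coeff a (F m) ≠ 0 → dep m a < n + 1) :
    ∀ m a, coeff a (XM z r 0 F m) ≠ 0 → dep m a < n := by
  intro m a ha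
  rw [XM_apply] at ha
  have := XP_dep (z := z) (r := r) (F := ss F) (n := n) (by
    intro m a h
    rw [ss_apply] at h
    have := hF _ _ h
    rwa [dep, Int.natAbs_neg] at this) (-m) a ha
  rwa [dep, Int.natAbs_neg] at this

/-- basis vectors -/
noncomputable def bz (m : ℤ) (a : Fin 2 →₀ ℕ) : Mz := Pi.single m (monomial a 1)

/-- highest vector -/
noncomputable def tz (r : ℕ) : Mz := bz 0 (Finsupp.single 0 (r - 1))

/-- kernel of the raising operators -/
lemma ker_z (hz : 2 ≤ z) (hr : 0 < r) {F : Mz} (hF : F ∈ LZ r) (hP : XP z r 0 F = 0)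
    (hM : XM z r 0 F = 0) : ∃ c : ℂ, F = c • tz r := by
  classical
  have hg1 : cg z r 1 = 0 := by
    apply cg_of_not
    rintro ⟨_, h⟩
    have := Int.eq_one_of_dvd_one (by positivity) h
    omega
  have key : ∀ n : ℕ, F ((n : ℤ) + 1) = 0 ∧ F (-((n : ℤ) + 1)) = 0 := by
    intro n
    induction n using Nat.strong_induction_on with
    | _ n ih =>
      have h1 := congrFun hP (-(n : ℤ))
      have h2 := congrFun hM (n : ℤ)
      rw [XP_neg _ _ (by omega)] at h1
      rw [XM_pos _ _ (by omega)] at h2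
      have e1 : -(n : ℤ) - 1 = -((n : ℤ) + 1) := by ring
      rw [e1, neg_neg] at h1
      have h3 : C (cg z r (n : ℤ)) * dd 0 (F ((n : ℤ) - 1)) = 0 := by
        rcases Nat.lt_or_ge n 2 with hn | hn
        · interval_cases n
          · simp [cg_zero]
          · simp [hg1]
        · obtain ⟨k, rfl⟩ : ∃ k, n = k + 2 := ⟨n - 2, by omega⟩
          have := (ih k (by omega)).1
          have e2 : ((k + 2 : ℕ) : ℤ) - 1 = (k : ℤ) + 1 := by push_cast; ring
          rw [e2, this, map_zero, mul_zero]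
      have h4 : C (cg z r (n : ℤ)) * dd 0 (F (1 - (n : ℤ))) = 0 := by
        rcases Nat.lt_or_ge n 2 with hn | hn
        · interval_cases n
          · simp [cg_zero]
          · simp [hg1]
        · obtain ⟨k, rfl⟩ : ∃ k, n = k + 2 := ⟨n - 2, by omega⟩
          have := (ih k (by omega)).2
          have e2 : 1 - ((k + 2 : ℕ) : ℤ) = -((k : ℤ) + 1) := by push_cast; ring
          rw [e2, this, map_zero, mul_zero]
      rw [h3, sub_zero] at h1
      rw [h4, sub_zero] at h2
      exact ⟨(mul_eq_zero.mp h2).resolve_left (X_ne_zero _),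
        (mul_eq_zero.mp h1).resolve_left (X_ne_zero _)⟩
  have h0 : ∀ m : ℤ, m ≠ 0 → F m = 0 := by
    intro m hm
    rcases lt_or_gt_of_ne hm with h | h
    · obtain ⟨n, hn⟩ : ∃ n : ℕ, m = -((n : ℤ) + 1) := ⟨(-m - 1).toNat, by omega⟩
      rw [hn]; exact (key n).2
    · obtain ⟨n, hn⟩ : ∃ n : ℕ, m = (n : ℤ) + 1 := ⟨(m - 1).toNat, by omega⟩
      rw [hn]; exact (key n).1
  have hd : pderiv 1 (F 0) = 0 := by
    have h1 := congrFun hP 1
    rw [XP_pos _ _ le_rfl, sub_self, cg_zero] at h1
    simpa [dd] using h1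
  refine ⟨coeff (Finsupp.single 0 (r - 1)) (F 0), ?_⟩
  funext m
  rw [Pi.smul_apply, tz, bz]
  by_cases hm : m = 0
  · subst hm
    rw [Pi.single_eq_same, smul_monomial, smul_eq_mul, mul_one]
    ext a
    rw [coeff_monomial]
    split_ifs with ha
    · rw [ha]
    · by_contra hne
      have hdeg := hF.1 0 (by simpa using hr) hne
      rw [Finsupp.weight_apply, Finsupp.sum_fintype _ _ (by simp)] at hdeg
      simp only [Fin.sum_univ_two, Pi.one_apply, smul_eq_mul, mul_one, Int.natAbs_zero] at hdeg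
      by_cases ha1 : a 1 = 0
      · apply ha
        ext i
        rcases fin2 i with rfl | rfl
        · simp; omega
        · simp [ha1]
      · have h1 := congrArg (coeff (a - Finsupp.single 1 1)) hd
        rw [coeff_pderiv, coeff_zero, Finsupp.sub_add_single_one_cancel ha1] at h1
        rcases mul_eq_zero.mp h1 with h5 | h5
        · exact hne h5
        · have : (((a - Finsupp.single 1 1 : Fin 2 →₀ ℕ) 1 + 1 : ℕ) : ℂ) = 0 := by
            push_cast; exact h5
          exact absurd this (Nat.cast_ne_zero.mpr (Nat.succ_ne_zero _))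
  · rw [h0 m hm, Pi.single_eq_of_ne hm, smul_zero]

lemma tz_mem (hz : 2 ≤ z) (hr : 0 < r) {N : Submodule ℂ Mz} (hN : N ≤ LZ r)
    (hX : ∀ i, ∀ v ∈ N, XZ z r i v ∈ N) (n : ℕ) :
    ∀ F ∈ N, F ≠ 0 → (∀ m a, coeff a (F m) ≠ 0 → dep m a < n) → tz r ∈ N := by
  induction n with
  | zero =>
    intro F _ hne h
    exfalso
    apply hne
    funext m
    ext a
    by_contra hcm
    exact absurd (h m a hcm) (Nat.not_lt_zero _)
  | succ n ih =>
    intro F hF hne h
    by_cases h1 : XP z r 0 F = 0
    · by_cases h2 : XM z r 0 F = 0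
      · obtain ⟨a, ha⟩ := ker_z hz hr (hN hF) h1 h2
        have ha0 : a ≠ 0 := by
          rintro rfl
          rw [zero_smul] at ha
          exact hne ha
        have h1 : tz r = a⁻¹ • F := by
          rw [ha, smul_smul, inv_mul_cancel₀ ha0, one_smul]
        rw [h1]
        exact N.smul_mem _ hF
      · have := hX (1, 0) F hF
        rw [XZ_one] at this
        exact ih _ this h2 (XM_dep h)
    · have := hX (0, 0) F hF
      rw [XZ_zero] at this
      exact ih _ this h1 (XP_dep h)

lemma XP_single {m : ℤ} (hm : 0 ≤ m) (e : Fin 2) (p : Bf) :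
    XP z r e (Pi.single m p) = Pi.single (m + 1) (dd e p) -
      Pi.single (-(m + 1)) (C (cg z r (m + 1)) * dd e p) := by
  classical
  funext k
  rw [Pi.sub_apply]
  by_cases hk : 1 ≤ k
  · rw [XP_pos _ _ hk]
    have h2 : (Pi.single (-(m + 1)) (C (cg z r (m + 1)) * dd e p) : Mz) k = 0 :=
      Pi.single_eq_of_ne (by omega) _
    rw [h2, sub_zero]
    have h3 : C (cg z r (k - 1)) * dd e ((Pi.single m p : Mz) (1 - k)) = 0 := by
      by_cases hc : (0 : ℤ) < k - 1 ∧ (z : ℤ) ∣ (k - 1)
      · rw [Pi.single_eq_of_ne (by omega : 1 - k ≠ m), map_zero, mul_zero]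
      · rw [cg_of_not hc]; simp
    rw [h3, add_zero]
    by_cases hkm : k = m + 1
    · subst hkm
      rw [add_sub_cancel_right, Pi.single_eq_same, Pi.single_eq_same]
    · rw [Pi.single_eq_of_ne (by omega : k - 1 ≠ m), Pi.single_eq_of_ne hkm, map_zero]
  · rw [XP_neg _ _ hk]
    have h2 : (Pi.single (m + 1) (dd e p) : Mz) k = 0 := Pi.single_eq_of_ne (by omega) _
    rw [h2, Pi.single_eq_of_ne (by omega : k - 1 ≠ m), mul_zero]
    congr 1
    by_cases hkm : k = -(m + 1)
    · subst hkm
      have e1 : - -(m + 1) - 1 = m := by ring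
      rw [e1, Pi.single_eq_same, Pi.single_eq_same, neg_neg]
    · rw [Pi.single_eq_of_ne (by omega : -k - 1 ≠ m), Pi.single_eq_of_ne hkm, map_zero, mul_zero]

lemma ss_single (m : ℤ) (p : Bf) : ss (Pi.single m p) = Pi.single (-m) p := by
  classical
  funext k
  rw [ss_apply, Pi.single_apply, Pi.single_apply]
  have : (-k = m) ↔ (k = -m) := by omega
  simp only [this]

lemma XM_single {m : ℤ} (hm : 0 ≤ m) (e : Fin 2) (p : Bf) :
    XM z r e (Pi.single (-m) p) = Pi.single (-(m + 1)) (dd e p) -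
      Pi.single (m + 1) (C (cg z r (m + 1)) * dd e p) := by
  have h1 : (Pi.single (-m) p : Mz) = ss (Pi.single m p) := (ss_single m p).symm
  rw [h1, ← ss_XP, XP_single hm, map_sub, ss_single, ss_single, neg_neg]

lemma bz_mem (hz : 2 ≤ z) {N : Submodule ℂ Mz} (hX : ∀ i, ∀ v ∈ N, XZ z r i v ∈ N)
    (ht : tz r ∈ N) (n : ℕ) : ∀ (m : ℤ) (a : Fin 2 →₀ ℕ), dep m a = n → m.natAbs < r →
      a 0 + a 1 = r - 1 - m.natAbs → bz m a ∈ N := by
  classical
  have hg1 : cg z r 1 = 0 := by
    apply cg_of_not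
    rintro ⟨_, h⟩
    have := Int.eq_one_of_dvd_one (by positivity) h
    omega
  induction n with
  | zero =>
    intro m a h0 hm ha
    rw [dep] at h0
    have hm0 : m = 0 := by omega
    subst hm0
    have : a = Finsupp.single 0 (r - 1) := by
      ext i
      simp only [Int.natAbs_zero] at ha
      rcases fin2 i with rfl | rfl
      · simp; omega
      · simp; omega
    rw [this]; exact ht
  | succ n ih =>
    -- positive and negative weights together
    have hpos : ∀ (m : ℤ) (a : Fin 2 →₀ ℕ), 0 < m → dep m a = n + 1 → m.natAbs < r →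
        a 0 + a 1 = r - 1 - m.natAbs → bz m a ∈ N ∧ bz (-m) a ∈ N := by
      intro m a hm h0 hmr ha
      set γ := cg z r m with hγ
      rw [dep] at h0
      have h1 := ih (m - 1) (a + Finsupp.single 0 1) (by simp [dep]; omega) (by omega)
        (by simp; omega)
      have h2 := ih (-(m - 1)) (a + Finsupp.single 0 1) (by simp only [dep, Int.natAbs_neg]; simp; omega)
        (by omega) (by simp; omega)
      have hdd : dd 1 (monomial (a + Finsupp.single 0 1) (1 : ℂ)) =
          (-((a 0 : ℂ) + 1)) • monomial a 1 := by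
        simp only [dd, Fin.isValue, one_ne_zero, if_false, Derivation.neg_apply, pderiv_monomial]
        rw [add_tsub_cancel_right, neg_smul, smul_monomial]
        simp
      have h3 := hX (0, 1) _ h1
      have h4 := hX (1, 1) _ h2
      rw [XZ_zero, bz, XP_single (by omega), sub_add_cancel, hdd, ← hγ] at h3
      rw [XZ_one, bz, XM_single (by omega), sub_add_cancel, hdd, ← hγ] at h4
      have hc0 : (-((a 0 : ℂ) + 1)) ≠ 0 := by
        rw [neg_ne_zero]
        exact Nat.cast_add_one_ne_zero _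
      have e3 : (Pi.single m ((-((a 0 : ℂ) + 1)) • monomial a 1) -
          Pi.single (-m) (C γ * ((-((a 0 : ℂ) + 1)) • monomial a 1)) : Mz) =
          (-((a 0 : ℂ) + 1)) • (bz m a - γ • bz (-m) a) := by
        funext k
        rw [Pi.sub_apply, Pi.smul_apply, Pi.sub_apply, Pi.smul_apply, bz, bz]
        rw [← MvPolynomial.smul_eq_C_mul]
        simp only [Pi.single_apply]
        split_ifs <;> module
      have e4 : (Pi.single (-m) ((-((a 0 : ℂ) + 1)) • monomial a 1) -
          Pi.single m (C γ * ((-((a 0 : ℂ) + 1)) • monomial a 1)) : Mz) =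
          (-((a 0 : ℂ) + 1)) • (bz (-m) a - γ • bz m a) := by
        funext k
        rw [Pi.sub_apply, Pi.smul_apply, Pi.sub_apply, Pi.smul_apply, bz, bz]
        rw [← MvPolynomial.smul_eq_C_mul]
        simp only [Pi.single_apply]
        split_ifs <;> module
      rw [e3] at h3
      rw [e4] at h4
      have h5 := N.smul_mem (-((a 0 : ℂ) + 1))⁻¹ h3
      have h6 := N.smul_mem (-((a 0 : ℂ) + 1))⁻¹ h4
      rw [smul_smul, inv_mul_cancel₀ hc0, one_smul] at h5 h6
      have hγ2 : 1 - γ * γ ≠ 0 := by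
        intro h
        rw [hγ] at h
        by_cases hc : (0 : ℤ) < m ∧ (z : ℤ) ∣ m
        · have hmr' : m ≠ r := by omega
          have hg := cg_mul (r := r) hmr' hc
          set g := cg z r m
          have h7 : ((r : ℂ) - m) * ((r : ℂ) - m) = (r : ℂ) * r := by
            have : g * g = 1 := by linear_combination -h
            calc ((r : ℂ) - m) * ((r : ℂ) - m) = (g * g) * (((r : ℂ) - m) * ((r : ℂ) - m)) := by
                  rw [this, one_mul]
              _ = (g * ((r : ℂ) - m)) * (g * ((r : ℂ) - m)) := by ring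
              _ = (r : ℂ) * r := by rw [hg]
          have h8 : (m : ℂ) * ((m : ℂ) - 2 * r) = 0 := by linear_combination h7
          rcases mul_eq_zero.mp h8 with h9 | h9
          · have : m = 0 := by exact_mod_cast h9
            omega
          · have h10 : (m : ℂ) = ((2 * r : ℤ) : ℂ) := by push_cast; linear_combination h9
            have : m = 2 * r := by exact_mod_cast h10
            omega
        · rw [cg_of_not hc] at h; simp at h
      constructor
      · have h7 := N.smul_mem (1 - γ * γ)⁻¹ (N.add_mem h5 (N.smul_mem γ h6))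
        have e5 : (1 - γ * γ)⁻¹ • (bz m a - γ • bz (-m) a + γ • (bz (-m) a - γ • bz m a)) = bz m a := by
          have : bz m a - γ • bz (-m) a + γ • (bz (-m) a - γ • bz m a) = (1 - γ * γ) • bz m a := by
            module
          rw [this, smul_smul, inv_mul_cancel₀ hγ2, one_smul]
        rwa [e5] at h7
      · have h7 := N.smul_mem (1 - γ * γ)⁻¹ (N.add_mem h6 (N.smul_mem γ h5))
        have e5 : (1 - γ * γ)⁻¹ • (bz (-m) a - γ • bz m a + γ • (bz m a - γ • bz (-m) a)) =
            bz (-m) a := by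
          have : bz (-m) a - γ • bz m a + γ • (bz m a - γ • bz (-m) a) = (1 - γ * γ) • bz (-m) a := by
            module
          rw [this, smul_smul, inv_mul_cancel₀ hγ2, one_smul]
        rwa [e5] at h7
    intro m a h0 hmr ha
    rcases lt_trichotomy m 0 with hm | hm | hm
    · have := (hpos (-m) a (by omega) (by rw [dep, Int.natAbs_neg]; exact h0)
        (by rwa [Int.natAbs_neg]) (by rwa [Int.natAbs_neg])).2
      rwa [neg_neg] at this
    · subst hm
      rw [dep] at h0
      simp only [Int.natAbs_zero] at h0 ha hmr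
      have ha1 : a 1 ≠ 0 := by omega
      obtain ⟨a', rfl⟩ : ∃ a', a = a' + Finsupp.single 1 1 :=
        ⟨a - Finsupp.single 1 1, (Finsupp.sub_add_single_one_cancel ha1).symm⟩
      simp only [Finsupp.add_apply, Finsupp.single_eq_same] at h0 ha
      have e0 : (Finsupp.single (1 : Fin 2) 1 : Fin 2 →₀ ℕ) 0 = 0 := by simp
      rw [e0] at ha
      have h1 := ih 1 a' (by simp [dep]; omega) (by simp; omega) (by simp; omega)
      have h3 := hX (1, 1) _ h1
      rw [XZ_one] at h3
      have e1 : XM z r 1 (bz 1 a') = bz 0 (a' + Finsupp.single 1 1) := by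
        funext k
        by_cases hk : k ≤ -1
        · rw [XM_neg _ _ hk, bz, bz, Pi.single_eq_of_ne (by omega : k + 1 ≠ 1),
            Pi.single_eq_of_ne (by omega : k ≠ 0), map_zero, zero_add]
          by_cases hk2 : k = -2
          · subst hk2
            have e2 : -(-2 : ℤ) - 1 = 1 := by norm_num
            rw [e2, hg1]; simp
          · rw [Pi.single_eq_of_ne (by omega : -k - 1 ≠ 1), map_zero, mul_zero]
        · rw [XM_pos _ _ hk, bz, bz]
          by_cases hk0 : k = 0
          · subst hk0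
            rw [cg_zero, zero_add, Pi.single_eq_same, Pi.single_eq_same, X, monomial_mul, one_mul,
              add_comm]
            simp
          · rw [Pi.single_eq_of_ne (by omega : k + 1 ≠ 1), Pi.single_eq_of_ne hk0,
              Pi.single_eq_of_ne (by omega : 1 - k ≠ 1)]
            simp
      rwa [e1] at h3
    · exact (hpos m a hm h0 hmr ha).1

/-- irreducibility -/
theorem LZ_le (hz : 2 ≤ z) (hr : 0 < r) {N : Submodule ℂ Mz} (hN : N ≤ LZ r)
    (hX : ∀ i, ∀ v ∈ N, XZ z r i v ∈ N) {u : Mz} (hu : u ∈ N) (hu0 : u ≠ 0) : LZ r ≤ N := by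
  classical
  have hdeg : ∀ {F : Mz}, F ∈ LZ r → ∀ m a, coeff a (F m) ≠ 0 →
      m.natAbs < r ∧ a 0 + a 1 = r - 1 - m.natAbs := by
    intro F hF m a hc
    have hm : m.natAbs < r := by
      by_contra h
      rw [hF.2 m (by omega)] at hc
      simp at hc
    refine ⟨hm, ?_⟩
    have h1 := hF.1 m hm hc
    rw [Finsupp.weight_apply, Finsupp.sum_fintype _ _ (by simp)] at h1
    simpa [Fin.sum_univ_two] using h1
  have ht : tz r ∈ N := by
    refine tz_mem hz hr hN hX (3 * r) u hu hu0 ?_
    intro m a hc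
    have := hdeg (hN hu) m a hc
    rw [dep]; omega
  intro F hF
  have hsum : F = ∑ m ∈ Finset.Ioo (-(r : ℤ)) r, Pi.single m (F m) := by
    funext k
    rw [Finset.sum_apply]
    by_cases hk : k ∈ Finset.Ioo (-(r : ℤ)) r
    · rw [Finset.sum_eq_single k]
      · rw [Pi.single_eq_same]
      · intro b _ hb
        rw [Pi.single_eq_of_ne hb.symm]
      · intro h; exact absurd hk h
    · rw [Finset.mem_Ioo] at hk
      rw [hF.2 k (by omega)]
      symm
      refine Finset.sum_eq_zero (fun b hb => ?_)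
      rw [Finset.mem_Ioo] at hb
      rw [Pi.single_eq_of_ne]
      intro h; subst h; omega
  rw [hsum]
  refine N.sum_mem (fun m _ => ?_)
  have h1 : (Pi.single m (F m) : Mz) = LinearMap.single ℂ (fun _ : ℤ => Bf) m (F m) := rfl
  rw [h1, (F m).as_sum, map_sum]
  refine N.sum_mem (fun a ha => ?_)
  have h2 : (monomial a (coeff a (F m)) : Bf) = (coeff a (F m)) • monomial a 1 := by
    rw [smul_monomial, smul_eq_mul, mul_one]
  rw [h2, map_smul]
  refine N.smul_mem _ ?_
  obtain ⟨h3, h4⟩ := hdeg hF m a (mem_support_iff.mp ha)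
  exact bz_mem hz hX ht _ m a rfl h3 h4

end Ten

end Run7.h580
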