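import Pool.Agent.Run7.h580.T3

/-!
Dimension of the module of tensor type.
-/

namespace Run7.h580.Ten

open MvPolynomial Run7.h580

variable {z r : ℕ}

/-- monomials of degree `n` -/
def hs (n : ℕ) : Set (Fin 2 →₀ ℕ) := {a | a 0 + a 1 = n}

lemma mem_hs {n : ℕ} {a : Fin 2 →₀ ℕ} : a ∈ hs n ↔ a 0 + a 1 = n := Iff.rfl

lemma mem_hs_iff {n : ℕ} {p : Bf} : p ∈ restrictSupport ℂ (hs n) ↔ p.IsHomogeneous n := by
  rw [mem_restrictSupport_iff]
  constructor
  · intro h a ha
    have := h (Finset.mem_coe.mpr (mem_support_iff.mpr ha))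
    rw [mem_hs] at this
    rw [Finsupp.weight_apply, Finsupp.sum_fintype _ _ (by simp)]
    simpa [Fin.sum_univ_two] using this
  · intro h a ha
    have := h (mem_support_iff.mp (Finset.mem_coe.mp ha))
    rw [Finsupp.weight_apply, Finsupp.sum_fintype _ _ (by simp)] at this
    rw [mem_hs]
    simpa [Fin.sum_univ_two] using this

/-- index type of weights -/
abbrev Wt (r : ℕ) := {m : ℤ // m.natAbs < r}

noncomputable instance (r : ℕ) : Fintype (Wt r) :=
  Fintype.ofFinset (Finset.Ioo (-(r : ℤ)) r) (fun m => by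
    rw [Finset.mem_Ioo]
    show _ ↔ m.natAbs < r
    omega)

/-- `LZ` as a product -/
noncomputable def LZequiv (r : ℕ) :
    LZ r ≃ₗ[ℂ] (∀ m : Wt r, restrictSupport ℂ (hs (r - 1 - m.1.natAbs))) where
  toFun F := fun m => ⟨F.1 m.1, mem_hs_iff.mpr (F.2.1 m.1 m.2)⟩
  invFun G := ⟨fun m => if h : m.natAbs < r then (G ⟨m, h⟩).1 else 0, by
    refine ⟨fun m hm => ?_, fun m hm => ?_⟩
    · simp only [dif_pos hm]
      exact mem_hs_iff.mp (G ⟨m, hm⟩).2
    · simp only [dif_neg (show ¬ m.natAbs < r by omega)]⟩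
  map_add' _ _ := rfl
  map_smul' _ _ := rfl
  left_inv F := by
    apply Subtype.ext
    funext m
    by_cases h : m.natAbs < r
    · simp [h]
    · simp only [dif_neg h]
      exact (F.2.2 m (by omega)).symm
  right_inv G := by
    funext m
    apply Subtype.ext
    simp only [dif_pos m.2]

lemma card_hs (n : ℕ) : Nat.card (hs n) = n + 1 := by
  have e : hs n ≃ Fin (n + 1) :=
    { toFun := fun a => ⟨a.1 1, by have := mem_hs.mp a.2; omega⟩
      invFun := fun k => ⟨Finsupp.equivFunOnFinite.symm (fun i : Fin 2 => if i = 0 then n - k else k), by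
        rw [mem_hs]
        have := k.2
        simp; omega⟩
      left_inv := by
        rintro ⟨a, ha⟩
        apply Subtype.ext
        rw [mem_hs] at ha
        ext i
        rcases fin2 i with rfl | rfl
        · simp; omega
        · simp
      right_inv := by
        rintro ⟨k, hk⟩
        simp }
  rw [Nat.card_congr e]
  simp

lemma sum_wt (r : ℕ) : ∑ m : Wt r, (r - 1 - m.1.natAbs + 1) = r ^ 2 := by
  have h1 : ∑ m : Wt r, (r - 1 - m.1.natAbs + 1) = ∑ m ∈ Finset.Ioo (-(r : ℤ)) r, (r - m.natAbs) := by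
    rw [← Finset.sum_coe_sort (Finset.Ioo (-(r : ℤ)) r) (fun m => r - m.natAbs)]
    refine Fintype.sum_equiv (Equiv.subtypeEquivRight (fun m => by rw [Finset.mem_Ioo]; omega)) _ _ ?_
    intro m
    have := m.2
    simp only [Equiv.subtypeEquivRight_apply_coe]
    omega
  rw [h1]
  have key : ∀ n : ℕ, n ≤ r → ∑ m ∈ Finset.Ioo (-(n : ℤ)) n, (r - m.natAbs) = 
      (if n = 0 then 0 else (2 * n - 1) * r - n * (n - 1)) := by
    intro n
    induction n with
    | zero => intro _; simp
    | succ n ih =>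
      intro hn
      rw [if_neg (Nat.succ_ne_zero n)]
      rcases Nat.eq_zero_or_pos n with rfl | hn0
      · have : Finset.Ioo (-((0 + 1 : ℕ) : ℤ)) ((0 + 1 : ℕ) : ℤ) = {0} := by
          ext m; simp; omega
        rw [this]; simp
      · have hset : Finset.Ioo (-((n + 1 : ℕ) : ℤ)) ((n + 1 : ℕ) : ℤ) =
            insert (n : ℤ) (insert (-(n : ℤ)) (Finset.Ioo (-(n : ℤ)) n)) := by
          ext m; simp only [Finset.mem_insert, Finset.mem_Ioo]; push_cast; omega
        rw [hset, Finset.sum_insert (by simp; omega), Finset.sum_insert (by simp), ih (by omega),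
          if_neg (by omega)]
        simp only [Int.natAbs_natCast, Int.natAbs_neg]
        obtain ⟨k, rfl⟩ : ∃ k, n = k + 1 := ⟨n - 1, by omega⟩
        obtain ⟨s, rfl⟩ : ∃ s, r = k + 2 + s := ⟨r - (k + 2), by omega⟩
        have e1 : 2 * (k + 1) - 1 = 2 * k + 1 := by omega
        have e2 : 2 * (k + 1 + 1) - 1 = 2 * k + 3 := by omega
        have e3 : k + 2 + s - (k + 1) = s + 1 := by omega
        have e4 : k + 1 - 1 = k := by omega
        have e5 : k + 1 + 1 - 1 = k + 1 := by omega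
        rw [e1, e2, e3, e4, e5]
        have h2 : (k + 1) * k ≤ (2 * k + 1) * (k + 2 + s) := by nlinarith
        have h3 : (k + 1 + 1) * (k + 1) ≤ (2 * k + 3) * (k + 2 + s) := by nlinarith
        zify [h2, h3]
        ring
  rw [key r le_rfl]
  rcases Nat.eq_zero_or_pos r with rfl | hr
  · simp
  · rw [if_neg (by omega)]
    obtain ⟨s, rfl⟩ : ∃ s, r = s + 1 := ⟨r - 1, by omega⟩
    have e1 : 2 * (s + 1) - 1 = 2 * s + 1 := by omega
    rw [e1, Nat.add_sub_cancel]
    have h2 : (s + 1) * s ≤ (2 * s + 1) * (s + 1) := by nlinarith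
    zify [h2]
    ring

lemma finrank_hs (n : ℕ) : Module.finrank ℂ (restrictSupport ℂ (hs n)) = n + 1 := by
  rw [Module.finrank_eq_nat_card_basis (basisRestrictSupport ℂ (hs n)), card_hs]

instance finite_hs (n : ℕ) : FiniteDimensional ℂ (restrictSupport ℂ (hs n)) :=
  FiniteDimensional.of_finrank_pos (by rw [finrank_hs]; positivity)

lemma finrank_LZ (r : ℕ) : Module.finrank ℂ (LZ r) = r ^ 2 := by
  rw [(LZequiv r).finrank_eq, Module.finrank_pi_fintype]
  simp only [finrank_hs]
  exact sum_wt r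

instance finite_LZ (r : ℕ) : FiniteDimensional ℂ (LZ r) :=
  Module.Finite.equiv (LZequiv r).symm

/-- the filtration exhausts `LZ` after finitely many steps -/
lemma exists_Flt_eq_LZ (hz : 2 ≤ z) (hr : 0 < r) {u : Mz} (hu : u ∈ LZ r) (hu0 : u ≠ 0) :
    ∃ D, Flt (XZ z r) u D = LZ r := by
  have hle : LZ r ≤ ⨆ n, Flt (XZ z r) u n := by
    refine LZ_le hz hr (iSup_le (fun n => Flt_le_LZ hu n)) ?_
      (Submodule.mem_iSup_of_mem 1 (u_mem (XZ z r) u 0)) hu0
    intro i v hv
    rw [Submodule.mem_iSup_of_directed _ (Flt_mono (XZ z r) u).directed_le] at hv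
    obtain ⟨n, hn⟩ := hv
    exact Submodule.mem_iSup_of_mem (n + 1) (X_mem (XZ z r) u hn i)
  have hfg : (LZ r).FG := (Submodule.fg_top _).mp (Module.Finite.fg_top)
  have hc := (Submodule.fg_iff_compact _).mp hfg
  obtain ⟨n, hn⟩ := (CompleteLattice.isCompactElement_iff_le_of_directed_sSup_le ..).mp hc
    (Set.range (Flt (XZ z r) u)) (Set.range_nonempty _)
    (directedOn_range.mpr (Flt_mono (XZ z r) u).directed_le) hle
  obtain ⟨⟨D, rfl⟩, hD⟩ := hn
  exact ⟨D, le_antisymm (Flt_le_LZ hu D) hD⟩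

end Run7.h580.Ten
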