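import Pool.Agent.Run7.h580.T3

/-!
The group acting on the module of tensor type.
-/

namespace Run7.h580.Ten

open MvPolynomial Run7.h580 Quaternion

/-- triples (unit quaternion, rotation, reflection flag) -/
structure Tr where
  q : ℍ[ℝ]ˣ
  l : ℂˣ
  e : Bool

lemma tr_ext {a b : Tr} (h1 : a.q = b.q) (h2 : a.l = b.l) (h3 : a.e = b.e) : a = b := by
  cases a; cases b; simp only at h1 h2 h3; subst h1 h2 h3; rfl

noncomputable instance : Mul Tr :=
  ⟨fun a b => ⟨a.q * b.q, a.l * (if a.e = true then b.l⁻¹ else b.l), xor a.e b.e⟩⟩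
noncomputable instance : One Tr := ⟨⟨1, 1, false⟩⟩
noncomputable instance : _root_.Inv Tr := ⟨fun a => ⟨a.q⁻¹, if a.e = true then a.l else a.l⁻¹, a.e⟩⟩

@[simp] lemma Tr.mul_q (a b : Tr) : (a * b).q = a.q * b.q := rfl
@[simp] lemma Tr.mul_l (a b : Tr) : (a * b).l = a.l * (if a.e = true then b.l⁻¹ else b.l) := rfl
@[simp] lemma Tr.mul_e (a b : Tr) : (a * b).e = xor a.e b.e := rfl
@[simp] lemma Tr.one_q : (1 : Tr).q = 1 := rfl
@[simp] lemma Tr.one_l : (1 : Tr).l = 1 := rfl
@[simp] lemma Tr.one_e : (1 : Tr).e = false := rfl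
@[simp] lemma Tr.inv_q (a : Tr) : (a⁻¹).q = a.q⁻¹ := rfl
@[simp] lemma Tr.inv_l (a : Tr) : (a⁻¹).l = if a.e = true then a.l else a.l⁻¹ := rfl
@[simp] lemma Tr.inv_e (a : Tr) : (a⁻¹).e = a.e := rfl

noncomputable instance : Group Tr := Group.ofLeftAxioms
  (by
    intro a b c
    refine tr_ext ?_ ?_ ?_
    · simp only [Tr.mul_q]; rw [mul_assoc]
    · rcases ha : a.e with _ | _ <;> rcases hb : b.e with _ | _ <;>
        simp [ha, hb, mul_assoc, mul_comm, mul_left_comm]
    · simp only [Tr.mul_e]; rw [Bool.xor_assoc])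
  (by
    intro a
    refine tr_ext ?_ ?_ ?_ <;> simp)
  (by
    intro a
    refine tr_ext ?_ ?_ ?_
    · simp
    · rcases ha : a.e with _ | _ <;> simp [ha]
    · simp)

/-- action of quaternions -/
noncomputable def qa (q : ℍ[ℝ]) : Mz →ₗ[ℂ] Mz where
  toFun F := fun m => subst (qmat q) (F m)
  map_add' F G := by funext m; simp
  map_smul' c F := by funext m; simp

/-- action of rotations -/
noncomputable def la (l : ℂˣ) : Mz →ₗ[ℂ] Mz where
  toFun F := fun m => ((l ^ m : ℂˣ) : ℂ) • F m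
  map_add' F G := by funext m; simp
  map_smul' c F := by
    funext m
    simp only [Pi.smul_apply, RingHom.id_apply]
    rw [smul_comm]

/-- action of triples -/
noncomputable def ta (t : Tr) : Mz →ₗ[ℂ] Mz :=
  if t.e = true then ss ∘ₗ la t.l ∘ₗ qa t.q else la t.l ∘ₗ qa t.q

lemma qa_apply (q : ℍ[ℝ]) (F : Mz) (m : ℤ) : qa q F m = subst (qmat q) (F m) := rfl
lemma la_apply (l : ℂˣ) (F : Mz) (m : ℤ) : la l F m = ((l ^ m : ℂˣ) : ℂ) • F m := rfl

lemma ta_false {t : Tr} (h : t.e = false) (F : Mz) (m : ℤ) :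
    ta t F m = ((t.l ^ m : ℂˣ) : ℂ) • subst (qmat t.q) (F m) := by
  rw [ta, if_neg (by simp [h])]; rfl

lemma ta_true {t : Tr} (h : t.e = true) (F : Mz) (m : ℤ) :
    ta t F m = ((t.l ^ (-m) : ℂˣ) : ℂ) • subst (qmat t.q) (F (-m)) := by
  rw [ta, if_pos h]; rfl

lemma subst_qmat_mul (a b : ℍ[ℝ]) (p : Bf) :
    subst (qmat b) (subst (qmat a) p) = subst (qmat (a * b)) p := by
  apply poly_ext
  intro v
  rw [ev_subst, ev_subst, ev_subst, mul_assoc]

lemma subst_qmat_one (p : Bf) : subst (qmat 1) p = p := by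
  apply poly_ext
  intro v
  rw [ev_subst, one_mul]

/-- composition law -/
lemma ta_ta (t t' : Tr) (F : Mz) : ta t' (ta t F) = ta (t * t') F := by
  funext m
  rcases he : t.e with _ | _ <;> rcases he' : t'.e with _ | _
  · rw [ta_false he', ta_false he, ta_false (by simp [he, he'])]
    simp only [Tr.mul_q, Tr.mul_l, he, Units.val_mul]
    rw [map_smul, subst_qmat_mul, smul_smul]
    congr 1
    simp [mul_zpow, mul_comm]
  · rw [ta_true he', ta_false he, ta_true (by simp [he, he'])]
    simp only [Tr.mul_q, Tr.mul_l, he, Units.val_mul]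
    rw [map_smul, subst_qmat_mul, smul_smul]
    congr 1
    simp [mul_zpow, mul_comm]
  · rw [ta_false he', ta_true he, ta_true (by simp [he, he'])]
    simp only [Tr.mul_q, Tr.mul_l, he, Units.val_mul]
    rw [map_smul, subst_qmat_mul, smul_smul]
    congr 1
    simp [mul_zpow, mul_comm]
  · rw [ta_true he', ta_true he, ta_false (by simp [he, he'])]
    simp only [Tr.mul_q, Tr.mul_l, he, Units.val_mul, neg_neg]
    rw [map_smul, subst_qmat_mul, smul_smul]
    congr 1
    simp [mul_zpow, mul_comm]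

section equiv

variable {z r : ℕ}

lemma blk_q {q : ℍ[ℝ]} (hq : normSq q = 1) (e : Fin 2) (p : Bf) :
    ∑ d, qmat q e d • dd d (subst (qmat q) p) = subst (qmat q) (dd e p) := by
  have hdet := det_qmat q
  rw [hq] at hdet
  simp only [Complex.ofReal_one] at hdet
  induction p using MvPolynomial.induction_on with
  | C c =>
    have h1 : subst (qmat q) (C c) = C c := by simp [subst]
    rw [h1, derivation_C, map_zero]
    refine Finset.sum_eq_zero (fun d _ => ?_)
    rw [derivation_C, smul_zero]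
  | add p p' hp hp' =>
    simp only [map_add, smul_add, Finset.sum_add_distrib]
    rw [hp, hp']
  | mul_X p n hp =>
    rw [map_mul, Derivation.leibniz, dd_X, map_add, smul_eq_mul, smul_eq_mul, map_mul, map_mul]
    have h1 : subst (qmat q) (C (jf e n)) = C (jf e n) := by simp [subst]
    have hX : ∑ d, qmat q e d • dd d (subst (qmat q) (X n)) = C (jf e n) := by
      have h2 : ∀ d, qmat q e d • dd d (subst (qmat q) (X n)) =
          C (qmat q e d * (qmat q n 0 * jf d 0 + qmat q n 1 * jf d 1)) := by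
        intro d
        rw [Run7.h580.subst_X, Fin.sum_univ_two, map_add, Derivation.leibniz, Derivation.leibniz, dd_X,
          dd_X, derivation_C, derivation_C, smul_zero, smul_zero, add_zero, add_zero, smul_eq_mul,
          smul_eq_mul, MvPolynomial.smul_eq_C_mul, C_mul, C_add, C_mul, C_mul]
      rw [Fin.sum_univ_two, h2, h2, ← C_add]
      congr 1
      have j00 : jf 0 0 = 0 := by simp [jf]
      have j01 : jf 0 1 = 1 := by simp [jf]
      have j10 : jf 1 0 = -1 := by simp [jf]
      have j11 : jf 1 1 = 0 := by simp [jf]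
      rw [j00, j01, j10, j11]
      rcases fin2 e with rfl | rfl <;> rcases fin2 n with rfl | rfl
      · rw [j00]; ring
      · rw [j01]; linear_combination hdet
      · rw [j10]; linear_combination -hdet
      · rw [j11]; ring
    rw [h1, ← hX, ← hp, Finset.mul_sum, Finset.mul_sum, ← Finset.sum_add_distrib]
    refine Finset.sum_congr rfl (fun d _ => ?_)
    rw [Derivation.leibniz, smul_eq_mul, smul_eq_mul, smul_add, mul_smul_comm, mul_smul_comm]

lemma subst_q_X_mul (q : ℍ[ℝ]) (e : Fin 2) (p : Bf) :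
    subst (qmat q) (X e * p) = ∑ d, qmat q e d • (X d * subst (qmat q) p) := by
  rw [map_mul, Run7.h580.subst_X, Finset.sum_mul]
  refine Finset.sum_congr rfl (fun d _ => ?_)
  rw [MvPolynomial.smul_eq_C_mul]; ring

lemma subst_C_mul (a : Fin 2 → Fin 2 → ℂ) (c : ℂ) (p : Bf) :
    subst a (C c * p) = C c * subst a p := by
  rw [map_mul]
  congr 1
  simp [subst]

lemma qa_XP {q : ℍ[ℝ]} (hq : normSq q = 1) (e : Fin 2) (F : Mz) :
    qa q (XP z r e F) = ∑ d, qmat q e d • XP z r d (qa q F) := by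
  funext m
  rw [qa_apply, Finset.sum_apply]
  by_cases hm : 1 ≤ m
  · rw [XP_pos _ _ hm, map_add, subst_C_mul, ← blk_q hq, ← blk_q hq, Finset.mul_sum,
      ← Finset.sum_add_distrib]
    refine Finset.sum_congr rfl (fun d _ => ?_)
    rw [Pi.smul_apply, XP_pos _ _ hm, qa_apply, qa_apply, smul_add, mul_smul_comm]
  · rw [XP_neg _ _ hm, map_sub, subst_C_mul, ← blk_q hq, subst_q_X_mul, Finset.mul_sum,
      ← Finset.sum_sub_distrib]
    refine Finset.sum_congr rfl (fun d _ => ?_)
    rw [Pi.smul_apply, XP_neg _ _ hm, qa_apply, qa_apply, smul_sub, mul_smul_comm]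

lemma qa_ss (q : ℍ[ℝ]) (F : Mz) : qa q (ss F) = ss (qa q F) := rfl

lemma qa_XM {q : ℍ[ℝ]} (hq : normSq q = 1) (e : Fin 2) (F : Mz) :
    qa q (XM z r e F) = ∑ d, qmat q e d • XM z r d (qa q F) := by
  have h1 : ∀ (e : Fin 2) (G : Mz), XM z r e G = ss (XP z r e (ss G)) := by
    intro e G; rw [ss_XP, ss_ss]
  rw [h1, qa_ss, qa_XP hq, map_sum]
  refine Finset.sum_congr rfl (fun d _ => ?_)
  rw [map_smul, h1, qa_ss]

lemma la_ss (l : ℂˣ) (F : Mz) : la l (ss F) = ss (la l⁻¹ F) := by
  funext m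
  rw [la_apply, ss_apply, ss_apply, la_apply]
  congr 2
  rw [inv_zpow, zpow_neg, inv_inv]

/-- rotations are compatible with the coupling constants -/
def Cmp (z r : ℕ) (l : ℂˣ) : Prop := ∀ n : ℤ, cg z r n ≠ 0 → l ^ (2 * n) = 1

lemma Cmp.inv {l : ℂˣ} (h : Cmp z r l) : Cmp z r l⁻¹ := by
  intro n hn
  rw [inv_zpow, h n hn, inv_one]

lemma la_XP {l : ℂˣ} (hl : Cmp z r l) (e : Fin 2) (F : Mz) :
    la l (XP z r e F) = (l : ℂ) • XP z r e (la l F) := by
  funext m
  rw [la_apply, Pi.smul_apply]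
  by_cases hm : 1 ≤ m
  · rw [XP_pos _ _ hm, XP_pos _ _ hm, la_apply, la_apply, Derivation.map_smul, Derivation.map_smul,
      smul_add, smul_add, smul_smul]
    congr 1
    · congr 1
      rw [← Units.val_mul, ← zpow_one_add]
      congr 2; ring
    · by_cases hc : cg z r (m - 1) = 0
      · rw [hc]; simp
      · rw [mul_smul_comm, smul_smul]
        congr 1
        have h1 := hl _ hc
        rw [← Units.val_mul, ← zpow_one_add]
        congr 1
        have h2 : m = 2 * (m - 1) + (1 + (1 - m)) := by ring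
        conv_lhs => rw [h2, zpow_add, h1, one_mul]
  · rw [XP_neg _ _ hm, XP_neg _ _ hm, la_apply, la_apply, Derivation.map_smul,
      smul_sub, smul_sub, mul_smul_comm, smul_smul]
    congr 1
    · congr 1
      rw [← Units.val_mul, ← zpow_one_add]
      congr 2; ring
    · by_cases hc : cg z r (-m) = 0
      · rw [hc]; simp
      · rw [mul_smul_comm, smul_smul]
        congr 1
        have h1 := hl _ hc
        rw [← Units.val_mul, ← zpow_one_add]
        congr 1
        have h2 : 1 + (-m - 1) = 2 * (-m) + m := by ring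
        rw [h2, zpow_add, h1, one_mul]

lemma la_XM {l : ℂˣ} (hl : Cmp z r l) (e : Fin 2) (F : Mz) :
    la l (XM z r e F) = ((l⁻¹ : ℂˣ) : ℂ) • XM z r e (la l F) := by
  have h1 : ∀ (e : Fin 2) (G : Mz), XM z r e G = ss (XP z r e (ss G)) := by
    intro e G; rw [ss_XP, ss_ss]
  rw [h1, la_ss, la_XP hl.inv, map_smul, h1]
  congr 3
  have h2 : ss (la l F) = la l⁻¹ (ss F) := by
    rw [la_ss, inv_inv]
  rw [h2]

/-- matrix of a triple on the deformed variables -/
noncomputable def am (t : Tr) (i j : Ix) : ℂ :=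
  (if i.1 = 0 then (t.l : ℂ) else ((t.l⁻¹ : ℂˣ) : ℂ)) *
    ((if (i.1 = j.1) = (t.e = false) then 1 else 0) * qmat t.q i.2 j.2)

lemma am_00 (t : Tr) (e d : Fin 2) (h : t.e = false) : am t (0, e) (0, d) = t.l * qmat t.q e d := by
  simp [am, h]
lemma am_01 (t : Tr) (e d : Fin 2) (h : t.e = false) : am t (0, e) (1, d) = 0 := by
  simp [am, h]
lemma am_10 (t : Tr) (e d : Fin 2) (h : t.e = false) : am t (1, e) (0, d) = 0 := by
  simp [am, h]
lemma am_11 (t : Tr) (e d : Fin 2) (h : t.e = false) :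
    am t (1, e) (1, d) = ((t.l⁻¹ : ℂˣ) : ℂ) * qmat t.q e d := by
  simp [am, h]
lemma am_00' (t : Tr) (e d : Fin 2) (h : t.e = true) : am t (0, e) (0, d) = 0 := by
  simp [am, h]
lemma am_01' (t : Tr) (e d : Fin 2) (h : t.e = true) : am t (0, e) (1, d) = t.l * qmat t.q e d := by
  simp [am, h]
lemma am_10' (t : Tr) (e d : Fin 2) (h : t.e = true) :
    am t (1, e) (0, d) = ((t.l⁻¹ : ℂˣ) : ℂ) * qmat t.q e d := by
  simp [am, h]
lemma am_11' (t : Tr) (e d : Fin 2) (h : t.e = true) : am t (1, e) (1, d) = 0 := by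
  simp [am, h]

/-- equivariance -/
lemma ta_XZ {t : Tr} (hq : normSq (t.q : ℍ[ℝ]) = 1) (hl : Cmp z r t.l) (i : Ix) (F : Mz) :
    ta t (XZ z r i F) = ∑ j, am t i j • XZ z r j (ta t F) := by
  obtain ⟨k, e⟩ := i
  rw [Fintype.sum_prod_type, Fin.sum_univ_two]
  have hta : ∀ G : Mz, ta t G = if t.e = true then ss (la t.l (qa t.q G)) else la t.l (qa t.q G) := by
    intro G
    rw [ta]; split_ifs <;> rfl
  rcases he : t.e with _ | _ <;> rcases fin2 k with rfl | rfl
  · simp only [am_00 t e _ he, am_01 t e _ he, zero_smul, Finset.sum_const_zero, add_zero, XZ_zero]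
    rw [hta, hta, he]
    simp only [Bool.false_eq_true, if_false]
    rw [qa_XP hq, map_sum]
    refine Finset.sum_congr rfl (fun d _ => ?_)
    rw [map_smul, la_XP hl, smul_smul, mul_comm]
  · simp only [am_10 t e _ he, am_11 t e _ he, zero_smul, Finset.sum_const_zero, zero_add, XZ_one]
    rw [hta, hta, he]
    simp only [Bool.false_eq_true, if_false]
    rw [qa_XM hq, map_sum]
    refine Finset.sum_congr rfl (fun d _ => ?_)
    rw [map_smul, la_XM hl, smul_smul, mul_comm]
  · simp only [am_00' t e _ he, am_01' t e _ he, zero_smul, Finset.sum_const_zero, zero_add, XZ_zero,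
      XZ_one]
    rw [hta, hta, he]
    simp only [if_true]
    rw [qa_XP hq, map_sum, map_sum]
    refine Finset.sum_congr rfl (fun d _ => ?_)
    rw [map_smul, la_XP hl, map_smul, map_smul, ss_XP, smul_smul, mul_comm]
  · simp only [am_10' t e _ he, am_11' t e _ he, zero_smul, Finset.sum_const_zero, add_zero, XZ_zero,
      XZ_one]
    rw [hta, hta, he]
    simp only [if_true]
    rw [qa_XM hq, map_sum, map_sum]
    refine Finset.sum_congr rfl (fun d _ => ?_)
    rw [map_smul, la_XM hl, map_smul, map_smul, ss_XM, smul_smul, mul_comm]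

end equiv

end Run7.h580.Ten
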